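import Pool.Agent.Lob89.GgWord

/-!
# Both ends good: sums of ranks in terms of levels
-/

namespace Pool.Agent.Lob89.Gg

open Pool.Agent.Lob12 Pool.Agent.Lob5 Pool.Agent.Lob89

variable {m : ℕ} {ld al x : ℕ → Prop} {s : ℤ}

/-- The first passage from the level `y` to `y + 1` is the pair `j + 1`. -/
structure Ps (m : ℕ) (x : ℕ → Prop) (y : ℤ) (j : ℕ) : Prop where
  jm : j + 1 ≤ m
  Yj : Y x j = y
  Yj1 : Y x (j + 1) = y + 1
  le : ∀ i ≤ j, Y x i ≤ y

theorem Ps.gg {y : ℤ} {j : ℕ} (p : Ps m x y j) : ¬ x (2 * j + 1) ∧ ¬ x (2 * j + 2) :=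
  Y_up x j (by have := p.Yj; have := p.Yj1; omega)

theorem Ps.cnt {y : ℤ} {j : ℕ} (p : Ps m x y j) : nB x (j + 1) = nB x j ∧
    nG x (j + 1) = nG x j + 1 ∧ nP x (j + 1) = nP x j ∧ nR x (j + 1) = nR x j :=
  (pstep x j).2.1 p.gg.1 p.gg.2

theorem Ps.rng {y : ℤ} {j : ℕ} (W : GW m ld al x s) (p : Ps m x y j) : 1 ≤ j ∧ j + 2 ≤ m := by
  have h1 := p.gg.1
  have h2 := p.gg.2
  have h3 := p.jm
  constructor
  · by_contra h
    obtain rfl : j = 0 := by omega
    exact h1 W.x1
  · by_contra h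
    obtain rfl : m = j + 1 := by omega
    exact h2 W.xK

/-- the word of the colouring `xR` -/
theorem cwR (W : GW m ld al x s) {y : ℤ} {j : ℕ} (p : Ps m x y j) :
    CW (2 * m) (2 * j + 1) (m - 1) ld al (xR x (2 * j + 1)) := by
  have h2 := W.m2
  obtain ⟨r1, r2⟩ := p.rng W
  have g1 := p.gg.1
  have g2 := p.gg.2
  have hu : ¬ ld (2 * j + 1) := by
    rw [W.ld_iff (by omega) (by omega)]
    intro h
    exact g1 (h.2 g2)
  refine
    { hK := by omega
      u1 := by omega
      uK := by omega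
      uC := hu
      ub := (xR_le le_rfl).2 g1
      al_ld := W.ald
      same := ?_
      dif1 := ?_
      dif2 := ?_ }
  · intro i i1 i2 i3 i4
    have := W.same i i1 i2 i4
    rcases Nat.lt_or_ge i (2 * j + 1) with h | h
    · rw [xR_le (by omega), xR_le (by omega), this]
    · rw [xR_gt (by omega), xR_gt (by omega)]
      exact this
  · intro i i1 i2 i3 i4
    have h5 : i ≠ 2 * j + 1 := by
      rintro rfl
      exact hu i3
    have := W.dif i i1 i2 i3
    rcases Nat.lt_or_ge i (2 * j + 1) with h | h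
    · rw [xR_le (by omega)] at i4 ⊢
      tauto
    · rw [xR_gt (by omega)] at i4 ⊢
      tauto
  · intro i i1 i2 i3 i4
    have i3 := W.ald i i3
    have h5 : i ≠ 2 * j + 1 := by
      rintro rfl
      exact hu i3
    have := W.dif i i1 i2 i3
    rcases Nat.lt_or_ge i (2 * j + 1) with h | h
    · rw [xR_le (by omega)] at i4 ⊢
      tauto
    · rw [xR_gt (by omega)] at i4 ⊢
      tauto

section

variable {y : ℤ} {j : ℕ} (W : GW m ld al x s) (p : Ps m x y j)

omit W in
include p in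
theorem flR_u : fl (xR x (2 * j + 1)) (2 * j + 1) = -1 - y := by
  have h1 := xR_cnt1 x (le_refl (2 * j + 1))
  have h2 := odd_add x (2 * j + 1)
  have h3 := even_add x (2 * j + 1)
  have h4 := (fl_odd x j).2 p.gg.1
  have h5 := p.Yj
  unfold fl at *
  omega

theorem flR_lt {t : ℕ} (h : t < 2 * j + 1) :
    fl (xR x (2 * j + 1)) t = -(t % 2 : ℕ) - fl x t := by
  have h1 := xR_cnt1 x h.le
  have h2 := odd_add x t
  have h3 := even_add x t
  unfold fl at *
  omega

omit W in
include p in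
theorem flR_gt {t : ℕ} (h : 2 * j + 1 < t) :
    fl (xR x (2 * j + 1)) t = fl x t - 2 * y - 1 := by
  have h1 := xR_cnt2 x h.le
  have h2 := odd_add x (2 * j + 1)
  have h3 := even_add x (2 * j + 1)
  have h4 := (fl_odd x j).2 p.gg.1
  have h5 := p.Yj
  unfold fl at *
  omega

/-- the number of bad high edges -/
theorem gR_Q : ((cwR W p).owR.lr.Q : ℤ) = bo x (2 * m) + y := by
  have h0 := R1_Q (cwR W p)
  have r := p.rng W
  have h1 := xR_cnt1 x (le_refl (2 * j + 1))
  have h2 := xR_cnt2 x (u := 2 * j + 1) (t := 2 * m) (by omega)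
  have h4 := (fl_odd x j).2 p.gg.1
  have h5 := p.Yj
  unfold fl at *
  omega

/-- the number of bad low edges -/
theorem gR_P : ((cwR W p).owR.lr.P : ℤ) = bv x (2 * m) + y := by
  have h0 := R1_P (cwR W p)
  have r := p.rng W
  have h1 := xR_cnt1 x (le_refl (2 * j + 1))
  have h2 := xR_cnt2 x (u := 2 * j + 1) (t := 2 * m) (by omega)
  have h6 := odd_add x (2 * j + 1)
  have h7 := even_add x (2 * j + 1)
  have h4 := (fl_odd x j).2 p.gg.1
  have h5 := p.Yj
  unfold fl at *
  omega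

/-- the level of a vertex: an odd vertex between a bad and a good edge is one lower -/
theorem fl_v (v : ℕ) : (v % 2 = 1 → x v → fl x v = Y x (v / 2) - 1) ∧
    (v % 2 = 1 → ¬ x v → fl x v = Y x (v / 2)) ∧ (v % 2 = 0 → fl x v = Y x (v / 2)) := by
  rcases Nat.even_or_odd' v with ⟨i, rfl | rfl⟩
  · rw [show 2 * i / 2 = i by omega]
    exact ⟨fun h => by omega, fun h => by omega, fun _ => fl_Y x i⟩
  · rw [show (2 * i + 1) / 2 = i by omega]
    exact ⟨fun _ => (fl_odd x i).1, fun _ => (fl_odd x i).2, fun h => by omega⟩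

/-- the sum of ranks at a vertex of the right part -/
theorem gR_JR {v : ℕ} (h1 : 2 * j + 1 < v) (h2 : v < 2 * m) (h3 : ld v) :
    (x v → ((cwR W p).owR.lr.J v : ℤ) = (m - 1) - s + 2 + y + Y x (v / 2)) ∧
    (¬ x v → ((cwR W p).owR.lr.J v : ℤ) = (m - 1) - s + 1 + y + Y x (v / 2)) := by
  have hm := W.m2
  have hd := W.dif v (by omega) h2 h3
  obtain ⟨_, _, j3, j4⟩ := R1_JR (cwR W p) h1 h2
  rw [xR_gt h1, xR_gt (show 2 * j + 1 < v + 1 by omega), flR_gt p h1, flR_u p,
    flR_gt p (show 2 * j + 1 < 2 * m by omega), fl_Y, W.tot] at j3 j4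
  obtain ⟨f1, f2, f3⟩ := fl_v (x := x) v
  refine ⟨fun a => ?_, fun a => ?_⟩
  · have h5 := j4 a (hd.1 a)
    rcases Nat.mod_two_eq_zero_or_one v with o | o
    · have := f3 o
      omega
    · have := f1 o a
      omega
  · have b : x (v + 1) := by
      by_contra hh
      exact a (hd.2 hh)
    have h5 := j3 a b
    rcases Nat.mod_two_eq_zero_or_one v with o | o
    · have := f3 o
      omega
    · have := f2 o a
      omega

/-- the sum of ranks at a vertex of the left part -/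
theorem gR_JL {v : ℕ} (h0 : 1 ≤ v) (h1 : v < 2 * j) (h3 : ld v) :
    (v % 2 = 0 → x v → ((cwR W p).owR.lr.J v : ℤ) = (m - 1) + y - Y x (v / 2)) ∧
    (v % 2 = 1 → x v → ((cwR W p).owR.lr.J v : ℤ) = (m - 1) + y - Y x (v / 2) + 2) ∧
    (v % 2 = 1 → ¬ x v → ((cwR W p).owR.lr.J v : ℤ) = (m - 1) + y - Y x (v / 2) + 1) ∧
    (v % 2 = 0 → ¬ x v → ((cwR W p).owR.lr.J v : ℤ) = (m - 1) + y - Y x (v / 2) + 3) := by
  have hm := W.m2
  have r := p.rng W
  have hd := W.dif v (by omega) (by omega) h3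
  obtain ⟨_, _, j3, j4⟩ := R1_JL (cwR W p) h0 (show v + 1 < 2 * j + 1 by omega)
  rw [xR_le (show v ≤ 2 * j + 1 by omega), xR_le (show v + 1 ≤ 2 * j + 1 by omega),
    flR_lt (show v < 2 * j + 1 by omega), flR_u p] at j3 j4
  obtain ⟨f1, f2, f3⟩ := fl_v (x := x) v
  refine ⟨fun o a => ?_, fun o a => ?_, fun o a => ?_, fun o a => ?_⟩
  · have h5 := j3 (not_not.2 a) (hd.1 a)
    have := f3 o
    omega
  · have h5 := j3 (not_not.2 a) (hd.1 a)
    have := f1 o a
    omega
  · have b : x (v + 1) := by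
      by_contra hh
      exact a (hd.2 hh)
    have h5 := j4 a (not_not.2 b)
    have := f2 o a
    omega
  · have b : x (v + 1) := by
      by_contra hh
      exact a (hd.2 hh)
    have h5 := j4 a (not_not.2 b)
    have := f3 o
    omega

/-- the sum of ranks at a loaded vertex before the reserved edge -/
theorem gR_JP (h2 : ld (2 * j)) :
    ((cwR W p).owR.lr.J (2 * j) : ℤ) = m - 1 := by
  have hm := W.m2
  have r := p.rng W
  have h4 := R1_JP (cwR W p) (by omega) (by rw [show 2 * j + 1 - 1 = 2 * j by omega]; exact h2)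
  rw [show 2 * j + 1 - 1 = 2 * j by omega, flR_lt (show 2 * j < 2 * j + 1 by omega), flR_u p,
    fl_Y] at h4
  have h5 := p.Yj
  omega

/-- the kind of a loaded vertex -/
theorem gR_kd {v : ℕ} (h1 : 1 ≤ v) (h2 : v < 2 * m) (h3 : ld v) :
    (cwR W p).owR.lr.bad (lo (2 * j + 1) v) ↔ (v % 2 = 0 ↔ x v) := by
  have hb : (cwR W p).owR.lr.bad = xR x (2 * j + 1) := rfl
  have hu : v ≠ 2 * j + 1 := by
    rintro rfl
    exact (cwR W p).uC h3
  have hd := W.dif v h1 h2 h3
  rw [hb]
  unfold lo oe ee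
  rcases Nat.mod_two_eq_zero_or_one v with o | o
  · have o' : ¬ v % 2 = 1 := by omega
    rcases Nat.lt_or_ge v (2 * j + 1) with c | c
    · rw [if_pos c, if_neg o', xR_le (by omega)]
      tauto
    · rw [if_neg (by omega), if_neg o', xR_gt (by omega)]
      tauto
  · have o' : ¬ v % 2 = 0 := by omega
    rcases Nat.lt_or_ge v (2 * j + 1) with c | c
    · rw [if_pos c, if_pos o, xR_le (by omega)]
      tauto
    · rw [if_neg (by omega), if_pos o, xR_gt (by omega)]
      tauto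

end

end Pool.Agent.Lob89.Gg
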