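import Mathlib

/-!
The greedy lemma: labels of a block given in the order of the partial sums make all sums distinct.
-/

namespace Pool.Agent.Lob89

open Finset

/-- Labels from `M` can be given to the elements of `E` in increasing order of the keys `κ`. -/
theorem exists_mono {E : Type*} [Fintype E] (κ : E → ℕ) (hκ : Function.Injective κ) (M : Finset ℕ)
    (hM : M.card = Fintype.card E) :
    ∃ σ : E → ℕ, (∀ e, σ e ∈ M) ∧ (∀ a b, κ a < κ b → σ a < σ b) ∧ Function.Injective σ := by
  classical
  set K : Finset ℕ := Finset.univ.image κ with hK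
  have hKc : K.card = Fintype.card E := by
    rw [hK, Finset.card_image_of_injective _ hκ, Finset.card_univ]
  let iK := K.orderIsoOfFin hKc
  let iM := M.orderIsoOfFin hM
  have hmem : ∀ e, κ e ∈ K := fun e => by rw [hK]; exact Finset.mem_image_of_mem _ (Finset.mem_univ _)
  refine ⟨fun e => (iM (iK.symm ⟨κ e, hmem e⟩) : ℕ), fun e => (iM _).2, ?_, ?_⟩
  · intro a b hab
    have h1 : (⟨κ a, hmem a⟩ : K) < ⟨κ b, hmem b⟩ := hab
    have h2 := iK.symm.strictMono h1
    exact iM.strictMono h2
  · intro a b hab
    have h1 : iM (iK.symm ⟨κ a, hmem a⟩) = iM (iK.symm ⟨κ b, hmem b⟩) := Subtype.ext hab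
    have h2 := iK.symm.injective (iM.injective h1)
    exact hκ (congrArg Subtype.val h2)

/-- Greedy lemma: labels from `M` given in the order of the partial sums `W`. -/
theorem greedy {E : Type*} [Fintype E] (W : E → ℕ) (M : Finset ℕ)
    (hM : M.card = Fintype.card E) :
    ∃ σ : E → ℕ, (∀ e, σ e ∈ M) ∧ (∀ a b, W a < W b → σ a < σ b) ∧ Function.Injective σ ∧
      Function.Injective (fun e => W e + σ e) := by
  classical
  let n := Fintype.card E
  let idx : E ≃ Fin n := Fintype.equivFin E
  have hlt : ∀ e, (idx e : ℕ) < n := fun e => (idx e).2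
  let κ : E → ℕ := fun e => W e * n + idx e
  have key : ∀ a b, W a < W b → κ a < κ b := by
    intro a b hab
    show W a * n + idx a < W b * n + idx b
    have h1 : (W a + 1) * n ≤ W b * n := Nat.mul_le_mul_right n hab
    have h2 := hlt a
    nlinarith
  have hκ : Function.Injective κ := by
    intro a b hab
    rcases lt_trichotomy (W a) (W b) with h | h | h
    · exact absurd hab (key a b h).ne
    · have : (idx a : ℕ) = idx b := by
        have h' : W a * n + idx a = W b * n + idx b := hab
        rw [h] at h'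
        omega
      exact idx.injective (Fin.ext this)
    · exact absurd hab (key b a h).ne'
  obtain ⟨σ, h1, h2, h3⟩ := exists_mono κ hκ M hM
  refine ⟨σ, h1, fun a b hab => h2 a b (key a b hab), h3, ?_⟩
  intro a b hab
  have hab' : W a + σ a = W b + σ b := hab
  rcases lt_trichotomy (κ a) (κ b) with h | h | h
  · exfalso
    have h4 := h2 a b h
    have h5 : W a ≤ W b := by
      by_contra hc
      exact absurd (key b a (not_le.1 hc)) (not_lt.2 h.le)
    omega
  · exact hκ h
  · exfalso
    have h4 := h2 b a h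
    have h5 : W b ≤ W a := by
      by_contra hc
      exact absurd (key a b (not_le.1 hc)) (not_lt.2 h.le)
    omega

/-- An enumeration of `E` by `1, ..., n` along which `J` does not increase. -/
theorem exists_antitone {E : Type*} [Fintype E] (J : E → ℕ) :
    ∃ σ : E → ℕ, (∀ e, 1 ≤ σ e ∧ σ e ≤ Fintype.card E) ∧ Function.Injective σ ∧
      (∀ a b, J b < J a → σ a < σ b) := by
  classical
  obtain ⟨B, hB⟩ : ∃ B, ∀ e, J e ≤ B := by
    obtain ⟨B, hB⟩ := (Set.finite_range J).bddAbove
    exact ⟨B, fun e => hB ⟨e, rfl⟩⟩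
  obtain ⟨σ, h1, h2, h3, _⟩ := greedy (fun e => B - J e) (Finset.Icc 1 (Fintype.card E))
    (by rw [Nat.card_Icc]; omega)
  refine ⟨σ, fun e => Finset.mem_Icc.1 (h1 e), h3, fun a b hab => h2 a b ?_⟩
  have ha := hB a
  have hb := hB b
  show B - J a < B - J b
  omega

/-- Values in increasing zones. -/
theorem inj_of_zones {ι : Type*} (f : ι → ℕ) (zone : ι → ℕ) (lo : ℕ → ℕ)
    (hlo : ∀ t, lo t ≤ lo (t + 1))
    (hz : ∀ i, lo (zone i) ≤ f i ∧ f i < lo (zone i + 1))
    (hin : ∀ i j, zone i = zone j → f i = f j → i = j) : Function.Injective f := by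
  have hmono : Monotone lo := monotone_nat_of_le_succ hlo
  intro i j hij
  rcases lt_trichotomy (zone i) (zone j) with h | h | h
  · have h1 := (hz i).2
    have h2 := (hz j).1
    have h3 : lo (zone i + 1) ≤ lo (zone j) := hmono h
    omega
  · exact hin i j h hij
  · have h1 := (hz j).2
    have h2 := (hz i).1
    have h3 : lo (zone j + 1) ≤ lo (zone i) := hmono h
    omega

/-- Values in increasing zones, relational version. -/
theorem inj_of_zones' {ι : Type*} (f : ι → ℕ) (P : ℕ → ι → Prop) (lo : ℕ → ℕ)
    (hlo : ∀ t, lo t ≤ lo (t + 1))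
    (hz : ∀ i, ∃ t, P t i ∧ lo t ≤ f i ∧ f i < lo (t + 1))
    (hin : ∀ t i j, P t i → P t j → f i = f j → i = j) : Function.Injective f := by
  choose zone hP hz using hz
  refine inj_of_zones f zone lo hlo hz ?_
  intro i j hij hf
  exact hin (zone i) i j (hP i) (hij ▸ hP j) hf

end Pool.Agent.Lob89
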