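import Pool.Agent.Lob89.Defs
import Pool.Agent.Lob89.Greedy

/-!
The pure class: every path vertex carries at most one attachment, which is a leaf or a bush
with one or two leaves. Basic computations.
-/

namespace Pool.Agent.Lob89

set_option linter.unusedSectionVars false

open Finset

variable {Lf B BL : Type*} [Fintype Lf] [Fintype B] [Fintype BL] [DecidableEq B]

/-- The pure class. `last b` is a leaf of the bush `b`, `two b` says that there is another one. -/
structure PureData (la : Lf → ℕ) (ba : B → ℕ) (par : BL → B) (last : B → BL) (two : B → Prop) :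
    Prop where
  la_inj : Function.Injective la
  ba_inj : Function.Injective ba
  la_ne_ba : ∀ x b, la x ≠ ba b
  par_last : ∀ b, par (last b) = b
  two_iff : ∀ b, two b ↔ ∃ y, par y = b ∧ y ≠ last b
  second_unique : ∀ y y', par y = par y' → y ≠ last (par y) → y' ≠ last (par y') → y = y'

/-- A path vertex is loaded if something is attached to it. -/
def Loaded (la : Lf → ℕ) (ba : B → ℕ) (i : ℕ) : Prop := (∃ x, la x = i) ∨ ∃ b, ba b = i

section sums

variable {k : ℕ} {la : Lf → ℕ} {ba : B → ℕ} {par : BL → B}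
  {p : ℕ → ℕ} {fl : Lf → ℕ} {ft : B → ℕ}

lemma sum_la_none (i : ℕ) (h : ∀ x, la x ≠ i) : (∑ x, if la x = i then fl x else 0) = 0 := by
  refine Finset.sum_eq_zero fun x _ => ?_
  rw [if_neg (h x)]

lemma sum_la_one (hinj : Function.Injective la) (x : Lf) :
    (∑ y, if la y = la x then fl y else 0) = fl x := by
  classical
  rw [Finset.sum_eq_single x]
  · rw [if_pos rfl]
  · intro y _ hy
    rw [if_neg (fun h => hy (hinj h))]
  · simp

lemma pathSum_zero (hd : LobData k la ba par) : pathSum k la ba p fl ft 0 = p 1 := by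
  unfold pathSum
  rw [sum_la_none 0 (fun x => by have := hd.la_pos x; omega),
    sum_la_none (fl := ft) (la := ba) 0 (fun x => by have := hd.ba_pos x; omega)]
  have := hd.two_le
  rw [if_neg (by omega), if_pos (by omega)]
  simp

lemma pathSum_last (hd : LobData k la ba par) : pathSum k la ba p fl ft k = p k := by
  unfold pathSum
  rw [sum_la_none k (fun x => by have := hd.la_lt x; omega),
    sum_la_none (fl := ft) (la := ba) k (fun x => by have := hd.ba_lt x; omega)]
  have := hd.two_le
  rw [if_neg (lt_irrefl _), if_pos (by omega)]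
  simp

lemma pathSum_free {i : ℕ} (h1 : 1 ≤ i) (hk : i < k) (hl : ¬ Loaded la ba i) :
    pathSum k la ba p fl ft i = p i + p (i + 1) := by
  unfold pathSum
  rw [sum_la_none i (fun x hx => hl (Or.inl ⟨x, hx⟩)),
    sum_la_none (fl := ft) (la := ba) i (fun x hx => hl (Or.inr ⟨x, hx⟩)), if_pos h1, if_pos hk]
  rfl

lemma pathSum_A (hd : LobData k la ba par) {last : B → BL} {two : B → Prop}
    (hP : PureData la ba par last two) (x : Lf) :
    pathSum k la ba p fl ft (la x) = p (la x) + p (la x + 1) + fl x := by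
  unfold pathSum
  rw [sum_la_one hP.la_inj x,
    sum_la_none (fl := ft) (la := ba) (la x) (fun b hb => hP.la_ne_ba x b hb.symm)]
  have h1 := hd.la_pos x
  have h2 := hd.la_lt x
  rw [if_pos h1, if_pos (by omega)]
  simp

lemma pathSum_Z (hd : LobData k la ba par) {last : B → BL} {two : B → Prop}
    (hP : PureData la ba par last two) (b : B) :
    pathSum k la ba p fl ft (ba b) = p (ba b) + p (ba b + 1) + ft b := by
  unfold pathSum
  rw [sum_la_one (la := ba) hP.ba_inj b,
    sum_la_none (fl := fl) (la := la) (ba b) (fun x hx => hP.la_ne_ba x b hx)]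
  have h1 := hd.ba_pos b
  have h2 := hd.ba_lt b
  rw [if_pos (by omega), if_pos (by omega)]
  simp

end sums

section ends

/-- The edges at the vertices of degree one: the two ends, the leaves, the bush leaves. -/
def leafSlot {k : ℕ} (hk : 2 ≤ k) {Lf B BL : Type*} :
    Bool ⊕ (Lf ⊕ BL) → Fin k ⊕ (Lf ⊕ (B ⊕ BL))
  | Sum.inl true => Sum.inl ⟨0, by omega⟩
  | Sum.inl false => Sum.inl ⟨k - 1, by omega⟩
  | Sum.inr (Sum.inl x) => Sum.inr (Sum.inl x)
  | Sum.inr (Sum.inr y) => Sum.inr (Sum.inr (Sum.inr y))

/-- The vertices of degree one. -/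
def leafVert {k : ℕ} {Lf B BL : Type*} :
    Bool ⊕ (Lf ⊕ BL) → Fin (k + 1) ⊕ (Lf ⊕ (B ⊕ BL))
  | Sum.inl true => Sum.inl 0
  | Sum.inl false => Sum.inl (Fin.last k)
  | Sum.inr (Sum.inl x) => Sum.inr (Sum.inl x)
  | Sum.inr (Sum.inr y) => Sum.inr (Sum.inr (Sum.inr y))

lemma leafSlot_inj {k : ℕ} (hk : 2 ≤ k) {Lf B BL : Type*} :
    Function.Injective (leafSlot (Lf := Lf) (B := B) (BL := BL) hk) := by
  intro a b h
  rcases a with (_ | _) | x | y <;> rcases b with (_ | _) | x' | y' <;>
    simp [leafSlot] at h ⊢ <;> omega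

lemma vsums_leafVert {k : ℕ} {la : Lf → ℕ} {ba : B → ℕ} {par : BL → B}
    {p : ℕ → ℕ} {fl : Lf → ℕ} {ft : B → ℕ} {fb : BL → ℕ}
    (hd : LobData k la ba par) (e : Bool ⊕ (Lf ⊕ BL)) :
    vsums k la ba par p fl ft fb (leafVert e) =
      labels (k := k) p fl ft fb (leafSlot hd.two_le e) := by
  have hk := hd.two_le
  rcases e with (_ | _) | x | y
  · show pathSum k la ba p fl ft k = p (k - 1 + 1)
    rw [pathSum_last hd, Nat.sub_add_cancel (by omega)]
  · show pathSum k la ba p fl ft 0 = p (0 + 1)
    rw [pathSum_zero hd]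
  · rfl
  · rfl

lemma path_cases {k : ℕ} {la : Lf → ℕ} {ba : B → ℕ} {par : BL → B}
    (_hd : LobData k la ba par) (i : Fin (k + 1)) :
    i = 0 ∨ i = Fin.last k ∨ (∃ x, la x = i) ∨ (∃ b, ba b = i) ∨
      (1 ≤ (i : ℕ) ∧ (i : ℕ) < k ∧ ¬ Loaded la ba i) := by
  by_cases h0 : (i : ℕ) = 0
  · exact Or.inl (Fin.ext h0)
  by_cases hk : (i : ℕ) = k
  · exact Or.inr (Or.inl (Fin.ext hk))
  by_cases h1 : ∃ x, la x = i
  · exact Or.inr (Or.inr (Or.inl h1))
  by_cases h2 : ∃ b, ba b = i
  · exact Or.inr (Or.inr (Or.inr (Or.inl h2)))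
  refine Or.inr (Or.inr (Or.inr (Or.inr ⟨by omega, by omega, ?_⟩)))
  rintro (h | h)
  · exact h1 h
  · exact h2 h

end ends

section bush

variable {la : Lf → ℕ} {ba : B → ℕ} {par : BL → B} {last : B → BL} {two : B → Prop}

/-- the label of a bush leaf: `σ` for the chosen leaf, `x2` for the other one -/
noncomputable def bushLab (par : BL → B) (last : B → BL) (σ x2 : B → ℕ) (y : BL) : ℕ :=
  open Classical in if y = last (par y) then σ (par y) else x2 (par y)

lemma sum_bush (hP : PureData la ba par last two) (σ x2 : B → ℕ) (b : B) [Decidable (two b)] :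
    (∑ y, if par y = b then bushLab par last σ x2 y else 0) =
      σ b + if two b then x2 b else 0 := by
  classical
  have h1 : ∀ y, (if par y = b then bushLab par last σ x2 y else 0) =
      (if y = last b then σ b else 0) + (if par y = b ∧ y ≠ last b then x2 b else 0) := by
    intro y
    unfold bushLab
    by_cases hy : par y = b
    · rw [if_pos hy]
      by_cases hl : y = last b
      · rw [if_pos hl, if_pos (by rw [hy]; exact hl), if_neg (fun h => h.2 hl), hy, add_zero]
      · rw [if_neg hl, if_neg (by rw [hy]; exact hl), if_pos ⟨hy, hl⟩, hy, zero_add]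
    · rw [if_neg hy, if_neg (fun h => hy (by rw [h]; exact hP.par_last b)),
        if_neg (fun h => hy h.1)]
  rw [Finset.sum_congr rfl (fun y _ => h1 y), Finset.sum_add_distrib, Finset.sum_ite_eq']
  rw [if_pos (Finset.mem_univ _)]
  congr 1
  by_cases ht : two b
  · obtain ⟨y, hy, hyl⟩ := (hP.two_iff b).1 ht
    rw [if_pos ht, Finset.sum_eq_single y]
    · rw [if_pos ⟨hy, hyl⟩]
    · intro z _ hz
      rw [if_neg]
      rintro ⟨h2, h3⟩
      apply hz
      apply hP.second_unique
      · rw [h2, hy]
      · rw [h2]; exact h3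
      · rw [hy]; exact hyl
    · simp
  · rw [if_neg ht]
    refine Finset.sum_eq_zero fun y _ => ?_
    rw [if_neg (fun h => ht ((hP.two_iff b).2 ⟨y, h.1, h.2⟩))]

lemma card_BL [DecidablePred two] (hP : PureData la ba par last two) :
    Fintype.card BL = Fintype.card B + Fintype.card {b // two b} := by
  classical
  let f : B ⊕ {b // two b} → BL := Sum.elim last (fun b => ((hP.two_iff b.1).1 b.2).choose)
  have hf2 : ∀ b : {b // two b}, par (f (Sum.inr b)) = b.1 ∧ f (Sum.inr b) ≠ last b.1 :=
    fun b => ((hP.two_iff b.1).1 b.2).choose_spec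
  have hf : Function.Bijective f := by
    constructor
    · rintro (a | a) (b | b) h
      · have : par (last a) = par (last b) := congrArg par h
        rw [hP.par_last, hP.par_last] at this
        rw [this]
      · exfalso
        have h2 := hf2 b
        rw [← h] at h2
        have h3 : par (last a) = b.1 := h2.1
        rw [hP.par_last] at h3
        exact h2.2 (by rw [← h3]; rfl)
      · exfalso
        have h2 := hf2 a
        rw [h] at h2
        have h3 : par (last b) = a.1 := h2.1
        rw [hP.par_last] at h3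
        exact h2.2 (by rw [← h3]; rfl)
      · have h2 := (hf2 a).1
        rw [h, (hf2 b).1] at h2
        rw [Subtype.ext h2]
    · intro y
      by_cases hy : y = last (par y)
      · exact ⟨Sum.inl (par y), hy.symm⟩
      · have ht : two (par y) := (hP.two_iff _).2 ⟨y, rfl, hy⟩
        refine ⟨Sum.inr ⟨par y, ht⟩, ?_⟩
        have h2 := hf2 ⟨par y, ht⟩
        apply hP.second_unique
        · exact h2.1
        · rw [h2.1]; exact h2.2
        · exact hy
  rw [← Fintype.card_of_bijective hf, Fintype.card_sum]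

end bush

end Pool.Agent.Lob89
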