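import Pool.Agent.Lob89.Walk2

/-!
The pair bound for junctions at loaded vertices.
-/

namespace Pool.Agent.Lob89

variable {k h q : ℕ} {ld : ℕ → Prop} {G : ℕ → Bool}

/-- Parity balance after the edge `i`. -/
lemma cnt_om (hk : k = 2 * h + 1) (hq : q < k) {i : ℕ} (h1 : 1 ≤ i) (h2 : i < k) (h3 : i ≠ q) :
    ∃ d : ℕ, (d = 0 ∧ q < i ∨ d = 1 ∧ i < q) ∧
    cnt k q G true 1 (wtime k q i + 1) + cnt k q G false 1 (wtime k q i + 1) + q % 2 =
      cnt k q G true 0 (wtime k q i + 1) + cnt k q G false 0 (wtime k q i + 1) + i % 2 + d := by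
  rcases cnt_at (G := G) hq h1 h2 h3 with ⟨h4, h5, h6, _⟩ | ⟨h4, h5, h6, _⟩
  · exact ⟨0, Or.inl ⟨rfl, h4⟩, by omega⟩
  · exact ⟨1, Or.inr ⟨rfl, h4⟩, by omega⟩

lemma cnt_step (hq : q < k) {i j : ℕ} (h1 : 1 ≤ i) (h2 : i < k) (h3 : i ≠ q)
    (h4 : 1 ≤ j) (h5 : j < k) (hlt : wtime k q i < wtime k q j) (hadj : j ≠ i + 1)
    (g : Bool) (r : ℕ) :
    cnt k q G g r (wtime k q i + 1) + (if G (i + 1) = g ∧ (i + 1) % 2 = r then 1 else 0) +
      (if G j = g ∧ j % 2 = r then 1 else 0) ≤ cnt k q G g r (wtime k q j + 1) := by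
  have a1 := cnt_self hq G (show 1 ≤ i + 1 by omega) (show i + 1 ≤ k by omega) g r
  rw [wtime_succ hq h1 h2 h3] at a1
  have a2 := cnt_self hq G h4 h5.le g r
  have hne : wtime k q j ≠ wtime k q i + 1 := by
    rw [← wtime_succ hq h1 h2 h3]
    exact fun h => hadj (wtime_inj hq h4 h5.le (by omega) (by omega) h)
  have a3 := cnt_mono k q G g r (show wtime k q i + 1 + 1 ≤ wtime k q j by omega)
  omega

lemma cnt_last (hq : q < k) {i : ℕ} (h1 : 1 ≤ i) (h2 : i < k) (h3 : i ≠ q)
    (g : Bool) (r : ℕ) :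
    cnt k q G g r (wtime k q i + 1) + (if G (i + 1) = g ∧ (i + 1) % 2 = r then 1 else 0) ≤
      cnt k q G g r k := by
  have a1 := cnt_self hq G (show 1 ≤ i + 1 by omega) (show i + 1 ≤ k by omega) g r
  rw [wtime_succ hq h1 h2 h3] at a1
  have a4 := wtime_lt hq (show 1 ≤ i + 1 by omega) (show i + 1 ≤ k by omega)
  rw [wtime_succ hq h1 h2 h3] at a4
  have a3 := cnt_mono k q G g r (show wtime k q i + 1 + 1 ≤ k by omega)
  omega

lemma cnt_first (hq : q < k) {i : ℕ} (h1 : 1 ≤ i) (h2 : i < k) (g : Bool) (r : ℕ) :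
    (if G i = g ∧ i % 2 = r then 1 else 0) ≤ cnt k q G g r (wtime k q i + 1) := by
  rw [cnt_self hq G h1 h2.le g r]
  omega

lemma Win.pair_aux (hS : Win k h q ld G) (hh : 2 ≤ h) {i j : ℕ} (hi : ld i) (hiq : i ≠ q)
    (hj : ld j) (hjq : j ≠ q) (hlt : wtime k q i < wtime k q j) :
    junc k q G i + 1 ≤ junc k q G j + h ∧ junc k q G j + 1 ≤ junc k q G i + h := by
  have hm := hS.ld_mem i hi
  have hmj := hS.ld_mem j hj
  have hqk := hS.q_lt
  have hk := hS.k_eq
  have hne := (hS.ld_iff i hm.1 hm.2).1 hi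
  have hnej := (hS.ld_iff j hmj.1 hmj.2).1 hj
  have t1 := tot_odd (G := G) hk hqk
  have t2 := tot_even (G := G) hk hqk
  obtain ⟨di, hdi, oi⟩ := cnt_om (G := G) hk hqk hm.1 hm.2 hiq
  have l := cnt_last (G := G) hqk hmj.1 hmj.2 hjq
  have f := cnt_first (G := G) hqk hm.1 hm.2
  have hdi' : di ≤ 1 := by omega
  clear hdi
  have hq2 : q % 2 ≤ 1 := by omega
  by_cases hadj : j = i + 1
  · -- adjacent
    subst hadj
    have a1 := fun g r => cnt_self hqk G (show 1 ≤ i + 1 by omega) (show i + 1 ≤ k by omega) g r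
    have a2 : wtime k q (i + 1) = wtime k q i + 1 := wtime_succ hqk hm.1 hm.2 hiq
    rw [a2] at a1 l
    have b1 := a1 true 1
    have b2 := a1 true 0
    have b3 := a1 false 1
    have b4 := a1 false 0
    have l1 := l true 1
    have l2 := l true 0
    have l3 := l false 1
    have l4 := l false 0
    have f1 := f true 1
    have f2 := f true 0
    have f3 := f false 1
    have f4 := f false 0
    clear a1 l f
    rcases Nat.mod_two_eq_zero_or_one i with hp | hp
    · have hp' : (i + 1) % 2 = 1 := by omega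
      have hp'' : (i + 1 + 1) % 2 = 0 := by omega
      cases hGi : G i
      · have hGi' : G (i + 1) = true := by
          cases hc : G (i + 1)
          · exact absurd (hGi.trans hc.symm) hne
          · rfl
        have hGj' : G (i + 1 + 1) = false := by
          cases hc : G (i + 1 + 1)
          · rfl
          · exact absurd (hGi'.trans hc.symm) hnej
        have u := junc_min_even hqk hm.1 hm.2 hiq hGi hGi' hp
        have v := junc_max_odd hqk hmj.1 hmj.2 hjq hGi' hGj' hp'
        rw [a2] at v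
        simp [hp, hp', hp'', hGi, hGi', hGj'] at b1 b2 b3 b4 l1 l2 l3 l4 f1 f2 f3 f4
        omega
      · have hGi' : G (i + 1) = false := by
          cases hc : G (i + 1)
          · rfl
          · exact absurd (hGi.trans hc.symm) hne
        have hGj' : G (i + 1 + 1) = true := by
          cases hc : G (i + 1 + 1)
          · exact absurd (hGi'.trans hc.symm) hnej
          · rfl
        have u := junc_max_even hqk hm.1 hm.2 hiq hGi hGi' hp
        have v := junc_min_odd hqk hmj.1 hmj.2 hjq hGi' hGj' hp'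
        rw [a2] at v
        simp [hp, hp', hp'', hGi, hGi', hGj'] at b1 b2 b3 b4 l1 l2 l3 l4 f1 f2 f3 f4
        omega
    · have hp' : (i + 1) % 2 = 0 := by omega
      have hp'' : (i + 1 + 1) % 2 = 1 := by omega
      cases hGi : G i
      · have hGi' : G (i + 1) = true := by
          cases hc : G (i + 1)
          · exact absurd (hGi.trans hc.symm) hne
          · rfl
        have hGj' : G (i + 1 + 1) = false := by
          cases hc : G (i + 1 + 1)
          · rfl
          · exact absurd (hGi'.trans hc.symm) hnej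
        have u := junc_min_odd hqk hm.1 hm.2 hiq hGi hGi' hp
        have v := junc_max_even hqk hmj.1 hmj.2 hjq hGi' hGj' hp'
        rw [a2] at v
        simp [hp, hp', hp'', hGi, hGi', hGj'] at b1 b2 b3 b4 l1 l2 l3 l4 f1 f2 f3 f4
        omega
      · have hGi' : G (i + 1) = false := by
          cases hc : G (i + 1)
          · rfl
          · exact absurd (hGi.trans hc.symm) hne
        have hGj' : G (i + 1 + 1) = true := by
          cases hc : G (i + 1 + 1)
          · exact absurd (hGi'.trans hc.symm) hnej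
          · rfl
        have u := junc_max_odd hqk hm.1 hm.2 hiq hGi hGi' hp
        have v := junc_min_even hqk hmj.1 hmj.2 hjq hGi' hGj' hp'
        rw [a2] at v
        simp [hp, hp', hp'', hGi, hGi', hGj'] at b1 b2 b3 b4 l1 l2 l3 l4 f1 f2 f3 f4
        omega
  · have st := cnt_step (G := G) hqk hm.1 hm.2 hiq hmj.1 hmj.2 hlt hadj
    have b1 := st true 1
    have b2 := st true 0
    have b3 := st false 1
    have b4 := st false 0
    have l1 := l true 1
    have l2 := l true 0
    have l3 := l false 1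
    have l4 := l false 0
    have f1 := f true 1
    have f2 := f true 0
    have f3 := f false 1
    have f4 := f false 0
    clear st l f
    have key : ∀ (x y : Bool), G (i + 1) = x → G (j + 1) = y → G i = !x → G j = !y →
        junc k q G i + 1 ≤ junc k q G j + h ∧ junc k q G j + 1 ≤ junc k q G i + h := by
      intro x y h1 h2 h3 h4
      rcases Nat.mod_two_eq_zero_or_one i with hp | hp <;>
        rcases Nat.mod_two_eq_zero_or_one j with hpj | hpj
      · have hp' : (i + 1) % 2 = 1 := by omega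
        have hpj' : (j + 1) % 2 = 1 := by omega
        rw [h1, h4, hp', hpj] at b1 b2 b3 b4
        rw [h2, hpj'] at l1 l2 l3 l4
        rw [h3, hp] at f1 f2 f3 f4
        rw [hp] at oi
        cases x <;> cases y
        · have u := junc_max_even hqk hm.1 hm.2 hiq h3 h1 hp
          have v := junc_max_even hqk hmj.1 hmj.2 hjq h4 h2 hpj
          simp at b1 b2 b3 b4 l1 l2 l3 l4 f1 f2 f3 f4
          omega
        · have u := junc_max_even hqk hm.1 hm.2 hiq h3 h1 hp
          have v := junc_min_even hqk hmj.1 hmj.2 hjq h4 h2 hpj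
          simp at b1 b2 b3 b4 l1 l2 l3 l4 f1 f2 f3 f4
          omega
        · have u := junc_min_even hqk hm.1 hm.2 hiq h3 h1 hp
          have v := junc_max_even hqk hmj.1 hmj.2 hjq h4 h2 hpj
          simp at b1 b2 b3 b4 l1 l2 l3 l4 f1 f2 f3 f4
          omega
        · have u := junc_min_even hqk hm.1 hm.2 hiq h3 h1 hp
          have v := junc_min_even hqk hmj.1 hmj.2 hjq h4 h2 hpj
          simp at b1 b2 b3 b4 l1 l2 l3 l4 f1 f2 f3 f4
          omega
      · have hp' : (i + 1) % 2 = 1 := by omega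
        have hpj' : (j + 1) % 2 = 0 := by omega
        rw [h1, h4, hp', hpj] at b1 b2 b3 b4
        rw [h2, hpj'] at l1 l2 l3 l4
        rw [h3, hp] at f1 f2 f3 f4
        rw [hp] at oi
        cases x <;> cases y
        · have u := junc_max_even hqk hm.1 hm.2 hiq h3 h1 hp
          have v := junc_max_odd hqk hmj.1 hmj.2 hjq h4 h2 hpj
          simp at b1 b2 b3 b4 l1 l2 l3 l4 f1 f2 f3 f4
          omega
        · have u := junc_max_even hqk hm.1 hm.2 hiq h3 h1 hp
          have v := junc_min_odd hqk hmj.1 hmj.2 hjq h4 h2 hpj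
          simp at b1 b2 b3 b4 l1 l2 l3 l4 f1 f2 f3 f4
          omega
        · have u := junc_min_even hqk hm.1 hm.2 hiq h3 h1 hp
          have v := junc_max_odd hqk hmj.1 hmj.2 hjq h4 h2 hpj
          simp at b1 b2 b3 b4 l1 l2 l3 l4 f1 f2 f3 f4
          omega
        · have u := junc_min_even hqk hm.1 hm.2 hiq h3 h1 hp
          have v := junc_min_odd hqk hmj.1 hmj.2 hjq h4 h2 hpj
          simp at b1 b2 b3 b4 l1 l2 l3 l4 f1 f2 f3 f4
          omega
      · have hp' : (i + 1) % 2 = 0 := by omega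
        have hpj' : (j + 1) % 2 = 1 := by omega
        rw [h1, h4, hp', hpj] at b1 b2 b3 b4
        rw [h2, hpj'] at l1 l2 l3 l4
        rw [h3, hp] at f1 f2 f3 f4
        rw [hp] at oi
        cases x <;> cases y
        · have u := junc_max_odd hqk hm.1 hm.2 hiq h3 h1 hp
          have v := junc_max_even hqk hmj.1 hmj.2 hjq h4 h2 hpj
          simp at b1 b2 b3 b4 l1 l2 l3 l4 f1 f2 f3 f4
          omega
        · have u := junc_max_odd hqk hm.1 hm.2 hiq h3 h1 hp
          have v := junc_min_even hqk hmj.1 hmj.2 hjq h4 h2 hpj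
          simp at b1 b2 b3 b4 l1 l2 l3 l4 f1 f2 f3 f4
          omega
        · have u := junc_min_odd hqk hm.1 hm.2 hiq h3 h1 hp
          have v := junc_max_even hqk hmj.1 hmj.2 hjq h4 h2 hpj
          simp at b1 b2 b3 b4 l1 l2 l3 l4 f1 f2 f3 f4
          omega
        · have u := junc_min_odd hqk hm.1 hm.2 hiq h3 h1 hp
          have v := junc_min_even hqk hmj.1 hmj.2 hjq h4 h2 hpj
          simp at b1 b2 b3 b4 l1 l2 l3 l4 f1 f2 f3 f4
          omega
      · have hp' : (i + 1) % 2 = 0 := by omega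
        have hpj' : (j + 1) % 2 = 0 := by omega
        rw [h1, h4, hp', hpj] at b1 b2 b3 b4
        rw [h2, hpj'] at l1 l2 l3 l4
        rw [h3, hp] at f1 f2 f3 f4
        rw [hp] at oi
        cases x <;> cases y
        · have u := junc_max_odd hqk hm.1 hm.2 hiq h3 h1 hp
          have v := junc_max_odd hqk hmj.1 hmj.2 hjq h4 h2 hpj
          simp at b1 b2 b3 b4 l1 l2 l3 l4 f1 f2 f3 f4
          omega
        · have u := junc_max_odd hqk hm.1 hm.2 hiq h3 h1 hp
          have v := junc_min_odd hqk hmj.1 hmj.2 hjq h4 h2 hpj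
          simp at b1 b2 b3 b4 l1 l2 l3 l4 f1 f2 f3 f4
          omega
        · have u := junc_min_odd hqk hm.1 hm.2 hiq h3 h1 hp
          have v := junc_max_odd hqk hmj.1 hmj.2 hjq h4 h2 hpj
          simp at b1 b2 b3 b4 l1 l2 l3 l4 f1 f2 f3 f4
          omega
        · have u := junc_min_odd hqk hm.1 hm.2 hiq h3 h1 hp
          have v := junc_min_odd hqk hmj.1 hmj.2 hjq h4 h2 hpj
          simp at b1 b2 b3 b4 l1 l2 l3 l4 f1 f2 f3 f4
          omega
    apply key (G (i + 1)) (G (j + 1)) rfl rfl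
    · cases h1 : G i <;> cases h2 : G (i + 1) <;> simp_all
    · cases h1 : G j <;> cases h2 : G (j + 1) <;> simp_all

/-- (L4) -/
lemma Win.pair (hS : Win k h q ld G) {i j : ℕ} (hi : ld i) (hiq : i ≠ q)
    (hj : ld j) (hjq : j ≠ q) (hij : i ≠ j) :
    junc k q G i ≤ junc k q G j + h ∧ (2 ≤ h → junc k q G i + 1 ≤ junc k q G j + h) := by
  have hm := hS.ld_mem i hi
  have hmj := hS.ld_mem j hj
  have hqk := hS.q_lt
  have hk := hS.k_eq
  by_cases hh : 2 ≤ h
  · have hne : wtime k q i ≠ wtime k q j := fun h => hij (wtime_inj hqk hm.1 hm.2.le hmj.1 hmj.2.le h)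
    rcases lt_or_gt_of_ne hne with hlt | hlt
    · have := hS.pair_aux hh hi hiq hj hjq hlt
      omega
    · have := hS.pair_aux hh hj hjq hi hiq hlt
      omega
  · have h1 := hS.rankBase.J_bounds hm.1 hm.2
    have h2 := hS.rankBase.J_bounds hmj.1 hmj.2
    unfold junc
    omega

end Pool.Agent.Lob89
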