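import Pool.Agent.Lob89.PureOdd

/-!
Windows: the ends of the odd path, the neighbours of a maximal seam.
-/

namespace Pool.Agent.Lob89

variable {k h q : ℕ} {ld : ℕ → Prop} {G : ℕ → Bool}

/-- The last edge directly precedes the first edge in time. -/
lemma Win.ends (hS : Win k h q ld G) (hq1 : 1 ≤ q) :
    (rank k q G 1 ≤ cnt k q G false 1 k ∧ rank k q G k = rank k q G 1 + 1 ∧
      rank k q G k ≤ cnt k q G false 1 k) ∨
    (cnt k q G false 1 k < rank k q G 1 ∧ cnt k q G false 1 k < rank k q G k ∧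
      rank k q G k + 1 = rank k q G 1) ∨
    (rank k q G 1 ≤ cnt k q G false 1 k ∧ cnt k q G false 1 k < rank k q G k) ∨
    (cnt k q G false 1 k < rank k q G 1 ∧ rank k q G k ≤ cnt k q G false 1 k) := by
  have hqk := hS.q_lt
  have hk := hS.k_eq
  have t1 : wtime k q 1 = wtime k q k + 1 := by
    unfold wtime
    rw [if_neg (by omega), if_pos hqk]
    omega
  have hk2 : k % 2 = 1 := by omega
  have c1 := cnt_self hqk G (show 1 ≤ k by omega) le_rfl (G k) 1
  rw [if_pos ⟨rfl, hk2⟩, ← t1] at c1
  cases h1 : G 1 <;> cases h2 : G k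
  · left
    have a1 := rank_mem_bad hqk le_rfl (show 1 ≤ k by omega) h1
    have a2 := rank_mem_bad hqk (show 1 ≤ k by omega) le_rfl h2
    rw [show 1 % 2 = 1 from rfl] at a1
    rw [hk2] at a2
    rw [h2] at c1
    omega
  · right; right; left
    have a1 := rank_mem_bad hqk le_rfl (show 1 ≤ k by omega) h1
    have a2 := rank_mem_good hqk (show 1 ≤ k by omega) le_rfl h2
    rw [show 1 % 2 = 1 from rfl] at a1
    rw [hk2] at a2
    omega
  · right; right; right
    have a1 := rank_mem_good hqk le_rfl (show 1 ≤ k by omega) h1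
    have a2 := rank_mem_bad hqk (show 1 ≤ k by omega) le_rfl h2
    rw [show 1 % 2 = 1 from rfl] at a1
    rw [hk2] at a2
    omega
  · right; left
    have a1 := rank_good (k := k) (q := q) h1
    have a2 := rank_good (k := k) (q := q) h2
    rw [show 1 % 2 = 1 from rfl] at a1
    rw [hk2] at a2
    rw [h2] at c1
    omega

/-- The excluded positions of the first edge. -/
lemma Win.x2 (hS : Win k h q ld G) (hq1 : 1 ≤ q) (hp : q % 2 = 1) (hw : walk G q < walk G k) :
    ¬ (cnt k q G false 1 k = h ∧ rank k q G 1 = h + 1) ∧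
      ¬ (cnt k q G false 1 k = h + 1 ∧ rank k q G 1 = h) := by
  have hqk := hS.q_lt
  have hk := hS.k_eq
  have t1 : wtime k q 1 = k - q := by
    unfold wtime
    rw [if_neg (by omega)]
    omega
  have w1 := cnt_walk hqk G (k - q) (by omega)
  rw [if_pos (by omega), show q + (k - q) = k by omega] at w1
  have o1 := cnt_odd hqk G (k - q) (by omega)
  have o2 := cnt_even hqk G (k - q) (by omega)
  have o3 : oddc k q (k - q) = (k + 1) / 2 - (q + 1) / 2 := by
    unfold oddc
    rw [if_pos (by omega), show q + (k - q) = k by omega]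
  have tt := tot_odd (G := G) hk hqk
  have m1 := cnt_mono k q G true 1 (show k - q ≤ k by omega)
  refine ⟨fun hh => ?_, fun hh => ?_⟩
  · cases h1 : G 1
    · have a1 := rank_mem_bad hqk le_rfl (show 1 ≤ k by omega) h1
      rw [show 1 % 2 = 1 from rfl] at a1
      omega
    · have a1 := rank_good (k := k) (q := q) h1
      rw [show 1 % 2 = 1 from rfl, t1] at a1
      omega
  · cases h1 : G 1
    · have a1 := rank_mem_bad hqk le_rfl (show 1 ≤ k by omega) h1
      rw [show 1 % 2 = 1 from rfl, t1] at a1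
      omega
    · have a1 := rank_good (k := k) (q := q) h1
      rw [show 1 % 2 = 1 from rfl, t1] at a1
      omega

/-- The right neighbour of a maximal seam. -/
lemma Win.next_near (hW : Win k h q ld G) {i : ℕ} (hi : i < k) (hG : G (i + 1) = false)
    (hw : walk G i < walk G k) :
    ∃ z, i < z ∧ z < k ∧ ld z ∧ walk G z < walk G i ∧ G z = false ∧
      ∀ j, i < j → j < z → ¬ ld j := by
  classical
  obtain ⟨z0, h1, h2, h3, _, _⟩ := hW.next_down hi hG hw
  have hex : ∃ z, i < z ∧ ld z := ⟨z0, h1, h3⟩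
  have hs := Nat.find_spec hex
  have hm : ∀ j, i < j → j < Nat.find hex → ¬ ld j := fun j a b c => Nat.find_min hex b ⟨a, c⟩
  have hle : Nat.find hex ≤ z0 := Nat.find_min' hex ⟨h1, h3⟩
  have key : ∀ j, i + 1 ≤ j → j ≤ Nat.find hex → G j = false ∧ walk G j < walk G i := by
    intro j hj
    induction j, hj using Nat.le_induction with
    | base =>
      intro _
      refine ⟨hG, ?_⟩
      rw [walk_succ, hG]
      simp
    | succ j hj ih =>
      intro hjk
      obtain ⟨a, b⟩ := ih (by omega)
      have h5 := hW.eq_of_not (by omega) (by omega) (hm j (by omega) (by omega))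
      rw [a] at h5
      refine ⟨h5.symm, ?_⟩
      rw [walk_succ, ← h5]
      simp
      omega
  obtain ⟨a, b⟩ := key _ hs.1 le_rfl
  exact ⟨Nat.find hex, hs.1, by omega, hs.2, b, a, hm⟩

/-- The left neighbour of a maximal seam. -/
lemma Win.prev_near (hW : Win k h q ld G) {i : ℕ} (hi : i ≤ k) (hG : G i = true)
    (hi0 : 1 ≤ i) (hw : walk G i < 0) :
    ∃ z, 1 ≤ z ∧ z < i ∧ ld z ∧ walk G z < walk G i ∧ G z = false ∧
      ∀ j, z < j → j < i → ¬ ld j := by
  classical
  obtain ⟨z0, h1, h2, h3, _, _⟩ := hW.prev_down hi hG hi0 hw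
  have hex : ∃ m, m + 1 ≤ i ∧ ld (i - 1 - m) := ⟨i - 1 - z0, by omega, by
    rw [show i - 1 - (i - 1 - z0) = z0 by omega]; exact h3⟩
  obtain ⟨hs1, hs2⟩ := Nat.find_spec hex
  have hle : Nat.find hex ≤ i - 1 - z0 := Nat.find_min' hex ⟨by omega, by
    rw [show i - 1 - (i - 1 - z0) = z0 by omega]; exact h3⟩
  set m := Nat.find hex with hmdef
  have hm : ∀ j, i - 1 - m < j → j < i → ¬ ld j := by
    intro j a b c
    refine Nat.find_min hex (m := i - 1 - j) (by omega) ⟨by omega, ?_⟩
    rw [show i - 1 - (i - 1 - j) = j by omega]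
    exact c
  have key : ∀ l, l ≤ m → G (i - l) = true ∧ walk G (i - 1 - l) < walk G i := by
    intro l
    induction l with
    | zero =>
      intro _
      refine ⟨by rw [Nat.sub_zero]; exact hG, ?_⟩
      have h2 := walk_succ G (i - 1)
      rw [show i - 1 + 1 = i by omega, hG] at h2
      rw [Nat.sub_zero, h2]
      simp
    | succ l ih =>
      intro hl
      obtain ⟨a, b⟩ := ih (by omega)
      have h5 := hW.eq_of_not (i := i - (l + 1)) (by omega) (by omega)
        (hm _ (by omega) (by omega))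
      rw [show i - (l + 1) + 1 = i - l by omega, a] at h5
      refine ⟨h5, ?_⟩
      have h2 := walk_succ G (i - 1 - (l + 1))
      rw [show i - 1 - (l + 1) + 1 = i - 1 - l by omega] at h2
      rw [show i - 1 - l = i - (l + 1) by omega] at h2 b
      rw [h5] at h2
      simp at h2
      omega
  obtain ⟨a, b⟩ := key m le_rfl
  have hmem := hW.ld_mem _ hs2
  refine ⟨i - 1 - m, hmem.1, by omega, hs2, b, ?_, hm⟩
  have hne := (hW.ld_iff _ hmem.1 hmem.2).1 hs2
  rw [show i - 1 - m + 1 = i - m by omega, a] at hne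
  cases hc : G (i - 1 - m)
  · rfl
  · exact absurd hc hne

end Pool.Agent.Lob89
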