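import Pool.Agent.Lob89.Walk

/-!
Windows and ranks for a general class function `cl` (`1`: low edges, `0`: high edges).
-/

namespace Pool.Agent.Lob89

/-- Number of edges of colour `g` and class `r` among the first `t` edges of the window. -/
def cntE (k q : ℕ) (G : ℕ → Bool) (cl : ℕ → ℕ) (g : Bool) (r t : ℕ) : ℕ :=
  Nat.count (fun j => G (wedge k q j) = g ∧ cl (wedge k q j) = r) t

section basic

variable (k q : ℕ) (G : ℕ → Bool) (cl : ℕ → ℕ)

lemma cntE_zero (g : Bool) (r : ℕ) : cntE k q G cl g r 0 = 0 := rfl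

lemma cntE_succ (g : Bool) (r t : ℕ) :
    cntE k q G cl g r (t + 1) = cntE k q G cl g r t +
      if G (wedge k q t) = g ∧ cl (wedge k q t) = r then 1 else 0 := by
  unfold cntE; rw [Nat.count_succ]

lemma cntE_mono (g : Bool) (r : ℕ) : Monotone (cntE k q G cl g r) :=
  Nat.count_monotone _

end basic

variable {k h q : ℕ} {G : ℕ → Bool} {cl : ℕ → ℕ}

lemma cntE_lo {cp : ℕ → ℕ} (hcp0 : cp 0 = 0)
    (hcp : ∀ i, cp (i + 1) = cp i + if cl (i + 1) = 1 then 1 else 0)
    (hq : q < k) (t : ℕ) (ht : t ≤ k) :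
    cntE k q G cl true 1 t + cntE k q G cl false 1 t + cp q =
      if q + t ≤ k then cp (q + t) else cp k + cp (q + t - k) := by
  induction t with
  | zero => simp [cntE_zero, hq.le]
  | succ t ih =>
    have ih' := ih (by omega)
    have hstep : (if q + (t + 1) ≤ k then cp (q + (t + 1)) else cp k + cp (q + (t + 1) - k)) =
        (if q + t ≤ k then cp (q + t) else cp k + cp (q + t - k)) +
          if cl (wedge k q t) = 1 then 1 else 0 := by
      unfold wedge
      by_cases h1 : q + (t + 1) ≤ k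
      · rw [if_pos h1, if_pos (by omega : q + t ≤ k), if_pos (by omega : q + 1 + t ≤ k)]
        have h2 : q + 1 + t = q + t + 1 := by omega
        have h3 : q + (t + 1) = q + t + 1 := by omega
        rw [h2, h3]
        exact hcp (q + t)
      · by_cases h2 : q + t ≤ k
        · have h3 : q + t = k := by omega
          rw [if_neg h1, if_pos h2, if_neg (by omega : ¬ q + 1 + t ≤ k), h3]
          have h4 : q + (t + 1) - k = 0 + 1 := by omega
          have h5 : q + 1 + t - k = 0 + 1 := by omega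
          rw [h4, h5, hcp 0, hcp0, zero_add]
        · rw [if_neg h1, if_neg h2, if_neg (by omega : ¬ q + 1 + t ≤ k)]
          have h4 : q + (t + 1) - k = (q + t - k) + 1 := by omega
          have h5 : q + 1 + t - k = (q + t - k) + 1 := by omega
          rw [h4, h5, hcp (q + t - k), add_assoc]
    rw [hstep, ← ih', cntE_succ, cntE_succ]
    cases hG : G (wedge k q t) <;> by_cases hw : cl (wedge k q t) = 1 <;> simp [hw] <;> omega

lemma cntE_all (hcl : ∀ e, cl e ≤ 1) (t : ℕ) :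
    cntE k q G cl true 1 t + cntE k q G cl false 1 t + cntE k q G cl true 0 t +
      cntE k q G cl false 0 t = t := by
  induction t with
  | zero => simp [cntE_zero]
  | succ t ih =>
    rw [cntE_succ, cntE_succ, cntE_succ, cntE_succ]
    have hw : cl (wedge k q t) = 0 ∨ cl (wedge k q t) = 1 := by
      have := hcl (wedge k q t)
      omega
    rcases hw with hw | hw <;> cases hG : G (wedge k q t) <;> simp [hw] <;> omega

lemma cntE_walk (hcl : ∀ e, cl e ≤ 1) (hq : q < k) (t : ℕ) (ht : t ≤ k) :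
    ((cntE k q G cl true 0 t : ℤ) + cntE k q G cl true 1 t) -
      (cntE k q G cl false 0 t + cntE k q G cl false 1 t) =
      if q + t ≤ k then walk G (q + t) - walk G q
      else walk G k - walk G q + walk G (q + t - k) := by
  induction t with
  | zero => simp [cntE_zero, hq.le]
  | succ t ih =>
    have ih' := ih (by omega)
    have hstep : (if q + (t + 1) ≤ k then walk G (q + (t + 1)) - walk G q
      else walk G k - walk G q + walk G (q + (t + 1) - k)) =
      (if q + t ≤ k then walk G (q + t) - walk G q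
        else walk G k - walk G q + walk G (q + t - k)) +
        if G (wedge k q t) then 1 else -1 := by
      unfold wedge
      by_cases h1 : q + (t + 1) ≤ k
      · rw [if_pos h1, if_pos (by omega : q + t ≤ k), if_pos (by omega : q + 1 + t ≤ k)]
        have : q + 1 + t = q + t + 1 := by omega
        rw [this]
        have := walk_succ G (q + t)
        rw [← add_assoc, this]
        ring
      · by_cases h2 : q + t ≤ k
        · have h3 : q + t = k := by omega
          rw [if_neg h1, if_pos h2, if_neg (by omega : ¬ q + 1 + t ≤ k), h3]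
          have h4 : q + (t + 1) - k = 0 + 1 := by omega
          have h5 : q + 1 + t - k = 0 + 1 := by omega
          rw [h4, h5, walk_succ]
          simp [walk]
        · rw [if_neg h1, if_neg h2, if_neg (by omega : ¬ q + 1 + t ≤ k)]
          have h4 : q + (t + 1) - k = (q + t - k) + 1 := by omega
          have h5 : q + 1 + t - k = (q + t - k) + 1 := by omega
          rw [h4, h5, walk_succ]
          ring
    rw [hstep, ← ih', cntE_succ, cntE_succ, cntE_succ, cntE_succ]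
    have hw : cl (wedge k q t) = 0 ∨ cl (wedge k q t) = 1 := by
      have := hcl (wedge k q t)
      omega
    rcases hw with hw | hw <;> cases hG : G (wedge k q t) <;> simp [hw] <;> ring

/-- The rank of an edge. -/
def rankE (k q : ℕ) (G : ℕ → Bool) (cl : ℕ → ℕ) (e : ℕ) : ℕ :=
  if G e then cntE k q G cl false (cl e) k + 1 + cntE k q G cl true (cl e) (wtime k q e)
  else cntE k q G cl false (cl e) k - cntE k q G cl false (cl e) (wtime k q e)

lemma rankE_good {e : ℕ} (h : G e = true) :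
    rankE k q G cl e = cntE k q G cl false (cl e) k + 1 +
      cntE k q G cl true (cl e) (wtime k q e) := by
  unfold rankE; rw [if_pos h]

lemma rankE_bad {e : ℕ} (h : G e = false) :
    rankE k q G cl e = cntE k q G cl false (cl e) k -
      cntE k q G cl false (cl e) (wtime k q e) := by
  unfold rankE; rw [if_neg (by simp [h])]

lemma cntE_self (hq : q < k) {e : ℕ} (h1 : 1 ≤ e) (h2 : e ≤ k)
    (g : Bool) (r : ℕ) :
    cntE k q G cl g r (wtime k q e + 1) = cntE k q G cl g r (wtime k q e) +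
      if G e = g ∧ cl e = r then 1 else 0 := by
  rw [cntE_succ, wedge_wtime hq h1 h2]

lemma cntE_lt (hq : q < k) {e : ℕ} (h1 : 1 ≤ e) (h2 : e ≤ k) {t : ℕ}
    (ht : wtime k q e < t) :
    cntE k q G cl (G e) (cl e) (wtime k q e) < cntE k q G cl (G e) (cl e) t := by
  have h3 := cntE_self (G := G) (cl := cl) hq h1 h2 (G e) (cl e)
  rw [if_pos ⟨rfl, rfl⟩] at h3
  have h4 := cntE_mono k q G cl (G e) (cl e) (show wtime k q e + 1 ≤ t from ht)
  omega

lemma rankE_mem_good (hq : q < k) {e : ℕ} (h1 : 1 ≤ e) (h2 : e ≤ k) (hG : G e = true) :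
    cntE k q G cl false (cl e) k + 1 ≤ rankE k q G cl e ∧
      rankE k q G cl e ≤ cntE k q G cl false (cl e) k + cntE k q G cl true (cl e) k := by
  rw [rankE_good hG]
  have h3 := cntE_lt (G := G) (cl := cl) hq h1 h2 (wtime_lt hq h1 h2)
  rw [hG] at h3
  omega

lemma rankE_mem_bad (hq : q < k) {e : ℕ} (h1 : 1 ≤ e) (h2 : e ≤ k) (hG : G e = false) :
    1 ≤ rankE k q G cl e ∧ rankE k q G cl e ≤ cntE k q G cl false (cl e) k ∧
      rankE k q G cl e + cntE k q G cl false (cl e) (wtime k q e) =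
        cntE k q G cl false (cl e) k := by
  rw [rankE_bad hG]
  have h3 := cntE_lt (G := G) (cl := cl) hq h1 h2 (wtime_lt hq h1 h2)
  rw [hG] at h3
  omega

lemma rankE_inj (hq : q < k) {e f : ℕ} (h1 : 1 ≤ e) (h2 : e ≤ k) (h3 : 1 ≤ f) (h4 : f ≤ k)
    (hp : cl e = cl f) (hr : rankE k q G cl e = rankE k q G cl f) : e = f := by
  by_contra hne
  have hne' : wtime k q e ≠ wtime k q f := fun h => hne (wtime_inj hq h1 h2 h3 h4 h)
  wlog hlt : wtime k q e < wtime k q f generalizing e f with H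
  · exact H h3 h4 h1 h2 hp.symm hr.symm (Ne.symm hne) (Ne.symm hne') (by omega)
  have a1 := cntE_lt (G := G) (cl := cl) hq h1 h2 hlt
  cases hGe : G e <;> cases hGf : G f
  · rw [hGe] at a1
    have a2 := rankE_mem_bad (cl := cl) hq h1 h2 hGe
    have a3 := rankE_mem_bad (cl := cl) hq h3 h4 hGf
    rw [← hp] at a3
    omega
  · have a2 := rankE_mem_bad (cl := cl) hq h1 h2 hGe
    have a3 := rankE_mem_good (cl := cl) hq h3 h4 hGf
    rw [← hp] at a3
    omega
  · have a2 := rankE_mem_good (cl := cl) hq h1 h2 hGe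
    have a3 := rankE_mem_bad (cl := cl) hq h3 h4 hGf
    rw [← hp] at a3
    omega
  · rw [hGe] at a1
    rw [rankE_good hGe, rankE_good hGf, ← hp] at hr
    omega

/-- junction sum -/
def juncE (k q : ℕ) (G : ℕ → Bool) (cl : ℕ → ℕ) (i : ℕ) : ℕ :=
  rankE k q G cl i + rankE k q G cl (i + 1)

/-- junction at an unloaded vertex, good -/
lemma juncE_good (hq : q < k) {i : ℕ} (h1 : 1 ≤ i) (h2 : i < k) (h3 : i ≠ q)
    (hc : cl i + cl (i + 1) = 1) (hG : G i = true) (hG' : G (i + 1) = true) :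
    juncE k q G cl i = cntE k q G cl false 1 k + cntE k q G cl false 0 k + 2 +
      cntE k q G cl true (cl i) (wtime k q i) + cntE k q G cl true (cl (i + 1)) (wtime k q i + 1) := by
  unfold juncE
  rw [rankE_good hG, rankE_good hG', wtime_succ hq h1 h2 h3]
  have h4 : cl i = 0 ∧ cl (i + 1) = 1 ∨ cl i = 1 ∧ cl (i + 1) = 0 := by omega
  rcases h4 with ⟨h4, h5⟩ | ⟨h4, h5⟩
  · rw [h4, h5]; ring
  · rw [h4, h5]; ring

/-- junction at an unloaded vertex, bad -/
lemma juncE_bad (hq : q < k) {i : ℕ} (h1 : 1 ≤ i) (h2 : i < k) (h3 : i ≠ q)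
    (hc : cl i + cl (i + 1) = 1) (hG : G i = false) (hG' : G (i + 1) = false) :
    juncE k q G cl i + cntE k q G cl false (cl i) (wtime k q i) +
      cntE k q G cl false (cl (i + 1)) (wtime k q i + 1) =
      cntE k q G cl false 1 k + cntE k q G cl false 0 k := by
  unfold juncE
  have a1 := (rankE_mem_bad (cl := cl) hq h1 h2.le hG).2.2
  have a2 := (rankE_mem_bad (cl := cl) hq (by omega) (show i + 1 ≤ k by omega) hG').2.2
  rw [wtime_succ hq h1 h2 h3] at a2
  have h4 : cl i = 0 ∧ cl (i + 1) = 1 ∨ cl i = 1 ∧ cl (i + 1) = 0 := by omega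
  rcases h4 with ⟨h4, h5⟩ | ⟨h4, h5⟩
  · rw [h4] at a1
    rw [h5] at a2
    rw [h4, h5]; omega
  · rw [h4] at a1
    rw [h5] at a2
    rw [h4, h5]; omega

lemma juncE_inj (hq : q < k) {i j : ℕ} (h1 : 1 ≤ i) (h2 : i < k) (h3 : i ≠ q)
    (hci : cl i + cl (i + 1) = 1) (hi : G i = G (i + 1)) (h4 : 1 ≤ j) (h5 : j < k) (h6 : j ≠ q)
    (hcj : cl j + cl (j + 1) = 1) (hj : G j = G (j + 1))
    (hJ : juncE k q G cl i = juncE k q G cl j) : i = j := by
  by_contra hne
  have hne' : wtime k q i ≠ wtime k q j := fun h => hne (wtime_inj hq h1 h2.le h4 h5.le h)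
  wlog hlt : wtime k q i < wtime k q j generalizing i j with H
  · exact H h4 h5 h6 hcj hj h1 h2 h3 hci hi hJ.symm (Ne.symm hne) (Ne.symm hne') (by omega)
  have b1 := cntE_lt (G := G) (cl := cl) hq h1 h2.le hlt
  have b2 := cntE_lt (G := G) (cl := cl) hq h1 h2.le (show wtime k q i < wtime k q j + 1 by omega)
  have b3 : ∀ g r, cntE k q G cl g r (wtime k q i + 1) ≤ cntE k q G cl g r (wtime k q j) :=
    fun g r => cntE_mono k q G cl g r hlt
  have b4 : ∀ g r, cntE k q G cl g r (wtime k q i + 1) ≤ cntE k q G cl g r (wtime k q j + 1) :=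
    fun g r => cntE_mono k q G cl g r (by omega)
  have hi4 : cl i = 0 ∧ cl (i + 1) = 1 ∨ cl i = 1 ∧ cl (i + 1) = 0 := by omega
  have hj4 : cl j = 0 ∧ cl (j + 1) = 1 ∨ cl j = 1 ∧ cl (j + 1) = 0 := by omega
  cases hGi : G i <;> cases hGj : G j
  · rw [hGi] at b1 b2
    have a1 := juncE_bad hq h1 h2 h3 hci hGi (by rw [← hi]; exact hGi)
    have a2 := juncE_bad hq h4 h5 h6 hcj hGj (by rw [← hj]; exact hGj)
    have b5 := b3 false (cl (i + 1))
    have b6 := b4 false (cl (i + 1))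
    rcases hi4 with ⟨c1, c2⟩ | ⟨c1, c2⟩ <;> rcases hj4 with ⟨c3, c4⟩ | ⟨c3, c4⟩ <;>
      rw [c1] at b1 b2 a1 <;> rw [c2] at b5 b6 a1 <;> rw [c3, c4] at a2 <;> omega
  · have a1 := juncE_bad hq h1 h2 h3 hci hGi (by rw [← hi]; exact hGi)
    have a2 := juncE_good hq h4 h5 h6 hcj hGj (by rw [← hj]; exact hGj)
    omega
  · have a1 := juncE_good hq h1 h2 h3 hci hGi (by rw [← hi]; exact hGi)
    have a2 := juncE_bad hq h4 h5 h6 hcj hGj (by rw [← hj]; exact hGj)
    omega
  · rw [hGi] at b1 b2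
    have a1 := juncE_good hq h1 h2 h3 hci hGi (by rw [← hi]; exact hGi)
    have a2 := juncE_good hq h4 h5 h6 hcj hGj (by rw [← hj]; exact hGj)
    have b5 := b3 true (cl (i + 1))
    have b6 := b4 true (cl (i + 1))
    rcases hi4 with ⟨c1, c2⟩ | ⟨c1, c2⟩ <;> rcases hj4 with ⟨c3, c4⟩ | ⟨c3, c4⟩ <;>
      rw [c1] at b1 b2 a1 <;> rw [c2] at b5 b6 a1 <;> rw [c3, c4] at a2 <;> omega

/-- junctions at loaded vertices -/
lemma juncE_max_lo (hq : q < k) {i : ℕ} (h1 : 1 ≤ i) (h2 : i < k) (h3 : i ≠ q)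
    (hG : G i = true) (hG' : G (i + 1) = false) (hi : cl i = 1) (hi' : cl (i + 1) = 0) :
    juncE k q G cl i + cntE k q G cl false 0 (wtime k q i + 1) = cntE k q G cl false 1 k +
      cntE k q G cl false 0 k + cntE k q G cl true 1 (wtime k q i + 1) ∧
    cntE k q G cl false 0 (wtime k q i + 1) + 1 ≤ cntE k q G cl false 0 k ∧
    1 ≤ cntE k q G cl true 1 (wtime k q i + 1) := by
  have a1 := rankE_good (k := k) (q := q) (cl := cl) hG
  have a2 := rankE_mem_bad (cl := cl) hq (by omega) (show i + 1 ≤ k by omega) hG'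
  have a3 := cntE_self (G := G) (cl := cl) hq h1 h2.le true 1
  have a4 := wtime_succ hq h1 h2 h3
  rw [if_pos ⟨hG, hi⟩] at a3
  rw [hi] at a1
  rw [hi', a4] at a2
  unfold juncE
  omega

lemma juncE_max_hi (hq : q < k) {i : ℕ} (h1 : 1 ≤ i) (h2 : i < k) (h3 : i ≠ q)
    (hG : G i = true) (hG' : G (i + 1) = false) (hi : cl i = 0) (hi' : cl (i + 1) = 1) :
    juncE k q G cl i + cntE k q G cl false 1 (wtime k q i + 1) = cntE k q G cl false 1 k +
      cntE k q G cl false 0 k + cntE k q G cl true 0 (wtime k q i + 1) ∧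
    cntE k q G cl false 1 (wtime k q i + 1) + 1 ≤ cntE k q G cl false 1 k ∧
    1 ≤ cntE k q G cl true 0 (wtime k q i + 1) := by
  have a1 := rankE_good (k := k) (q := q) (cl := cl) hG
  have a2 := rankE_mem_bad (cl := cl) hq (by omega) (show i + 1 ≤ k by omega) hG'
  have a3 := cntE_self (G := G) (cl := cl) hq h1 h2.le true 0
  have a4 := wtime_succ hq h1 h2 h3
  rw [if_pos ⟨hG, hi⟩] at a3
  rw [hi] at a1
  rw [hi', a4] at a2
  unfold juncE
  omega

lemma juncE_min_lo (hq : q < k) {i : ℕ} (h1 : 1 ≤ i) (h2 : i < k) (h3 : i ≠ q)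
    (hG : G i = false) (hG' : G (i + 1) = true) (hi : cl i = 1) (hi' : cl (i + 1) = 0) :
    juncE k q G cl i + cntE k q G cl false 1 (wtime k q i + 1) = cntE k q G cl false 1 k +
      cntE k q G cl false 0 k + 2 + cntE k q G cl true 0 (wtime k q i + 1) ∧
    cntE k q G cl true 0 (wtime k q i + 1) + 1 ≤ cntE k q G cl true 0 k ∧
    1 ≤ cntE k q G cl false 1 (wtime k q i + 1) ∧
    cntE k q G cl false 1 (wtime k q i + 1) ≤ cntE k q G cl false 1 k := by
  have a1 := rankE_good (k := k) (q := q) (cl := cl) hG'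
  have a1' := rankE_mem_good (cl := cl) hq (by omega) (show i + 1 ≤ k by omega) hG'
  have a2 := rankE_mem_bad (cl := cl) hq h1 h2.le hG
  have a3 := cntE_self (G := G) (cl := cl) hq h1 h2.le false 1
  have a4 := wtime_succ hq h1 h2 h3
  rw [if_pos ⟨hG, hi⟩] at a3
  rw [hi', a4] at a1
  rw [hi'] at a1'
  rw [hi] at a2
  unfold juncE
  omega

lemma juncE_min_hi (hq : q < k) {i : ℕ} (h1 : 1 ≤ i) (h2 : i < k) (h3 : i ≠ q)
    (hG : G i = false) (hG' : G (i + 1) = true) (hi : cl i = 0) (hi' : cl (i + 1) = 1) :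
    juncE k q G cl i + cntE k q G cl false 0 (wtime k q i + 1) = cntE k q G cl false 1 k +
      cntE k q G cl false 0 k + 2 + cntE k q G cl true 1 (wtime k q i + 1) ∧
    cntE k q G cl true 1 (wtime k q i + 1) + 1 ≤ cntE k q G cl true 1 k ∧
    1 ≤ cntE k q G cl false 0 (wtime k q i + 1) ∧
    cntE k q G cl false 0 (wtime k q i + 1) ≤ cntE k q G cl false 0 k := by
  have a1 := rankE_good (k := k) (q := q) (cl := cl) hG'
  have a1' := rankE_mem_good (cl := cl) hq (by omega) (show i + 1 ≤ k by omega) hG'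
  have a2 := rankE_mem_bad (cl := cl) hq h1 h2.le hG
  have a3 := cntE_self (G := G) (cl := cl) hq h1 h2.le false 0
  have a4 := wtime_succ hq h1 h2 h3
  rw [if_pos ⟨hG, hi⟩] at a3
  rw [hi', a4] at a1
  rw [hi'] at a1'
  rw [hi] at a2
  unfold juncE
  omega

/-- The counts after the edge `i`. -/
lemma cntE_at {cp : ℕ → ℕ} (hcp0 : cp 0 = 0)
    (hcp : ∀ i, cp (i + 1) = cp i + if cl (i + 1) = 1 then 1 else 0) (hcl : ∀ e, cl e ≤ 1)
    (hq : q < k) {i : ℕ} (h1 : 1 ≤ i) (h2 : i < k) (h3 : i ≠ q) :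
    (q < i ∧
      cntE k q G cl true 1 (wtime k q i + 1) + cntE k q G cl false 1 (wtime k q i + 1) + cp q =
        cp i ∧
      cntE k q G cl true 1 (wtime k q i + 1) + cntE k q G cl false 1 (wtime k q i + 1) +
        cntE k q G cl true 0 (wtime k q i + 1) + cntE k q G cl false 0 (wtime k q i + 1) + q = i ∧
      ((cntE k q G cl true 0 (wtime k q i + 1) : ℤ) + cntE k q G cl true 1 (wtime k q i + 1)) -
        (cntE k q G cl false 0 (wtime k q i + 1) + cntE k q G cl false 1 (wtime k q i + 1)) =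
        walk G i - walk G q) ∨
    (i < q ∧
      cntE k q G cl true 1 (wtime k q i + 1) + cntE k q G cl false 1 (wtime k q i + 1) + cp q =
        cp k + cp i ∧
      cntE k q G cl true 1 (wtime k q i + 1) + cntE k q G cl false 1 (wtime k q i + 1) +
        cntE k q G cl true 0 (wtime k q i + 1) + cntE k q G cl false 0 (wtime k q i + 1) + q =
          k + i ∧
      ((cntE k q G cl true 0 (wtime k q i + 1) : ℤ) + cntE k q G cl true 1 (wtime k q i + 1)) -
        (cntE k q G cl false 0 (wtime k q i + 1) + cntE k q G cl false 1 (wtime k q i + 1)) =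
        walk G k - walk G q + walk G i) := by
  have ht := wtime_lt hq h1 h2.le
  have c1 := cntE_lo (G := G) hcp0 hcp hq (wtime k q i + 1) ht
  have c2 := cntE_all (k := k) (q := q) (G := G) hcl (wtime k q i + 1)
  have c3 := cntE_walk (G := G) hcl hq (wtime k q i + 1) ht
  rcases lt_or_gt_of_ne h3 with hlt | hgt
  · right
    have e1 : q + (wtime k q i + 1) = i + k := by unfold wtime; rw [if_neg (by omega)]; omega
    rw [if_neg (by omega), e1, Nat.add_sub_cancel] at c3 c1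
    refine ⟨hlt, c1, by omega, c3⟩
  · left
    have e1 : q + (wtime k q i + 1) = i := by unfold wtime; rw [if_pos (by omega)]; omega
    rw [if_pos (by omega), e1] at c3 c1
    refine ⟨hgt, c1, by omega, c3⟩

/-- The class function for `k` even with two high edges at the even vertex `z0`. -/
def clz (z0 e : ℕ) : ℕ := if e ≤ z0 then e % 2 else (e + 1) % 2

/-- number of low edges among the first `i` -/
def cpz (z0 i : ℕ) : ℕ := if i ≤ z0 then (i + 1) / 2 else i / 2

lemma clz_le (z0 e : ℕ) : clz z0 e ≤ 1 := by unfold clz; split_ifs <;> omega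

lemma cpz_zero (z0 : ℕ) : cpz z0 0 = 0 := by unfold cpz; simp

lemma cpz_succ {z0 : ℕ} (hz : z0 % 2 = 0) (i : ℕ) :
    cpz z0 (i + 1) = cpz z0 i + if clz z0 (i + 1) = 1 then 1 else 0 := by
  unfold cpz clz
  split_ifs <;> omega

lemma clz_add {z0 i : ℕ} (hi : i ≠ z0) : clz z0 i + clz z0 (i + 1) = 1 := by
  unfold clz; split_ifs <;> omega

/-- A window for `k = 2 h` with two high edges at `z0`. -/
structure WinE (k h z0 q : ℕ) (ld : ℕ → Prop) (G : ℕ → Bool) : Prop where
  k_eq : k = 2 * h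
  z_even : z0 % 2 = 0
  z_ld : ld z0
  q_lt : q < k
  ld_mem : ∀ i, ld i → 1 ≤ i ∧ i < k
  ld_iff : ∀ i, 1 ≤ i → i < k → (ld i ↔ G i ≠ G (i + 1))
  q_or : q = 0 ∨ ld q

lemma WinE.ne_q {k h z0 q : ℕ} {ld : ℕ → Prop} {G : ℕ → Bool} (hS : WinE k h z0 q ld G) {i : ℕ}
    (h1 : 1 ≤ i) (h2 : ¬ ld i) : i ≠ q := by
  intro h3
  rcases hS.q_or with h0 | h0
  · omega
  · exact h2 (h3 ▸ h0)

lemma WinE.eq_of_not {k h z0 q : ℕ} {ld : ℕ → Prop} {G : ℕ → Bool} (hS : WinE k h z0 q ld G)
    {i : ℕ} (h1 : 1 ≤ i) (h2 : i < k) (h3 : ¬ ld i) : G i = G (i + 1) := by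
  by_contra hc
  exact h3 ((hS.ld_iff i h1 h2).2 hc)

section win

variable {z0 : ℕ} {ld : ℕ → Prop}

lemma WinE.tot (hS : WinE k h z0 q ld G) :
    cntE k q G (clz z0) true 1 k + cntE k q G (clz z0) false 1 k = h ∧
    cntE k q G (clz z0) true 0 k + cntE k q G (clz z0) false 0 k = h := by
  have hz := hS.ld_mem z0 hS.z_ld
  have hk := hS.k_eq
  have h1 := cntE_lo (G := G) (cpz_zero z0) (cpz_succ hS.z_even) hS.q_lt k le_rfl
  have h2 := cntE_all (k := k) (q := q) (G := G) (clz_le z0) k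
  have h3 : cpz z0 k = h := by unfold cpz; split_ifs <;> omega
  have h4 : (if q + k ≤ k then cpz z0 (q + k) else cpz z0 k + cpz z0 (q + k - k)) =
      cpz z0 k + cpz z0 q := by
    split_ifs with hc
    · have : q = 0 := by omega
      subst this
      rw [zero_add, cpz_zero]; rfl
    · rw [Nat.add_sub_cancel]
  rw [h4] at h1
  omega

lemma WinE.two_bad (hS : WinE k h z0 q ld G) :
    (2 * (cntE k q G (clz z0) false 1 k + cntE k q G (clz z0) false 0 k) : ℤ) = k - walk G k := by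
  have h1 := cntE_walk (G := G) (clz_le z0) hS.q_lt k le_rfl
  have h2 := hS.tot
  have hk := hS.k_eq
  have h4 : ((cntE k q G (clz z0) true 0 k : ℤ) + cntE k q G (clz z0) true 1 k) -
      (cntE k q G (clz z0) false 0 k + cntE k q G (clz z0) false 1 k) = walk G k := by
    rw [h1]
    split_ifs with hc
    · have : q = 0 := by omega
      subst this
      simp [walk]
    · rw [Nat.add_sub_cancel]
      ring
  omega

/-- (L2) -/
lemma WinE.big (hS : WinE k h z0 q ld G) (hneg : walk G k ≤ 0) {i : ℕ} (hi : ld i) (hiq : i ≠ q)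
    (hiz : i ≠ z0)
    (hcase : (q = 0 ∧ walk G k ≤ walk G i) ∨
      (walk G q < walk G k ∧ walk G q ≤ walk G i ∧ (walk G i = walk G q → q ≤ i))) :
    h ≤ juncE k q G (clz z0) i := by
  have hm := hS.ld_mem i hi
  have hz := hS.ld_mem z0 hS.z_ld
  have hze := hS.z_even
  have hq := hS.q_lt
  have hk := hS.k_eq
  have hB := hS.two_bad
  have hne := (hS.ld_iff i hm.1 hm.2).1 hi
  have hat := cntE_at (G := G) (cpz_zero z0) (cpz_succ hS.z_even) (clz_le z0) hq hm.1 hm.2 hiq
  have hcl := clz_add (z0 := z0) hiz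
  have hq0 : q = 0 → walk G q = 0 := by rintro rfl; rfl
  have hcpk : cpz z0 k = h := by unfold cpz; split_ifs <;> omega
  have hcpq : (q ≤ z0 ∧ cpz z0 q = (q + 1) / 2) ∨ (z0 < q ∧ cpz z0 q = q / 2) := by
    unfold cpz; split_ifs <;> omega
  have hcpi : (i < z0 ∧ cpz z0 i = (i + 1) / 2 ∧ clz z0 i = i % 2) ∨
      (z0 < i ∧ cpz z0 i = i / 2 ∧ clz z0 i = (i + 1) % 2) := by
    unfold cpz clz; split_ifs <;> omega
  have hcc : clz z0 i = 0 ∧ clz z0 (i + 1) = 1 ∨ clz z0 i = 1 ∧ clz z0 (i + 1) = 0 := by omega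
  rcases hcc with ⟨c1, c2⟩ | ⟨c1, c2⟩
  · rw [c1] at hcpi
    cases hGi : G i <;> cases hGi' : G (i + 1)
    · exact absurd (hGi.trans hGi'.symm) hne
    · have := juncE_min_hi hq hm.1 hm.2 hiq hGi hGi' c1 c2
      rcases hat with ⟨a1, a2, a3, a4⟩ | ⟨a1, a2, a3, a4⟩ <;>
        rcases hcpi with ⟨b1, b2, b3⟩ | ⟨b1, b2, b3⟩ <;>
        rcases hcpq with ⟨b4, b5⟩ | ⟨b4, b5⟩ <;> omega
    · have := juncE_max_hi hq hm.1 hm.2 hiq hGi hGi' c1 c2
      rcases hat with ⟨a1, a2, a3, a4⟩ | ⟨a1, a2, a3, a4⟩ <;>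
        rcases hcpi with ⟨b1, b2, b3⟩ | ⟨b1, b2, b3⟩ <;>
        rcases hcpq with ⟨b4, b5⟩ | ⟨b4, b5⟩ <;> omega
    · exact absurd (hGi.trans hGi'.symm) hne
  · rw [c1] at hcpi
    cases hGi : G i <;> cases hGi' : G (i + 1)
    · exact absurd (hGi.trans hGi'.symm) hne
    · have := juncE_min_lo hq hm.1 hm.2 hiq hGi hGi' c1 c2
      rcases hat with ⟨a1, a2, a3, a4⟩ | ⟨a1, a2, a3, a4⟩ <;>
        rcases hcpi with ⟨b1, b2, b3⟩ | ⟨b1, b2, b3⟩ <;>
        rcases hcpq with ⟨b4, b5⟩ | ⟨b4, b5⟩ <;> omega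
    · have := juncE_max_lo hq hm.1 hm.2 hiq hGi hGi' c1 c2
      rcases hat with ⟨a1, a2, a3, a4⟩ | ⟨a1, a2, a3, a4⟩ <;>
        rcases hcpi with ⟨b1, b2, b3⟩ | ⟨b1, b2, b3⟩ <;>
        rcases hcpq with ⟨b4, b5⟩ | ⟨b4, b5⟩ <;> omega
    · exact absurd (hGi.trans hGi'.symm) hne

end win

theorem exists_colour' (k : ℕ) (ld : ℕ → Prop) :
    ∃ G : ℕ → Bool, (∀ i, 1 ≤ i → i < k → (ld i ↔ G i ≠ G (i + 1))) ∧ walk G k ≤ 0 := by
  classical
  have hcol : ∀ c : Bool, ∀ i, 1 ≤ i → i < k → (ld i ↔ col ld c i ≠ col ld c (i + 1)) := by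
    intro c i _ _
    show ld i ↔ col ld c i ≠ (if ld i then !(col ld c i) else col ld c i)
    by_cases hi : ld i
    · simp [hi]
    · simp [hi]
  rcases le_total (walk (col ld true) k) 0 with h1 | h1
  · exact ⟨_, hcol true, h1⟩
  · refine ⟨_, hcol false, ?_⟩
    rw [walk_not (col ld true) (col ld false) (fun e => col_not ld true e)]
    omega

/-- Ranks for `k` even. -/
structure RankE (k h z0 q : ℕ) (ld : ℕ → Prop) (rk : ℕ → ℕ) : Prop where
  k_eq : k = 2 * h
  z_even : z0 % 2 = 0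
  z_ld : ld z0
  lo_mem : ∀ e, 1 ≤ e → e ≤ k → clz z0 e = 1 → 1 ≤ rk e ∧ rk e ≤ h
  hi_mem : ∀ e, 1 ≤ e → e ≤ k → clz z0 e = 0 → 1 ≤ rk e ∧ rk e ≤ h
  inj : ∀ e f, 1 ≤ e → e ≤ k → 1 ≤ f → f ≤ k → clz z0 e = clz z0 f → rk e = rk f → e = f
  cdist : ∀ i j, 1 ≤ i → i < k → 1 ≤ j → j < k → ¬ ld i → ¬ ld j →
    rk i + rk (i + 1) = rk j + rk (j + 1) → i = j
  big : ∀ i, ld i → i ≠ q → i ≠ z0 → h ≤ rk i + rk (i + 1)

theorem exists_rankE {k h z0 : ℕ} (hk : k = 2 * h) (ld : ℕ → Prop)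
    (hld : ∀ i, ld i → 1 ≤ i ∧ i < k) (hz : z0 % 2 = 0) (hz0 : ld z0) :
    ∃ q rk, RankE k h z0 q ld rk := by
  classical
  have hzm := hld z0 hz0
  obtain ⟨G, hG1, hG2⟩ := exists_colour' k ld
  -- the seam
  obtain ⟨q, hqk, hqor, hcase⟩ : ∃ q, q < k ∧ (q = 0 ∨ ld q) ∧
      ((q = 0 ∧ ∀ i, ld i → walk G k ≤ walk G i) ∨
      (walk G q < walk G k ∧ ∀ i, ld i → walk G q ≤ walk G i ∧
        (walk G i = walk G q → q ≤ i))) := by
    by_cases hex : ∃ i, ld i ∧ walk G i < walk G k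
    · obtain ⟨i0, hi0, hi0'⟩ := hex
      let H : Finset ℕ := (Finset.range k).filter ld
      have hH : ∀ i, i ∈ H ↔ ld i := by
        intro i
        rw [Finset.mem_filter, Finset.mem_range]
        exact ⟨fun h => h.2, fun h => ⟨(hld i h).2, h⟩⟩
      obtain ⟨q, hq1, hq2⟩ := Finset.exists_min_image H (fun i => walk G i * (k + 1) + i)
        ⟨i0, (hH i0).2 hi0⟩
      have hq1' := (hH q).1 hq1
      have key : ∀ i, ld i → walk G q ≤ walk G i ∧ (walk G i = walk G q → q ≤ i) := by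
        intro i hi
        have h1 : walk G q * (k + 1) + q ≤ walk G i * (k + 1) + i := hq2 i ((hH i).2 hi)
        have h2 := (hld i hi).2
        constructor
        · by_contra hc
          have h3 : walk G i + 1 ≤ walk G q := by omega
          have h4 : (walk G i + 1) * ((k : ℤ) + 1) ≤ walk G q * (k + 1) :=
            mul_le_mul_of_nonneg_right h3 (by positivity)
          have h5 : (walk G i + 1) * ((k : ℤ) + 1) = walk G i * (k + 1) + (k + 1) := by ring
          omega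
        · intro h3
          rw [h3] at h1
          omega
      exact ⟨q, (hld q hq1').2, Or.inr hq1', Or.inr ⟨lt_of_le_of_lt (key i0 hi0).1 hi0', key⟩⟩
    · refine ⟨0, by omega, Or.inl rfl, Or.inl ⟨rfl, fun i hi => ?_⟩⟩
      by_contra hc
      exact hex ⟨i, hi, by omega⟩
  have hS : WinE k h z0 q ld G := ⟨hk, hz, hz0, hqk, hld, hG1, hqor⟩
  have htot := hS.tot
  have hmem : ∀ e, 1 ≤ e → e ≤ k → 1 ≤ rankE k q G (clz z0) e ∧ rankE k q G (clz z0) e ≤ h := by
    intro e h1 h2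
    have hc : clz z0 e = 0 ∨ clz z0 e = 1 := by have := clz_le z0 e; omega
    cases hG : G e
    · have := rankE_mem_bad (cl := clz z0) hqk h1 h2 hG
      rcases hc with hc | hc <;> rw [hc] at this <;> omega
    · have := rankE_mem_good (cl := clz z0) hqk h1 h2 hG
      rcases hc with hc | hc <;> rw [hc] at this <;> omega
  refine ⟨q, rankE k q G (clz z0), hk, hz, hz0, fun e h1 h2 _ => hmem e h1 h2,
    fun e h1 h2 _ => hmem e h1 h2, ?_, ?_, ?_⟩
  · intro e f h1 h2 h3 h4 h5 h6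
    exact rankE_inj hqk h1 h2 h3 h4 h5 h6
  · intro i j h1 h2 h3 h4 h5 h6 h7
    have hiz : i ≠ z0 := fun h => h5 (h ▸ hz0)
    have hjz : j ≠ z0 := fun h => h6 (h ▸ hz0)
    exact juncE_inj hqk h1 h2 (hS.ne_q h1 h5) (clz_add hiz) (hS.eq_of_not h1 h2 h5) h3 h4
      (hS.ne_q h3 h6) (clz_add hjz) (hS.eq_of_not h3 h4 h6) h7
  · intro i hi hiq hiz
    refine hS.big hG2 hi hiq hiz ?_
    rcases hcase with ⟨h0, h1⟩ | ⟨h1, h2⟩
    · exact Or.inl ⟨h0, h1 i hi⟩
    · exact Or.inr ⟨h1, h2 i hi⟩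

end Pool.Agent.Lob89
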