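import Pool.Agent.Lob89.PureEvenMid
import Pool.Agent.Lob89.PureEvenWalk
import Pool.Agent.Lob89.PureR2E
import Pool.Agent.Lob34.PureEven

/-!
The pure class, `K` even.
-/

namespace Pool.Agent.Lob89

open Finset

set_option linter.unusedSectionVars false

variable {Lf B BL : Type*} [Fintype Lf] [Fintype B] [Fintype BL] [DecidableEq B]

lemma card_ne_one {la : Lf → ℕ} {β : ℕ} (hinj : Function.Injective la)
    (hβ : (β = 0 ∧ ∀ x, la x ≠ 1) ∨ (β = 1 ∧ ∃ x, la x = 1)) :
    Fintype.card Lf = Fintype.card {x // la x ≠ 1} + β := by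
  classical
  have h1 : Fintype.card {x // la x ≠ 1} = Fintype.card Lf - Fintype.card {x // la x = 1} := by
    rw [Fintype.card_subtype_compl]
  have h2 : Fintype.card {x // la x = 1} ≤ Fintype.card Lf := Fintype.card_subtype_le _
  have h3 : Fintype.card {x // la x = 1} = β := by
    rcases hβ with ⟨h3, h4⟩ | ⟨h3, x, h4⟩
    · rw [h3]
      exact Fintype.card_eq_zero_iff.2 ⟨fun y => h4 _ y.2⟩
    · rw [h3]
      exact Fintype.card_eq_one_iff.2 ⟨⟨x, h4⟩, fun y => Subtype.ext (hinj (y.2.trans h4.symm))⟩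
  omega

/-- Regime 1, no special leaf. -/
theorem fat_ord {K h q : ℕ} {la : Lf → ℕ} {ba : B → ℕ} {par : BL → B}
    {last : B → BL} {two : B → Prop} [DecidablePred two] {G : ℕ → Bool}
    (hd : LobData K la ba par) (hP : PureData la ba par last two)
    (hK : K = 2 * h + 2) (hh : 1 ≤ h) (hW : Win (2 * h + 1) h q (ldf la ba) G)
    (β n' : ℕ) (hβ : (β = 0 ∧ ∀ x, la x ≠ 1) ∨ (β = 1 ∧ ∃ x, la x = 1))
    (hn' : n' = Fintype.card {b // two b} + β)
    (hA : ∀ x, la x ≠ 1 → h ≤ n' + junc (2 * h + 1) q G (la x - 1))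
    (hτ : ∀ a, ∃ τ, Tops (2 * h + 1) h q n' G la ba (lw1 a) (fun _ => False) τ) :
    HasLabels K la ba par := by
  classical
  set s := Fintype.card B with hsdef
  set n2 := Fintype.card {b // two b} with hn2
  set NA := Fintype.card {x // la x ≠ 1} with hNA
  have hcard : Fintype.card Lf = NA + β := card_ne_one hP.la_inj hβ
  have hβ1 : β ≤ 1 := by omega
  set r1 := rank (2 * h + 1) q G 1 with hr1def
  have hr1 : 1 ≤ r1 ∧ r1 ≤ h + 1 := hW.rankBase.odd_mem 1 le_rfl (by omega) rfl
  have hcM : Fintype.card {x // ¬ False ∧ la x ≠ 1} = NA := by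
    rw [hNA]
    exact Fintype.card_congr (Equiv.subtypeEquivRight (fun x => by simp))
  by_cases hc : n' + r1 ≤ NA + s + 1
  · obtain ⟨τ, hτ'⟩ := hτ (n' + h + 2)
    have hl : ∀ v, v ≤ n' + (h + 1) → lw1 (n' + h + 2) v = v := by
      intro v hv
      unfold lw1
      rw [if_neg (by omega)]
      rfl
    refine fat_mid hd hP hK hh hW β n' (n' + h + 2 + (NA + s)) (n' + h + 1)
      (h + 3 + (NA + s) - r1) 0 (by omega) hβ hn' (by omega) (lw1 (n' + h + 2))
      (lw1_strictMono _) ?_ ?_ ?_ ?_ (fun _ => False) (fun _ _ hx => hx.elim)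
      (fun _ hx => hx.elim) 0 (fun _ hx => hx.elim)
      ((Finset.Icc (n' + h + 1 + 1) (n' + h + 2 + (NA + s))).erase (h + 3 + (NA + s) - r1))
      ?_ ?_ ?_ (fun _ hx => hx.elim) ?_ ?_ (fun _ hx => hx.elim) ?_ τ hτ'
    · rw [hl 1 (by omega)]
    · rw [hl _ le_rfl]
      omega
    · omega
    · refine ⟨by omega, by omega, fun v h1 h2 => ?_⟩
      rw [hl v h2]
      omega
    · rw [Finset.card_erase_of_mem (Finset.mem_Icc.2 ⟨by omega, by omega⟩), Nat.card_Icc, hcM]
      omega
    · intro m hm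
      exact Finset.mem_Icc.1 (Finset.mem_of_mem_erase hm)
    · exact Finset.notMem_erase _ _
    · left
      rw [hl (n' + r1) (by omega)]
      omega
    · rw [hl (n' + r1) (by omega), hl 1 (by omega), hl (n' + 1) (by omega)]
      omega
    · intro x _ hx
      exact hA x hx
  · -- `y` is a low label
    obtain ⟨y, hy1, hy2, hy3⟩ : ∃ y, 1 ≤ y ∧ y ≤ n' + h + 2 ∧
        y + lw1 y (n' + r1) = n' + h + 2 + (NA + s) + 1 := by
      by_cases hc2 : n' + r1 + 1 ≤ h + 3 + (NA + s) - r1
      · refine ⟨h + 3 + (NA + s) - r1, by omega, by omega, ?_⟩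
        unfold lw1
        rw [if_neg (by omega)]
        omega
      · refine ⟨h + 2 + (NA + s) - r1, by omega, by omega, ?_⟩
        unfold lw1
        rw [if_pos (by omega)]
        omega
    obtain ⟨τ, hτ'⟩ := hτ y
    have hadd : ∀ m n, m + lw1 y n ≤ lw1 y (m + n) := fun m n => (lw1_strictMono y).add_le_nat m n
    refine fat_mid hd hP hK hh hW β n' (n' + h + 2 + (NA + s)) (n' + h + 2)
      y 0 (by omega) hβ hn' (by omega) (lw1 y)
      (lw1_strictMono _) ?_ ?_ ?_ ?_ (fun _ => False) (fun _ _ hx => hx.elim)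
      (fun _ hx => hx.elim) 0 (fun _ hx => hx.elim)
      (Finset.Icc (n' + h + 2 + 1) (n' + h + 2 + (NA + s)))
      ?_ ?_ ?_ (fun _ hx => hx.elim) ?_ ?_ (fun _ hx => hx.elim) ?_ τ hτ'
    · unfold lw1
      omega
    · unfold lw1
      split_ifs <;> omega
    · omega
    · refine ⟨by omega, by omega, fun v h1 h2 => ?_⟩
      unfold lw1
      split_ifs <;> omega
    · rw [Nat.card_Icc, hcM]
      omega
    · intro m hm
      exact Finset.mem_Icc.1 hm
    · rw [Finset.mem_Icc]
      omega
    · left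
      rw [← hr1def]
      omega
    · have h1 := hadd n' 1
      rw [← hr1def]
      rcases hβ with ⟨hb, _⟩ | ⟨hb, _⟩
      · rw [hb, zero_mul]
        have : 1 ≤ lw1 y 1 := by unfold lw1; omega
        omega
      · rw [hb, one_mul]
        omega
    · intro x _ hx
      exact hA x hx

/-- Regime 1, sorted tops. -/
theorem fat_sorted {K h q : ℕ} {la : Lf → ℕ} {ba : B → ℕ} {par : BL → B}
    {last : B → BL} {two : B → Prop} [DecidablePred two] {G : ℕ → Bool}
    (hd : LobData K la ba par) (hP : PureData la ba par last two)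
    (hK : K = 2 * h + 2) (hh : 1 ≤ h) (hW : Win (2 * h + 1) h q (ldf la ba) G)
    (β n' : ℕ) (hβ : (β = 0 ∧ ∀ x, la x ≠ 1) ∨ (β = 1 ∧ ∃ x, la x = 1))
    (hn' : n' = Fintype.card {b // two b} + β)
    (hA : ∀ x, la x ≠ 1 → h ≤ n' + junc (2 * h + 1) q G (la x - 1))
    (hZ : ∀ b, Fintype.card B ≤ junc (2 * h + 1) q G (ba b - 1))
    (hAZ : ∀ x b, la x ≠ 1 → junc (2 * h + 1) q G (la x - 1) + 1 ≤
      h + junc (2 * h + 1) q G (ba b - 1)) :
    HasLabels K la ba par := by
  refine fat_ord hd hP hK hh hW β n' hβ hn' hA fun a => ?_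
  have hbs : ∀ i, n' + junc (2 * h + 1) q G i ≤ bs (2 * h + 1) q G n' (lw1 a) i ∧
      bs (2 * h + 1) q G n' (lw1 a) i ≤ n' + junc (2 * h + 1) q G i + 1 := by
    intro i
    have := rank_odd_even (2 * h + 1) q G i
    unfold bs lw1
    split_ifs <;> omega
  obtain ⟨τ, hτ1, _, hτ3, hτ4⟩ := greedy (fun b => bs (2 * h + 1) q G n' (lw1 a) (ba b - 1))
    (Finset.Icc 1 (Fintype.card B)) (by rw [Nat.card_Icc]; omega)
  have hτ1' : ∀ b, 1 ≤ τ b ∧ τ b ≤ Fintype.card B := fun b => Finset.mem_Icc.1 (hτ1 b)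
  refine ⟨τ, hτ1', hτ3, hτ4, fun b => ⟨ba b - 1, τ b, ?_, ?_, ?_, le_rfl⟩, ?_⟩
  · have := (hd.ev (by omega) b).1
    omega
  · have := (hd.ev (by omega) b).2
    omega
  · have h1 := hZ b
    have h2 := hτ1' b
    omega
  · intro x b _ hx
    have h1 := hAZ x b hx
    have h2 := hτ1' b
    have h3 := hbs (la x - 1)
    have h4 := hbs (ba b - 1)
    omega

/-- Regime 1, a special leaf at the seam. -/
theorem fat_special {K h q : ℕ} {la : Lf → ℕ} {ba : B → ℕ} {par : BL → B}
    {last : B → BL} {two : B → Prop} [DecidablePred two] {G : ℕ → Bool}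
    (hd : LobData K la ba par) (hP : PureData la ba par last two)
    (hK : K = 2 * h + 2) (hh : 1 ≤ h) (hW : Win (2 * h + 1) h q (ldf la ba) G)
    (hneg : walk G (2 * h + 1) < 0) (hfD : walk G q < walk G (2 * h + 1))
    (β n' : ℕ) (hβ : (β = 0 ∧ ∀ x, la x ≠ 1) ∨ (β = 1 ∧ ∃ x, la x = 1))
    (hn' : n' = Fintype.card {b // two b} + β)
    (x0 : Lf) (hq1 : 1 ≤ q) (hx0 : la x0 = q + 1) (g1 : G q = false)
    (hsp : n' + junc (2 * h + 1) q G q < h)
    (hA : ∀ x, x ≠ x0 → la x ≠ 1 → h + 1 ≤ junc (2 * h + 1) q G (la x - 1))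
    (hZ : ∀ b, Fintype.card B ≤ junc (2 * h + 1) q G (ba b - 1)) :
    HasLabels K la ba par := by
  classical
  set k := 2 * h + 1 with hk
  set s := Fintype.card B with hsdef
  set n2 := Fintype.card {b // two b} with hn2
  set NA := Fintype.card {x // la x ≠ 1} with hNA
  have hcard : Fintype.card Lf = NA + β := card_ne_one hP.la_inj hβ
  have hβ1 : β ≤ 1 := by omega
  have hlq : ldf la ba q := ⟨hq1, Or.inl ⟨x0, hx0⟩⟩
  have hmq := hW.ld_mem q hlq
  have hneq := (hW.ld_iff q hmq.1 hmq.2).1 hlq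
  have g2 : G (q + 1) = true := by
    cases hc : G (q + 1)
    · exact absurd (g1.trans hc.symm) hneq
    · rfl
  have hx01 : la x0 ≠ 1 := by omega
  have hbq : ∀ b, ba b - 1 ≠ q := by
    intro b hb
    have := (hd.ev (by omega) b).1
    exact hP.la_ne_ba x0 b (by omega)
  have hlx : ∀ x, x ≠ x0 → la x - 1 ≠ q := by
    intro x hx hxq
    apply hx
    apply hP.la_inj
    omega
  have hlA : ∀ x, la x ≠ 1 → ldf la ba (la x - 1) := by
    intro x hx
    have := hd.la_pos x
    exact ⟨by omega, Or.inl ⟨x, by omega⟩⟩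
  have hlZ : ∀ b, ldf la ba (ba b - 1) := by
    intro b
    have := (hd.ev (by omega) b).1
    exact ⟨by omega, Or.inr ⟨b, by omega⟩⟩
  have hRB := hW.rankBase
  have hpair : ∀ x b, x ≠ x0 → la x ≠ 1 →
      junc k q G (la x - 1) + 2 ≤ junc k q G (ba b - 1) + h := by
    intro x b hx hx1
    refine Lob34.L4p hW hlq g1 hneg hfD (by omega) (hlA x hx1) (hlx x hx) (hlZ b) (hbq b) ?_
    have h1 := hd.la_pos x
    have h2 := (hd.ev (by omega) b).1
    have h3 := hP.la_ne_ba x b
    omega
  -- the choice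
  have hB := hW.two_bad
  have t1 := tot_odd (G := G) hk hW.q_lt
  have t2 := tot_even (G := G) hk hW.q_lt
  have hn2s : n2 ≤ s := Fintype.card_subtype_le _
  have hNA1 : 1 ≤ NA := Fintype.card_pos_iff.2 ⟨⟨x0, hx01⟩⟩
  have hJ := hW.junc_q hlq g1 g2
  have hmb := hW.min_bounds hlq g2
  have hE := rank_odd_even k q G q
  rw [oddRank_eq] at hJ
  have hH : ChoiceHyp h n2 β (cnt k q G false 1 k) (cnt k q G false 0 k)
      (rank k q G (oddE q)) (rank k q G (evenE q)) (rank k q G 1) (rank k q G k) (NA + s) := by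
    refine ⟨hβ1, by omega, ?_, by omega, hRB.odd_mem 1 le_rfl (by omega) rfl,
      hRB.odd_mem k (by omega) le_rfl (by omega), hW.ends hq1⟩
    rcases hJ with ⟨j1, j2, j3⟩ | ⟨j1, j2, j3⟩
    · left
      have := hmb.1 j1
      omega
    · right
      have h1 := hmb.2 j1
      have h2 := hW.x2 hq1 j1 hfD
      refine ⟨j3, by omega, by omega, by omega, h2⟩
  obtain ⟨a, b, w, y, ν, hC⟩ := exists_choice hH
  have hloww := hC.loww
  have hwS := hC.wS
  have hym := hC.y_mem
  have hνm := hC.ν_mem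
  have hcd := hC.card
  have hgap := hC.gap
  have hfat := hC.fat
  rw [← hn'] at hloww hwS hym hνm hcd hgap hfat
  have hlow := lw2_strictMono (a := a) (b := b)
  have hadd : ∀ m n, m + lw2 a b n ≤ lw2 a b (m + n) := fun m n => hlow.add_le_nat m n
  have hab := hC.ab
  have hlne : ∀ v, lw2 a b v ≠ a ∧ lw2 a b v ≠ b := by
    intro v
    unfold lw2
    split_ifs <;> omega
  have hlow2 : ∀ v, v ≤ n' + (h + 1) → lw2 a b v ≤ w := fun v hv =>
    (hlow.monotone hv).trans hloww
  have hbs : ∀ i, n' + junc k q G i ≤ bs k q G n' (lw2 a b) i ∧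
      bs k q G n' (lw2 a b) i ≤ n' + junc k q G i + 2 := by
    intro i
    have := rank_odd_even k q G i
    unfold bs lw2
    split_ifs <;> omega
  have hodd' : ∀ i, 1 ≤ i → i < k → 1 ≤ rank k q G (oddE i) ∧ rank k q G (oddE i) ≤ h + 1 := by
    intro i h1 h2
    have := oddE_mem h1 h2
    exact hRB.odd_mem _ this.1 this.2.1 this.2.2.1
  have heven' : ∀ i, 1 ≤ i → i < k → 1 ≤ rank k q G (evenE i) ∧ rank k q G (evenE i) ≤ h := by
    intro i h1 h2
    have := oddE_mem h1 h2
    exact hRB.even_mem _ this.2.2.2.1 this.2.2.2.2.1 this.2.2.2.2.2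
  obtain ⟨τ, hτ1, _, hτ3, hτ4⟩ := greedy (fun c => bs k q G n' (lw2 a b) (ba c - 1))
    (Finset.Icc 1 s) (by rw [Nat.card_Icc]; omega)
  have hτ1' : ∀ b, 1 ≤ τ b ∧ τ b ≤ s := fun b => Finset.mem_Icc.1 (hτ1 b)
  have hcM : Fintype.card {x // ¬ (x = x0) ∧ la x ≠ 1} + 1 = NA := by
    have e1 : Fintype.card {x // ¬ (x = x0) ∧ la x ≠ 1} =
        ((Finset.univ.filter fun x => la x ≠ 1).erase x0).card := by
      rw [Fintype.card_subtype]
      congr 1
      ext x
      simp
    have e2 : NA = (Finset.univ.filter fun x => la x ≠ 1).card := by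
      rw [hNA, Fintype.card_subtype]
    rw [e1, e2, Finset.card_erase_of_mem (by simp [hx01])]
    have : 0 < (Finset.univ.filter fun x => la x ≠ 1).card :=
      Finset.card_pos.2 ⟨x0, by simp [hx01]⟩
    omega
  refine fat_mid hd hP hK hh hW β n' (n' + h + 2 + (NA + s)) w
      y 1 (by omega) hβ hn' (by omega) (lw2 a b) hlow ?_ hloww hwS ?_
      (fun x => x = x0) (fun _ _ h1 h2 => h1.trans h2.symm) ?_ ν ?_
      (((Finset.Icc (w + 1) (n' + h + 2 + (NA + s))).erase y).erase ν)
      ?_ ?_ ?_ ?_ ?_ ?_ ?_ ?_ τ ?_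
  · unfold lw2
    omega
  · refine ⟨hym.1, hym.2, fun v h1 h2 => ?_⟩
    have h3 := hlne v
    have h4 := hlow2 v h2
    rcases hC.y_new with h5 | h5 | h5 <;> omega
  · rintro x rfl
    exact hx01
  · intro x _
    refine ⟨hνm.1, hνm.2, hC.ne, fun v h1 h2 => ?_⟩
    have h3 := hlne v
    have h4 := hlow2 v h2
    rcases hC.ν_new with h5 | h5 | h5 <;> omega
  · have hc := hcd
    have hy := hym
    have hv := hνm
    have hwS := hwS
    have c1 : ((Finset.Icc (w + 1) (n' + h + 2 + (NA + s))).erase y).card +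
        (if w < y then 1 else 0) = n' + h + 2 + (NA + s) - w := by
      split_ifs with h1
      · rw [Finset.card_erase_of_mem (Finset.mem_Icc.2 ⟨h1, hy.2⟩), Nat.card_Icc]
        omega
      · rw [Finset.erase_eq_of_notMem (by rw [Finset.mem_Icc]; omega), Nat.card_Icc]
        omega
    have c2 : (((Finset.Icc (w + 1) (n' + h + 2 + (NA + s))).erase y).erase ν).card +
        (if w < ν then 1 else 0) =
        ((Finset.Icc (w + 1) (n' + h + 2 + (NA + s))).erase y).card := by
      split_ifs with h1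
      · have hmem : ν ∈ (Finset.Icc (w + 1) (n' + h + 2 + (NA + s))).erase y :=
          Finset.mem_erase.2 ⟨hC.ne, Finset.mem_Icc.2 ⟨h1, hv.2⟩⟩
        rw [Finset.card_erase_of_mem hmem]
        have := Finset.card_pos.2 ⟨ν, hmem⟩
        omega
      · rw [Finset.erase_eq_of_notMem (by rw [Finset.mem_erase, Finset.mem_Icc]; omega)]
        rfl
    omega
  · intro m hm
    exact Finset.mem_Icc.1 (Finset.mem_of_mem_erase (Finset.mem_of_mem_erase hm))
  · intro hm
    exact Finset.notMem_erase _ _ (Finset.mem_of_mem_erase hm)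
  · intro _ _
    exact Finset.notMem_erase _ _
  · rcases hfat with h1 | ⟨r, h1, h2, h3, h4⟩
    · exact Or.inl h1.1
    · exact Or.inr ⟨r, h1, h2, h3, h4⟩
  · rw [← hk]
    rcases hfat with h1 | ⟨r, h1, h2, h3, h4⟩
    · have h2 := hadd n' 1
      have h3 : 1 ≤ lw2 a b 1 := by unfold lw2; omega
      rcases hβ with ⟨hb, _⟩ | ⟨hb, _⟩
      · rw [hb, zero_mul]
        omega
      · rw [hb, one_mul]
        omega
    · have h5 := hlow2 (n' + r) (by omega)
      have h6 := hwS
      omega
  · rintro x rfl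
    rw [hx0, Nat.add_sub_cancel, ← hk]
    have hg := hgap
    have hbq : bs k q G n' (lw2 a b) q =
      lw2 a b (n' + rank k q G (oddE q)) + rank k q G (evenE q) := rfl
    refine ⟨by rw [hbq]; omega, fun i h1 h2 h3 => ?_⟩
    have h4 := hodd' i h1 h2
    have h5 := heven' i h1 h2
    have h6 := hlow2 (n' + rank k q G (oddE i)) (by omega)
    have hbi : bs k q G n' (lw2 a b) i =
      lw2 a b (n' + rank k q G (oddE i)) + rank k q G (evenE i) := rfl
    have hji := rank_odd_even k q G i
    rcases hg with h7 | ⟨h7, h8, h9⟩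
    · rw [hbq]
      omega
    · have h10 := hW.unloaded h1 h2 (fun hl => h3 hl.2)
      rw [oddRank_eq] at h10
      rcases h10 with ⟨h10, h11⟩ | ⟨h10, h11⟩
      · have h12 := hadd (cnt k q G false 1 k - rank k q G (oddE i)) (n' + rank k q G (oddE i))
        rw [show cnt k q G false 1 k - rank k q G (oddE i) + (n' + rank k q G (oddE i)) =
          n' + cnt k q G false 1 k by omega] at h12
        omega
      · have h12 := hadd (rank k q G (oddE i) - (cnt k q G false 1 k + 1))
          (n' + (cnt k q G false 1 k + 1))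
        rw [show rank k q G (oddE i) - (cnt k q G false 1 k + 1) +
          (n' + (cnt k q G false 1 k + 1)) = n' + rank k q G (oddE i) by omega] at h12
        omega
  · intro x hx hx1
    have := hA x hx hx1
    rw [← hk]
    omega
  · rw [← hk]
    refine ⟨hτ1', hτ3, hτ4, fun b => ⟨ba b - 1, τ b, ?_, ?_, ?_, le_rfl⟩, ?_⟩
    · have := (hd.ev (by omega) b).1
      omega
    · have := (hd.ev (by omega) b).2
      omega
    · have h1 := hZ b
      have h2 := hτ1' b
      omega
    · intro x c hx hx1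
      have h1 := hpair x c hx hx1
      have h2 := hτ1' c
      have h3 := hbs (la x - 1)
      have h4 := hbs (ba c - 1)
      omega

/-- Regime 1, at most two bushes. -/
theorem pure_fat_few {K h : ℕ} {la : Lf → ℕ} {ba : B → ℕ} {par : BL → B}
    {last : B → BL} {two : B → Prop} [DecidablePred two]
    (hd : LobData K la ba par) (hP : PureData la ba par last two) (hK : K = 2 * h + 2)
    (hh : 1 ≤ h) (hs : Fintype.card B ≤ h) (hs2 : Fintype.card B ≤ 2) :
    HasLabels K la ba par := by
  classical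
  obtain ⟨β, hβ⟩ : ∃ β : ℕ, (β = 0 ∧ ∀ x, la x ≠ 1) ∨ (β = 1 ∧ ∃ x, la x = 1) := by
    by_cases hex : ∃ x, la x = 1
    · exact ⟨1, Or.inr ⟨rfl, hex⟩⟩
    · exact ⟨0, Or.inl ⟨rfl, fun x hx => hex ⟨x, hx⟩⟩⟩
  obtain ⟨n', hn'⟩ : ∃ n' : ℕ, n' = Fintype.card {b // two b} + β := ⟨_, rfl⟩
  have hld : ∀ i, ldf la ba i → 1 ≤ i ∧ i < 2 * h + 1 := by
    rintro i ⟨hi, ⟨x, hx⟩ | ⟨b, hb⟩⟩
    · exact ⟨hi, by have := hd.la_lt x; omega⟩
    · exact ⟨hi, by have := (hd.ev (by omega) b).2; omega⟩
  obtain ⟨G, hG1, hG2⟩ := exists_colour (h := h) rfl (ldf la ba)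
  have hW0 : Win (2 * h + 1) h 0 (ldf la ba) G := ⟨rfl, by omega, hld, hG1, Or.inl rfl⟩
  have hlA : ∀ x, la x ≠ 1 → ldf la ba (la x - 1) := by
    intro x hx
    have := hd.la_pos x
    exact ⟨by omega, Or.inl ⟨x, by omega⟩⟩
  have hlZ : ∀ b, ldf la ba (ba b - 1) := by
    intro b
    have := (hd.ev (by omega) b).1
    exact ⟨by omega, Or.inr ⟨b, by omega⟩⟩
  have hlab : ∀ x b, la x ≠ 1 → la x - 1 ≠ ba b - 1 := by
    intro x b hx
    have h1 := hd.la_pos x
    have h2 := (hd.ev (by omega) b).1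
    have h3 := hP.la_ne_ba x b
    omega
  by_cases hall : ∀ x, la x ≠ 1 → h ≤ n' + junc (2 * h + 1) 0 G (la x - 1)
  · refine fat_sorted hd hP hK hh hW0 β n' hβ hn' hall ?_ ?_
    · intro b
      have := hld _ (hlZ b)
      have h1 : 2 ≤ junc (2 * h + 1) 0 G (ba b - 1) := (hW0.rankBase.J_bounds this.1 this.2).1
      omega
    · intro x b hx
      have h1 := hld _ (hlZ b)
      have h2 := hld _ (hlA x hx)
      by_cases hh2 : 2 ≤ h
      · have := (hW0.pair (hlA x hx) (by omega) (hlZ b) (by omega) (hlab x b hx)).2 hh2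
        omega
      · -- `h = 1`
        have hh1 : h = 1 := by omega
        subst hh1
        have hb := (hd.ev (by omega) b).2
        have hb' := (hd.ev (by omega) b).1
        have hz : ba b - 1 = 1 := by omega
        have ha : la x - 1 = 2 := by
          have := hlab x b hx
          omega
        have l1 := hlZ b
        have l2 := hlA x hx
        rw [hz] at l1 ⊢
        rw [ha] at l2 ⊢
        have n1 := (hG1 1 (by omega) (by omega)).1 l1
        have n2 := (hG1 2 (by omega) (by omega)).1 l2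
        have c1 : G 1 = false ∧ G 3 = false := by
          have w3 : walk G 3 = (((0 + if G 1 then 1 else -1) + if G 2 then 1 else -1) +
            if G 3 then 1 else -1) := rfl
          have w3' : walk G 3 < 0 := hG2
          cases e1 : G 1 <;> cases e2 : G 2 <;> cases e3 : G 3 <;>
            simp_all
        have r1 := rank_bad (k := 3) (q := 0) c1.1
        have r3 := rank_bad (k := 3) (q := 0) c1.2
        have m := cnt_mono 3 0 G false 1 (show wtime 3 0 1 ≤ wtime 3 0 3 by decide)
        rw [show 1 % 2 = 1 from rfl] at r1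
        rw [show 3 % 2 = 1 from rfl] at r3
        show rank 3 0 G 2 + rank 3 0 G 3 + 1 ≤ 1 + (rank 3 0 G 1 + rank 3 0 G 2)
        omega
  · push Not at hall
    obtain ⟨x1, hx11, hx1⟩ := hall
    have hm1 := hld _ (hlA x1 hx11)
    have hx1' : walk G (la x1 - 1) < walk G (2 * h + 1) := by
      by_contra hc
      have := hW0.big hG2 (hlA x1 hx11) (by omega) (Or.inl ⟨rfl, by omega⟩)
      omega
    have hJ1 : 2 ≤ junc (2 * h + 1) 0 G (la x1 - 1) := (hW0.rankBase.J_bounds hm1.1 hm1.2).1
    obtain ⟨q, hS⟩ := seam_of_colour (h := h) rfl (ldf la ba)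
      (fun i => 1 ≤ i ∧ ∃ x, la x = i + 1) hld
      (fun i hi => ⟨hi.1, Or.inl hi.2⟩) G hG1 hG2
    rcases hS.cases with ⟨_, h1⟩ | ⟨⟨hq1, x0, hx0⟩, hqk, hmin⟩
    · have := h1 (la x1 - 1) ⟨hm1.1, x1, by omega⟩
      omega
    have hW := hS.toWin
    have hlq : ldf la ba q := ⟨hq1, Or.inl ⟨x0, hx0⟩⟩
    have hqm := hld q hlq
    have hbq : ∀ b, ba b - 1 ≠ q := by
      intro b hb
      have := (hd.ev (by omega) b).1
      exact hP.la_ne_ba x0 b (by omega)
    have hlx : ∀ x, x ≠ x0 → la x ≠ 1 → la x - 1 ≠ q := by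
      intro x hx hx1 hxq
      have := hd.la_pos x
      apply hx
      apply hP.la_inj
      omega
    have hA : ∀ x, x ≠ x0 → la x ≠ 1 → h + 1 ≤ junc (2 * h + 1) q G (la x - 1) := by
      intro x hx hx1
      have := hd.la_pos x
      exact hS.big (hlA x hx1) ⟨(hld _ (hlA x hx1)).1, x, by omega⟩ (hlx x hx hx1)
    have hZ : ∀ b, Fintype.card B ≤ junc (2 * h + 1) q G (ba b - 1) := by
      intro b
      have := hld _ (hlZ b)
      have h1 : 2 ≤ junc (2 * h + 1) q G (ba b - 1) := (hW.rankBase.J_bounds this.1 this.2).1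
      omega
    have hneq := (hG1 q hqm.1 hqm.2).1 hlq
    cases g1 : G q
    · -- minimum
      by_cases hsp : n' + junc (2 * h + 1) q G q < h
      · exact fat_special hd hP hK hh hW hG2 hqk β n' hβ hn' x0 hq1 hx0 g1 hsp hA hZ
      · refine fat_sorted hd hP hK hh hW β n' hβ hn' ?_ hZ ?_
        · intro x hx1
          by_cases hx : x = x0
          · rw [hx, hx0, Nat.add_sub_cancel]; omega
          · have := hA x hx hx1
            omega
        · intro x b hx1
          by_cases hx : x = x0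
          · rw [hx, hx0, Nat.add_sub_cancel]
            have h1 := Lob34.L6min hW hlq g1 (hlZ b) (hbq b)
            omega
          · have := (hW.pair (hlA x hx1) (hlx x hx hx1) (hlZ b) (hbq b) (hlab x b hx1)).2 (by omega)
            omega
    · -- maximum
      have g2 : G (q + 1) = false := by
        cases hc : G (q + 1)
        · rfl
        · exact absurd (g1.trans hc.symm) hneq
      have hjq := hW.junc_q_max hlq g1 g2
      obtain ⟨z1, hz1, hz1k, hz1l, hz1w, hz1G, hz1n⟩ := hW.next_near hqm.2 g2 hqk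
      obtain ⟨z2, hz2, hz2q, hz2l, hz2w, hz2G, hz2n⟩ := hW.prev_near hqm.2.le g1 hqm.1 (by omega)
      have hz1Z : ∃ b, ba b = z1 + 1 := by
        rcases hz1l.2 with hx | hb
        · have := (hmin z1 ⟨hz1l.1, hx⟩).1
          omega
        · exact hb
      have hz2Z : ∃ b, ba b = z2 + 1 := by
        rcases hz2l.2 with hx | hb
        · have := (hmin z2 ⟨hz2l.1, hx⟩).1
          omega
        · exact hb
      obtain ⟨b1, hb1⟩ := hz1Z
      obtain ⟨b2, hb2⟩ := hz2Z
      have hb12 : b1 ≠ b2 := by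
        rintro rfl
        omega
      have hbb : ∀ b, b = b1 ∨ b = b2 := by
        intro b
        by_contra hc
        push Not at hc
        have h3 : ({b, b1, b2} : Finset B).card = 3 := by
          rw [Finset.card_insert_of_notMem, Finset.card_insert_of_notMem, Finset.card_singleton]
          · simp [hb12]
          · simp [hc.1, hc.2]
        have h4 := Finset.card_le_univ ({b, b1, b2} : Finset B)
        omega
      have hminZ : ∀ b, junc (2 * h + 1) q G q + 1 ≤ junc (2 * h + 1) q G (ba b - 1) + h := by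
        intro b
        rcases hbb b with rfl | rfl
        · rw [hb1, Nat.add_sub_cancel]
          exact Lob34.L6right hW hlq g1 hG2 hqk hz1l hz1 hz1G hz1n
        · rw [hb2, Nat.add_sub_cancel]
          exact Lob34.L6left hW hlq g1 hG2 hqk hz2l hz2q hz2G hz2n
      refine fat_sorted hd hP hK hh hW β n' hβ hn' ?_ hZ ?_
      · intro x hx1
        by_cases hx : x = x0
        · rw [hx, hx0, Nat.add_sub_cancel]; omega
        · have := hA x hx hx1
          omega
      · intro x b hx1
        by_cases hx : x = x0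
        · rw [hx, hx0, Nat.add_sub_cancel]
          have := hminZ b
          omega
        · have := (hW.pair (hlA x hx1) (hlx x hx hx1) (hlZ b) (hbq b) (hlab x b hx1)).2 (by omega)
          omega

/-- Regime 1, at least three bushes. -/
theorem pure_fat_many {K h : ℕ} {la : Lf → ℕ} {ba : B → ℕ} {par : BL → B}
    {last : B → BL} {two : B → Prop} [DecidablePred two]
    (hd : LobData K la ba par) (hP : PureData la ba par last two) (hK : K = 2 * h + 2)
    (hs : Fintype.card B ≤ h) (hs3 : 3 ≤ Fintype.card B) :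
    HasLabels K la ba par := by
  classical
  have hh : 1 ≤ h := by omega
  obtain ⟨β, hβ⟩ : ∃ β : ℕ, (β = 0 ∧ ∀ x, la x ≠ 1) ∨ (β = 1 ∧ ∃ x, la x = 1) := by
    by_cases hex : ∃ x, la x = 1
    · exact ⟨1, Or.inr ⟨rfl, hex⟩⟩
    · exact ⟨0, Or.inl ⟨rfl, fun x hx => hex ⟨x, hx⟩⟩⟩
  obtain ⟨n', hn'⟩ : ∃ n' : ℕ, n' = Fintype.card {b // two b} + β := ⟨_, rfl⟩
  have hld : ∀ i, ldf la ba i → 1 ≤ i ∧ i < 2 * h + 1 := by
    rintro i ⟨hi, ⟨x, hx⟩ | ⟨b, hb⟩⟩
    · exact ⟨hi, by have := hd.la_lt x; omega⟩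
    · exact ⟨hi, by have := (hd.ev (by omega) b).2; omega⟩
  obtain ⟨G, hG1, hG2⟩ := exists_colour (h := h) rfl (ldf la ba)
  obtain ⟨q, hS⟩ := seam_of_colour (h := h) rfl (ldf la ba) (ldf la ba) hld
    (fun i hi => hi) G hG1 hG2
  have hW := hS.toWin
  have hlA : ∀ x, la x ≠ 1 → ldf la ba (la x - 1) := by
    intro x hx
    have := hd.la_pos x
    exact ⟨by omega, Or.inl ⟨x, by omega⟩⟩
  have hlZ : ∀ b, ldf la ba (ba b - 1) := by
    intro b
    have := (hd.ev (by omega) b).1
    exact ⟨by omega, Or.inr ⟨b, by omega⟩⟩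
  have hlab : ∀ x b, la x ≠ 1 → la x - 1 ≠ ba b - 1 := by
    intro x b hx
    have h1 := hd.la_pos x
    have h2 := (hd.ev (by omega) b).1
    have h3 := hP.la_ne_ba x b
    omega
  have hbig : ∀ i, ldf la ba i → i ≠ q → h + 1 ≤ junc (2 * h + 1) q G i :=
    fun i hi hiq => hS.big hi hi hiq
  rcases hS.cases with ⟨hq0, _⟩ | ⟨hlq, hqk, _⟩
  · -- no seam
    have hxq : ∀ x, la x ≠ 1 → la x - 1 ≠ q := fun x hx => by
      have := (hld _ (hlA x hx)).1
      omega
    have hbq : ∀ b, ba b - 1 ≠ q := fun b => by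
      have := (hld _ (hlZ b)).1
      omega
    refine fat_sorted hd hP hK hh hW β n' hβ hn' ?_ ?_ ?_
    · intro x hx
      have := hbig _ (hlA x hx) (hxq x hx)
      omega
    · intro b
      have := hbig _ (hlZ b) (hbq b)
      omega
    · intro x b hx
      have := (hW.pair (hlA x hx) (hxq x hx) (hlZ b) (hbq b) (hlab x b hx)).2 (by omega)
      omega
  obtain ⟨g1, g2⟩ := hS.min hlq
  have hq1 := hlq.1
  rcases hlq.2 with ⟨x0, hx0⟩ | ⟨b0, hb0⟩
  · have hbq : ∀ b, ba b - 1 ≠ q := by
      intro b hb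
      have := (hd.ev (by omega) b).1
      exact hP.la_ne_ba x0 b (by omega)
    have hlx : ∀ x, x ≠ x0 → la x ≠ 1 → la x - 1 ≠ q := by
      intro x hx hx1 hxq
      have := hd.la_pos x
      apply hx
      apply hP.la_inj
      omega
    have hA : ∀ x, x ≠ x0 → la x ≠ 1 → h + 1 ≤ junc (2 * h + 1) q G (la x - 1) :=
      fun x hx hx1 => hbig _ (hlA x hx1) (hlx x hx hx1)
    have hZ : ∀ b, Fintype.card B ≤ junc (2 * h + 1) q G (ba b - 1) := by
      intro b
      have := hbig _ (hlZ b) (hbq b)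
      omega
    by_cases hsp : n' + junc (2 * h + 1) q G q < h
    · exact fat_special hd hP hK hh hW hG2 hqk β n' hβ hn' x0 hq1 hx0 g1 hsp hA hZ
    · refine fat_sorted hd hP hK hh hW β n' hβ hn' ?_ hZ ?_
      · intro x hx1
        by_cases hx : x = x0
        · rw [hx, hx0, Nat.add_sub_cancel]; omega
        · have := hA x hx hx1
          omega
      · intro x b hx1
        by_cases hx : x = x0
        · rw [hx, hx0, Nat.add_sub_cancel]
          have h1 := Lob34.L6min hW hlq g1 (hlZ b) (hbq b)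
          omega
        · have := (hW.pair (hlA x hx1) (hlx x hx hx1) (hlZ b) (hbq b) (hlab x b hx1)).2 (by omega)
          omega
  · -- a bush at the seam
    have hxq : ∀ x, la x ≠ 1 → la x - 1 ≠ q := by
      intro x hx hxq
      have := hd.la_pos x
      exact hP.la_ne_ba x b0 (by omega)
    have hbq : ∀ b, b ≠ b0 → ba b - 1 ≠ q := by
      intro b hb hbq
      have := (hd.ev (by omega) b).1
      apply hb
      apply hP.ba_inj
      omega
    have hb0q : ba b0 - 1 = q := by omega
    have hqK : q + 2 ≤ 2 * h + 1 := by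
      have := (hd.ev (by omega) b0).2
      omega
    have hA : ∀ x, la x ≠ 1 → h ≤ n' + junc (2 * h + 1) q G (la x - 1) := by
      intro x hx
      have := hbig _ (hlA x hx) (hxq x hx)
      omega
    have hZ' : ∀ b, b ≠ b0 → h + 1 ≤ junc (2 * h + 1) q G (ba b - 1) :=
      fun b hb => hbig _ (hlZ b) (hbq b hb)
    refine fat_ord hd hP hK hh hW β n' hβ hn' hA fun a => ?_
    set f : ℕ → ℕ := bs (2 * h + 1) q G n' (lw1 a) with hf
    have hbs : ∀ i, (a ≤ n' + rank (2 * h + 1) q G (oddE i) ∧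
          f i = n' + junc (2 * h + 1) q G i + 1) ∨
        (¬ a ≤ n' + rank (2 * h + 1) q G (oddE i) ∧
          f i = n' + junc (2 * h + 1) q G i) := by
      intro i
      have := rank_odd_even (2 * h + 1) q G i
      have hfi : f i = (n' + rank (2 * h + 1) q G (oddE i) +
        if a ≤ n' + rank (2 * h + 1) q G (oddE i) then 1 else 0) +
          rank (2 * h + 1) q G (evenE i) := rfl
      rw [hfi]
      split_ifs with hc
      · left
        exact ⟨hc, by omega⟩
      · right
        exact ⟨hc, by omega⟩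
    have hbm : ∀ b, 1 ≤ ba b - 1 ∧ ba b - 1 < 2 * h + 1 := fun b => by
      have h1 := (hd.ev (by omega) b).1
      have h2 := (hd.ev (by omega) b).2
      omega
    by_cases hsmall : ∃ b1, b1 ≠ b0 ∧ f (ba b1 - 1) ≤ f (ba b0 - 1)
    · obtain ⟨b1, hb1, hb1'⟩ := hsmall
      obtain ⟨τ, hτ1, _, hτ3, hτ4⟩ := greedy (fun b => f (ba b - 1))
        (Finset.Icc 1 (Fintype.card B)) (by rw [Nat.card_Icc]; omega)
      have hτ1' : ∀ b, 1 ≤ τ b ∧ τ b ≤ Fintype.card B := fun b => Finset.mem_Icc.1 (hτ1 b)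
      have h1 := hZ' b1 hb1
      have e1 := hbs (ba b1 - 1)
      have e0 := hbs (ba b0 - 1)
      refine ⟨τ, hτ1', hτ3, hτ4, fun b => ⟨ba b - 1, τ b, (hbm b).1, (hbm b).2, ?_, le_rfl⟩, ?_⟩
      · have h3 := hτ1' b
        by_cases hb : b = b0
        · rw [hb] at h3 ⊢
          omega
        · have := hZ' b hb
          omega
      · intro x b _ hx
        show f (la x - 1) < h + (f (ba b - 1) + τ b)
        have h3 := hτ1' b
        have ex := hbs (la x - 1)
        have eb := hbs (ba b - 1)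
        by_cases hb : b = b0
        · rw [hb] at h3 eb ⊢
          have := (hW.pair (hlA x hx) (hxq x hx) (hlZ b1) (hbq b1 hb1) (hlab x b1 hx)).2 (by omega)
          omega
        · have := (hW.pair (hlA x hx) (hxq x hx) (hlZ b) (hbq b hb) (hlab x b hx)).2 (by omega)
          omega
    · push Not at hsmall
      obtain ⟨b1, hb1, hb1min⟩ : ∃ b1, b1 ≠ b0 ∧
          ∀ b, b ≠ b0 → f (ba b1 - 1) ≤ f (ba b - 1) := by
        have hne : (Finset.univ.erase b0 : Finset B).Nonempty := by
          rw [← Finset.card_pos, Finset.card_erase_of_mem (Finset.mem_univ _), Finset.card_univ]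
          omega
        obtain ⟨b1, h1, h2⟩ := Finset.exists_min_image _ (fun b => f (ba b - 1)) hne
        exact ⟨b1, Finset.ne_of_mem_erase h1, fun b hb =>
          h2 b (Finset.mem_erase.2 ⟨hb, Finset.mem_univ _⟩)⟩
      have hlt := hsmall b1 hb1
      obtain ⟨t, ht1, ht2, ht3⟩ : ∃ t, 1 ≤ t ∧ t ≤ Fintype.card B ∧
          (f (ba b0 - 1) + t = f (ba b1 - 1) ∨
            (t = Fintype.card B ∧ f (ba b0 - 1) + t ≤ f (ba b1 - 1))) := by
        by_cases hc : f (ba b1 - 1) - f (ba b0 - 1) ≤ Fintype.card B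
        · exact ⟨f (ba b1 - 1) - f (ba b0 - 1), by omega, hc, Or.inl (by omega)⟩
        · exact ⟨Fintype.card B, by omega, le_rfl, Or.inr ⟨rfl, by omega⟩⟩
      obtain ⟨σ, hσ1, _, hσ3, hσ4⟩ := greedy (E := {b // b ≠ b0}) (fun b => f (ba b.1 - 1))
        ((Finset.Icc 1 (Fintype.card B)).erase t) (by
          rw [Finset.card_erase_of_mem (Finset.mem_Icc.2 ⟨ht1, ht2⟩), Nat.card_Icc]
          rw [Fintype.card_subtype_compl, Fintype.card_subtype_eq]
          omega)
      have hσ : ∀ b, σ b ≠ t ∧ 1 ≤ σ b ∧ σ b ≤ Fintype.card B := by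
        intro b
        have := hσ1 b
        rw [Finset.mem_erase, Finset.mem_Icc] at this
        exact this
      let τ : B → ℕ := fun b => if hb : b = b0 then t else σ ⟨b, hb⟩
      have hτ0 : τ b0 = t := dif_pos rfl
      have hτb : ∀ b (hb : b ≠ b0), τ b = σ ⟨b, hb⟩ := fun b hb => dif_neg hb
      have hJ2 : 2 ≤ junc (2 * h + 1) q G q := by
        have hm := hld q hlq
        exact (hW.rankBase.J_bounds hm.1 hm.2).1
      have h1 := hZ' b1 hb1
      have e1 := hbs (ba b1 - 1)
      have e0 := hbs (ba b0 - 1)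
      rw [hb0q] at e0
      refine ⟨τ, ?_, ?_, ?_, ?_, ?_⟩
      · intro b
        by_cases hb : b = b0
        · rw [hb, hτ0]; exact ⟨ht1, ht2⟩
        · rw [hτb b hb]; exact (hσ _).2
      · intro a b hab
        by_cases ha : a = b0 <;> by_cases hb : b = b0
        · rw [ha, hb]
        · rw [ha, hτ0, hτb b hb] at hab
          exact absurd hab.symm (hσ _).1
        · rw [hb, hτ0, hτb a ha] at hab
          exact absurd hab (hσ _).1
        · rw [hτb a ha, hτb b hb] at hab
          exact congrArg Subtype.val (hσ3 hab)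
      · have key : ∀ b, b ≠ b0 → f (ba b0 - 1) + τ b0 < f (ba b - 1) + τ b := by
          intro b hb
          rw [hτ0, hτb b hb]
          have h1 := hb1min b hb
          have h2 := (hσ ⟨b, hb⟩).2
          omega
        intro a b hab
        have hab' : f (ba a - 1) + τ a = f (ba b - 1) + τ b := hab
        by_cases ha : a = b0 <;> by_cases hb : b = b0
        · rw [ha, hb]
        · rw [ha] at hab'
          have := key b hb
          omega
        · rw [hb] at hab'
          have := key a ha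
          omega
        · rw [hτb a ha, hτb b hb] at hab'
          exact congrArg Subtype.val (hσ4 (a₁ := ⟨a, ha⟩) (a₂ := ⟨b, hb⟩) hab')
      · intro b
        by_cases hb : b = b0
        · subst hb
          rcases ht3 with ht3 | ⟨ht3, ht4⟩
          · refine ⟨ba b1 - 1, 0, (hbm b1).1, (hbm b1).2, by omega, ?_⟩
            show f (ba b1 - 1) + 0 ≤ f (ba b - 1) + τ b
            rw [hτ0]
            omega
          · refine ⟨ba b - 1, τ b, (hbm b).1, (hbm b).2, ?_, le_rfl⟩
            rw [hτ0, hb0q]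
            omega
        · refine ⟨ba b - 1, τ b, (hbm b).1, (hbm b).2, ?_, le_rfl⟩
          have := hZ' b hb
          omega
      · intro x b _ hx
        show f (la x - 1) < h + (f (ba b - 1) + τ b)
        have ex := hbs (la x - 1)
        have eb := hbs (ba b - 1)
        by_cases hb : b = b0
        · rw [hb, hτ0]
          rw [hb0q] at ht3 hlt ⊢
          have hp := (hW.pair (hlA x hx) (hxq x hx) (hlZ b1) (hbq b1 hb1) (hlab x b1 hx)).2 (by omega)
          rcases ht3 with ht3 | ⟨ht3, ht4⟩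
          · rcases e1 with ⟨e1, e1'⟩ | ⟨e1, e1'⟩
            · omega
            · have h5 := Lob34.Ppp hW hlq g1 hG2 hqk (by omega) hqK (hlA x hx) (hxq x hx)
                (hlZ b1) (hbq b1 hb1) (hlab x b1 hx) (by omega)
              omega
          · have h2 := (hW.le hlq g1 g2 (hlA x hx) (hxq x hx)).1
            omega
        · rw [hτb b hb]
          have h3 := (hσ ⟨b, hb⟩).2
          have := (hW.pair (hlA x hx) (hxq x hx) (hlZ b) (hbq b hb) (hlab x b hx)).2 (by omega)
          omega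

/-- The pure class, `K = 2`. -/
theorem pure_two {la : Lf → ℕ} {ba : B → ℕ} {par : BL → B}
    {last : B → BL} {two : B → Prop} [DecidablePred two]
    (hd : LobData 2 la ba par) (hP : PureData la ba par last two) :
    HasLabels 2 la ba par := by
  classical
  have hB : ∀ b : B, False := by
    intro b
    have h1 := (hd.ev (by omega) b).1
    have h2 := (hd.ev (by omega) b).2
    omega
  have hBL : ∀ b : BL, False := fun b => hB (par b)
  have hla : ∀ x, la x = 1 := by
    intro x
    have h1 := hd.la_pos x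
    have h2 := hd.la_lt x
    omega
  have hone : ∀ x y : Lf, x = y := fun x y => hP.la_inj ((hla x).trans (hla y).symm)
  have hp0 : pathSum 2 la ba (fun e => e) (fun _ => 3) (fun _ => 0) 0 = 1 := pathSum_zero hd
  have hp2 : pathSum 2 la ba (fun e => e) (fun _ => 3) (fun _ => 0) 2 = 2 := pathSum_last hd
  have hp1 : pathSum 2 la ba (fun e => e) (fun _ => 3) (fun _ => 0) 1 = 3 ∧ IsEmpty Lf ∨
      pathSum 2 la ba (fun e => e) (fun _ => 3) (fun _ => 0) 1 = 6 := by
    by_cases hex : Nonempty Lf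
    · right
      obtain ⟨x⟩ := hex
      have := pathSum_A (p := fun e => e) (fl := fun _ => 3) (ft := fun _ => 0) hd hP x
      rw [hla x] at this
      exact this
    · left
      refine ⟨?_, not_nonempty_iff.1 hex⟩
      have := pathSum_free (k := 2) (la := la) (ba := ba) (p := fun e => e) (fl := fun _ => 3)
        (ft := fun _ => 0) (i := 1) le_rfl (by omega) (by
          rintro (⟨x, _⟩ | ⟨b, _⟩)
          · exact hex ⟨x⟩
          · exact hB b)
      exact this
  refine ⟨fun e => e, fun _ => 3, fun _ => 0, fun _ => 0, ?_, ?_, ?_⟩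
  · rintro (i | x | b | b) (j | y | c | c) h
    · have h1 : (i : ℕ) + 1 = (j : ℕ) + 1 := h
      rw [show i = j from Fin.ext (by omega)]
    · have h1 : (i : ℕ) + 1 = 3 := h
      omega
    · exact (hB c).elim
    · exact (hBL c).elim
    · have h1 : 3 = (j : ℕ) + 1 := h
      omega
    · rw [hone x y]
    · exact (hB c).elim
    · exact (hBL c).elim
    all_goals first | exact (hB b).elim | exact (hBL b).elim
  · rintro (i | x | b | b)
    · show 1 ≤ (i : ℕ) + 1 ∧ (i : ℕ) + 1 ≤ _
      omega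
    · have : 1 ≤ Fintype.card Lf := Fintype.card_pos_iff.2 ⟨x⟩
      show 1 ≤ 3 ∧ 3 ≤ _
      omega
    · exact (hB b).elim
    · exact (hBL b).elim
  · have hv : ∀ i : Fin 3, (i = 0 ∧ pathSum 2 la ba (fun e => e) (fun _ => 3) (fun _ => 0) i = 1) ∨
        (i = 1 ∧ (pathSum 2 la ba (fun e => e) (fun _ => 3) (fun _ => 0) i = 3 ∧ IsEmpty Lf ∨
          pathSum 2 la ba (fun e => e) (fun _ => 3) (fun _ => 0) i = 6)) ∨
        (i = 2 ∧ pathSum 2 la ba (fun e => e) (fun _ => 3) (fun _ => 0) i = 2) := by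
      intro i
      fin_cases i
      · left
        exact ⟨rfl, hp0⟩
      · right; left
        exact ⟨rfl, hp1⟩
      · right; right
        exact ⟨rfl, hp2⟩
    rintro (i | x | b | b) (j | y | c | c) h
    · have h1 : pathSum 2 la ba (fun e => e) (fun _ => 3) (fun _ => 0) i =
        pathSum 2 la ba (fun e => e) (fun _ => 3) (fun _ => 0) j := h
      rcases hv i with ⟨h2, h3⟩ | ⟨h2, h3⟩ | ⟨h2, h3⟩ <;>
        rcases hv j with ⟨h4, h5⟩ | ⟨h4, h5⟩ | ⟨h4, h5⟩ <;>
        first | exact congrArg Sum.inl (h2.trans h4.symm) | (exfalso; omega)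
    · exfalso
      have h1 : pathSum 2 la ba (fun e => e) (fun _ => 3) (fun _ => 0) i = 3 := h
      rcases hv i with ⟨h2, h3⟩ | ⟨h2, h3 | h3⟩ | ⟨h2, h3⟩
      · omega
      · exact h3.2.elim y
      · omega
      · omega
    · exact (hB c).elim
    · exact (hBL c).elim
    · exfalso
      have h1 : 3 = pathSum 2 la ba (fun e => e) (fun _ => 3) (fun _ => 0) j := h
      rcases hv j with ⟨h2, h3⟩ | ⟨h2, h3 | h3⟩ | ⟨h2, h3⟩
      · omega
      · exact h3.2.elim x
      · omega
      · omega
    · rw [hone x y]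
    · exact (hB c).elim
    · exact (hBL c).elim
    all_goals first | exact (hB b).elim | exact (hBL b).elim

/-- The pure class, `K` even. -/
theorem pure_even {K h : ℕ} {la : Lf → ℕ} {ba : B → ℕ} {par : BL → B}
    {last : B → BL} {two : B → Prop} [DecidablePred two]
    (hd : LobData K la ba par) (hP : PureData la ba par last two) (hK : K = 2 * h + 2) :
    HasLabels K la ba par := by
  by_cases hs : h + 1 ≤ Fintype.card B
  · exact pure_even_many (h := h + 1) hd hP (by omega) hs
  · rcases Nat.eq_zero_or_pos h with hh | hh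
    · subst hh
      subst hK
      exact pure_two hd hP
    · by_cases hs2 : Fintype.card B ≤ 2
      · exact pure_fat_few hd hP hK hh (by omega) hs2
      · exact pure_fat_many hd hP hK (by omega) (by omega)

/-- The pure class. -/
theorem pure_all {K : ℕ} {la : Lf → ℕ} {ba : B → ℕ} {par : BL → B}
    {last : B → BL} {two : B → Prop} [DecidablePred two]
    (hd : LobData K la ba par) (hP : PureData la ba par last two) :
    HasLabels K la ba par := by
  have hK := hd.two_le
  rcases Nat.mod_two_eq_zero_or_one K with h | h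
  · exact pure_even (h := K / 2 - 1) hd hP (by omega)
  · exact pure_odd (h := K / 2) hd hP (by omega)

end Pool.Agent.Lob89
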