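import Pool.Agent.Lob89.RedF
import Pool.Agent.Lob5.OddMain

/-!
The reduction of the lobster theorem to the case of an even number of path edges, with no leaf at
the third vertex, and with the largest bush at the third vertex chosen as the second vertex
(at both ends).
-/

namespace Pool.Agent.Lob89

open SimpleGraph Finset

universe u

variable {V : Type u} {G : SimpleGraph V}

/-- The data of a lobster of even diameter after the reductions. -/
structure EvenData (k : ℕ) {Lf B BL : Type*} [Fintype Lf] [Fintype BL] [DecidableEq B]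
    (la : Lf → ℕ) (ba : B → ℕ) (par : BL → B) : Prop where
  hd : LobData k la ba par
  even : k % 2 = 0
  -- no leaf at the vertices `2`, `k - 2`
  la2 : ∀ x, la x ≠ 2
  la2' : ∀ x, la x + 2 ≠ k
  -- a bush at the vertex `2` has at most as many leaves as the vertex `1` (vertex `0` included)
  b2 : ∀ b, ba b = 2 → (univ.filter fun y => par y = b).card ≤
    1 + (univ.filter fun x => la x = 1).card
  b2' : ∀ b, ba b + 2 = k → (univ.filter fun y => par y = b).card ≤
    1 + (univ.filter fun x => la x + 1 = k).card

/-- Antimagic if there is a dominating path of odd length with free ends. -/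
theorem antimagic_of_odd [Fintype V] [DecidableEq V] (G : SimpleGraph V) [DecidableRel G.Adj]
    (hT : G.IsTree) (h3 : 3 ≤ Fintype.card V) {a b : V} {p : G.Walk a b} (hp : Dom G p)
    (he1 : ∀ x, G.Adj x a → x ∈ p.support) (he2 : ∀ x, G.Adj x b → x ∈ p.support)
    (hodd : p.length % 2 = 1) : IsAntimagic G := by
  have h2 := two_le_length hT.connected hp he1 he2 h3
  refine reductionP G hT hp h2 he1 he2 (fun h => absurd h (by omega))
    (fun h => absurd h (by omega)) ?_
  intro Lf B BL _ _ _ _ la ba par hdat
  exact Pool.Agent.Lob5.odd_main hdat hodd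

/-- The path without its first two vertices dominates. -/
lemma MaxDom.tail2 (hT : G.IsTree) {a v₁ v₂ b : V} {h₁ : G.Adj a v₁} {h₂ : G.Adj v₁ v₂}
    {q : G.Walk v₂ b} (h : MaxDom G (Walk.cons h₁ (Walk.cons h₂ q))) (x : V) :
    ∃ y ∈ q.support, G.dist x y ≤ 2 := by
  obtain ⟨π, hπ⟩ := exists_parent hT.connected h.1
  have d12 : G.dist v₁ v₂ = 1 := SimpleGraph.dist_eq_one_iff_adj.2 h₂
  have key : ∀ s, s ∈ (Walk.cons h₁ (Walk.cons h₂ q)).support →
      s = a ∨ s = v₁ ∨ s ∈ q.support := by
    intro s hs
    simpa using hs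
  have hv2 : v₂ ∈ q.support := q.start_mem_support
  have near1 : ∀ s, G.Adj s v₁ → G.dist s v₂ ≤ 2 := by
    intro s hs
    have h1 := SimpleGraph.dist_eq_one_iff_adj.2 hs
    have h2 := hT.connected.dist_triangle (u := s) (v := v₁) (w := v₂)
    omega
  by_cases hx : x ∈ (Walk.cons h₁ (Walk.cons h₂ q)).support
  · rcases key x hx with rfl | rfl | hx
    · exact ⟨v₂, hv2, near1 _ h₁⟩
    · exact ⟨v₂, hv2, by omega⟩
    · exact ⟨x, hx, by simp⟩
  · obtain ⟨h3, h4⟩ := hπ x hx
    have d1 := SimpleGraph.dist_eq_one_iff_adj.2 h3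
    rcases h4 with h4 | ⟨h4, h5⟩
    · rcases key _ h4 with h6 | h6 | h6
      · exact absurd (h.free1 x (h6 ▸ h3)) hx
      · exact ⟨v₂, hv2, near1 _ (h6 ▸ h3)⟩
      · exact ⟨π x, h6, by omega⟩
    · have h7 := (hπ (π x) h4).1
      have d2 := SimpleGraph.dist_eq_one_iff_adj.2 h7
      have d3 := hT.connected.dist_triangle (u := x) (v := π x) (w := π (π x))
      rcases key _ h5 with h6 | h6 | h6
      · exact absurd (h.free1 _ (h6 ▸ h7)) h4
      · have : (Walk.cons h₁ (Walk.cons h₂ q)).getVert 1 = v₁ := by
          rw [Walk.getVert_cons_succ, Walk.getVert_zero]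
        exact absurd h3 (h.second1 hT (by simp) (π x) x h4 hx
          (by rw [this, ← h6]; exact h7))
      · exact ⟨_, h6, by omega⟩

/-- A leaf at the third vertex: the number of path edges can be lowered by one. -/
lemma MaxDom.leaf2 [Fintype V] [DecidableEq V] [DecidableRel G.Adj]
    (hT : G.IsTree) (h3 : 3 ≤ Fintype.card V) {a b : V} {p : G.Walk a b} (h : MaxDom G p)
    (hk : 3 ≤ p.length) (hev : p.length % 2 = 0) {z : V} (hz : z ∉ p.support)
    (hadj : G.Adj z (p.getVert 2)) (hdeg : G.degree z = 1) : IsAntimagic G := by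
  cases p with
  | nil => simp at hk
  | cons h₁ q₁ =>
    cases q₁ with
    | nil => simp at hk
    | cons h₂ q =>
      rename_i v₁ v₂
      have e : (Walk.cons h₁ (Walk.cons h₂ q)).getVert 2 = v₂ := by
        rw [Walk.getVert_cons_succ, Walk.getVert_cons_succ, Walk.getVert_zero]
      rw [e] at hadj
      have hl : (Walk.cons h₁ (Walk.cons h₂ q)).length = q.length + 2 := by simp
      have hpath := h.1.1
      have hpath1 := ((Walk.cons_isPath_iff h₁ _).1 hpath).1
      have hpath2 := ((Walk.cons_isPath_iff h₂ q).1 hpath1).1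
      have hzq : z ∉ q.support := fun hh => hz (by simp [hh])
      have hnew : (Walk.cons hadj q).IsPath := (Walk.cons_isPath_iff hadj q).2 ⟨hpath2, hzq⟩
      have hD : Dom G (Walk.cons hadj q) := by
        refine ⟨hnew, fun x => ?_⟩
        obtain ⟨y, hy, hxy⟩ := h.tail2 hT x
        exact ⟨y, by simp [hy], hxy⟩
      refine antimagic_of_odd G hT h3 hD ?_ ?_ ?_
      · exact free_end _ (by simp) hdeg
      · intro x hx
        have h4 := h.free2 x hx
        have h5 : x = a ∨ x = v₁ ∨ x ∈ q.support := by simpa using h4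
        have d0 := SimpleGraph.dist_eq_one_iff_adj.2 hx
        rcases h5 with rfl | rfl | h5
        · have := dist_of_path hT hpath
          omega
        · have := dist_of_path hT hpath1
          have hl1 : (Walk.cons h₂ q).length = q.length + 1 := by simp
          omega
        · simp [h5]
      · have : (Walk.cons hadj q).length = q.length + 1 := by simp
        omega

/-- Exchange of the first two vertices. -/
lemma MaxDom.swap (hT : G.IsTree) {a b : V} {p : G.Walk a b} (h : MaxDom G p)
    (hk : 4 ≤ p.length) {z y : V} (hz : z ∉ p.support)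
    (hy : y ∉ p.support) (hadj : G.Adj z (p.getVert 2)) (hyz : G.Adj y z) :
    ∃ (p' : G.Walk y b), MaxDom G p' ∧ p'.getVert 1 = z ∧
      p'.getVert (p'.length - 1) = p.getVert (p.length - 1) := by
  cases p with
  | nil => simp at hk
  | cons h₁ q₁ =>
    cases q₁ with
    | nil => simp at hk
    | cons h₂ q =>
      rename_i v₁ v₂
      have e : (Walk.cons h₁ (Walk.cons h₂ q)).getVert 2 = v₂ := by
        rw [Walk.getVert_cons_succ, Walk.getVert_cons_succ, Walk.getVert_zero]
      rw [e] at hadj
      have hl : (Walk.cons h₁ (Walk.cons h₂ q)).length = q.length + 2 := by simp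
      have hpath := h.1.1
      have hpath1 := ((Walk.cons_isPath_iff h₁ _).1 hpath).1
      have hpath2 := ((Walk.cons_isPath_iff h₂ q).1 hpath1).1
      have hzq : z ∉ q.support := fun hh => hz (by simp [hh])
      have hyq : y ∉ q.support := fun hh => hy (by simp [hh])
      have hl' : (Walk.cons hyz (Walk.cons hadj q)).length = q.length + 2 := by simp
      refine ⟨Walk.cons hyz (Walk.cons hadj q), ⟨⟨?_, ?_⟩, ?_⟩, ?_, ?_⟩
      · rw [Walk.cons_isPath_iff, Walk.cons_isPath_iff]
        refine ⟨⟨hpath2, hzq⟩, ?_⟩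
        rw [Walk.support_cons, List.mem_cons, not_or]
        exact ⟨hyz.ne, hyq⟩
      · intro x
        obtain ⟨s, hs, hxs⟩ := h.tail2 hT x
        exact ⟨s, by simp [hs], hxs⟩
      · intro u' v' r hr
        rw [hl', ← hl]
        exact h.2 u' v' r hr
      · rw [Walk.getVert_cons_succ, Walk.getVert_zero]
      · rw [hl', hl]
        have e1 : q.length + 2 - 1 = (q.length - 1) + 1 + 1 := by omega
        rw [e1, Walk.getVert_cons_succ, Walk.getVert_cons_succ, Walk.getVert_cons_succ,
          Walk.getVert_cons_succ]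

/-- The best longest dominating path: the sum of the degrees of the second and of the last but one
vertex is maximal. -/
lemma exists_bestDom [Fintype V] [DecidableRel G.Adj] (h : ∃ (u v : V) (p : G.Walk u v), Dom G p) :
    ∃ (u v : V) (p : G.Walk u v), MaxDom G p ∧
      ∀ (u' v' : V) (p' : G.Walk u' v'), MaxDom G p' →
        G.degree (p'.getVert 1) + G.degree (p'.getVert (p'.length - 1)) ≤
          G.degree (p.getVert 1) + G.degree (p.getVert (p.length - 1)) := by
  classical
  let S : Set ℕ := {n | ∃ (u v : V) (p : G.Walk u v), MaxDom G p ∧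
    G.degree (p.getVert 1) + G.degree (p.getVert (p.length - 1)) = n}
  have hne : S.Nonempty := by
    obtain ⟨u, v, p, hp⟩ := exists_maxDom h
    exact ⟨_, u, v, p, hp, rfl⟩
  have hbdd : BddAbove S := by
    refine ⟨Fintype.card V + Fintype.card V, ?_⟩
    rintro n ⟨u, v, p, -, rfl⟩
    exact Nat.add_le_add (G.degree_lt_card_verts _).le (G.degree_lt_card_verts _).le
  obtain ⟨u, v, p, hp, hlen⟩ := Nat.sSup_mem hne hbdd
  refine ⟨u, v, p, hp, fun u' v' q hq => ?_⟩
  rw [hlen]
  exact le_csSup hbdd ⟨u', v', q, hq, rfl⟩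

/-- **The reduction to the even case.** -/
theorem reductionE [Fintype V] [DecidableEq V] (G : SimpleGraph V) [DecidableRel G.Adj]
    (hL : IsLobster G) (h3 : 3 ≤ Fintype.card V)
    (core : ∀ (k : ℕ) (Lf B BL : Type u) [Fintype Lf] [Fintype B] [Fintype BL] [DecidableEq B]
      (la : Lf → ℕ) (ba : B → ℕ) (par : BL → B), EvenData k la ba par → HasLabels k la ba par) :
    IsAntimagic G := by
  classical
  obtain ⟨hT, u₀, v₀, p₀, hp₀⟩ := hL
  obtain ⟨a, b, p, hp, hbest⟩ := exists_bestDom ⟨u₀, v₀, p₀, hp₀⟩
  have h2 := two_le_length hT.connected hp.1 hp.free1 hp.free2 h3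
  rcases Nat.mod_two_eq_zero_or_one p.length with hev | hodd
  swap
  · exact antimagic_of_odd G hT h3 hp.1 hp.free1 hp.free2 hodd
  by_contra hno
  have hrev : ∀ i, p.reverse.getVert i = p.getVert (p.length - i) := fun i => by
    rw [Walk.getVert_reverse]
  have hrl : p.reverse.length = p.length := by simp
  apply hno
  refine reductionF G hT hp.1 h2 hp.free1 hp.free2
    (fun _ x y hx hy h4 => hp.second1 hT (by omega) x y hx hy h4)
    (fun _ x y hx hy h4 => hp.second2 hT (by omega) x y hx hy h4) ?_
  intro Lf B BL _ _ _ _ la ba par hd hF1 hF2 hF3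
  refine core _ Lf B BL la ba par ⟨hd, hev, ?_, ?_, ?_, ?_⟩
  · intro x hx
    have h4 := hd.la_lt x
    obtain ⟨z, hz, hadj, hdeg⟩ := hF3 x
    rw [hx] at hadj
    exact hno (hp.leaf2 hT h3 (by omega) hev hz hadj hdeg)
  · intro x hx
    have h4 := hd.la_pos x
    obtain ⟨z, hz, hadj, hdeg⟩ := hF3 x
    have e : la x = p.length - 2 := by omega
    rw [e, ← hrev 2] at hadj
    have hz' : z ∉ p.reverse.support := by
      rw [Walk.support_reverse, List.mem_reverse]; exact hz
    exact hno (hp.reverse.leaf2 hT h3 (by omega) (by omega) hz' hadj hdeg)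
  · intro c hc
    have h4 := hd.ev hev c
    obtain ⟨z, hz, hadj, ⟨y, hy, hyz⟩, hdeg⟩ := hF2 c
    rw [hc] at hadj
    obtain ⟨p', hp', e1, e2⟩ := hp.swap hT (by omega) hz hy hadj hyz
    have h5 := hbest _ _ p' hp'
    rw [e1, e2] at h5
    have h6 := hF1 1 (by omega)
    unfold pathSum at h6
    beta_reduce at h6
    rw [if_pos le_rfl, if_pos (by omega)] at h6
    have h7 : (∑ b, if ba b = 1 then 1 else 0) = 0 := by
      refine Finset.sum_eq_zero fun b _ => ?_
      have := hd.ev hev b
      rw [if_neg (by omega)]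
    rw [h7, ← Finset.card_filter] at h6
    rw [← Finset.card_filter] at hdeg
    omega
  · intro c hc
    have h4 := hd.ev hev c
    obtain ⟨z, hz, hadj, ⟨y, hy, hyz⟩, hdeg⟩ := hF2 c
    have e : ba c = p.length - 2 := by omega
    rw [e, ← hrev 2] at hadj
    have hz' : z ∉ p.reverse.support := by
      rw [Walk.support_reverse, List.mem_reverse]; exact hz
    have hy' : y ∉ p.reverse.support := by
      rw [Walk.support_reverse, List.mem_reverse]; exact hy
    obtain ⟨p', hp', e1, e2⟩ := hp.reverse.swap hT (by omega) hz' hy' hadj hyz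
    have h5 := hbest _ _ p' hp'
    rw [e1, e2, hrev, hrl] at h5
    have e3 : p.length - (p.length - 1) = 1 := by omega
    rw [e3] at h5
    have h6 := hF1 (p.length - 1) (by omega)
    unfold pathSum at h6
    beta_reduce at h6
    rw [if_pos (by omega), if_pos (by omega)] at h6
    have h7 : (∑ b, if ba b = p.length - 1 then 1 else 0) = 0 := by
      refine Finset.sum_eq_zero fun b _ => ?_
      have := hd.ev hev b
      rw [if_neg (by omega)]
    rw [h7, ← Finset.card_filter] at h6
    rw [← Finset.card_filter] at hdeg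
    have h8 : (univ.filter fun x => la x = p.length - 1) =
        (univ.filter fun x => la x + 1 = p.length) := by
      refine Finset.filter_congr fun x _ => ?_
      omega
    rw [h8] at h6
    omega

end Pool.Agent.Lob89
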