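import Pool.Agent.Lob89.GgJ

/-!
# Both ends good: comparison of the sums of ranks for the colouring with one reserved edge
-/

namespace Pool.Agent.Lob89.Gg

open Pool.Agent.Lob12 Pool.Agent.Lob5 Pool.Agent.Lob89

/-- bounds at a vertex of good kind -/
theorem ubG (x : ℕ → Prop) {v : ℕ} (h1 : 1 ≤ v) (h : x v ↔ ¬ x (v + 1)) :
    (v % 2 = 0 → ¬ x v →
      Y x (v / 2) ≤ Y x (v / 2 + 1) + (nP x (v / 2 + 1) - nP x ((v - 1) / 2)) +
        (nB x (v / 2 + 1) - nB x ((v - 1) / 2)) ∧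
      -Y x (v / 2) + 3 ≤ 1 - Y x ((v - 1) / 2) + (nP x (v / 2 + 1) - nP x ((v - 1) / 2)) +
        (nB x (v / 2 + 1) - nB x ((v - 1) / 2))) ∧
    (v % 2 = 1 → x v →
      Y x (v / 2) + 1 ≤ Y x (v / 2 + 1) + (nP x (v / 2 + 1) - nP x ((v - 1) / 2)) +
        (nB x (v / 2 + 1) - nB x ((v - 1) / 2)) ∧
      -Y x (v / 2) + 2 ≤ 1 - Y x ((v - 1) / 2) + (nP x (v / 2 + 1) - nP x ((v - 1) / 2)) +
        (nB x (v / 2 + 1) - nB x ((v - 1) / 2))) := by
  obtain ⟨a1, a2, a3, a4⟩ := around x h1 h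
  refine ⟨fun o a => ?_, fun o a => ?_⟩
  · have := a1 o a
    unfold Y
    constructor <;> omega
  · have := a3 o a
    unfold Y
    rw [this.1]
    constructor <;> omega

/-- bounds at a vertex of bad kind -/
theorem ubB (x : ℕ → Prop) {v : ℕ} (h1 : 1 ≤ v) (h : x v ↔ ¬ x (v + 1)) :
    (v % 2 = 0 → x v →
      Y x (v / 2) + 1 ≤ Y x (v / 2 + 1) + (nR x (v / 2 + 1) - nR x ((v - 1) / 2)) ∧
      Y x (v / 2) ≤ Y x (v / 2 + 1) ∧
      -Y x (v / 2) ≤ 1 - Y x ((v - 1) / 2)) ∧
    (v % 2 = 1 → ¬ x v →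
      Y x (v / 2) ≤ Y x (v / 2 + 1) + (nR x (v / 2 + 1) - nR x ((v - 1) / 2)) ∧
      Y x (v / 2) ≤ Y x (v / 2 + 1) ∧
      -Y x (v / 2) + 1 ≤ 1 - Y x ((v - 1) / 2)) := by
  obtain ⟨a1, a2, a3, a4⟩ := around x h1 h
  refine ⟨fun o a => ?_, fun o a => ?_⟩
  · have := a2 o a
    have := nG_mono x (show v / 2 ≤ v / 2 + 1 by omega)
    unfold Y
    refine ⟨?_, ?_, ?_⟩ <;> omega
  · have := a4 o a
    unfold Y
    rw [this.1]
    refine ⟨?_, ?_, ?_⟩ <;> omega

section

variable {m : ℕ} {ld al x : ℕ → Prop} {s : ℤ} {y : ℤ} {j : ℕ} (W : GW m ld al x s)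
  (p : Ps m x y j)

/-- lower bounds of the sums -/
theorem gR_lb {z : ℕ} (h1 : 1 ≤ z) (h2 : z < 2 * m) (h3 : ld z) (h4 : z ≠ 2 * j) :
    (2 * j + 1 < z → (m - 1) - s + 1 + y + Y x (z / 2) ≤ ((cwR W p).owR.lr.J z : ℤ)) ∧
    (z < 2 * j → (m - 1) + y - Y x (z / 2) ≤ ((cwR W p).owR.lr.J z : ℤ)) ∧
    (z < 2 * j ∨ 2 * j + 1 < z) := by
  have hu : z ≠ 2 * j + 1 := by
    rintro rfl
    exact (cwR W p).uC h3
  refine ⟨fun c => ?_, fun c => ?_, by omega⟩
  · have h5 := gR_JR W p c h2 h3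
    by_cases a : x z
    · have := h5.1 a
      omega
    · have := h5.2 a
      omega
  · obtain ⟨b1, b2, b3, b4⟩ := gR_JL W p h1 c h3
    rcases Nat.mod_two_eq_zero_or_one z with o | o <;> by_cases a : x z
    · have := b1 o a
      omega
    · have := b4 o a
      omega
    · have := b2 o a
      omega
    · have := b3 o a
      omega

/-- upper bounds of the sums, good kind -/
theorem gR_ubG {v : ℕ} (h1 : 1 ≤ v) (h2 : v < 2 * m) (h3 : ld v) (h4 : ¬ (v % 2 = 0 ↔ x v)) :
    (2 * j + 1 < v → ((cwR W p).owR.lr.J v : ℤ) ≤ (m - 1) - s + 1 + y + Y x (v / 2 + 1) +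
      (nP x (v / 2 + 1) - nP x ((v - 1) / 2)) + (nB x (v / 2 + 1) - nB x ((v - 1) / 2))) ∧
    (v < 2 * j → ((cwR W p).owR.lr.J v : ℤ) ≤ (m - 1) + y + 1 - Y x ((v - 1) / 2) +
      (nP x (v / 2 + 1) - nP x ((v - 1) / 2)) + (nB x (v / 2 + 1) - nB x ((v - 1) / 2))) ∧
    (v < 2 * j ∨ 2 * j + 1 < v) := by
  have hu : v ≠ 2 * j + 1 := by
    rintro rfl
    exact (cwR W p).uC h3
  have hd := W.dif v h1 h2 h3
  have hj : v ≠ 2 * j := by
    rintro rfl
    have := p.gg.1
    apply h4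
    constructor
    · intro _
      by_contra hh
      exact hh (hd.2 this)
    · intro _
      omega
  obtain ⟨g1, g2⟩ := ubG x h1 hd
  refine ⟨fun c => ?_, fun c => ?_, by omega⟩
  · obtain ⟨k1, k2⟩ := gR_JR W p c h2 h3
    rcases Nat.mod_two_eq_zero_or_one v with o | o <;> by_cases a : x v
    · exact absurd (iff_of_true o a) h4
    · have := k2 a
      have := (g1 o a).1
      omega
    · have := k1 a
      have := (g2 o a).1
      omega
    · exact absurd (iff_of_false (by omega) a) h4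
  · obtain ⟨b1, b2, b3, b4⟩ := gR_JL W p h1 c h3
    rcases Nat.mod_two_eq_zero_or_one v with o | o <;> by_cases a : x v
    · exact absurd (iff_of_true o a) h4
    · have := b4 o a
      have := (g1 o a).2
      omega
    · have := b2 o a
      have := (g2 o a).2
      omega
    · exact absurd (iff_of_false (by omega) a) h4

/-- upper bounds of the sums, bad kind -/
theorem gR_ubB {v : ℕ} (h1 : 1 ≤ v) (h2 : v < 2 * m) (h3 : ld v) (h4 : v % 2 = 0 ↔ x v) :
    (2 * j + 1 < v → ((cwR W p).owR.lr.J v : ℤ) ≤ (m - 1) - s + 1 + y + Y x (v / 2 + 1) +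
      (nR x (v / 2 + 1) - nR x ((v - 1) / 2)) ∧
      ((cwR W p).owR.lr.J v : ℤ) ≤ (m - 1) - s + 2 + y + Y x (v / 2 + 1)) ∧
    (v < 2 * j → ((cwR W p).owR.lr.J v : ℤ) ≤ (m - 1) + y + 1 - Y x ((v - 1) / 2)) ∧
    (v = 2 * j → ((cwR W p).owR.lr.J v : ℤ) = (m - 1)) ∧
    (v < 2 * j ∨ v = 2 * j ∨ 2 * j + 1 < v) := by
  have hu : v ≠ 2 * j + 1 := by
    rintro rfl
    exact (cwR W p).uC h3
  have hd := W.dif v h1 h2 h3
  obtain ⟨g1, g2⟩ := ubB x h1 hd
  refine ⟨fun c => ?_, fun c => ?_, fun c => ?_, by omega⟩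
  · obtain ⟨k1, k2⟩ := gR_JR W p c h2 h3
    rcases Nat.mod_two_eq_zero_or_one v with o | o
    · have a := h4.1 o
      have := k1 a
      have := g1 o a
      constructor <;> omega
    · have a : ¬ x v := fun h => by have := h4.2 h; omega
      have := k2 a
      have := g2 o a
      constructor <;> omega
  · obtain ⟨b1, b2, b3, b4⟩ := gR_JL W p h1 c h3
    rcases Nat.mod_two_eq_zero_or_one v with o | o
    · have a := h4.1 o
      have := b1 o a
      have := (g1 o a).2.2
      omega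
    · have a : ¬ x v := fun h => by have := h4.2 h; omega
      have := b3 o a
      have := (g2 o a).2.2
      omega
  · subst c
    exact gR_JP W p h3

/-- the global facts -/
theorem gR_glob : (nB x 1 = 1 ∧ nG x 1 = 0 ∧ nP x 1 = 0 ∧ nR x 1 = 0) ∧
    (nB x m = nB x (m - 1) + 1 ∧ nG x m = nG x (m - 1) ∧ nP x m = nP x (m - 1) ∧
      nR x m = nR x (m - 1)) ∧
    (nB x (j + 1) = nB x j ∧ nG x (j + 1) = nG x j + 1 ∧ nP x (j + 1) = nP x j ∧
      nR x (j + 1) = nR x j) ∧ (nG x m : ℤ) - nB x m = s ∧ (nG x j : ℤ) - nB x j = y ∧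
    1 ≤ j ∧ j + 2 ≤ m ∧ 1 ≤ s ∧
    ((cwR W p).owR.lr.Q : ℤ) = nB x m + nP x m + y ∧
    ((cwR W p).owR.lr.P : ℤ) = nB x m + nR x m + y ∧ 1 ≤ nB x j := by
  have h1 := W.first
  have h2 := W.last
  have h3 := p.cnt
  have h4 := W.tot
  have h5 := p.Yj
  obtain ⟨h6, h7⟩ := p.rng W
  have h8 := gR_Q W p
  have h9 := gR_P W p
  have h10 := pcnt x m
  have h11 := nB_mono x h6
  unfold Y at h4 h5
  refine ⟨h1, h2, h3, h4, h5, h6, h7, W.s1, by omega, by omega, by omega⟩

/-- Comparison, good kind. -/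
theorem gR_DG (hs : s ≤ 2 * y + 2) {a z : ℕ} (a1 : 1 ≤ a) (a2 : a < 2 * m) (a3 : ld a)
    (a4 : ¬ (a % 2 = 0 ↔ x a)) (z1 : 1 ≤ z) (z2 : z < 2 * m) (z3 : ld z) (z4 : z ≠ 2 * j) :
    (cwR W p).owR.lr.J a ≤ (cwR W p).owR.lr.J z + (cwR W p).owR.lr.Q := by
  obtain ⟨g1, g2, g3, g4, g5, g6, g7, g8, g9, _, g10⟩ := gR_glob W p
  obtain ⟨u1, u2, u3⟩ := gR_ubG W p a1 a2 a3 a4
  obtain ⟨l1, l2, l3⟩ := gR_lb W p z1 z2 z3 z4
  have ra := W.ld_rng a1 a2 a3
  have rz := W.ld_rng z1 z2 z3
  have zz := Y_ld x (v := z) fun _ => W.dif z z1 z2 z3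
  have haz : a = z ∨ a < z ∨ z < a := by omega
  have pz := p.le (z / 2)
  have y1 := nP_mono x (show a / 2 + 1 ≤ m by omega)
  rcases haz with rfl | haz | haz
  · omega
  · -- `a` before `z`
    have t1 := nB_mono x (show a / 2 + 1 ≤ (z + 1) / 2 by omega)
    have t2 := nG_mono x (show a / 2 + 1 ≤ (z + 1) / 2 by omega)
    have t3 := nB_mono x (show (z + 1) / 2 ≤ m - 1 by omega)
    have t4 := nB_mono x (show (a - 1) / 2 ≤ a / 2 + 1 by omega)
    rcases l3 with c | c
    · have c' : a < 2 * j := by omega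
      have := u2 c'
      have := l2 c
      have := pz (by omega)
      unfold Y at *
      omega
    · rcases u3 with d | d
      · have := u2 d
        have := l1 c
        have t5 := nB_mono x (show a / 2 + 1 ≤ j by omega)
        have t6 := nG_mono x (show j + 1 ≤ (z + 1) / 2 by omega)
        unfold Y at *
        omega
      · have := u1 d
        have := l1 c
        have t5 := nB_mono x (show 1 ≤ (a - 1) / 2 by omega)
        unfold Y at *
        omega
  · -- `z` before `a`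
    have t1 := nB_mono x (show z / 2 ≤ (a - 1) / 2 by omega)
    have t2 := nG_mono x (show z / 2 ≤ (a - 1) / 2 by omega)
    have t3 := nB_mono x (show a / 2 + 1 ≤ m by omega)
    have t4 := nG_mono x (show a / 2 + 1 ≤ m by omega)
    have t5 := nB_mono x (show 1 ≤ z / 2 by omega)
    have t6 := nB_mono x (show (a - 1) / 2 ≤ a / 2 + 1 by omega)
    rcases u3 with c | c
    · have c' : z < 2 * j := by omega
      have := u2 c
      have := l2 c'
      have t7 := nB_mono x (show a / 2 + 1 ≤ j by omega)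
      have t8 := nB_mono x (show j ≤ m - 1 by omega)
      unfold Y at *
      omega
    · rcases l3 with d | d
      · have := u1 c
        have := l2 d
        have := pz (by omega)
        unfold Y at *
        omega
      · have := u1 c
        have := l1 d
        have t7 := nG_mono x (show j + 1 ≤ z / 2 by omega)
        unfold Y at *
        omega

/-- Comparison, bad kind. -/
theorem gR_DB (hs : s ≤ 2 * y + 2) {a z : ℕ} (a1 : 1 ≤ a) (a2 : a < 2 * m) (a3 : ld a)
    (a4 : a % 2 = 0 ↔ x a) (z1 : 1 ≤ z) (z2 : z < 2 * m) (z3 : ld z) (z4 : z ≠ 2 * j) :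
    (cwR W p).owR.lr.J a ≤ (cwR W p).owR.lr.J z + (cwR W p).owR.lr.Q + 1 ∧
    (cwR W p).owR.lr.J a ≤ (cwR W p).owR.lr.J z + (cwR W p).owR.lr.P := by
  obtain ⟨g1, g2, g3, g4, g5, g6, g7, g8, g9, g9', g10⟩ := gR_glob W p
  obtain ⟨u1, u2, u4, u3⟩ := gR_ubB W p a1 a2 a3 a4
  obtain ⟨l1, l2, l3⟩ := gR_lb W p z1 z2 z3 z4
  have ra := W.ld_rng a1 a2 a3
  have rz := W.ld_rng z1 z2 z3
  have zz := Y_ld x (v := z) fun _ => W.dif z z1 z2 z3
  have haz : a = z ∨ a < z ∨ z < a := by omega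
  have pz := p.le (z / 2)
  have y1 := nR_mono x (show a / 2 + 1 ≤ m by omega)
  have y2 := nR_mono x (show (a - 1) / 2 ≤ a / 2 + 1 by omega)
  rcases haz with rfl | haz | haz
  · omega
  · -- `a` before `z`
    have t1 := nB_mono x (show a / 2 + 1 ≤ (z + 1) / 2 by omega)
    have t2 := nG_mono x (show a / 2 + 1 ≤ (z + 1) / 2 by omega)
    have t3 := nB_mono x (show (z + 1) / 2 ≤ m - 1 by omega)
    have t4 := nB_mono x (show (a - 1) / 2 ≤ a / 2 + 1 by omega)
    rcases l3 with c | c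
    · have c' : a < 2 * j := by omega
      have := u2 c'
      have := l2 c
      have := pz (by omega)
      unfold Y at *
      omega
    · rcases u3 with d | d | d
      · have := u2 d
        have := l1 c
        have t5 := nB_mono x (show a / 2 + 1 ≤ j by omega)
        have t6 := nG_mono x (show j + 1 ≤ (z + 1) / 2 by omega)
        unfold Y at *
        omega
      · have := u4 d
        have := l1 c
        have t6 := nG_mono x (show j + 1 ≤ (z + 1) / 2 by omega)
        unfold Y at *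
        omega
      · have := u1 d
        have := l1 c
        have t5 := nB_mono x (show 1 ≤ (a - 1) / 2 by omega)
        unfold Y at *
        omega
  · -- `z` before `a`
    have t1 := nB_mono x (show z / 2 ≤ (a - 1) / 2 by omega)
    have t2 := nG_mono x (show z / 2 ≤ (a - 1) / 2 by omega)
    have t3 := nB_mono x (show a / 2 + 1 ≤ m by omega)
    have t4 := nG_mono x (show a / 2 + 1 ≤ m by omega)
    have t5 := nB_mono x (show 1 ≤ z / 2 by omega)
    have t6 := nB_mono x (show (a - 1) / 2 ≤ a / 2 + 1 by omega)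
    rcases u3 with c | c | c
    · have c' : z < 2 * j := by omega
      have := u2 c
      have := l2 c'
      have t7 := nB_mono x (show a / 2 + 1 ≤ j by omega)
      have t8 := nB_mono x (show j ≤ m - 1 by omega)
      unfold Y at *
      omega
    · have c' : z < 2 * j := by omega
      have := u4 c
      have := l2 c'
      have := pz (by omega)
      unfold Y at *
      omega
    · rcases l3 with d | d
      · have := u1 c
        have := l2 d
        have := pz (by omega)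
        unfold Y at *
        omega
      · have := u1 c
        have := l1 d
        have t7 := nG_mono x (show j + 1 ≤ z / 2 by omega)
        unfold Y at *
        omega

end

end Pool.Agent.Lob89.Gg
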