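import Mathlib

/-!
Antimagic lobsters: definitions and the interface between the graph part and the
combinatorial core.
-/

namespace Pool.Agent.Lob89

open SimpleGraph Finset

/-- `G` is antimagic: the edges can be labelled bijectively with `1, ..., m`, `m` the number of
edges, such that the vertex sums are pairwise distinct. -/
def IsAntimagic {V : Type*} [Fintype V] [DecidableEq V] (G : SimpleGraph V)
    [DecidableRel G.Adj] : Prop :=
  ∃ f : Sym2 V → ℕ, Set.BijOn f G.edgeSet (Set.Icc 1 G.edgeFinset.card) ∧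
    Function.Injective (fun v => ∑ e ∈ G.incidenceFinset v, f e)

/-- A lobster: a tree with a path such that every vertex is at distance at most two from the
path. -/
def IsLobster {V : Type*} (G : SimpleGraph V) : Prop :=
  G.IsTree ∧ ∃ (u v : V) (p : G.Walk u v), p.IsPath ∧ ∀ x, ∃ y ∈ p.support, G.dist x y ≤ 2

/-- The data of a lobster: a path with edges `e_1, ..., e_k` and vertices `0, ..., k`,
a type `Lf` of pendant leaves (leaf `x` hangs at the path vertex `la x`),
a type `B` of bush centres (hanging at `ba b`) and a type `BL` of bush leaves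
(leaf `x` hangs at the centre `par x`). If `k` is even, no bush hangs at the vertices `1`, `k - 1`. -/
structure LobData (k : ℕ) {Lf B BL : Type*} (la : Lf → ℕ) (ba : B → ℕ) (par : BL → B) : Prop where
  two_le : 2 ≤ k
  la_pos : ∀ x, 1 ≤ la x
  la_lt : ∀ x, la x + 1 ≤ k
  ba_pos : ∀ b, 1 ≤ ba b
  ba_lt : ∀ b, ba b + 1 ≤ k
  ev : k % 2 = 0 → ∀ b, 2 ≤ ba b ∧ ba b + 2 ≤ k
  par_surj : Function.Surjective par

/-- No bush hangs at the vertex `om`. -/
theorem LobData.ne_om {k : ℕ} {Lf B BL : Type*} {la : Lf → ℕ} {ba : B → ℕ} {par : BL → B}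
    (hd : LobData k la ba par) {om : ℕ} (h : om = 0 ∨ (om + 1 = k ∧ k % 2 = 0)) (b : B) :
    ba b ≠ om := by
  rcases h with h | ⟨h, h'⟩
  · have := hd.ba_pos b
    omega
  · have := (hd.ev h' b).2
    omega

/-- All labels together: `p i` is the label of the path edge `e_i`, `1 ≤ i ≤ k`. -/
def labels {k : ℕ} {Lf B BL : Type*} (p : ℕ → ℕ) (fl : Lf → ℕ) (ft : B → ℕ) (fb : BL → ℕ) :
    Fin k ⊕ (Lf ⊕ (B ⊕ BL)) → ℕ :=
  Sum.elim (fun i => p (i + 1)) (Sum.elim fl (Sum.elim ft fb))

/-- The sum at the path vertex `i`. -/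
def pathSum {Lf B : Type*} [Fintype Lf] [Fintype B] (k : ℕ) (la : Lf → ℕ) (ba : B → ℕ)
    (p : ℕ → ℕ) (fl : Lf → ℕ) (ft : B → ℕ) (i : ℕ) : ℕ :=
  (if 1 ≤ i then p i else 0) + (if i < k then p (i + 1) else 0)
    + (∑ x, if la x = i then fl x else 0) + ∑ b, if ba b = i then ft b else 0

/-- All vertex sums. -/
def vsums {Lf B BL : Type*} [Fintype Lf] [Fintype B] [Fintype BL] [DecidableEq B]
    (k : ℕ) (la : Lf → ℕ) (ba : B → ℕ) (par : BL → B)
    (p : ℕ → ℕ) (fl : Lf → ℕ) (ft : B → ℕ) (fb : BL → ℕ) :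
    Fin (k + 1) ⊕ (Lf ⊕ (B ⊕ BL)) → ℕ :=
  Sum.elim (fun i => pathSum k la ba p fl ft i)
    (Sum.elim fl (Sum.elim (fun b => ft b + ∑ x, if par x = b then fb x else 0) fb))

/-- An antimagic labelling of the data exists. -/
def HasLabels {Lf B BL : Type*} [Fintype Lf] [Fintype B] [Fintype BL] [DecidableEq B]
    (k : ℕ) (la : Lf → ℕ) (ba : B → ℕ) (par : BL → B) : Prop :=
  ∃ (p : ℕ → ℕ) (fl : Lf → ℕ) (ft : B → ℕ) (fb : BL → ℕ),
    Function.Injective (labels (k := k) p fl ft fb) ∧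
    (∀ s, 1 ≤ labels (k := k) p fl ft fb s ∧
      labels (k := k) p fl ft fb s ≤
        k + Fintype.card Lf + Fintype.card B + Fintype.card BL) ∧
    Function.Injective (vsums k la ba par p fl ft fb)

end Pool.Agent.Lob89
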