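import Pool.Agent.Lob89.Defs

/-!
Two path edges: stars.
-/

namespace Pool.Agent.Lob89

open Finset

theorem k2_main {Lf B BL : Type*} [Fintype Lf] [Fintype B] [Fintype BL] [DecidableEq B]
    {la : Lf → ℕ} {ba : B → ℕ} {par : BL → B} (hd : LobData 2 la ba par) :
    HasLabels 2 la ba par := by
  classical
  have hB : IsEmpty B := ⟨fun b => by
    have := hd.ev rfl b
    omega⟩
  have hBL : IsEmpty BL := ⟨fun y => hB.elim (par y)⟩
  have hla : ∀ x, la x = 1 := fun x => by
    have h1 := hd.la_pos x
    have h2 := hd.la_lt x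
    omega
  let e := Fintype.equivFin Lf
  let fl : Lf → ℕ := fun x => 3 + (e x : ℕ)
  have hfl : ∀ x, 3 ≤ fl x ∧ fl x ≤ 2 + Fintype.card Lf := fun x => by
    have := (e x).isLt
    show 3 ≤ 3 + (e x : ℕ) ∧ 3 + (e x : ℕ) ≤ _
    omega
  have hflinj : ∀ x y, fl x = fl y → x = y := by
    intro x y h
    apply e.injective
    apply Fin.ext
    change 3 + (e x : ℕ) = 3 + (e y : ℕ) at h
    omega
  have hle : ∀ x, fl x ≤ ∑ y, fl y := fun x => Finset.single_le_sum (fun y _ => Nat.zero_le _)
    (Finset.mem_univ x)
  refine ⟨fun i => i, fl, fun _ => 0, fun _ => 0, ?_, ?_, ?_⟩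
  · rintro (i | x | b | y) (i' | x' | b' | y') h
    · change (i : ℕ) + 1 = (i' : ℕ) + 1 at h
      rw [Fin.ext (by omega : (i : ℕ) = i')]
    · change (i : ℕ) + 1 = fl x' at h
      have := hfl x'
      omega
    · exact hB.elim b'
    · exact hBL.elim y'
    · change fl x = (i' : ℕ) + 1 at h
      have := hfl x
      omega
    · rw [hflinj x x' h]
    · exact hB.elim b'
    · exact hBL.elim y'
    · exact hB.elim b
    · exact hB.elim b
    · exact hB.elim b
    · exact hB.elim b
    · exact hBL.elim y
    · exact hBL.elim y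
    · exact hBL.elim y
    · exact hBL.elim y
  · rintro (i | x | b | y)
    · show 1 ≤ (i : ℕ) + 1 ∧ (i : ℕ) + 1 ≤ _
      omega
    · show 1 ≤ fl x ∧ fl x ≤ _
      have := hfl x
      omega
    · exact hB.elim b
    · exact hBL.elim y
  · have s0 : ∀ i : Fin 3, vsums 2 la ba par (fun i => i) fl (fun _ => 0) (fun _ => 0) (Sum.inl i) =
        if (i : ℕ) = 0 then 1 else if (i : ℕ) = 1 then 3 + ∑ x, fl x else 2 := by
      intro i
      show pathSum 2 la ba (fun i => i) fl (fun _ => 0) i = _
      unfold pathSum
      have h1 : (∑ x, if la x = (i : ℕ) then fl x else 0) =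
          if (i : ℕ) = 1 then ∑ x, fl x else 0 := by
        by_cases h : (i : ℕ) = 1
        · rw [if_pos h]
          exact Finset.sum_congr rfl fun x _ => if_pos (by rw [hla x, h])
        · rw [if_neg h]
          exact Finset.sum_eq_zero fun x _ => if_neg (by rw [hla x]; omega)
      rw [h1]
      fin_cases i <;> simp
    rintro (i | x | b | y) (i' | x' | b' | y') h
    · rw [s0, s0] at h
      congr 1
      apply Fin.ext
      split_ifs at h <;> omega
    · rw [s0] at h
      change _ = fl x' at h
      have := hfl x'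
      have := hle x'
      split_ifs at h <;> omega
    · exact hB.elim b'
    · exact hBL.elim y'
    · rw [s0] at h
      change fl x = _ at h
      have := hfl x
      have := hle x
      split_ifs at h <;> omega
    · rw [hflinj x x' h]
    · exact hB.elim b'
    · exact hBL.elim y'
    · exact hB.elim b
    · exact hB.elim b
    · exact hB.elim b
    · exact hB.elim b
    · exact hBL.elim y
    · exact hBL.elim y
    · exact hBL.elim y
    · exact hBL.elim y

end Pool.Agent.Lob89
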