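import Pool.Agent.Lob89.RedE
import Pool.Agent.Lob89.K2
import Pool.Agent.Lob5.Mirror
import Pool.Agent.Lob5.E4Main

/-!
The reversal of the path for `EvenData`, and the case distinction by the numbers of leaves at the
two ends.
-/

namespace Pool.Agent.Lob89

open Finset

theorem EvenData.mirror {k : ℕ} {Lf B BL : Type*} [Fintype Lf] [Fintype BL] [DecidableEq B]
    {la : Lf → ℕ} {ba : B → ℕ} {par : BL → B} (h : EvenData k la ba par) :
    EvenData k (fun x => k - la x) (fun b => k - ba b) par := by
  have hla : ∀ x, 1 ≤ la x ∧ la x + 1 ≤ k := fun x => ⟨h.hd.la_pos x, h.hd.la_lt x⟩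
  have hba : ∀ b, 2 ≤ ba b ∧ ba b + 2 ≤ k := h.hd.ev h.even
  have e1 : (univ.filter fun x => k - la x = 1) = univ.filter fun x => la x + 1 = k :=
    Finset.filter_congr fun x _ => by have := hla x; omega
  have e2 : (univ.filter fun x => k - la x + 1 = k) = univ.filter fun x => la x = 1 :=
    Finset.filter_congr fun x _ => by have := hla x; omega
  refine ⟨Pool.Agent.Lob5.mirror_data h.hd, h.even, ?_, ?_, ?_, ?_⟩
  · intro x hx
    have h1 := hla x
    have h2 := h.la2' x
    change k - la x = 2 at hx
    omega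
  · intro x hx
    have h1 := hla x
    have h2 := h.la2 x
    change k - la x + 2 = k at hx
    omega
  · intro b hb
    change k - ba b = 2 at hb
    show _ ≤ 1 + (univ.filter fun x => k - la x = 1).card
    rw [e1]
    exact h.b2' b (by have := hba b; omega)
  · intro b hb
    change k - ba b + 2 = k at hb
    show _ ≤ 1 + (univ.filter fun x => k - la x + 1 = k).card
    rw [e2]
    exact h.b2 b (by have := hba b; omega)

theorem EvenData.four_le {k : ℕ} {Lf B BL : Type*} [Fintype Lf] [Fintype BL] [DecidableEq B]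
    {la : Lf → ℕ} {ba : B → ℕ} {par : BL → B} (h : EvenData k la ba par) (h2 : k ≠ 2) :
    4 ≤ k := by
  have h1 := h.hd.two_le
  have h3 := h.even
  omega

section

universe u

/-- The case distinction: it suffices to treat the right end with exactly two or one leaves besides
the path edge, and the case that there are no leaves at both ends. -/
theorem even_cases
    (P3 : ∀ (k : ℕ) (Lf B BL : Type u) [Fintype Lf] [Fintype B] [Fintype BL] [DecidableEq B]
      (la : Lf → ℕ) (ba : B → ℕ) (par : BL → B), EvenData k la ba par → 4 ≤ k →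
      (univ.filter fun x => la x + 1 = k).card = 2 → HasLabels k la ba par)
    (P2 : ∀ (k : ℕ) (Lf B BL : Type u) [Fintype Lf] [Fintype B] [Fintype BL] [DecidableEq B]
      (la : Lf → ℕ) (ba : B → ℕ) (par : BL → B), EvenData k la ba par → 4 ≤ k →
      (univ.filter fun x => la x + 1 = k).card = 1 → HasLabels k la ba par)
    (P1 : ∀ (k : ℕ) (Lf B BL : Type u) [Fintype Lf] [Fintype B] [Fintype BL] [DecidableEq B]
      (la : Lf → ℕ) (ba : B → ℕ) (par : BL → B), EvenData k la ba par → 4 ≤ k →
      (∀ x, la x + 1 ≠ k) → (∀ x, la x ≠ 1) → HasLabels k la ba par)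
    (k : ℕ) (Lf B BL : Type u) [Fintype Lf] [Fintype B] [Fintype BL] [DecidableEq B]
    (la : Lf → ℕ) (ba : B → ℕ) (par : BL → B) (h : EvenData k la ba par) :
    HasLabels k la ba par := by
  classical
  by_cases h2 : k = 2
  · subst h2
    exact k2_main h.hd
  have h4 := h.four_le h2
  -- an end with leaves
  have key : ∀ (la : Lf → ℕ) (ba : B → ℕ), EvenData k la ba par →
      (∃ x, la x + 1 = k) → HasLabels k la ba par := by
    intro la ba h ⟨x, hx⟩
    have hpos : 1 ≤ (univ.filter fun x => la x + 1 = k).card :=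
      Finset.card_pos.2 ⟨x, Finset.mem_filter.2 ⟨Finset.mem_univ _, hx⟩⟩
    by_cases h3 : 3 ≤ (univ.filter fun x => la x + 1 = k).card
    · obtain ⟨x, y, z, hx, hy, hz, hxy, hxz, hyz⟩ := Finset.two_lt_card_iff.1 h3
      rw [Finset.mem_filter] at hx hy hz
      exact Pool.Agent.Lob5.e4_main h.hd h.even x y z hxy hxz hyz hx.2 hy.2 hz.2
    · have h5 : (univ.filter fun x => la x + 1 = k).card = 2 ∨
          (univ.filter fun x => la x + 1 = k).card = 1 := by omega
      rcases h5 with h5 | h5
      · exact P3 k Lf B BL la ba par h h4 h5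
      · exact P2 k Lf B BL la ba par h h4 h5
  by_cases hR : ∃ x, la x + 1 = k
  · exact key la ba h hR
  by_cases hL : ∃ x, la x = 1
  · refine Pool.Agent.Lob5.mirror h.hd (key _ _ h.mirror ?_)
    obtain ⟨x, hx⟩ := hL
    exact ⟨x, by show k - la x + 1 = k; omega⟩
  · push Not at hR hL
    exact P1 k Lf B BL la ba par h h4 hR hL

end

end Pool.Agent.Lob89
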