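import Pool.Agent.Lob89.RankData

/-!
Walks of good and bad edges, windows, ranks.
-/

namespace Pool.Agent.Lob89

/-- The edge at time `j` (starting from `0`) in the window with seam `q`. -/
def wedge (k q j : ℕ) : ℕ := if q + 1 + j ≤ k then q + 1 + j else q + 1 + j - k

/-- The time of the edge `e`. -/
def wtime (k q e : ℕ) : ℕ := if q < e then e - q - 1 else e + k - q - 1

lemma wtime_lt {k q e : ℕ} (hq : q < k) (h1 : 1 ≤ e) (h2 : e ≤ k) : wtime k q e < k := by
  unfold wtime; split_ifs <;> omega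

lemma wedge_wtime {k q e : ℕ} (hq : q < k) (h1 : 1 ≤ e) (h2 : e ≤ k) :
    wedge k q (wtime k q e) = e := by
  unfold wedge wtime; split_ifs <;> omega

lemma wtime_succ {k q i : ℕ} (hq : q < k) (h1 : 1 ≤ i) (h2 : i < k) (h : i ≠ q) :
    wtime k q (i + 1) = wtime k q i + 1 := by
  unfold wtime; split_ifs <;> omega

lemma wtime_inj {k q e f : ℕ} (hq : q < k) (h1 : 1 ≤ e) (h2 : e ≤ k) (h3 : 1 ≤ f) (h4 : f ≤ k)
    (h : wtime k q e = wtime k q f) : e = f := by
  rw [← wedge_wtime hq h1 h2, h, wedge_wtime hq h3 h4]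

/-- Number of edges of colour `g` and parity `r` among the first `t` edges of the window. -/
def cnt (k q : ℕ) (G : ℕ → Bool) (g : Bool) (r t : ℕ) : ℕ :=
  Nat.count (fun j => G (wedge k q j) = g ∧ wedge k q j % 2 = r) t

lemma cnt_zero (k q : ℕ) (G : ℕ → Bool) (g : Bool) (r : ℕ) : cnt k q G g r 0 = 0 := rfl

lemma cnt_succ (k q : ℕ) (G : ℕ → Bool) (g : Bool) (r t : ℕ) :
    cnt k q G g r (t + 1) = cnt k q G g r t +
      if G (wedge k q t) = g ∧ wedge k q t % 2 = r then 1 else 0 := by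
  unfold cnt; rw [Nat.count_succ]

lemma cnt_mono (k q : ℕ) (G : ℕ → Bool) (g : Bool) (r : ℕ) : Monotone (cnt k q G g r) :=
  Nat.count_monotone _

/-- number of odd edges among the first `t` edges of the window -/
def oddc (k q t : ℕ) : ℕ :=
  if q + t ≤ k then (q + t + 1) / 2 - (q + 1) / 2
  else (k + 1) / 2 - (q + 1) / 2 + (q + t - k + 1) / 2

lemma cnt_odd {k q : ℕ} (hq : q < k) (G : ℕ → Bool) (t : ℕ) (ht : t ≤ k) :
    cnt k q G true 1 t + cnt k q G false 1 t = oddc k q t := by
  induction t with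
  | zero => simp [cnt_zero, oddc, hq.le]
  | succ t ih =>
    have ih' := ih (by omega)
    rw [cnt_succ, cnt_succ]
    have hodd : oddc k q (t + 1) = oddc k q t + if wedge k q t % 2 = 1 then 1 else 0 := by
      unfold oddc wedge
      split_ifs <;> omega
    rw [hodd, ← ih']
    cases hG : G (wedge k q t) <;> by_cases hw : wedge k q t % 2 = 1 <;> simp [hw] <;> omega

lemma cnt_even {k q : ℕ} (hq : q < k) (G : ℕ → Bool) (t : ℕ) (ht : t ≤ k) :
    cnt k q G true 0 t + cnt k q G false 0 t + oddc k q t = t := by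
  rw [← cnt_odd hq G t ht]
  clear ht
  induction t with
  | zero => simp [cnt_zero]
  | succ t ih =>
    rw [cnt_succ, cnt_succ, cnt_succ, cnt_succ]
    rcases Nat.mod_two_eq_zero_or_one (wedge k q t) with hw | hw <;>
      cases hG : G (wedge k q t) <;> simp [hw] <;> omega

/-- The walk. -/
def walk (G : ℕ → Bool) : ℕ → ℤ
  | 0 => 0
  | i + 1 => walk G i + if G (i + 1) then 1 else -1

lemma walk_succ (G : ℕ → Bool) (i : ℕ) :
    walk G (i + 1) = walk G i + if G (i + 1) then 1 else -1 := rfl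

lemma cnt_walk {k q : ℕ} (hq : q < k) (G : ℕ → Bool) (t : ℕ) (ht : t ≤ k) :
    ((cnt k q G true 0 t : ℤ) + cnt k q G true 1 t) - (cnt k q G false 0 t + cnt k q G false 1 t) =
      if q + t ≤ k then walk G (q + t) - walk G q
      else walk G k - walk G q + walk G (q + t - k) := by
  induction t with
  | zero => simp [cnt_zero, hq.le]
  | succ t ih =>
    have ih' := ih (by omega)
    have hstep : (if q + (t + 1) ≤ k then walk G (q + (t + 1)) - walk G q
      else walk G k - walk G q + walk G (q + (t + 1) - k)) =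
      (if q + t ≤ k then walk G (q + t) - walk G q
        else walk G k - walk G q + walk G (q + t - k)) +
        if G (wedge k q t) then 1 else -1 := by
      unfold wedge
      by_cases h1 : q + (t + 1) ≤ k
      · rw [if_pos h1, if_pos (by omega : q + t ≤ k), if_pos (by omega : q + 1 + t ≤ k)]
        have : q + 1 + t = q + t + 1 := by omega
        rw [this]
        have := walk_succ G (q + t)
        rw [← add_assoc, this]
        ring
      · by_cases h2 : q + t ≤ k
        · have h3 : q + t = k := by omega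
          rw [if_neg h1, if_pos h2, if_neg (by omega : ¬ q + 1 + t ≤ k), h3]
          have h4 : q + (t + 1) - k = 0 + 1 := by omega
          have h5 : q + 1 + t - k = 0 + 1 := by omega
          rw [h4, h5, walk_succ]
          simp [walk]
        · rw [if_neg h1, if_neg h2, if_neg (by omega : ¬ q + 1 + t ≤ k)]
          have h4 : q + (t + 1) - k = (q + t - k) + 1 := by omega
          have h5 : q + 1 + t - k = (q + t - k) + 1 := by omega
          rw [h4, h5, walk_succ]
          ring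
    rw [hstep, ← ih', cnt_succ, cnt_succ, cnt_succ, cnt_succ]
    rcases Nat.mod_two_eq_zero_or_one (wedge k q t) with hw | hw <;>
      cases hG : G (wedge k q t) <;> simp [hw] <;> ring

/-- The rank of an edge. -/
def rank (k q : ℕ) (G : ℕ → Bool) (e : ℕ) : ℕ :=
  if G e then cnt k q G false (e % 2) k + 1 + cnt k q G true (e % 2) (wtime k q e)
  else cnt k q G false (e % 2) k - cnt k q G false (e % 2) (wtime k q e)

lemma rank_good {k q : ℕ} {G : ℕ → Bool} {e : ℕ} (h : G e = true) :
    rank k q G e = cnt k q G false (e % 2) k + 1 + cnt k q G true (e % 2) (wtime k q e) := by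
  unfold rank; rw [if_pos h]

lemma rank_bad {k q : ℕ} {G : ℕ → Bool} {e : ℕ} (h : G e = false) :
    rank k q G e = cnt k q G false (e % 2) k - cnt k q G false (e % 2) (wtime k q e) := by
  unfold rank; rw [if_neg (by simp [h])]

/-- counts just after the edge `e` -/
lemma cnt_self {k q : ℕ} (hq : q < k) (G : ℕ → Bool) {e : ℕ} (h1 : 1 ≤ e) (h2 : e ≤ k)
    (g : Bool) (r : ℕ) :
    cnt k q G g r (wtime k q e + 1) = cnt k q G g r (wtime k q e) +
      if G e = g ∧ e % 2 = r then 1 else 0 := by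
  rw [cnt_succ, wedge_wtime hq h1 h2]

lemma cnt_lt {k q : ℕ} (hq : q < k) (G : ℕ → Bool) {e : ℕ} (h1 : 1 ≤ e) (h2 : e ≤ k) {t : ℕ}
    (ht : wtime k q e < t) : cnt k q G (G e) (e % 2) (wtime k q e) < cnt k q G (G e) (e % 2) t := by
  have h3 := cnt_self hq G h1 h2 (G e) (e % 2)
  rw [if_pos ⟨rfl, rfl⟩] at h3
  have h4 := cnt_mono k q G (G e) (e % 2) (show wtime k q e + 1 ≤ t from ht)
  omega

section ranks

variable {k h q : ℕ} {G : ℕ → Bool}

lemma tot_odd (hk : k = 2 * h + 1) (hq : q < k) :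
    cnt k q G true 1 k + cnt k q G false 1 k = h + 1 := by
  rw [cnt_odd hq G k le_rfl]
  unfold oddc
  split_ifs <;> omega

lemma tot_even (hk : k = 2 * h + 1) (hq : q < k) :
    cnt k q G true 0 k + cnt k q G false 0 k = h := by
  have h1 := cnt_even hq G k le_rfl
  have h2 := tot_odd (G := G) hk hq
  rw [cnt_odd hq G k le_rfl] at h2
  omega

lemma rank_mem_good (hq : q < k) {e : ℕ} (h1 : 1 ≤ e) (h2 : e ≤ k) (hG : G e = true) :
    cnt k q G false (e % 2) k + 1 ≤ rank k q G e ∧
      rank k q G e ≤ cnt k q G false (e % 2) k + cnt k q G true (e % 2) k := by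
  rw [rank_good hG]
  have h3 := cnt_lt hq G h1 h2 (wtime_lt hq h1 h2)
  rw [hG] at h3
  omega

lemma rank_mem_bad (hq : q < k) {e : ℕ} (h1 : 1 ≤ e) (h2 : e ≤ k) (hG : G e = false) :
    1 ≤ rank k q G e ∧ rank k q G e ≤ cnt k q G false (e % 2) k ∧
      rank k q G e + cnt k q G false (e % 2) (wtime k q e) = cnt k q G false (e % 2) k := by
  rw [rank_bad hG]
  have h3 := cnt_lt hq G h1 h2 (wtime_lt hq h1 h2)
  rw [hG] at h3
  omega

lemma rank_inj (hq : q < k) {e f : ℕ} (h1 : 1 ≤ e) (h2 : e ≤ k) (h3 : 1 ≤ f) (h4 : f ≤ k)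
    (hp : e % 2 = f % 2) (hr : rank k q G e = rank k q G f) : e = f := by
  by_contra hne
  have hne' : wtime k q e ≠ wtime k q f := fun h => hne (wtime_inj hq h1 h2 h3 h4 h)
  wlog hlt : wtime k q e < wtime k q f generalizing e f with H
  · exact H h3 h4 h1 h2 hp.symm hr.symm (Ne.symm hne) (Ne.symm hne') (by omega)
  have a1 := cnt_lt hq G h1 h2 hlt
  cases hGe : G e <;> cases hGf : G f
  · rw [hGe] at a1
    have a2 := rank_mem_bad hq h1 h2 hGe
    have a3 := rank_mem_bad hq h3 h4 hGf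
    rw [← hp] at a3
    omega
  · have a2 := rank_mem_bad hq h1 h2 hGe
    have a3 := rank_mem_good hq h3 h4 hGf
    rw [← hp] at a3
    omega
  · have a2 := rank_mem_good hq h1 h2 hGe
    have a3 := rank_mem_bad hq h3 h4 hGf
    rw [← hp] at a3
    omega
  · rw [hGe] at a1
    rw [rank_good hGe, rank_good hGf, ← hp] at hr
    omega

/-- junction sum -/
def junc (k q : ℕ) (G : ℕ → Bool) (i : ℕ) : ℕ := rank k q G i + rank k q G (i + 1)

lemma rank_mod {e r : ℕ} (h : e % 2 = r) (g : Bool) (t : ℕ) :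
    cnt k q G g (e % 2) t = cnt k q G g r t := by rw [h]

/-- junction at an unloaded vertex, good -/
lemma junc_good (hq : q < k) {i : ℕ} (h1 : 1 ≤ i) (h2 : i < k) (h3 : i ≠ q)
    (hG : G i = true) (hG' : G (i + 1) = true) :
    junc k q G i = cnt k q G false 1 k + cnt k q G false 0 k + 2 +
      cnt k q G true (i % 2) (wtime k q i) + cnt k q G true ((i + 1) % 2) (wtime k q i + 1) := by
  unfold junc
  rw [rank_good hG, rank_good hG', wtime_succ hq h1 h2 h3]
  rcases Nat.mod_two_eq_zero_or_one i with hi | hi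
  · have hi' : (i + 1) % 2 = 1 := by omega
    rw [hi, hi']; ring
  · have hi' : (i + 1) % 2 = 0 := by omega
    rw [hi, hi']; ring

/-- junction at an unloaded vertex, bad -/
lemma junc_bad (hq : q < k) {i : ℕ} (h1 : 1 ≤ i) (h2 : i < k) (h3 : i ≠ q)
    (hG : G i = false) (hG' : G (i + 1) = false) :
    junc k q G i + cnt k q G false (i % 2) (wtime k q i) +
      cnt k q G false ((i + 1) % 2) (wtime k q i + 1) =
      cnt k q G false 1 k + cnt k q G false 0 k := by
  unfold junc
  have a1 := (rank_mem_bad hq h1 h2.le hG).2.2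
  have a2 := (rank_mem_bad hq (by omega) (by omega) hG').2.2
  rw [wtime_succ hq h1 h2 h3] at a2
  rcases Nat.mod_two_eq_zero_or_one i with hi | hi
  · have hi' : (i + 1) % 2 = 1 := by omega
    rw [hi] at a1
    rw [hi'] at a2
    rw [hi, hi']; omega
  · have hi' : (i + 1) % 2 = 0 := by omega
    rw [hi] at a1
    rw [hi'] at a2
    rw [hi, hi']; omega

lemma junc_inj (hq : q < k) {i j : ℕ} (h1 : 1 ≤ i) (h2 : i < k) (h3 : i ≠ q)
    (hi : G i = G (i + 1)) (h4 : 1 ≤ j) (h5 : j < k) (h6 : j ≠ q) (hj : G j = G (j + 1))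
    (hJ : junc k q G i = junc k q G j) : i = j := by
  by_contra hne
  have hne' : wtime k q i ≠ wtime k q j := fun h => hne (wtime_inj hq h1 h2.le h4 h5.le h)
  wlog hlt : wtime k q i < wtime k q j generalizing i j with H
  · exact H h4 h5 h6 hj h1 h2 h3 hi hJ.symm (Ne.symm hne) (Ne.symm hne') (by omega)
  have b1 := cnt_lt hq G h1 h2.le hlt
  have b2 := cnt_lt hq G h1 h2.le (show wtime k q i < wtime k q j + 1 by omega)
  have b3 : ∀ g r, cnt k q G g r (wtime k q i + 1) ≤ cnt k q G g r (wtime k q j) :=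
    fun g r => cnt_mono k q G g r hlt
  have b4 : ∀ g r, cnt k q G g r (wtime k q i + 1) ≤ cnt k q G g r (wtime k q j + 1) :=
    fun g r => cnt_mono k q G g r (by omega)
  cases hGi : G i <;> cases hGj : G j
  · rw [hGi] at b1 b2
    have a1 := junc_bad hq h1 h2 h3 hGi (by rw [← hi]; exact hGi)
    have a2 := junc_bad hq h4 h5 h6 hGj (by rw [← hj]; exact hGj)
    have b5 := b3 false ((i + 1) % 2)
    have b6 := b4 false ((i + 1) % 2)
    rcases Nat.mod_two_eq_zero_or_one i with hi' | hi' <;>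
      rcases Nat.mod_two_eq_zero_or_one j with hj' | hj' <;>
      simp only [hi', hj', Nat.add_mod i 1 2, Nat.add_mod j 1 2] at a1 a2 b1 b2 b5 b6 <;>
      norm_num at a1 a2 b1 b2 b5 b6 <;> omega
  · have a1 := junc_bad hq h1 h2 h3 hGi (by rw [← hi]; exact hGi)
    have a2 := junc_good hq h4 h5 h6 hGj (by rw [← hj]; exact hGj)
    omega
  · have a1 := junc_good hq h1 h2 h3 hGi (by rw [← hi]; exact hGi)
    have a2 := junc_bad hq h4 h5 h6 hGj (by rw [← hj]; exact hGj)
    omega
  · rw [hGi] at b1 b2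
    have a1 := junc_good hq h1 h2 h3 hGi (by rw [← hi]; exact hGi)
    have a2 := junc_good hq h4 h5 h6 hGj (by rw [← hj]; exact hGj)
    have b5 := b3 true ((i + 1) % 2)
    have b6 := b4 true ((i + 1) % 2)
    rcases Nat.mod_two_eq_zero_or_one i with hi' | hi' <;>
      rcases Nat.mod_two_eq_zero_or_one j with hj' | hj' <;>
      simp only [hi', hj', Nat.add_mod i 1 2, Nat.add_mod j 1 2] at a1 a2 b1 b2 b5 b6 <;>
      norm_num at a1 a2 b1 b2 b5 b6 <;> omega

/-- junctions at loaded vertices -/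
lemma junc_max_odd (hq : q < k) {i : ℕ} (h1 : 1 ≤ i) (h2 : i < k) (h3 : i ≠ q)
    (hG : G i = true) (hG' : G (i + 1) = false) (hi : i % 2 = 1) :
    junc k q G i + cnt k q G false 0 (wtime k q i + 1) = cnt k q G false 1 k +
      cnt k q G false 0 k + cnt k q G true 1 (wtime k q i + 1) ∧
    cnt k q G false 0 (wtime k q i + 1) + 1 ≤ cnt k q G false 0 k ∧
    1 ≤ cnt k q G true 1 (wtime k q i + 1) := by
  have a1 := rank_good (k := k) (q := q) hG
  have a2 := rank_mem_bad hq (by omega) (show i + 1 ≤ k by omega) hG'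
  have a3 := cnt_self hq G h1 h2.le true 1
  have a4 := wtime_succ hq h1 h2 h3
  have hi' : (i + 1) % 2 = 0 := by omega
  rw [if_pos ⟨hG, hi⟩] at a3
  rw [hi] at a1
  rw [hi', a4] at a2
  unfold junc
  omega

lemma junc_max_even (hq : q < k) {i : ℕ} (h1 : 1 ≤ i) (h2 : i < k) (h3 : i ≠ q)
    (hG : G i = true) (hG' : G (i + 1) = false) (hi : i % 2 = 0) :
    junc k q G i + cnt k q G false 1 (wtime k q i + 1) = cnt k q G false 1 k +
      cnt k q G false 0 k + cnt k q G true 0 (wtime k q i + 1) ∧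
    cnt k q G false 1 (wtime k q i + 1) + 1 ≤ cnt k q G false 1 k ∧
    1 ≤ cnt k q G true 0 (wtime k q i + 1) := by
  have a1 := rank_good (k := k) (q := q) hG
  have a2 := rank_mem_bad hq (by omega) (show i + 1 ≤ k by omega) hG'
  have a3 := cnt_self hq G h1 h2.le true 0
  have a4 := wtime_succ hq h1 h2 h3
  have hi' : (i + 1) % 2 = 1 := by omega
  rw [if_pos ⟨hG, hi⟩] at a3
  rw [hi] at a1
  rw [hi', a4] at a2
  unfold junc
  omega

lemma junc_min_odd (hq : q < k) {i : ℕ} (h1 : 1 ≤ i) (h2 : i < k) (h3 : i ≠ q)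
    (hG : G i = false) (hG' : G (i + 1) = true) (hi : i % 2 = 1) :
    junc k q G i + cnt k q G false 1 (wtime k q i + 1) = cnt k q G false 1 k +
      cnt k q G false 0 k + 2 + cnt k q G true 0 (wtime k q i + 1) ∧
    cnt k q G true 0 (wtime k q i + 1) + 1 ≤ cnt k q G true 0 k ∧
    1 ≤ cnt k q G false 1 (wtime k q i + 1) ∧
    cnt k q G false 1 (wtime k q i + 1) ≤ cnt k q G false 1 k := by
  have a1 := rank_good (k := k) (q := q) hG'
  have a1' := rank_mem_good hq (by omega) (show i + 1 ≤ k by omega) hG'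
  have a2 := rank_mem_bad hq h1 h2.le hG
  have a3 := cnt_self hq G h1 h2.le false 1
  have a4 := wtime_succ hq h1 h2 h3
  have hi' : (i + 1) % 2 = 0 := by omega
  rw [if_pos ⟨hG, hi⟩] at a3
  rw [hi', a4] at a1
  rw [hi'] at a1'
  rw [hi] at a2
  unfold junc
  omega

lemma junc_min_even (hq : q < k) {i : ℕ} (h1 : 1 ≤ i) (h2 : i < k) (h3 : i ≠ q)
    (hG : G i = false) (hG' : G (i + 1) = true) (hi : i % 2 = 0) :
    junc k q G i + cnt k q G false 0 (wtime k q i + 1) = cnt k q G false 1 k +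
      cnt k q G false 0 k + 2 + cnt k q G true 1 (wtime k q i + 1) ∧
    cnt k q G true 1 (wtime k q i + 1) + 1 ≤ cnt k q G true 1 k ∧
    1 ≤ cnt k q G false 0 (wtime k q i + 1) ∧
    cnt k q G false 0 (wtime k q i + 1) ≤ cnt k q G false 0 k := by
  have a1 := rank_good (k := k) (q := q) hG'
  have a1' := rank_mem_good hq (by omega) (show i + 1 ≤ k by omega) hG'
  have a2 := rank_mem_bad hq h1 h2.le hG
  have a3 := cnt_self hq G h1 h2.le false 0
  have a4 := wtime_succ hq h1 h2 h3
  have hi' : (i + 1) % 2 = 1 := by omega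
  rw [if_pos ⟨hG, hi⟩] at a3
  rw [hi', a4] at a1
  rw [hi'] at a1'
  rw [hi] at a2
  unfold junc
  omega

/-- The counts after the edge `i`: parities and walk. -/
lemma cnt_at (hq : q < k) {i : ℕ} (h1 : 1 ≤ i) (h2 : i < k) (h3 : i ≠ q) :
    (q < i ∧
      cnt k q G true 1 (wtime k q i + 1) + cnt k q G false 1 (wtime k q i + 1) + (q + 1) / 2 =
        (i + 1) / 2 ∧
      cnt k q G true 0 (wtime k q i + 1) + cnt k q G false 0 (wtime k q i + 1) + q / 2 = i / 2 ∧
      ((cnt k q G true 0 (wtime k q i + 1) : ℤ) + cnt k q G true 1 (wtime k q i + 1)) -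
        (cnt k q G false 0 (wtime k q i + 1) + cnt k q G false 1 (wtime k q i + 1)) =
        walk G i - walk G q) ∨
    (i < q ∧
      cnt k q G true 1 (wtime k q i + 1) + cnt k q G false 1 (wtime k q i + 1) + (q + 1) / 2 =
        (k + 1) / 2 + (i + 1) / 2 ∧
      cnt k q G true 0 (wtime k q i + 1) + cnt k q G false 0 (wtime k q i + 1) + q / 2 =
        k / 2 + i / 2 ∧
      ((cnt k q G true 0 (wtime k q i + 1) : ℤ) + cnt k q G true 1 (wtime k q i + 1)) -
        (cnt k q G false 0 (wtime k q i + 1) + cnt k q G false 1 (wtime k q i + 1)) =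
        walk G k - walk G q + walk G i) := by
  have ht := wtime_lt hq h1 h2.le
  have c1 := cnt_odd hq G (wtime k q i + 1) ht
  have c2 := cnt_even hq G (wtime k q i + 1) ht
  have c3 := cnt_walk hq G (wtime k q i + 1) ht
  rcases lt_or_gt_of_ne h3 with hlt | hgt
  · right
    have e1 : q + (wtime k q i + 1) = i + k := by unfold wtime; rw [if_neg (by omega)]; omega
    have e2 : oddc k q (wtime k q i + 1) = (k + 1) / 2 - (q + 1) / 2 + (i + 1) / 2 := by
      unfold oddc
      rw [if_neg (by omega), e1]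
      congr 2
      omega
    rw [e2] at c1 c2
    rw [if_neg (by omega), e1, Nat.add_sub_cancel] at c3
    refine ⟨hlt, by omega, by omega, c3⟩
  · left
    have e1 : q + (wtime k q i + 1) = i := by unfold wtime; rw [if_pos (by omega)]; omega
    have e2 : oddc k q (wtime k q i + 1) = (i + 1) / 2 - (q + 1) / 2 := by
      unfold oddc
      rw [if_pos (by omega), e1]
    rw [e2] at c1 c2
    rw [if_pos (by omega), e1] at c3
    refine ⟨hgt, by omega, by omega, c3⟩

end ranks

lemma walk_parity (G : ℕ → Bool) (i : ℕ) : ∃ m : ℤ, walk G i = i + 2 * m := by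
  induction i with
  | zero => exact ⟨0, by simp [walk]⟩
  | succ i ih =>
    obtain ⟨m, hm⟩ := ih
    rw [walk_succ, hm]
    cases G (i + 1)
    · refine ⟨m - 1, ?_⟩
      rw [if_neg (by simp)]
      push_cast
      ring
    · refine ⟨m, ?_⟩
      rw [if_pos rfl]
      push_cast
      ring

/-- A window: the seam `q` is `0` or a loaded vertex; the colour changes exactly at the loaded
vertices. -/
structure Win (k h q : ℕ) (ld : ℕ → Prop) (G : ℕ → Bool) : Prop where
  k_eq : k = 2 * h + 1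
  q_lt : q < k
  ld_mem : ∀ i, ld i → 1 ≤ i ∧ i < k
  ld_iff : ∀ i, 1 ≤ i → i < k → (ld i ↔ G i ≠ G (i + 1))
  q_or : q = 0 ∨ ld q

/-- A seam for a set `X` of loaded vertices: `q = 0`, or `q` is the leftmost lowest vertex
of `X`. -/
structure Seam (k h q : ℕ) (ld X : ℕ → Prop) (G : ℕ → Bool) : Prop
    extends Win k h q ld G where
  neg : walk G k < 0
  cases : (q = 0 ∧ ∀ i, X i → walk G k ≤ walk G i) ∨
    (X q ∧ walk G q < walk G k ∧ ∀ i, X i → walk G q ≤ walk G i ∧ (walk G i = walk G q → q ≤ i))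

/-- colours with a change exactly at the loaded vertices -/
def col (ld : ℕ → Prop) [DecidablePred ld] (c : Bool) : ℕ → Bool
  | 0 => c
  | e + 1 => if ld e then !(col ld c e) else col ld c e

lemma col_not (ld : ℕ → Prop) [DecidablePred ld] (c : Bool) (e : ℕ) :
    col ld (!c) e = !(col ld c e) := by
  induction e with
  | zero => rfl
  | succ e ih =>
    show (if ld e then !(col ld (!c) e) else col ld (!c) e) =
      !(if ld e then !(col ld c e) else col ld c e)
    rw [ih]
    split_ifs <;> rfl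

lemma walk_not (G G' : ℕ → Bool) (hG : ∀ e, G' e = !(G e)) (i : ℕ) :
    walk G' i = - walk G i := by
  induction i with
  | zero => simp [walk]
  | succ i ih =>
    rw [walk_succ, walk_succ, ih, hG]
    cases G (i + 1) <;> simp <;> ring

theorem exists_colour {k h : ℕ} (hk : k = 2 * h + 1) (ld : ℕ → Prop) :
    ∃ G : ℕ → Bool, (∀ i, 1 ≤ i → i < k → (ld i ↔ G i ≠ G (i + 1))) ∧ walk G k < 0 := by
  classical
  have hcol : ∀ c : Bool, ∀ i, 1 ≤ i → i < k → (ld i ↔ col ld c i ≠ col ld c (i + 1)) := by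
    intro c i _ _
    show ld i ↔ col ld c i ≠ (if ld i then !(col ld c i) else col ld c i)
    by_cases hi : ld i
    · simp [hi]
    · simp [hi]
  obtain ⟨m, hm⟩ := walk_parity (col ld true) k
  rcases lt_trichotomy (walk (col ld true) k) 0 with h1 | h1 | h1
  · exact ⟨_, hcol true, h1⟩
  · omega
  · refine ⟨_, hcol false, ?_⟩
    rw [walk_not (col ld true) (col ld false) (fun e => col_not ld true e)]
    omega

theorem seam_of_colour {k h : ℕ} (hk : k = 2 * h + 1) (ld X : ℕ → Prop)
    (hld : ∀ i, ld i → 1 ≤ i ∧ i < k) (hX : ∀ i, X i → ld i) (G : ℕ → Bool)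
    (hG1 : ∀ i, 1 ≤ i → i < k → (ld i ↔ G i ≠ G (i + 1))) (hG2 : walk G k < 0) :
    ∃ q : ℕ, Seam k h q ld X G := by
  classical
  by_cases hex : ∃ i, X i ∧ walk G i < walk G k
  · obtain ⟨i0, hi0, hi0'⟩ := hex
    let H : Finset ℕ := (Finset.range k).filter X
    have hH : ∀ i, i ∈ H ↔ X i := by
      intro i
      rw [Finset.mem_filter, Finset.mem_range]
      exact ⟨fun h => h.2, fun h => ⟨(hld i (hX i h)).2, h⟩⟩
    obtain ⟨q, hq1, hq2⟩ := Finset.exists_min_image H (fun i => walk G i * (k + 1) + i)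
      ⟨i0, (hH i0).2 hi0⟩
    have hq1' := (hH q).1 hq1
    have hqk := (hld q (hX q hq1')).2
    have key : ∀ i, X i → walk G q ≤ walk G i ∧ (walk G i = walk G q → q ≤ i) := by
      intro i hi
      have h1 : walk G q * (k + 1) + q ≤ walk G i * (k + 1) + i := hq2 i ((hH i).2 hi)
      have h2 := (hld i (hX i hi)).2
      constructor
      · by_contra hc
        have h3 : walk G i + 1 ≤ walk G q := by omega
        have h4 : (walk G i + 1) * ((k : ℤ) + 1) ≤ walk G q * (k + 1) :=
          mul_le_mul_of_nonneg_right h3 (by positivity)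
        have h5 : (walk G i + 1) * ((k : ℤ) + 1) = walk G i * (k + 1) + (k + 1) := by ring
        omega
      · intro h3
        rw [h3] at h1
        omega
    refine ⟨q, ⟨hk, hqk, hld, hG1, Or.inr (hX q hq1')⟩, hG2, Or.inr ⟨hq1', ?_, key⟩⟩
    exact lt_of_le_of_lt (key i0 hi0).1 hi0'
  · refine ⟨0, ⟨hk, by omega, hld, hG1, Or.inl rfl⟩, hG2, Or.inl ⟨rfl, fun i hi => ?_⟩⟩
    by_contra hc
    exact hex ⟨i, hi, by omega⟩

lemma Seam.min {k h q : ℕ} {ld : ℕ → Prop} {G : ℕ → Bool} (hS : Seam k h q ld ld G) (hq : ld q) :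
    G q = false ∧ G (q + 1) = true := by
  have hq1 := hS.ld_mem q hq
  have hne := (hS.ld_iff q hq1.1 hq1.2).1 hq
  rcases hS.cases with ⟨h0, _⟩ | ⟨_, h2, h3⟩
  · omega
  by_contra hc
  have h4 : G (q + 1) = false := by
    cases h5 : G (q + 1)
    · rfl
    · exfalso
      apply hc
      refine ⟨?_, h5⟩
      cases h6 : G q
      · rfl
      · exact absurd (h6.trans h5.symm) hne
  have key : ∀ j, q + 1 ≤ j → j ≤ k → G j = false ∧ walk G j < walk G q := by
    intro j hj
    induction j, hj using Nat.le_induction with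
    | base =>
      intro _
      refine ⟨h4, ?_⟩
      rw [walk_succ, h4]
      simp
    | succ j hj ih =>
      intro hjk
      obtain ⟨a, b⟩ := ih (by omega)
      have hnl : ¬ ld j := by
        intro hl
        have := (h3 j hl).1
        omega
      have h5 : G j = G (j + 1) := by
        by_contra h6
        exact hnl ((hS.ld_iff j (by omega) (by omega)).2 h6)
      rw [a] at h5
      refine ⟨h5.symm, ?_⟩
      rw [walk_succ, ← h5]
      simp
      omega
  have := (key k (by omega) le_rfl).2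
  omega

lemma Win.two_bad {k h q : ℕ} {ld : ℕ → Prop} {G : ℕ → Bool} (hS : Win k h q ld G) :
    (2 * (cnt k q G false 1 k + cnt k q G false 0 k) : ℤ) = k - walk G k := by
  have h1 := cnt_walk hS.q_lt G k le_rfl
  have h2 := tot_odd (G := G) hS.k_eq hS.q_lt
  have h3 := tot_even (G := G) hS.k_eq hS.q_lt
  have hk := hS.k_eq
  have h4 : ((cnt k q G true 0 k : ℤ) + cnt k q G true 1 k) -
      (cnt k q G false 0 k + cnt k q G false 1 k) = walk G k := by
    rw [h1]
    split_ifs with hc
    · have : q = 0 := by omega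
      subst this
      simp [walk]
    · rw [Nat.add_sub_cancel]
      ring
  omega

/-- (L2) -/
lemma Win.big {k h q : ℕ} {ld : ℕ → Prop} {G : ℕ → Bool} (hS : Win k h q ld G)
    (hneg : walk G k < 0) {i : ℕ} (hi : ld i) (hiq : i ≠ q)
    (hcase : (q = 0 ∧ walk G k ≤ walk G i) ∨
      (walk G q < walk G k ∧ walk G q ≤ walk G i ∧ (walk G i = walk G q → q ≤ i))) :
    h + 1 ≤ junc k q G i := by
  have hm := hS.ld_mem i hi
  have hq := hS.q_lt
  have hk := hS.k_eq
  have hB := hS.two_bad
  have hne := (hS.ld_iff i hm.1 hm.2).1 hi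
  have hat := cnt_at (G := G) hq hm.1 hm.2 hiq
  obtain ⟨m, hmm⟩ := walk_parity G i
  obtain ⟨n, hn⟩ := walk_parity G k
  obtain ⟨r, hr⟩ := walk_parity G q
  have hq0 : q = 0 → walk G q = 0 := by rintro rfl; rfl
  rcases Nat.mod_two_eq_zero_or_one i with hp | hp
  · cases hGi : G i <;> cases hGi' : G (i + 1)
    · exact absurd (hGi.trans hGi'.symm) hne
    · have := junc_min_even hq hm.1 hm.2 hiq hGi hGi' hp
      omega
    · have := junc_max_even hq hm.1 hm.2 hiq hGi hGi' hp
      omega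
    · exact absurd (hGi.trans hGi'.symm) hne
  · cases hGi : G i <;> cases hGi' : G (i + 1)
    · exact absurd (hGi.trans hGi'.symm) hne
    · have := junc_min_odd hq hm.1 hm.2 hiq hGi hGi' hp
      omega
    · have := junc_max_odd hq hm.1 hm.2 hiq hGi hGi' hp
      omega
    · exact absurd (hGi.trans hGi'.symm) hne

lemma Seam.big {k h q : ℕ} {ld X : ℕ → Prop} {G : ℕ → Bool} (hS : Seam k h q ld X G) {i : ℕ}
    (hi : ld i) (hX : X i) (hiq : i ≠ q) : h + 1 ≤ junc k q G i := by
  refine hS.toWin.big hS.neg hi hiq ?_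
  rcases hS.cases with ⟨h0, h1⟩ | ⟨_, h1, h2⟩
  · exact Or.inl ⟨h0, h1 i hX⟩
  · exact Or.inr ⟨h1, h2 i hX⟩

lemma Win.ne_q {k h q : ℕ} {ld : ℕ → Prop} {G : ℕ → Bool} (hS : Win k h q ld G) {i : ℕ}
    (h1 : 1 ≤ i) (h2 : ¬ ld i) : i ≠ q := by
  intro h3
  rcases hS.q_or with h0 | h0
  · omega
  · exact h2 (h3 ▸ h0)

lemma Win.eq_of_not {k h q : ℕ} {ld : ℕ → Prop} {G : ℕ → Bool} (hS : Win k h q ld G) {i : ℕ}
    (h1 : 1 ≤ i) (h2 : i < k) (h3 : ¬ ld i) : G i = G (i + 1) := by
  by_contra hc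
  exact h3 ((hS.ld_iff i h1 h2).2 hc)

theorem Win.rankBase {k h q : ℕ} {ld : ℕ → Prop} {G : ℕ → Bool} (hS : Win k h q ld G) :
    RankBase k h ld (rank k q G) where
  k_eq := hS.k_eq
  odd_mem := by
    intro e h1 h2 he
    have h3 := tot_odd (G := G) hS.k_eq hS.q_lt
    cases hG : G e
    · have := rank_mem_bad hS.q_lt h1 h2 hG
      rw [he] at this
      omega
    · have := rank_mem_good hS.q_lt h1 h2 hG
      rw [he] at this
      omega
  even_mem := by
    intro e h1 h2 he
    have h3 := tot_even (G := G) hS.k_eq hS.q_lt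
    cases hG : G e
    · have := rank_mem_bad hS.q_lt h1 h2 hG
      rw [he] at this
      omega
    · have := rank_mem_good hS.q_lt h1 h2 hG
      rw [he] at this
      omega
  inj := fun e f h1 h2 h3 h4 hp hr => rank_inj hS.q_lt h1 h2 h3 h4 hp hr
  cdist := fun i j h1 h2 h3 h4 h5 h6 h7 =>
    junc_inj hS.q_lt h1 h2 (hS.ne_q h1 h5) (hS.eq_of_not h1 h2 h5) h3 h4 (hS.ne_q h3 h6)
      (hS.eq_of_not h3 h4 h6) h7

theorem Seam.rankData {k h q : ℕ} {ld : ℕ → Prop} {G : ℕ → Bool} (hS : Seam k h q ld ld G) :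
    RankData k h q ld (rank k q G) where
  toRankBase := hS.toWin.rankBase
  big := fun _ _ _ hi hiq => hS.big hi hi hiq

end Pool.Agent.Lob89
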