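import Pool.Agent.Lob89.GgR0
import Pool.Agent.Lob12.GgH2
import Pool.Agent.Lob12.GgH4

/-!
# Both ends good: the covering
-/

namespace Pool.Agent.Lob89.Gg

open Pool.Agent.Lob12 Pool.Agent.Lob5 Pool.Agent.Lob89 Pool.Agent.Lob34

variable {m : ℕ} {ld al x : ℕ → Prop} {s : ℤ}

/-- `Good` from the colouring with one reserved edge -/
theorem good_R {y : ℤ} {j : ℕ} (W : GW m ld al x s) (p : Ps m x y j) {n2 dl : ℕ}
    (h : LRW (cwR W p).owR.lr (2 * m - 1) n2 dl) : Good (2 * m) ld al n2 dl :=
  Or.inr (Or.inl ⟨_, _, _, _, cwR W p, Or.inl h⟩)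

/-- Case I: the top is high. -/
theorem case_top (W : GW m ld al x s) {n2 i : ℕ} (hi : i ≤ m) (hmax : ∀ t ≤ m, Y x t ≤ Y x i)
    (h1 : 2 * n2 + 2 + s ≤ 2 * Y x i) (h2 : ∀ t ≤ m, s ≤ Y x i + Y x t) :
    Good (2 * m) ld al n2 0 := by
  have hs := W.s1
  have hy : 0 ≤ Y x i - n2 - 2 := by omega
  obtain ⟨j, j1, j2, j3, j4⟩ := passage x (m := m) hy ⟨i, hi, by omega⟩
  have p : Ps m x (Y x i - n2 - 2) j := ⟨j1, j2, j3, j4⟩
  obtain ⟨r1, r2⟩ := p.rng W
  have hij : j < i := by
    by_contra h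
    have := j4 i (by omega)
    omega
  have e1 := nB_mono x hij.le
  have e2 := nG_mono x hi
  have e3 := nP_mono x (show j ≤ m by omega)
  have e4 : (nG x j : ℤ) + n2 + 2 ≤ nG x i := by
    unfold Y at *
    omega
  by_cases h : ld (2 * j) → al (2 * j)
  · refine good_R W p (gR_lrw W p (by omega) (fun t _ t2 => ?_) h (Or.inl (by omega)))
    have := h2 t (by omega)
    omega
  · push Not at h
    obtain ⟨C, hC⟩ := hh_nat W p hy h.1 h.2 (n2 := n2) (by omega) fun t _ t2 => by
      have := hmax t (by omega)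
      omega
    exact Or.inr (Or.inr ⟨_, _, _, _, C, hC⟩)

/-- Case IIa: an unmarked loaded vertex at an even place. -/
theorem case_even (W : GW m ld al x s) {n2 i : ℕ} (i1 : 1 ≤ i) (i2 : i < m) (hl : ld (2 * i))
    (ha : ¬ al (2 * i)) (hs : s ≤ 2 * Y x i) (h1 : ∀ t ≤ m, 2 * Y x t ≤ 2 * n2 + 1 + s)
    (h2 : ∀ t ≤ m, s ≤ 2 * n2 + 1 + 2 * Y x t) : Good (2 * m) ld al n2 0 := by
  obtain ⟨C, hC⟩ := hh_mid W (n2 := n2) i1 i2 hl ha hs fun t _ t2 => by
    have := h1 t (by omega)
    have := h2 t (by omega)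
    omega
  exact Or.inr (Or.inr ⟨_, _, _, _, C, hC⟩)

/-- Case IIb: all unmarked loaded vertices are at odd places, many pairs with a good even edge. -/
theorem case_oddA (W : GW m ld al x s) {n2 : ℕ}
    (hN : ∀ i, 1 ≤ i → i < m → ld (2 * i) → al (2 * i))
    (h2 : ∀ t ≤ m, s ≤ 2 * n2 + 1 + 2 * Y x t) {y : ℤ} (y1 : s ≤ 2 * y + 2) (y2 : 2 * y + 1 ≤ s)
    (hy : y + 1 + n2 + 2 ≤ nG x m + nP x m) : Good (2 * m) ld al n2 0 := by
  have hs := W.s1
  have hm := W.m2
  have hl := W.last
  have ht := W.tot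
  have htop : Y x (m - 1) = s + 1 := by
    unfold Y at *
    omega
  obtain ⟨j, j1, j2, j3, j4⟩ := passage x (m := m) (y := y) (by omega) ⟨m - 1, by omega, by omega⟩
  have p : Ps m x y j := ⟨j1, j2, j3, j4⟩
  have r := p.rng W
  by_cases h : nG x m + nP x m = nG x j + nP x j + n2 + 1
  · obtain ⟨k, k1, k2, k3, k4⟩ := passage x (m := m) (y := y + 1) (by omega)
      ⟨m - 1, by omega, by omega⟩
    have q : Ps m x (y + 1) k := ⟨k1, k2, k3, k4⟩
    have r' := q.rng W
    have hjk : j < k := by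
      by_contra h
      have := j4 k (by omega)
      omega
    have e1 := nG_mono x (show j + 1 ≤ k by omega)
    have e2 := nP_mono x (show j + 1 ≤ k by omega)
    have e3 := p.cnt
    refine good_R W q (gR_lrw W q (by omega) (fun t _ t2 => ?_) (hN k r'.1 (by omega))
      (Or.inr ⟨by omega, by omega⟩))
    have := h2 t (by omega)
    omega
  · refine good_R W p (gR_lrw W p (by omega) (fun t _ t2 => ?_) (hN j r.1 (by omega)) ?_)
    · have := h2 t (by omega)
      omega
    · rcases Nat.lt_or_ge (nG x m + nP x m) (nG x j + nP x j + n2 + 1) with c | c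
      · exact Or.inr ⟨by omega, by omega⟩
      · exact Or.inl (by omega)

/-- Case IIb: all unmarked loaded vertices are at odd places, few pairs with a good even edge. -/
theorem case_oddB (W : GW m ld al x s) {n2 dl : ℕ}
    (hN : ∀ i, 1 ≤ i → i < m → ld (2 * i) → al (2 * i))
    (hdl : n2 ≤ dl + nP x m + nR x m) (hpr : nR x m ≤ nP x m)
    (hy : ∀ y : ℤ, y + n2 + 2 = nG x m + nP x m → 2 * y + 1 ≤ s) :
    Good (2 * m) ld al n2 dl ∨
      Good (2 * m) (fun i => ld (2 * m - i)) (fun i => al (2 * m - i)) n2 dl := by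
  have hs := W.s1
  have hm := W.m2
  have hl := W.last
  have ht := W.tot
  have htop : Y x (m - 1) = s + 1 := by
    unfold Y at *
    omega
  obtain ⟨y, hy'⟩ : ∃ y : ℤ, y + n2 + 2 = nG x m + nP x m := ⟨nG x m + nP x m - n2 - 2, by omega⟩
  have hys := hy y hy'
  -- the mirror word
  have hc := mir_cnt x m (le_refl m)
  rw [Nat.sub_self] at hc
  have h0 : nB x 0 = 0 ∧ nG x 0 = 0 ∧ nP x 0 = 0 ∧ nR x 0 = 0 := ⟨rfl, rfl, rfl, rfl⟩
  have mir : (nG x m + nP x m ≤ n2 + 1 ∨ (nG x m + nP x m = n2 + 2 ∧ ∃ t, 1 ≤ t ∧ t ≤ m ∧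
      Y (fun e => x (2 * m + 1 - e)) t = s ∧ Y (fun e => x (2 * m + 1 - e)) (t - 1) = s - 1 ∧
      nB (fun e => x (2 * m + 1 - e)) m = nB (fun e => x (2 * m + 1 - e)) t + 1 ∧
      nR (fun e => x (2 * m + 1 - e)) m = nR (fun e => x (2 * m + 1 - e)) t ∧
      ∀ i, t ≤ i → i ≤ m → s ≤ Y (fun e => x (2 * m + 1 - e)) i)) →
      Good (2 * m) (fun i => ld (2 * m - i)) (fun i => al (2 * m - i)) n2 dl := by
    intro hT
    obtain ⟨C, hC⟩ := r0x_odd W.mirror (n2 := n2) (dl := dl) (fun i i1 i2 h => by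
      rw [show 2 * m - 2 * i = 2 * (m - i) by omega] at h ⊢
      exact hN (m - i) (by omega) (by omega) h) (by omega) (by omega) (by
      rcases hT with hT | hT
      · exact Or.inl (by omega)
      · exact Or.inr ⟨by omega, hT.2⟩)
    exact Or.inl ⟨_, _, _, C, hC⟩
  rcases lt_or_ge y 0 with hneg | hpos
  · exact Or.inr (mir (Or.inl (by omega)))
  · obtain ⟨j, j1, j2, j3, j4⟩ := passage x (m := m) (y := y) hpos ⟨m - 1, by omega, by omega⟩
    have p : Ps m x y j := ⟨j1, j2, j3, j4⟩
    have r := p.rng W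
    have g := gR_glob W p
    by_cases h : nG x m + nP x m = nG x j + nP x j + n2 + 1
    · have hB : nB x j = 1 ∧ nP x j = 0 := by omega
      rcases hpos.eq_or_lt with hz | hz
      · refine Or.inr (mir (Or.inr ⟨by omega, m - j, by omega, by omega, ?_, ?_, ?_, ?_, ?_⟩))
        · rw [mir_Y W (by omega), show m - (m - j) = j by omega]
          omega
        · rw [mir_Y W (by omega), show m - (m - j - 1) = j + 1 by omega]
          omega
        · have := mir_cnt x m (show m - j ≤ m by omega)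
          rw [show m - (m - j) = j by omega] at this
          omega
        · have := mir_cnt x m (show m - j ≤ m by omega)
          rw [show m - (m - j) = j by omega] at this
          omega
        · intro i i1 i2
          rw [mir_Y W i2]
          have := j4 (m - i) (by omega)
          omega
      · left
        obtain ⟨k, k1, k2, k3, k4⟩ := passage x (m := m) (y := y - 1) (by omega)
          ⟨m - 1, by omega, by omega⟩
        have q : Ps m x (y - 1) k := ⟨k1, k2, k3, k4⟩
        have r' := q.rng W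
        have g' := gR_glob W q
        have hjk : k < j := by
          by_contra h
          have := k4 j (by omega)
          omega
        have e1 := nB_mono x hjk.le
        have e2 := nP_mono x hjk.le
        exact good_R W q (gR_lrw_sl W q (by omega) hN hdl hpr
          (Or.inr ⟨by omega, by omega, by omega, by omega⟩))
    · left
      exact good_R W p (gR_lrw_sl W p hpos hN hdl hpr (Or.inl ⟨by omega, hys, h⟩))

theorem good_mono_zero {K : ℕ} {n2 : ℕ} (h : Good K ld al n2 0) :
    Gd K ld al n2 := ⟨0, Nat.zero_le _, Or.inl h⟩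

/-- the covering, when the mirror word is not needed for the choice of `nR ≤ nP` -/
theorem gg_odd (W : GW m ld al x s) (V : Wd (2 * m) ld al) {n2 : ℕ}
    (h2 : ∀ t ≤ m, s ≤ 2 * n2 + 1 + 2 * Y x t)
    (hN : ∀ i, 1 ≤ i → i < m → ld (2 * i) → al (2 * i)) (hpr : nR x m ≤ nP x m) :
    Gd (2 * m) ld al n2 := by
  have _ := V
  have hs := W.s1
  obtain ⟨y, y1, y2⟩ : ∃ y : ℤ, s ≤ 2 * y + 2 ∧ 2 * y + 1 ≤ s := ⟨(s - 1) / 2, by omega, by omega⟩
  by_cases h : y + 1 + n2 + 2 ≤ nG x m + nP x m
  · exact good_mono_zero (case_oddA W hN h2 y1 y2 h)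
  · have hn := nN_le W hN
    exact ⟨n2 - nN (2 * m) ld al, le_rfl, case_oddB W hN (by omega) hpr fun z hz => by omega⟩

/-- the covering of the words with both ends good -/
theorem gg_cover (W : GW m ld al x s) (V : Wd (2 * m) ld al) (n2 : ℕ) : Gd (2 * m) ld al n2 := by
  obtain ⟨i1, a1, a2⟩ := exists_top x m
  obtain ⟨i0, b1, b2⟩ := exists_bot x m
  have hm := W.m2
  have W' := W.mirror
  have V' := V.mirror
  have hY : ∀ t ≤ m, Y (fun e => x (2 * m + 1 - e)) t = s - Y x (m - t) := fun t ht => mir_Y W ht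
  have hd := W.tot
  by_cases hI : 2 * n2 + 2 + s ≤ 2 * Y x i1 ∨ 2 * n2 + 2 ≤ s - 2 * Y x i0
  · -- Case I
    rcases le_total (s - Y x i0) (Y x i1) with c | c
    · refine good_mono_zero (case_top W a1 a2 (by omega) fun t ht => ?_)
      have := b2 t ht
      omega
    · refine gd_mirror V (good_mono_zero (case_top W' (i := m - i0) (by omega) ?_ ?_ ?_))
      · intro t ht
        rw [hY t ht, hY _ (by omega), show m - (m - i0) = i0 by omega]
        have := b2 (m - t) (by omega)
        omega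
      · rw [hY _ (by omega), show m - (m - i0) = i0 by omega]
        omega
      · intro t ht
        rw [hY t ht, hY _ (by omega), show m - (m - i0) = i0 by omega]
        have := a2 (m - t) (by omega)
        omega
  · rw [not_or] at hI
    have h1 : ∀ t ≤ m, 2 * Y x t ≤ 2 * n2 + 1 + s := fun t ht => by
      have := a2 t ht
      omega
    have h2 : ∀ t ≤ m, s ≤ 2 * n2 + 1 + 2 * Y x t := fun t ht => by
      have := b2 t ht
      omega
    have h1' : ∀ t ≤ m, 2 * Y (fun e => x (2 * m + 1 - e)) t ≤ 2 * n2 + 1 + s := fun t ht => by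
      rw [hY t ht]
      have := h2 (m - t) (by omega)
      omega
    have h2' : ∀ t ≤ m, s ≤ 2 * n2 + 1 + 2 * Y (fun e => x (2 * m + 1 - e)) t := fun t ht => by
      rw [hY t ht]
      have := h1 (m - t) (by omega)
      omega
    by_cases hN : ∀ i, 1 ≤ i → i < m → ld (2 * i) → al (2 * i)
    · rcases le_total (nR x m) (nP x m) with c | c
      · exact gg_odd W V h2 hN c
      · have hc := mir_cnt x m (le_refl m)
        rw [Nat.sub_self] at hc
        have h0 : nB x 0 = 0 ∧ nG x 0 = 0 ∧ nP x 0 = 0 ∧ nR x 0 = 0 := ⟨rfl, rfl, rfl, rfl⟩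
        refine gd_mirror V (gg_odd W' V' h2' (fun i i1 i2 h => ?_) (by omega))
        have h : ld (2 * m - 2 * i) := h
        show al (2 * m - 2 * i)
        rw [show 2 * m - 2 * i = 2 * (m - i) by omega] at h ⊢
        exact hN (m - i) (by omega) (by omega) h
    · push Not at hN
      obtain ⟨i, k1, k2, k3, k4⟩ := hN
      by_cases hs : s ≤ 2 * Y x i
      · exact good_mono_zero (case_even W k1 k2 k3 k4 hs h1 h2)
      · refine gd_mirror V (good_mono_zero (case_even W' (i := m - i) (by omega) (by omega)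
          ?_ ?_ ?_ h1' h2'))
        · show ld (2 * m - 2 * (m - i))
          rwa [show 2 * m - 2 * (m - i) = 2 * i by omega]
        · show ¬ al (2 * m - 2 * (m - i))
          rwa [show 2 * m - 2 * (m - i) = 2 * i by omega]
        · rw [hY _ (by omega), show m - (m - i) = i by omega]
          omega

/-- The black box: total negative, both ends good. -/
theorem hgg (K h : ℕ) (ld al c : ℕ → Prop) (V : Wd K ld al) (C : WW K h ld al c) (hK : ¬ c K)
    (h1 : ¬ c 1) (hw : wk c K < 0) (n2 : ℕ) : Gd K ld al n2 := by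
  have hKh := C.hK
  have h6 := V.six
  obtain ⟨m, rfl⟩ : ∃ m, K = 2 * m := ⟨K / 2, by omega⟩
  have hw' : wk (fun e => ¬ c e) (2 * m) = - wk c (2 * m) := wk_neg c _
  have hf := wk_fl (fun e => ¬ c e) (2 * m)
  rw [fl_Y] at hf
  have W : GW m ld al (fun e => ¬ c e) (Y (fun e => ¬ c e) m) :=
    { m2 := by omega
      ald := V.al_ld
      same := fun i i1 i2 i3 => not_congr (C.same i i1 i2 i3)
      dif := fun i i1 i2 i3 => not_congr (C.dif i i1 i2 i3)
      x1 := h1
      x2 := fun h => h1 ((C.same 1 le_rfl (by omega) V.l1).2 h)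
      xK1 := fun h => hK (by
        have := (C.same (2 * m - 1) (by omega) (by omega) V.l1').1 h
        rwa [show 2 * m - 1 + 1 = 2 * m by omega] at this)
      xK := hK
      tot := rfl
      s1 := by omega }
  exact gg_cover W V n2

end Pool.Agent.Lob89.Gg
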