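import Pool.Agent.Lob89.GeD
import Pool.Agent.Lob34.CvE

/-!
# Some end bad: the colouring with one reserved edge
-/

namespace Pool.Agent.Lob89.Gg

open Pool.Agent.Lob12 Pool.Agent.Lob5 Pool.Agent.Lob89 Pool.Agent.Lob34

theorem wk_neg' (c : ℕ → Prop) (t : ℕ) : wk (fun e => ¬ c e) t = - wk c t := by
  have h := cn_compl c t
  unfold wk
  omega

theorem gv_neg (c : ℕ → Prop) (t : ℕ) : gv (fun e => ¬ c e) t = eb c t := by
  unfold gv eb
  exact cn_congr fun y _ _ => by rw [not_not]

theorem rc_xR (c : ℕ → Prop) (u : ℕ) : rc c u = xR (fun e => ¬ c e) u := by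
  funext t
  unfold rc xR
  rw [not_not]

/-- the alternating colouring of a word -/
theorem ge_of_ww {m h : ℕ} {ld al c : ℕ → Prop} (W : WW (2 * m) h ld al c) (h2 : 2 ≤ m) :
    GE m ld al (fun e => ¬ c e) (Y (fun e => ¬ c e) m) :=
  { m2 := h2
    ald := W.al_ld
    same := fun i i1 i2 i3 => not_congr (W.same i i1 i2 i3)
    dif := fun i i1 i2 i3 => not_congr (W.dif i i1 i2 i3)
    rng := W.rng
    tot := rfl }

/-- the first passage -/
theorem ps_of {m j : ℕ} {c : ℕ → Prop} (hj : j + 1 ≤ m) (cu : c (2 * j + 1))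
    (cu1 : c (2 * j + 2)) (fp : ∀ v, v ≤ 2 * j + 1 → wk c (2 * j + 1) ≤ wk c v) :
    Ps m (fun e => ¬ c e) (Y (fun e => ¬ c e) j) j := by
  have h1 := (pstep (fun e => ¬ c e) j).2.1 (not_not.2 cu) (not_not.2 cu1)
  have h2 := (fl_odd (fun e => ¬ c e) j).2 (not_not.2 cu)
  have h3 := wk_fl (fun e => ¬ c e) (2 * j + 1)
  have h4 := wk_neg' c (2 * j + 1)
  refine ⟨hj, rfl, ?_, fun i hi => ?_⟩
  · unfold Y
    omega
  · have h5 := fp (2 * i) (by omega)
    have h6 := wk_neg' c (2 * i)
    have h7 := wk_fl (fun e => ¬ c e) (2 * i)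
    rw [fl_Y] at h7
    omega

/-- the level before a position -/
theorem lev (x : ℕ → Prop) (t : ℕ) :
    wk x t ≤ 2 * Y x (t / 2) + 1 ∧ 2 * Y x (t / 2) - 1 ≤ wk x t ∧
      (t % 2 = 0 → wk x t = 2 * Y x (t / 2)) ∧
      (t % 2 = 1 → x t → wk x t = 2 * Y x (t / 2) - 1) ∧
      (t % 2 = 1 → ¬ x t → wk x t = 2 * Y x (t / 2) + 1) := by
  have h := wk_fl x t
  obtain ⟨f1, f2, f3⟩ := fl_v (x := x) t
  rcases Nat.mod_two_eq_zero_or_one t with o | o
  · have := f3 o
    refine ⟨by omega, by omega, fun _ => by omega, fun h => by omega, fun h => by omega⟩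
  · by_cases a : x t
    · have := f1 o a
      refine ⟨by omega, by omega, fun h => by omega, fun _ _ => by omega, fun _ h => absurd a h⟩
    · have := f2 o a
      refine ⟨by omega, by omega, fun h => by omega, fun _ h => absurd h a, fun _ _ => by omega⟩

theorem er_lrw {K h u n2 : ℕ} {ld al c : ℕ → Prop} (E : ER K h u n2 ld al c)
    (fp : ∀ v, v ≤ u → wk c u ≤ wk c v)
    (top : ∃ t, u < t ∧ t ≤ K ∧ wk c t + 2 ≤ wk c K) :
    LRW E.C.owR.lr (2 * h + 1) n2 0 := by
  have hK := E.W.hK
  have hu := E.hu
  have huK := E.huK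
  obtain ⟨j, rfl⟩ : ∃ j, u = 2 * j + 1 := ⟨u / 2, by omega⟩
  obtain ⟨m, rfl⟩ : ∃ m, K = 2 * m := ⟨K / 2, by omega⟩
  obtain rfl : h = m - 1 := by omega
  have W := ge_of_ww E.W (by omega)
  have p := ps_of (m := m) (by omega) E.cu E.cu1 fp
  have hcv := E.cv
  have h0 := fp 0 (by omega)
  rw [wk_zero] at h0
  set x : ℕ → Prop := fun e => ¬ c e with hx
  have wn : ∀ t, wk c t = - wk x t := fun t => by
    have := wk_neg' c t
    rw [← hx] at this
    omega
  have hwu := (lev x (2 * j + 1)).2.2.2.2 (by omega) p.gg.1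
  rw [show (2 * j + 1) / 2 = j by omega] at hwu
  have hwK := (lev x (2 * m)).2.2.1 (by omega)
  rw [show 2 * m / 2 = m by omega] at hwK
  have c1 := wn (2 * j + 1)
  have c2 := wn (2 * m)
  have hc := p.cnt
  have d : Dp m x (Y x m) (Y x j) j := by
    obtain ⟨t, t1, t2, t3⟩ := top
    have t4 := lev x t
    have c3 := wn t
    have t5 : Y x m + 1 ≤ Y x (t / 2) := by
      rcases Nat.mod_two_eq_zero_or_one t with o | o
      · have := t4.2.2.1 o
        omega
      · by_cases a : x t
        · have := t4.2.2.2.1 o a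
          omega
        · have := t4.2.2.2.2 o a
          omega
    have t6 := nB_mono x (show j + 1 ≤ t / 2 by omega)
    have t7 := nG_mono x (show t / 2 ≤ m by omega)
    have t8 := nB_mono x (show t / 2 ≤ m by omega)
    have hb : nB x j + 1 ≤ nB x m := by
      unfold Y at *
      omega
    have hg : 1 ≤ nB x j ∨ (¬ x (2 * m - 1) ∧ ¬ x (2 * m)) ∨
        ∃ t, j < t ∧ t ≤ m ∧ Y x t < Y x m ∧ Y x t ≤ Y x j := by
      rcases E.hy with g | ⟨g0, v, g1, g2, g3⟩
      · right
        left
        have g' : c (2 * m - 1) := by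
          have hl : ¬ ld (2 * m - 1) := fun hl => by
            have := E.W.rng (2 * m - 1) (by omega) (by omega) hl
            omega
          have := (E.W.same (2 * m - 1) (by omega) (by omega) hl).2
          rw [show 2 * m - 1 + 1 = 2 * m by omega] at this
          exact this g
        exact ⟨not_not.2 g', not_not.2 g⟩
      · have v4 := lev x v
        have c4 := wn v
        have v5 : Y x (v / 2) ≤ Y x m - 1 := by
          rcases Nat.mod_two_eq_zero_or_one v with o | o
          · have := v4.2.2.1 o
            omega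
          · by_cases a : x v
            · have := v4.2.2.2.1 o a
              omega
            · have := v4.2.2.2.2 o a
              omega
        rcases Nat.lt_or_ge j (v / 2) with k | k
        · exact Or.inr (Or.inr ⟨v / 2, k, by omega, by omega, by omega⟩)
        · left
          have := nB_mono x k
          unfold Y at v5 hwK
          omega
    have h2 : 2 ≤ nB x m := by
      rcases hg with g | g | ⟨r, r1, r2, r3, r4⟩
      · omega
      · have hl := (pstep x (m - 1)).2.1 (by rw [show 2 * (m - 1) + 1 = 2 * m - 1 by omega]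
                                             exact g.1)
          (by rw [show 2 * (m - 1) + 2 = 2 * m by omega]; exact g.2)
        rw [show m - 1 + 1 = m by omega] at hl
        have hne : t / 2 ≠ m := by
          intro hh
          rw [hh] at t5
          omega
        have t9 := nG_mono x (show t / 2 ≤ m - 1 by omega)
        have t10 := nB_mono x (show t / 2 ≤ m - 1 by omega)
        unfold Y at *
        omega
      · have r5 := nB_mono x r2
        have r6 := nG_mono x (show j + 1 ≤ r by omega)
        have r7 := nB_mono x (show j + 1 ≤ r by omega)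
        rcases Nat.lt_or_ge r (t / 2) with k | k
        · have r8 := nB_mono x k.le
          unfold Y at *
          omega
        · have r8 := nG_mono x k
          have r9 := nB_mono x k
          unfold Y at *
          omega
    exact ⟨by omega, by omega, hb, h2, hg⟩
  have hA : ∀ v, 2 * j + 1 < v → v < 2 * m → ld v →
      Y x m ≤ Y x j + 2 + n2 + Y x (v / 2) ∨ (x v ∧ Y x m ≤ Y x j + 3 + n2 + Y x (v / 2)) := by
    intro v v1 v2 v3
    have r := E.rgt v v1 v2 v3
    have v4 := lev x v
    have c3 := wn v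
    by_cases a : c v
    · left
      have a' : ¬ x v := not_not.2 a
      have r := r.1 a
      rcases Nat.mod_two_eq_zero_or_one v with o | o
      · have := v4.2.2.1 o
        omega
      · have := v4.2.2.2.2 o a'
        omega
    · right
      have a' : x v := a
      have r := r.2 a
      refine ⟨a', ?_⟩
      rcases Nat.mod_two_eq_zero_or_one v with o | o
      · have := v4.2.2.1 o
        omega
      · have := v4.2.2.2.1 o a'
        omega
  have hV : nG x j + nP x j + n2 + 2 ≤ gv x (2 * m - 1) := by
    have h1 := E.cnt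
    rw [← gv_neg, ← gv_neg, ← hx] at h1
    have h2 := (step x (t := 2 * j + 1) (by omega)).2.1 (by omega) p.gg.1
    rw [show 2 * j + 1 - 1 = 2 * j by omega] at h2
    have h3 := pcnt x j
    omega
  have hN : 1 ≤ j → ld (2 * j) → al (2 * j) := by
    intro hj hl
    have := E.pr (by omega)
    rw [show 2 * j + 1 - 1 = 2 * j by omega] at this
    exact this hl
  have key := eR_lrw W p d hA hN (Or.inl hV)
  rw [show 2 * (m - 1) + 1 = 2 * m - 1 by omega]
  have e := rc_xR c (2 * j + 1)
  have gen : ∀ (b : ℕ → Prop) (C : CW (2 * m) (2 * j + 1) (m - 1) ld al b),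
      b = xR x (2 * j + 1) → LRW C.owR.lr (2 * m - 1) n2 0 := by
    rintro b C rfl
    exact key
  exact gen _ E.C e

end Pool.Agent.Lob89.Gg
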