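import Pool.Agent.Lob89.Reduction
import Mathlib.Combinatorics.SimpleGraph.Diam

/-!
The longest dominating path of a lobster is a longest path: its length is the diameter.
-/

namespace Pool.Agent.Lob89

open SimpleGraph Finset

universe u

variable {V : Type u} {G : SimpleGraph V}

lemma dist_of_path (hT : G.IsTree) {a b : V} {p : G.Walk a b} (hp : p.IsPath) :
    G.dist a b = p.length := by
  obtain ⟨q, hq, hl⟩ := hT.connected.exists_path_of_dist a b
  rw [(hT.existsUnique_path a b).unique hp hq, hl]

lemma MaxDom.free1 {a b : V} {p : G.Walk a b} (h : MaxDom G p) (x : V) (hx : G.Adj x a) :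
    x ∈ p.support := h.mem_of_adj hx

lemma MaxDom.free2 {a b : V} {p : G.Walk a b} (h : MaxDom G p) (x : V) (hx : G.Adj x b) :
    x ∈ p.support := by
  have := h.reverse.mem_of_adj (x := x) hx
  rwa [Walk.support_reverse, List.mem_reverse] at this

lemma MaxDom.second1 (hT : G.IsTree) {a b : V} {p : G.Walk a b} (h : MaxDom G p)
    (hk : 1 ≤ p.length) (x y : V) (hx : x ∉ p.support) (hy : y ∉ p.support)
    (hadj1 : G.Adj x (p.getVert 1)) : ¬ G.Adj y x := by
  intro hadj2
  cases p with
  | nil => simp at hk
  | cons huw q =>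
    have : (Walk.cons huw q).getVert 1 = _ := Walk.getVert_cons_succ q huw (n := 0)
    rw [this, Walk.getVert_zero] at hadj1
    exact h.snd_free hT hx hy hadj1 hadj2

lemma MaxDom.second2 (hT : G.IsTree) {a b : V} {p : G.Walk a b} (h : MaxDom G p)
    (hk : 1 ≤ p.length) (x y : V) (hx : x ∉ p.support) (hy : y ∉ p.support)
    (hadj1 : G.Adj x (p.getVert (p.length - 1))) : ¬ G.Adj y x := by
  have hx' : x ∉ p.reverse.support := by
    rw [Walk.support_reverse, List.mem_reverse]; exact hx
  have hy' : y ∉ p.reverse.support := by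
    rw [Walk.support_reverse, List.mem_reverse]; exact hy
  have hg : p.reverse.getVert 1 = p.getVert (p.length - 1) := by
    rw [Walk.getVert_reverse]
  exact h.reverse.second1 hT (by simpa using hk) x y hx' hy' (hg ▸ hadj1)

/-- distances along a walk -/
lemma dist_getVert (hc : G.Connected) {a b : V} (p : G.Walk a b) (i n : ℕ)
    (h : i + n ≤ p.length) : G.dist (p.getVert i) (p.getVert (i + n)) ≤ n := by
  induction n with
  | zero => simp
  | succ n ih =>
    have h1 := ih (by omega)
    have h2 : G.Adj (p.getVert (i + n)) (p.getVert (i + n + 1)) :=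
      p.adj_getVert_succ (by omega)
    have h3 := SimpleGraph.dist_eq_one_iff_adj.2 h2
    have h4 := hc.dist_triangle (u := p.getVert i) (v := p.getVert (i + n))
      (w := p.getVert (i + n + 1))
    have e : i + (n + 1) = i + n + 1 := rfl
    rw [e]
    omega

lemma MaxDom.near (hT : G.IsTree) {a b : V} {p : G.Walk a b} (h : MaxDom G p)
    (hk : 1 ≤ p.length) (x : V) :
    ∃ i, i ≤ p.length ∧ G.dist x (p.getVert i) ≤ i ∧ G.dist x (p.getVert i) + i ≤ p.length := by
  classical
  by_cases hx : x ∈ p.support
  · obtain ⟨i, hi, hi'⟩ := Walk.mem_support_iff_exists_getVert.1 hx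
    exact ⟨i, hi', by rw [hi]; simp, by rw [hi]; simpa using hi'⟩
  · obtain ⟨π, hπ⟩ := exists_parent hT.connected h.1
    obtain ⟨h1, h2⟩ := hπ x hx
    have d1 := SimpleGraph.dist_eq_one_iff_adj.2 h1
    rcases h2 with h2 | ⟨h2, h3⟩
    · obtain ⟨i, hi, hi'⟩ := Walk.mem_support_iff_exists_getVert.1 h2
      have h0 : i ≠ 0 := by
        rintro rfl
        rw [Walk.getVert_zero] at hi
        exact hx (h.free1 x (hi ▸ h1))
      have hl : i ≠ p.length := by
        rintro rfl
        rw [Walk.getVert_length] at hi
        exact hx (h.free2 x (hi ▸ h1))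
      refine ⟨i, hi', ?_, ?_⟩ <;> rw [hi, d1] <;> omega
    · obtain ⟨i, hi, hi'⟩ := Walk.mem_support_iff_exists_getVert.1 h3
      have h4 := (hπ (π x) h2).1
      have d2 := SimpleGraph.dist_eq_one_iff_adj.2 h4
      have d3 := hT.connected.dist_triangle (u := x) (v := π x) (w := π (π x))
      have h0 : i ≠ 0 := by
        rintro rfl
        rw [Walk.getVert_zero] at hi
        exact h2 (h.free1 _ (hi ▸ h4))
      have hl : i ≠ p.length := by
        rintro rfl
        rw [Walk.getVert_length] at hi
        exact h2 (h.free2 _ (hi ▸ h4))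
      have h01 : i ≠ 1 := by
        rintro rfl
        exact h.second1 hT hk (π x) x h2 hx (hi ▸ h4) h1
      have hl1 : i ≠ p.length - 1 := by
        rintro rfl
        exact h.second2 hT hk (π x) x h2 hx (hi ▸ h4) h1
      refine ⟨i, hi', ?_, ?_⟩ <;> rw [hi] <;> omega

/-- The length of a longest dominating path is the diameter. -/
lemma MaxDom.diam [Fintype V] (hT : G.IsTree) {a b : V} {p : G.Walk a b} (h : MaxDom G p)
    (hk : 1 ≤ p.length) : G.diam = p.length := by
  have : Nonempty V := ⟨a⟩
  apply le_antisymm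
  · obtain ⟨x, y, hxy⟩ := G.exists_dist_eq_diam
    rw [← hxy]
    obtain ⟨i, hi, hi1, hi2⟩ := h.near hT hk x
    obtain ⟨j, hj, hj1, hj2⟩ := h.near hT hk y
    have t1 := hT.connected.dist_triangle (u := x) (v := p.getVert i) (w := y)
    have t2 := hT.connected.dist_triangle (u := p.getVert i) (v := p.getVert j) (w := y)
    have t3 : G.dist (p.getVert j) y = G.dist y (p.getVert j) := SimpleGraph.dist_comm
    rcases le_total i j with hij | hij
    · obtain ⟨n, rfl⟩ := Nat.exists_eq_add_of_le hij
      have := dist_getVert hT.connected p i n hj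
      omega
    · obtain ⟨n, rfl⟩ := Nat.exists_eq_add_of_le hij
      have := dist_getVert hT.connected p j n hi
      have t4 : G.dist (p.getVert (j + n)) (p.getVert j) =
        G.dist (p.getVert j) (p.getVert (j + n)) := SimpleGraph.dist_comm
      omega
  · rw [← dist_of_path hT h.1.1]
    exact SimpleGraph.dist_le_diam (SimpleGraph.connected_iff_ediam_ne_top.1 hT.connected)

end Pool.Agent.Lob89
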