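import Pool.Agent.Lob89.GeJ

/-!
# General ends: comparison of the sums of ranks and the conditions
-/

namespace Pool.Agent.Lob89.Gg

open Pool.Agent.Lob12 Pool.Agent.Lob5 Pool.Agent.Lob89

/-- Conditions on the word and the passage: `z` is always more than a pair `bad bad` away. -/
structure Dp (m : ℕ) (x : ℕ → Prop) (s y : ℤ) (j : ℕ) : Prop where
  y0 : 0 ≤ y
  hs : s ≤ 2 * y + 1
  hb : nB x j + 1 ≤ nB x m
  h2 : 2 ≤ nB x m
  hg : 1 ≤ nB x j ∨ (¬ x (2 * m - 1) ∧ ¬ x (2 * m)) ∨
    ∃ t, j < t ∧ t ≤ m ∧ Y x t < s ∧ Y x t ≤ y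

section

variable {m : ℕ} {ld al x : ℕ → Prop} {s : ℤ} {y : ℤ} {j : ℕ} (W : GE m ld al x s)
  (p : Ps m x y j)

/-- the global facts -/
theorem eR_glob (d : Dp m x s y j) :
    (nB x (j + 1) = nB x j ∧ nG x (j + 1) = nG x j + 1 ∧ nP x (j + 1) = nP x j ∧
      nR x (j + 1) = nR x j) ∧ (nG x m : ℤ) - nB x m = s ∧ (nG x j : ℤ) - nB x j = y ∧
    j + 2 ≤ m ∧
    ((ecw W p).owR.lr.Q : ℤ) = nB x m + nP x m + y ∧
    ((ecw W p).owR.lr.P : ℤ) = nB x m + nR x m + y := by
  have h3 := p.cnt
  have h4 := W.tot
  have h5 := p.Yj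
  have h6 := p.jm
  have h7 := d.hb
  unfold Y at h4 h5
  refine ⟨h3, h4, h5, ?_, eR_Q W p, eR_P W p⟩
  by_contra h
  obtain rfl : m = j + 1 := by omega
  omega

/-- a rough upper bound in the right part -/
theorem eR_ubR {v : ℕ} (h2 : v < 2 * m) (h3 : ld v) (c : 2 * j + 1 < v) :
    ((ecw W p).owR.lr.J v : ℤ) ≤ (m - 1) - s + 2 + y + Y x (v / 2) := by
  have h5 := eR_JR W p c h2 h3
  by_cases a : x v
  · have := h5.1 a
    omega
  · have := h5.2 a
    omega

/-- Comparison, good kind. -/
theorem eR_DG (d : Dp m x s y j) {a z : ℕ} (a1 : 1 ≤ a) (a2 : a < 2 * m) (a3 : ld a)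
    (a4 : ¬ (a % 2 = 0 ↔ x a)) (z1 : 1 ≤ z) (z2 : z < 2 * m) (z3 : ld z) (z4 : z ≠ 2 * j) :
    (ecw W p).owR.lr.J a ≤ (ecw W p).owR.lr.J z + (ecw W p).owR.lr.Q := by
  obtain ⟨g3, g4, g5, g7, g9, _⟩ := eR_glob W p d
  obtain ⟨u1, u2, u3⟩ := eR_ubG W p a1 a2 a3 a4
  obtain ⟨l1', l2, l3⟩ := eR_lb W p z1 z2 z3 z4
  have l1 := fun h => (l1' h).1
  have y0 := d.y0
  have hs := d.hs
  have hb := d.hb
  have h2 := d.h2
  have ra := W.rng a a1 a2 a3
  have rz := W.rng z z1 z2 z3
  have zz := Y_ld x (v := z) fun _ => W.dif z z1 z2 z3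
  have haz : a = z ∨ a < z ∨ z < a := by omega
  have pz := p.le (z / 2)
  have y1 := nP_mono x (show a / 2 + 1 ≤ m by omega)
  rcases haz with rfl | haz | haz
  · omega
  · -- `a` before `z`
    have t1 := nB_mono x (show a / 2 + 1 ≤ (z + 1) / 2 by omega)
    have t2 := nG_mono x (show a / 2 + 1 ≤ (z + 1) / 2 by omega)
    have t3 := nB_mono x (show (z + 1) / 2 ≤ m by omega)
    have t4 := nB_mono x (show (a - 1) / 2 ≤ a / 2 + 1 by omega)
    rcases l3 with c | c
    · have c' : a < 2 * j := by omega
      have := u2 c'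
      have := l2 c
      have := pz (by omega)
      have t5 := nB_mono x (show a / 2 + 1 ≤ j by omega)
      unfold Y at *
      omega
    · rcases u3 with e | e
      · have := u2 e
        have := l1 c
        have t5 := nB_mono x (show a / 2 + 1 ≤ j by omega)
        have t6 := nG_mono x (show j + 1 ≤ (z + 1) / 2 by omega)
        unfold Y at *
        omega
      · have := u1 e
        have := l1 c
        unfold Y at *
        omega
  · -- `z` before `a`
    have t1 := nB_mono x (show z / 2 ≤ (a - 1) / 2 by omega)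
    have t2 := nG_mono x (show z / 2 ≤ (a - 1) / 2 by omega)
    have t3 := nB_mono x (show a / 2 + 1 ≤ m by omega)
    have t4 := nG_mono x (show a / 2 + 1 ≤ m by omega)
    have t6 := nB_mono x (show (a - 1) / 2 ≤ a / 2 + 1 by omega)
    rcases u3 with c | c
    · have c' : z < 2 * j := by omega
      have := u2 c
      have := l2 c'
      have t7 := nB_mono x (show a / 2 + 1 ≤ j by omega)
      unfold Y at *
      omega
    · rcases l3 with e | e
      · have := l2 e
        have := pz (by omega)
        have t7 := nB_mono x (show j ≤ (a - 1) / 2 by omega)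
        rcases d.hg with g | g | ⟨t, g1, g2, g3', g4'⟩
        · have := u1 c
          unfold Y at *
          omega
        · have hl := (pstep x (m - 1)).2.1 (by rw [show 2 * (m - 1) + 1 = 2 * m - 1 by omega]
                                               exact g.1)
            (by rw [show 2 * (m - 1) + 2 = 2 * m by omega]; exact g.2)
          rw [show m - 1 + 1 = m by omega] at hl
          have := u1 c
          have ha : a / 2 + 1 ≤ m - 1 := by
            by_contra hh
            have e1 : a = 2 * m - 2 := by omega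
            have hd := W.dif a a1 a2 a3
            have e2 : ¬ x a := by
              intro e3
              exact a4 (iff_of_true (by omega) e3)
            have e3 : x (a + 1) := by
              by_contra e4
              exact e2 (hd.2 e4)
            rw [e1, show 2 * m - 2 + 1 = 2 * m - 1 by omega] at e3
            exact g.1 e3
          have s1 := nB_mono x ha
          have s2 := nG_mono x ha
          unfold Y at *
          omega
        · have hc : t ≤ (a - 1) / 2 ∨ a / 2 + 1 ≤ t ∨ t = a / 2 := by omega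
          rcases hc with hc | hc | hc
          · have := u1 c
            have s1 := nB_mono x hc
            have s2 := nG_mono x (show j + 1 ≤ t by omega)
            unfold Y at *
            omega
          · have := u1 c
            have s1 := nB_mono x hc
            have s2 := nG_mono x hc
            have s3 := nB_mono x g2
            unfold Y at *
            omega
          · have := eR_ubR W p a2 a3 c
            rw [← hc] at this
            omega
      · have := u1 c
        have := l1 e
        have t7 := nG_mono x (show j + 1 ≤ z / 2 by omega)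
        have t8 := nB_mono x (show j + 1 ≤ z / 2 by omega)
        unfold Y at *
        omega

/-- Comparison, bad kind. -/
theorem eR_DB (d : Dp m x s y j) {a z : ℕ} (a1 : 1 ≤ a) (a2 : a < 2 * m) (a3 : ld a)
    (a4 : a % 2 = 0 ↔ x a) (z1 : 1 ≤ z) (z2 : z < 2 * m) (z3 : ld z) (z4 : z ≠ 2 * j) :
    (ecw W p).owR.lr.J a ≤ (ecw W p).owR.lr.J z + (ecw W p).owR.lr.Q + 1 ∧
    (ecw W p).owR.lr.J a ≤ (ecw W p).owR.lr.J z + (ecw W p).owR.lr.P := by
  obtain ⟨g3, g4, g5, g7, g9, g9'⟩ := eR_glob W p d
  obtain ⟨u1, u2, u4, u3⟩ := eR_ubB W p a1 a2 a3 a4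
  obtain ⟨l1', l2, l3⟩ := eR_lb W p z1 z2 z3 z4
  have l1 := fun h => (l1' h).1
  have y0 := d.y0
  have hs := d.hs
  have hb := d.hb
  have h2 := d.h2
  have ra := W.rng a a1 a2 a3
  have rz := W.rng z z1 z2 z3
  have zz := Y_ld x (v := z) fun _ => W.dif z z1 z2 z3
  have haz : a = z ∨ a < z ∨ z < a := by omega
  have pz := p.le (z / 2)
  have y1 := nR_mono x (show a / 2 + 1 ≤ m by omega)
  have y2 := nR_mono x (show (a - 1) / 2 ≤ a / 2 + 1 by omega)
  rcases haz with rfl | haz | haz
  · omega
  · -- `a` before `z`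
    have t1 := nB_mono x (show a / 2 + 1 ≤ (z + 1) / 2 by omega)
    have t2 := nG_mono x (show a / 2 + 1 ≤ (z + 1) / 2 by omega)
    have t3 := nB_mono x (show (z + 1) / 2 ≤ m by omega)
    have t4 := nB_mono x (show (a - 1) / 2 ≤ a / 2 + 1 by omega)
    rcases l3 with c | c
    · have c' : a < 2 * j := by omega
      have := u2 c'
      have := l2 c
      have := pz (by omega)
      have t5 := nB_mono x (show a / 2 + 1 ≤ j by omega)
      unfold Y at *
      omega
    · rcases u3 with e | e | e
      · have := u2 e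
        have := l1 c
        have t5 := nB_mono x (show a / 2 + 1 ≤ j by omega)
        have t6 := nG_mono x (show j + 1 ≤ (z + 1) / 2 by omega)
        unfold Y at *
        omega
      · have := u4 e
        have := l1 c
        have t6 := nG_mono x (show j + 1 ≤ (z + 1) / 2 by omega)
        unfold Y at *
        omega
      · have := u1 e
        have := l1 c
        unfold Y at *
        omega
  · -- `z` before `a`
    have t1 := nB_mono x (show z / 2 ≤ (a - 1) / 2 by omega)
    have t2 := nG_mono x (show z / 2 ≤ (a - 1) / 2 by omega)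
    have t3 := nB_mono x (show a / 2 + 1 ≤ m by omega)
    have t4 := nG_mono x (show a / 2 + 1 ≤ m by omega)
    have t6 := nB_mono x (show (a - 1) / 2 ≤ a / 2 + 1 by omega)
    rcases u3 with c | c | c
    · have c' : z < 2 * j := by omega
      have := u2 c
      have := l2 c'
      have t7 := nB_mono x (show a / 2 + 1 ≤ j by omega)
      unfold Y at *
      omega
    · have c' : z < 2 * j := by omega
      have := u4 c
      have := l2 c'
      have := pz (by omega)
      unfold Y at *
      omega
    · rcases l3 with e | e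
      · have := l2 e
        have := pz (by omega)
        have t7 := nB_mono x (show j ≤ (a - 1) / 2 by omega)
        rcases d.hg with g | g | ⟨t, g1, g2, g3', g4'⟩
        · have := u1 c
          unfold Y at *
          omega
        · have hl := (pstep x (m - 1)).2.1 (by rw [show 2 * (m - 1) + 1 = 2 * m - 1 by omega]
                                               exact g.1)
            (by rw [show 2 * (m - 1) + 2 = 2 * m by omega]; exact g.2)
          rw [show m - 1 + 1 = m by omega] at hl
          have := u1 c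
          rcases Nat.lt_or_ge (m - 1) (a / 2 + 1) with ha | ha
          · have ha : a / 2 + 1 = m := by omega
            rw [ha] at this y2
            unfold Y at *
            omega
          · have s1 := nB_mono x ha
            have s2 := nG_mono x ha
            unfold Y at *
            omega
        · have hc : t ≤ (a - 1) / 2 ∨ a / 2 + 1 ≤ t ∨ t = a / 2 := by omega
          rcases hc with hc | hc | hc
          · have := u1 c
            have s1 := nB_mono x hc
            have s2 := nG_mono x (show j + 1 ≤ t by omega)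
            unfold Y at *
            omega
          · have := u1 c
            have s1 := nB_mono x hc
            have s2 := nG_mono x hc
            have s3 := nB_mono x g2
            unfold Y at *
            omega
          · have := eR_ubR W p a2 a3 c
            rw [← hc] at this
            omega
      · have := u1 c
        have := l1 e
        have t7 := nG_mono x (show j + 1 ≤ z / 2 by omega)
        have t8 := nB_mono x (show j + 1 ≤ z / 2 by omega)
        unfold Y at *
        omega

theorem eR_V {n2 : ℕ} (h : (nG x j + nP x j + n2 + 2 ≤ gv x (2 * m - 1)) ∨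
    ((nG x m + nP x m + bo x 1 < nG x j + nP x j + n2 + 2) ∧
      (n2 : ℤ) + 2 + y ≤ nG x m + nP x m)) :
    (ecw W p).owR.lr.V n2 := by
  have hm := W.m2
  have r1 := p.jm
  have hg : ¬ xR x (2 * j + 1) (2 * j + 1 + 1) := by
    rw [xR_gt (by omega)]
    exact p.gg.2
  have c1 := xR_cnt1 x (le_refl (2 * j + 1))
  have c2 := xR_cnt2 x (u := 2 * j + 1) (t := 2 * m - 1) (by omega)
  have c3 := xR_cnt2 x (u := 2 * j + 1) (t := 2 * m) (by omega)
  have c4 := xR_cnt1 x (u := 2 * j + 1) (t := 1) (by omega)
  have c5 := xR_cnt1 x (u := 2 * j + 1) (t := 2 * j) (by omega)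
  have s2 := (step x (t := 2 * j + 1) (by omega)).2.1 (by omega) p.gg.1
  rw [show 2 * j + 1 - 1 = 2 * j by omega] at s2
  have p1 := pcnt x m
  have p2 := pcnt x j
  have hy := p.Yj
  unfold Y at hy
  rcases h with h | ⟨h, h'⟩
  · refine (ecw W p).VR1 hg ?_
    change gv (xR x (2 * j + 1)) (2 * j + 1) + n2 + 2 ≤ gv (xR x (2 * j + 1)) (2 * m - 1)
    omega
  · refine (ecw W p).VR2 hg ?_ ?_
    · change gv (xR x (2 * j + 1)) (2 * m) + go (xR x (2 * j + 1)) 1 <
        gv (xR x (2 * j + 1)) (2 * j + 1) + n2 + 2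
      omega
    · rw [show 2 * j + 1 - 1 = 2 * j by omega]
      change gv (xR x (2 * j + 1)) (2 * j + 1) + n2 + 2 ≤
        gv (xR x (2 * j + 1)) (2 * m) + go (xR x (2 * j + 1)) (2 * j)
      omega

/-- the conditions (no slack) -/
theorem eR_lrw (d : Dp m x s y j) {n2 : ℕ}
    (hA : ∀ v, 2 * j + 1 < v → v < 2 * m → ld v →
      s ≤ y + 2 + n2 + Y x (v / 2) ∨ (x v ∧ s ≤ y + 3 + n2 + Y x (v / 2)))
    (hN : 1 ≤ j → ld (2 * j) → al (2 * j))
    (hV : (nG x j + nP x j + n2 + 2 ≤ gv x (2 * m - 1)) ∨
      ((nG x m + nP x m + bo x 1 < nG x j + nP x j + n2 + 2) ∧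
        (n2 : ℤ) + 2 + y ≤ nG x m + nP x m)) :
    LRW (ecw W p).owR.lr (2 * m - 1) n2 0 := by
  have hh : (ecw W p).owR.lr.h = m - 1 := rfl
  obtain ⟨g3, g4, g5, g7, g9, g9'⟩ := eR_glob W p d
  have hm := pcnt x m
  have e1 := nG_mono x (show j + 1 ≤ m by omega)
  have y0 := d.y0
  have hs := d.hs
  have h2 := d.h2
  -- lower bound for all loaded vertices
  have A : ∀ v, 1 ≤ v → v < 2 * m → ld v →
      (m : ℤ) - 1 ≤ (ecw W p).owR.lr.J v + 1 + n2 := by
    intro v v1 v2 v3
    by_cases hv : v = 2 * j
    · subst hv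
      have := eR_JP W p v3 (by omega)
      omega
    · obtain ⟨l1, l2, l3⟩ := eR_lb W p v1 v2 v3 hv
      rcases l3 with c | c
      · have := l2 c
        have := p.le (v / 2) (by omega)
        omega
      · have := l1 c
        rcases hA v c v2 v3 with h | ⟨h, h'⟩
        · omega
        · have := this.2 h
          omega
  have hz : ∀ z, 1 ≤ z → z < 2 * m → ld z → ¬ al z → z ≠ 2 * j := by
    rintro z _ _ h3 h4 rfl
    exact h4 (hN (by omega) h3)
  have kd := fun {v : ℕ} => eR_kd W p (v := v)
  refine
    { M1 := by omega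
      M2 := by omega
      MC := fun i i1 i2 i3 i4 i5 => ?_
      pr := fun i _ i2 i3 => ?_
      V := eR_V W p hV
      a1 := fun a a1 a2 a3 => ?_
      n1 := fun z z1 z2 z3 _ => ?_
      t1 := fun z z1 z2 z3 _ => ?_
      t2 := fun z z1 z2 z3 z4 => ?_
      bb := fun a z a1 a2 z1 z2 a3 a4 z3 z4 => ?_
      sh := fun a z a1 a2 z1 z2 a3 a4 z3 z4 => ?_
      gg := fun a z a1 a2 z1 z2 a3 a4 z3 z4 _ => ?_
      gb := fun a z a1 a2 z1 z2 a3 a4 z3 z4 _ T hT => ?_
      lt := ?_
      two := ?_ }
  · have := lr_MC (ecw W p).owR.lr i i1 i2 i3 i4 i5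
    omega
  · obtain rfl : i = 2 * j := by omega
    exact hN (by omega) i3
  · have := A a a1 a2 (W.ald a a3)
    omega
  · have := A z z1 z2 z3
    omega
  · have := A z z1 z2 z3
    omega
  · obtain ⟨l1, l2, l3⟩ := eR_lb W p z1 z2 z3 (hz z z1 z2 z3 z4)
    have rz := W.rng z z1 z2 z3
    have t1 := nB_mono x (show z / 2 ≤ m by omega)
    have t2 := nG_mono x (show z / 2 ≤ m by omega)
    rcases l3 with c | c
    · have := l2 c
      unfold Y at *
      omega
    · have := (l1 c).1
      unfold Y at *
      omega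
  · have := eR_DB W p d a1 a2 (W.ald a a3) ((kd a1 a2 (W.ald a a3)).1 a4) z1 z2 z3
      (hz z z1 z2 z3 z4)
    exact ⟨Or.inl this.1, fun _ => this.2⟩
  · have := eR_DB W p d a1 a2 (W.ald a a3) ((kd a1 a2 (W.ald a a3)).1 a4) z1 z2 z3
      (hz z z1 z2 z3 z4)
    omega
  · exact eR_DG W p d a1 a2 (W.ald a a3) (fun h => a4 ((kd a1 a2 (W.ald a a3)).2 h)) z1 z2 z3
      (hz z z1 z2 z3 z4)
  · have h0 : T.card = 0 := by
      rw [Finset.card_eq_zero, Finset.eq_empty_iff_forall_notMem]
      intro i hi
      obtain ⟨i1, i2, _, i3, _, i4⟩ := hT i hi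
      have := A i i1 i2 i3
      omega
    rw [h0]
    exact eR_DG W p d a1 a2 (W.ald a a3) (fun h => a4 ((kd a1 a2 (W.ald a a3)).2 h)) z1 z2 z3
      (hz z z1 z2 z3 z4)
  · by_cases h : (ecw W p).owR.lr.P ≤ (ecw W p).owR.lr.Q
    · exact Or.inl h
    · refine Or.inr fun a z a1 a2 z1 z2 a3 a4 z3 z4 => ?_
      have := eR_DG W p d a1 a2 (W.ald a a3) (fun h => a4 ((kd a1 a2 (W.ald a a3)).2 h)) z1 z2 z3
        (hz z z1 z2 z3 z4)
      omega
  · left
    omega

end

end Pool.Agent.Lob89.Gg
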