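import Pool.Agent.Lob89.GgD
import Pool.Agent.Lob12.OwCount

/-!
# Both ends good: the conditions for the colouring with one reserved edge
-/

namespace Pool.Agent.Lob89.Gg

open Pool.Agent.Lob12 Pool.Agent.Lob5 Pool.Agent.Lob89

/-- the sum at an unloaded vertex with good edges -/
theorem lr_MC {K u : ℕ} {ld al : ℕ → Prop} (S : LR K u ld al) (i : ℕ) (h1 : 1 ≤ i) (h2 : i < K)
    (h3 : i ≠ u) (h4 : ¬ ld i) (h5 : ¬ S.bad i) : S.J i ≤ 2 * S.h + 1 := by
  have hu := S.u1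
  have hK := S.hK
  have h6 := S.same i h1 h2 h3 h4
  have h7 : ¬ S.bad (i + 1) := fun h => h5 (h6.2 h)
  have h8 : lw u i ↔ ¬ lw u (i + 1) := by
    unfold lw
    omega
  unfold LR.J
  by_cases h9 : lw u i
  · have g1 := S.rk_lg i h1 h2.le h9 h5
    have g2 := S.rk_hg (i + 1) (by omega) (by omega) (h8.1 h9) h7
    omega
  · have h10 : lw u (i + 1) := by
      by_contra hh
      exact h9 (h8.2 hh)
    have g1 := S.rk_hg i h1 h2.le h9 h5
    have g2 := S.rk_lg (i + 1) (by omega) (by omega) h10 h7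
    omega

section

variable {m : ℕ} {ld al x : ℕ → Prop} {s : ℤ} {y : ℤ} {j : ℕ} (W : GW m ld al x s)
  (p : Ps m x y j)

theorem gR_V {n2 : ℕ} (h : (nG x j + nP x j + n2 + 2 ≤ nG x m + nP x m) ∨
    ((nG x m + nP x m ≤ nG x j + nP x j + n2) ∧ (n2 : ℤ) + 2 + y ≤ nG x m + nP x m)) :
    (cwR W p).owR.lr.V n2 := by
  obtain ⟨r1, r2⟩ := p.rng W
  have hg : ¬ xR x (2 * j + 1) (2 * j + 1 + 1) := by
    rw [xR_gt (by omega)]
    exact p.gg.2
  have c1 := xR_cnt1 x (le_refl (2 * j + 1))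
  have c2 := xR_cnt2 x (u := 2 * j + 1) (t := 2 * m - 1) (by omega)
  have c3 := xR_cnt2 x (u := 2 * j + 1) (t := 2 * m) (by omega)
  have c4 := xR_cnt1 x (u := 2 * j + 1) (t := 1) (by omega)
  have c5 := xR_cnt1 x (u := 2 * j + 1) (t := 2 * j) (by omega)
  have s1 := (step x (t := 2 * m) (by omega)).2.2.1 (by omega) W.xK
  have s2 := (step x (t := 2 * j + 1) (by omega)).2.1 (by omega) p.gg.1
  have s3 := (step x (t := 1) (by omega)).1 (by omega) W.x1
  have s4 : bo x 0 = 0 := rfl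
  rw [Nat.sub_self] at s3
  rw [show 2 * j + 1 - 1 = 2 * j by omega] at s2
  have p1 := pcnt x m
  have p2 := pcnt x j
  have hy := p.Yj
  unfold Y at hy
  rcases h with h | ⟨h, h'⟩
  · refine (cwR W p).VR1 hg ?_
    change gv (xR x (2 * j + 1)) (2 * j + 1) + n2 + 2 ≤ gv (xR x (2 * j + 1)) (2 * m - 1)
    omega
  · refine (cwR W p).VR2 hg ?_ ?_
    · change gv (xR x (2 * j + 1)) (2 * m) + go (xR x (2 * j + 1)) 1 <
        gv (xR x (2 * j + 1)) (2 * j + 1) + n2 + 2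
      omega
    · rw [show 2 * j + 1 - 1 = 2 * j by omega]
      change gv (xR x (2 * j + 1)) (2 * j + 1) + n2 + 2 ≤
        gv (xR x (2 * j + 1)) (2 * m) + go (xR x (2 * j + 1)) (2 * j)
      omega

/-- the conditions (no slack) -/
theorem gR_lrw (hs : s ≤ 2 * y + 2) {n2 : ℕ}
    (hA : ∀ i, 1 ≤ i → i < m → s ≤ y + 2 + n2 + Y x i) (hN : ld (2 * j) → al (2 * j))
    (hV : (nG x j + nP x j + n2 + 2 ≤ nG x m + nP x m) ∨
      ((nG x m + nP x m ≤ nG x j + nP x j + n2) ∧ (n2 : ℤ) + 2 + y ≤ nG x m + nP x m)) :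
    LRW (cwR W p).owR.lr (2 * m - 1) n2 0 := by
  have hh : (cwR W p).owR.lr.h = m - 1 := rfl
  obtain ⟨g1, g2, g3, g4, g5, g6, g7, g8, g9, g9', g10⟩ := gR_glob W p
  have hm := pcnt x m
  have e1 := nG_mono x (show j + 1 ≤ m by omega)
  have e2 := nB_mono x (show j ≤ m - 1 by omega)
  -- lower bound for all loaded vertices
  have A : ∀ v, 1 ≤ v → v < 2 * m → ld v →
      (m : ℤ) - 1 ≤ (cwR W p).owR.lr.J v + 1 + n2 := by
    intro v v1 v2 v3
    by_cases hv : v = 2 * j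
    · subst hv
      have := gR_JP W p v3
      omega
    · obtain ⟨l1, l2, l3⟩ := gR_lb W p v1 v2 v3 hv
      have rv := W.ld_rng v1 v2 v3
      rcases l3 with c | c
      · have := l2 c
        have := p.le (v / 2) (by omega)
        omega
      · have := l1 c
        have := hA (v / 2) (by omega) (by omega)
        omega
  have hz : ∀ z, 1 ≤ z → z < 2 * m → ld z → ¬ al z → z ≠ 2 * j := by
    rintro z _ _ h3 h4 rfl
    exact h4 (hN h3)
  have kd := fun {v : ℕ} => gR_kd W p (v := v)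
  refine
    { M1 := by omega
      M2 := by omega
      MC := fun i i1 i2 i3 i4 i5 => ?_
      pr := fun i _ i2 i3 => ?_
      V := gR_V W p hV
      a1 := fun a a1 a2 a3 => ?_
      n1 := fun z z1 z2 z3 _ => ?_
      t1 := fun z z1 z2 z3 _ => ?_
      t2 := fun z z1 z2 z3 z4 => ?_
      bb := fun a z a1 a2 z1 z2 a3 a4 z3 z4 => ?_
      sh := fun a z a1 a2 z1 z2 a3 a4 z3 z4 => ?_
      gg := fun a z a1 a2 z1 z2 a3 a4 z3 z4 _ => ?_
      gb := fun a z a1 a2 z1 z2 a3 a4 z3 z4 _ T hT => ?_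
      lt := ?_
      two := ?_ }
  · have := lr_MC (cwR W p).owR.lr i i1 i2 i3 i4 i5
    omega
  · obtain rfl : i = 2 * j := by omega
    exact hN i3
  · have := A a a1 a2 (W.ald a a3)
    omega
  · have := A z z1 z2 z3
    omega
  · have := A z z1 z2 z3
    omega
  · obtain ⟨l1, l2, l3⟩ := gR_lb W p z1 z2 z3 (hz z z1 z2 z3 z4)
    have rz := W.ld_rng z1 z2 z3
    have t1 := nB_mono x (show z / 2 ≤ m by omega)
    have t2 := nG_mono x (show z / 2 ≤ m by omega)
    rcases l3 with c | c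
    · have := l2 c
      unfold Y at *
      omega
    · have := l1 c
      unfold Y at *
      omega
  · have := gR_DB W p hs a1 a2 (W.ald a a3) ((kd a1 a2 (W.ald a a3)).1 a4) z1 z2 z3
      (hz z z1 z2 z3 z4)
    exact ⟨Or.inl this.1, fun _ => this.2⟩
  · have := gR_DB W p hs a1 a2 (W.ald a a3) ((kd a1 a2 (W.ald a a3)).1 a4) z1 z2 z3
      (hz z z1 z2 z3 z4)
    omega
  · exact gR_DG W p hs a1 a2 (W.ald a a3) (fun h => a4 ((kd a1 a2 (W.ald a a3)).2 h)) z1 z2 z3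
      (hz z z1 z2 z3 z4)
  · have h0 : T.card = 0 := by
      rw [Finset.card_eq_zero, Finset.eq_empty_iff_forall_notMem]
      intro i hi
      obtain ⟨i1, i2, _, i3, _, i4⟩ := hT i hi
      have := A i i1 i2 i3
      omega
    rw [h0]
    exact gR_DG W p hs a1 a2 (W.ald a a3) (fun h => a4 ((kd a1 a2 (W.ald a a3)).2 h)) z1 z2 z3
      (hz z z1 z2 z3 z4)
  · by_cases h : (cwR W p).owR.lr.P ≤ (cwR W p).owR.lr.Q
    · exact Or.inl h
    · refine Or.inr fun a z a1 a2 z1 z2 a3 a4 z3 z4 => ?_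
      have := gR_DG W p hs a1 a2 (W.ald a a3) (fun h => a4 ((kd a1 a2 (W.ald a a3)).2 h)) z1 z2 z3
        (hz z z1 z2 z3 z4)
      omega
  · left
    omega

end

end Pool.Agent.Lob89.Gg
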