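import Pool.Agent.Lob89.GgJ
import Pool.Agent.Lob89.GgLrw

/-!
# General ends: the colouring with one reserved edge

`GE m ld al x s`: an alternating colouring `x` of a word with `2 m` edges, no condition on the ends; the walk ends at
the level `s`.
-/

namespace Pool.Agent.Lob89.Gg

open Pool.Agent.Lob12 Pool.Agent.Lob5 Pool.Agent.Lob89

/-- an alternating colouring of a word -/
structure GE (m : ℕ) (ld al x : ℕ → Prop) (s : ℤ) : Prop where
  m2 : 2 ≤ m
  ald : ∀ i, al i → ld i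
  same : ∀ i, 1 ≤ i → i < 2 * m → ¬ ld i → (x i ↔ x (i + 1))
  dif : ∀ i, 1 ≤ i → i < 2 * m → ld i → (x i ↔ ¬ x (i + 1))
  rng : ∀ i, 1 ≤ i → i < 2 * m → ld i → 2 ≤ i ∧ i + 2 ≤ 2 * m
  tot : Y x m = s

variable {m : ℕ} {ld al x : ℕ → Prop} {s : ℤ}

theorem GE.ld_iff (W : GE m ld al x s) {v : ℕ} (h1 : 1 ≤ v) (h2 : v < 2 * m) :
    ld v ↔ (x v ↔ ¬ x (v + 1)) := by
  constructor
  · exact W.dif v h1 h2
  · intro h
    by_contra h3
    have h4 := W.same v h1 h2 h3
    tauto

/-- the word of the colouring `xR` -/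
theorem ecw (W : GE m ld al x s) {y : ℤ} {j : ℕ} (p : Ps m x y j) :
    CW (2 * m) (2 * j + 1) (m - 1) ld al (xR x (2 * j + 1)) := by
  have h2 := W.m2
  have r1 := p.jm
  have g1 := p.gg.1
  have g2 := p.gg.2
  have hu : ¬ ld (2 * j + 1) := by
    rw [W.ld_iff (by omega) (by omega)]
    intro h
    exact g1 (h.2 g2)
  refine
    { hK := by omega
      u1 := by omega
      uK := by omega
      uC := hu
      ub := (xR_le le_rfl).2 g1
      al_ld := W.ald
      same := ?_
      dif1 := ?_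
      dif2 := ?_ }
  · intro i i1 i2 i3 i4
    have := W.same i i1 i2 i4
    rcases Nat.lt_or_ge i (2 * j + 1) with h | h
    · rw [xR_le (by omega), xR_le (by omega), this]
    · rw [xR_gt (by omega), xR_gt (by omega)]
      exact this
  · intro i i1 i2 i3 i4
    have h5 : i ≠ 2 * j + 1 := by
      rintro rfl
      exact hu i3
    have := W.dif i i1 i2 i3
    rcases Nat.lt_or_ge i (2 * j + 1) with h | h
    · rw [xR_le (by omega)] at i4 ⊢
      tauto
    · rw [xR_gt (by omega)] at i4 ⊢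
      tauto
  · intro i i1 i2 i3 i4
    have i3 := W.ald i i3
    have h5 : i ≠ 2 * j + 1 := by
      rintro rfl
      exact hu i3
    have := W.dif i i1 i2 i3
    rcases Nat.lt_or_ge i (2 * j + 1) with h | h
    · rw [xR_le (by omega)] at i4 ⊢
      tauto
    · rw [xR_gt (by omega)] at i4 ⊢
      tauto

section

variable {y : ℤ} {j : ℕ} (W : GE m ld al x s) (p : Ps m x y j)

/-- the number of bad high edges -/
theorem eR_Q : ((ecw W p).owR.lr.Q : ℤ) = nB x m + nP x m + y := by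
  have h0 := R1_Q (ecw W p)
  have r := p.jm
  have h1 := xR_cnt1 x (le_refl (2 * j + 1))
  have h2 := xR_cnt2 x (u := 2 * j + 1) (t := 2 * m) (by omega)
  have h4 := (fl_odd x j).2 p.gg.1
  have h5 := p.Yj
  have h6 := pcnt x m
  unfold fl at *
  omega

/-- the number of bad low edges -/
theorem eR_P : ((ecw W p).owR.lr.P : ℤ) = nB x m + nR x m + y := by
  have h0 := R1_P (ecw W p)
  have r := p.jm
  have h1 := xR_cnt1 x (le_refl (2 * j + 1))
  have h2 := xR_cnt2 x (u := 2 * j + 1) (t := 2 * m) (by omega)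
  have h6 := odd_add x (2 * j + 1)
  have h7 := even_add x (2 * j + 1)
  have h4 := (fl_odd x j).2 p.gg.1
  have h5 := p.Yj
  have h8 := pcnt x m
  unfold fl at *
  omega

/-- the sum of ranks at a vertex of the right part -/
theorem eR_JR {v : ℕ} (h1 : 2 * j + 1 < v) (h2 : v < 2 * m) (h3 : ld v) :
    (x v → ((ecw W p).owR.lr.J v : ℤ) = (m - 1) - s + 2 + y + Y x (v / 2)) ∧
    (¬ x v → ((ecw W p).owR.lr.J v : ℤ) = (m - 1) - s + 1 + y + Y x (v / 2)) := by
  have hm := W.m2
  have hd := W.dif v (by omega) h2 h3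
  obtain ⟨_, _, j3, j4⟩ := R1_JR (ecw W p) h1 h2
  rw [xR_gt h1, xR_gt (show 2 * j + 1 < v + 1 by omega), flR_gt p h1, flR_u p,
    flR_gt p (show 2 * j + 1 < 2 * m by omega), fl_Y, W.tot] at j3 j4
  obtain ⟨f1, f2, f3⟩ := fl_v (x := x) v
  refine ⟨fun a => ?_, fun a => ?_⟩
  · have h5 := j4 a (hd.1 a)
    rcases Nat.mod_two_eq_zero_or_one v with o | o
    · have := f3 o
      omega
    · have := f1 o a
      omega
  · have b : x (v + 1) := by
      by_contra hh
      exact a (hd.2 hh)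
    have h5 := j3 a b
    rcases Nat.mod_two_eq_zero_or_one v with o | o
    · have := f3 o
      omega
    · have := f2 o a
      omega

/-- the sum of ranks at a vertex of the left part -/
theorem eR_JL {v : ℕ} (h0 : 1 ≤ v) (h1 : v < 2 * j) (h3 : ld v) :
    (v % 2 = 0 → x v → ((ecw W p).owR.lr.J v : ℤ) = (m - 1) + y - Y x (v / 2)) ∧
    (v % 2 = 1 → x v → ((ecw W p).owR.lr.J v : ℤ) = (m - 1) + y - Y x (v / 2) + 2) ∧
    (v % 2 = 1 → ¬ x v → ((ecw W p).owR.lr.J v : ℤ) = (m - 1) + y - Y x (v / 2) + 1) ∧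
    (v % 2 = 0 → ¬ x v → ((ecw W p).owR.lr.J v : ℤ) = (m - 1) + y - Y x (v / 2) + 3) := by
  have hm := W.m2
  have r := p.jm
  have hd := W.dif v (by omega) (by omega) h3
  obtain ⟨_, _, j3, j4⟩ := R1_JL (ecw W p) h0 (show v + 1 < 2 * j + 1 by omega)
  rw [xR_le (show v ≤ 2 * j + 1 by omega), xR_le (show v + 1 ≤ 2 * j + 1 by omega),
    flR_lt (show v < 2 * j + 1 by omega), flR_u p] at j3 j4
  obtain ⟨f1, f2, f3⟩ := fl_v (x := x) v
  refine ⟨fun o a => ?_, fun o a => ?_, fun o a => ?_, fun o a => ?_⟩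
  · have h5 := j3 (not_not.2 a) (hd.1 a)
    have := f3 o
    omega
  · have h5 := j3 (not_not.2 a) (hd.1 a)
    have := f1 o a
    omega
  · have b : x (v + 1) := by
      by_contra hh
      exact a (hd.2 hh)
    have h5 := j4 a (not_not.2 b)
    have := f2 o a
    omega
  · have b : x (v + 1) := by
      by_contra hh
      exact a (hd.2 hh)
    have h5 := j4 a (not_not.2 b)
    have := f3 o
    omega

/-- the sum of ranks at a loaded vertex before the reserved edge -/
theorem eR_JP (h2 : ld (2 * j)) (h3 : 1 ≤ j) :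
    ((ecw W p).owR.lr.J (2 * j) : ℤ) = m - 1 := by
  have hm := W.m2
  have r := p.jm
  have h4 := R1_JP (ecw W p) (by omega) (by rw [show 2 * j + 1 - 1 = 2 * j by omega]; exact h2)
  rw [show 2 * j + 1 - 1 = 2 * j by omega, flR_lt (show 2 * j < 2 * j + 1 by omega), flR_u p,
    fl_Y] at h4
  have h5 := p.Yj
  omega

/-- the kind of a loaded vertex -/
theorem eR_kd {v : ℕ} (h1 : 1 ≤ v) (h2 : v < 2 * m) (h3 : ld v) :
    (ecw W p).owR.lr.bad (lo (2 * j + 1) v) ↔ (v % 2 = 0 ↔ x v) := by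
  have hb : (ecw W p).owR.lr.bad = xR x (2 * j + 1) := rfl
  have hu : v ≠ 2 * j + 1 := by
    rintro rfl
    exact (ecw W p).uC h3
  have hd := W.dif v h1 h2 h3
  rw [hb]
  unfold lo oe ee
  rcases Nat.mod_two_eq_zero_or_one v with o | o
  · have o' : ¬ v % 2 = 1 := by omega
    rcases Nat.lt_or_ge v (2 * j + 1) with c | c
    · rw [if_pos c, if_neg o', xR_le (by omega)]
      tauto
    · rw [if_neg (by omega), if_neg o', xR_gt (by omega)]
      tauto
  · have o' : ¬ v % 2 = 0 := by omega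
    rcases Nat.lt_or_ge v (2 * j + 1) with c | c
    · rw [if_pos c, if_pos o, xR_le (by omega)]
      tauto
    · rw [if_neg (by omega), if_pos o, xR_gt (by omega)]
      tauto

/-- lower bounds of the sums -/
theorem eR_lb {z : ℕ} (h1 : 1 ≤ z) (h2 : z < 2 * m) (h3 : ld z) (h4 : z ≠ 2 * j) :
    (2 * j + 1 < z → (m - 1) - s + 1 + y + Y x (z / 2) ≤ ((ecw W p).owR.lr.J z : ℤ) ∧
      (x z → (m - 1) - s + 2 + y + Y x (z / 2) ≤ ((ecw W p).owR.lr.J z : ℤ))) ∧
    (z < 2 * j → (m - 1) + y - Y x (z / 2) ≤ ((ecw W p).owR.lr.J z : ℤ)) ∧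
    (z < 2 * j ∨ 2 * j + 1 < z) := by
  have hu : z ≠ 2 * j + 1 := by
    rintro rfl
    exact (ecw W p).uC h3
  refine ⟨fun c => ?_, fun c => ?_, by omega⟩
  · have h5 := eR_JR W p c h2 h3
    by_cases a : x z
    · have := h5.1 a
      exact ⟨by omega, fun _ => by omega⟩
    · have := h5.2 a
      exact ⟨by omega, fun h => absurd h a⟩
  · obtain ⟨b1, b2, b3, b4⟩ := eR_JL W p h1 c h3
    rcases Nat.mod_two_eq_zero_or_one z with o | o <;> by_cases a : x z
    · have := b1 o a
      omega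
    · have := b4 o a
      omega
    · have := b2 o a
      omega
    · have := b3 o a
      omega

/-- upper bounds of the sums, good kind -/
theorem eR_ubG {v : ℕ} (h1 : 1 ≤ v) (h2 : v < 2 * m) (h3 : ld v) (h4 : ¬ (v % 2 = 0 ↔ x v)) :
    (2 * j + 1 < v → ((ecw W p).owR.lr.J v : ℤ) ≤ (m - 1) - s + 1 + y + Y x (v / 2 + 1) +
      (nP x (v / 2 + 1) - nP x ((v - 1) / 2)) + (nB x (v / 2 + 1) - nB x ((v - 1) / 2))) ∧
    (v < 2 * j → ((ecw W p).owR.lr.J v : ℤ) ≤ (m - 1) + y + 1 - Y x ((v - 1) / 2) +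
      (nP x (v / 2 + 1) - nP x ((v - 1) / 2)) + (nB x (v / 2 + 1) - nB x ((v - 1) / 2))) ∧
    (v < 2 * j ∨ 2 * j + 1 < v) := by
  have hu : v ≠ 2 * j + 1 := by
    rintro rfl
    exact (ecw W p).uC h3
  have hd := W.dif v h1 h2 h3
  have hj : v ≠ 2 * j := by
    rintro rfl
    have := p.gg.1
    apply h4
    constructor
    · intro _
      by_contra hh
      exact hh (hd.2 this)
    · intro _
      omega
  obtain ⟨g1, g2⟩ := ubG x h1 hd
  refine ⟨fun c => ?_, fun c => ?_, by omega⟩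
  · obtain ⟨k1, k2⟩ := eR_JR W p c h2 h3
    rcases Nat.mod_two_eq_zero_or_one v with o | o <;> by_cases a : x v
    · exact absurd (iff_of_true o a) h4
    · have := k2 a
      have := (g1 o a).1
      omega
    · have := k1 a
      have := (g2 o a).1
      omega
    · exact absurd (iff_of_false (by omega) a) h4
  · obtain ⟨b1, b2, b3, b4⟩ := eR_JL W p h1 c h3
    rcases Nat.mod_two_eq_zero_or_one v with o | o <;> by_cases a : x v
    · exact absurd (iff_of_true o a) h4
    · have := b4 o a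
      have := (g1 o a).2
      omega
    · have := b2 o a
      have := (g2 o a).2
      omega
    · exact absurd (iff_of_false (by omega) a) h4

/-- upper bounds of the sums, bad kind -/
theorem eR_ubB {v : ℕ} (h1 : 1 ≤ v) (h2 : v < 2 * m) (h3 : ld v) (h4 : v % 2 = 0 ↔ x v) :
    (2 * j + 1 < v → ((ecw W p).owR.lr.J v : ℤ) ≤ (m - 1) - s + 1 + y + Y x (v / 2 + 1) +
      (nR x (v / 2 + 1) - nR x ((v - 1) / 2)) ∧
      ((ecw W p).owR.lr.J v : ℤ) ≤ (m - 1) - s + 2 + y + Y x (v / 2 + 1)) ∧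
    (v < 2 * j → ((ecw W p).owR.lr.J v : ℤ) ≤ (m - 1) + y + 1 - Y x ((v - 1) / 2)) ∧
    (v = 2 * j → ((ecw W p).owR.lr.J v : ℤ) = (m - 1)) ∧
    (v < 2 * j ∨ v = 2 * j ∨ 2 * j + 1 < v) := by
  have hu : v ≠ 2 * j + 1 := by
    rintro rfl
    exact (ecw W p).uC h3
  have hd := W.dif v h1 h2 h3
  obtain ⟨g1, g2⟩ := ubB x h1 hd
  refine ⟨fun c => ?_, fun c => ?_, fun c => ?_, by omega⟩
  · obtain ⟨k1, k2⟩ := eR_JR W p c h2 h3
    rcases Nat.mod_two_eq_zero_or_one v with o | o
    · have a := h4.1 o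
      have := k1 a
      have := g1 o a
      constructor <;> omega
    · have a : ¬ x v := fun h => by have := h4.2 h; omega
      have := k2 a
      have := g2 o a
      constructor <;> omega
  · obtain ⟨b1, b2, b3, b4⟩ := eR_JL W p h1 c h3
    rcases Nat.mod_two_eq_zero_or_one v with o | o
    · have a := h4.1 o
      have := b1 o a
      have := (g1 o a).2.2
      omega
    · have a : ¬ x v := fun h => by have := h4.2 h; omega
      have := b3 o a
      have := (g2 o a).2.2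
      omega
  · subst c
    exact eR_JP W p h3 (by omega)

end

end Pool.Agent.Lob89.Gg
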