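import Pool.Agent.Lob12.OwWord
import Pool.Agent.Lob12.RxLam

/-!
# Both ends good: counts and rank sums

Counts of a coloured word `b` (`b e`: the edge `e` is bad): `bo, go` bad and good odd edges, `bv, gv` bad and good even
edges among `1, ..., t`; `fl t = gv t - bo t`, so the walk is `wk b t = t % 2 + 2 fl t`.
-/

namespace Pool.Agent.Lob89.Gg

open Pool.Agent.Lob12 Pool.Agent.Lob5 Pool.Agent.Lob89

/-- bad odd edges -/
noncomputable def bo (b : ℕ → Prop) (t : ℕ) : ℕ := cn (fun e => e % 2 = 1 ∧ b e) t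
/-- good odd edges -/
noncomputable def go (b : ℕ → Prop) (t : ℕ) : ℕ := cn (fun e => e % 2 = 1 ∧ ¬ b e) t
/-- bad even edges -/
noncomputable def bv (b : ℕ → Prop) (t : ℕ) : ℕ := cn (fun e => e % 2 = 0 ∧ b e) t
/-- good even edges -/
noncomputable def gv (b : ℕ → Prop) (t : ℕ) : ℕ := cn (fun e => e % 2 = 0 ∧ ¬ b e) t

theorem cn_lt {p : ℕ → Prop} {x e y : ℕ} (h1 : x < e) (h2 : e ≤ y) (h3 : p e) :
    cn p x + 1 ≤ cn p y := by
  have h4 := cn_mono p (show x ≤ e - 1 by omega)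
  have h5 := cn_step (p := p) (show 1 ≤ e by omega) h3
  have h6 := cn_mono p h2
  omega

theorem odd_add (b : ℕ → Prop) (t : ℕ) : go b t + bo b t = (t + 1) / 2 := by
  unfold go bo
  rw [add_comm, cn_split (fun e => e % 2 = 1) b]
  induction t with
  | zero => rfl
  | succ t ih =>
    by_cases h : (t + 1) % 2 = 1
    · rw [cn_pos (p := fun e => e % 2 = 1) h, ih]
      omega
    · rw [cn_neg (p := fun e => e % 2 = 1) h, ih]
      omega

theorem even_add (b : ℕ → Prop) (t : ℕ) : gv b t + bv b t = t / 2 := by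
  unfold gv bv
  rw [add_comm, cn_split (fun e => e % 2 = 0) b]
  induction t with
  | zero => rfl
  | succ t ih =>
    by_cases h : (t + 1) % 2 = 0
    · rw [cn_pos (p := fun e => e % 2 = 0) h, ih]
      omega
    · rw [cn_neg (p := fun e => e % 2 = 0) h, ih]
      omega

theorem cn_eq (b : ℕ → Prop) (t : ℕ) : cn b t = bo b t + bv b t := by
  unfold bo bv
  rw [← cn_split b (fun e => e % 2 = 1) t]
  congr 1
  · exact cn_congr fun y _ _ => and_comm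
  · exact cn_congr fun y _ _ => ⟨fun h => ⟨by omega, h.1⟩, fun h => ⟨h.2, by omega⟩⟩

/-- the level of the walk -/
noncomputable def fl (b : ℕ → Prop) (t : ℕ) : ℤ := gv b t - bo b t

theorem wk_fl (b : ℕ → Prop) (t : ℕ) : wk b t = (t % 2 : ℕ) + 2 * fl b t := by
  have h1 := odd_add b t
  have h2 := even_add b t
  have h3 := cn_eq b t
  unfold wk fl
  omega

theorem bo_mono (b : ℕ → Prop) {x y : ℕ} (h : x ≤ y) : bo b x ≤ bo b y := cn_mono _ h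
theorem go_mono (b : ℕ → Prop) {x y : ℕ} (h : x ≤ y) : go b x ≤ go b y := cn_mono _ h
theorem bv_mono (b : ℕ → Prop) {x y : ℕ} (h : x ≤ y) : bv b x ≤ bv b y := cn_mono _ h
theorem gv_mono (b : ℕ → Prop) {x y : ℕ} (h : x ≤ y) : gv b x ≤ gv b y := cn_mono _ h

theorem bo_lt {b : ℕ → Prop} {x e y : ℕ} (h1 : x < e) (h2 : e ≤ y) (h3 : e % 2 = 1) (h4 : b e) :
    bo b x + 1 ≤ bo b y := cn_lt (p := fun e => e % 2 = 1 ∧ b e) h1 h2 ⟨h3, h4⟩
theorem go_lt {b : ℕ → Prop} {x e y : ℕ} (h1 : x < e) (h2 : e ≤ y) (h3 : e % 2 = 1)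
    (h4 : ¬ b e) : go b x + 1 ≤ go b y :=
  cn_lt (p := fun e => e % 2 = 1 ∧ ¬ b e) h1 h2 ⟨h3, h4⟩
theorem bv_lt {b : ℕ → Prop} {x e y : ℕ} (h1 : x < e) (h2 : e ≤ y) (h3 : e % 2 = 0) (h4 : b e) :
    bv b x + 1 ≤ bv b y := cn_lt (p := fun e => e % 2 = 0 ∧ b e) h1 h2 ⟨h3, h4⟩
theorem gv_lt {b : ℕ → Prop} {x e y : ℕ} (h1 : x < e) (h2 : e ≤ y) (h3 : e % 2 = 0)
    (h4 : ¬ b e) : gv b x + 1 ≤ gv b y :=
  cn_lt (p := fun e => e % 2 = 0 ∧ ¬ b e) h1 h2 ⟨h3, h4⟩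

/-- one step of the counts -/
theorem step (b : ℕ → Prop) {t : ℕ} (h : 1 ≤ t) :
    (t % 2 = 1 → b t → bo b t = bo b (t - 1) + 1 ∧ go b t = go b (t - 1) ∧
      bv b t = bv b (t - 1) ∧ gv b t = gv b (t - 1)) ∧
    (t % 2 = 1 → ¬ b t → bo b t = bo b (t - 1) ∧ go b t = go b (t - 1) + 1 ∧
      bv b t = bv b (t - 1) ∧ gv b t = gv b (t - 1)) ∧
    (t % 2 = 0 → b t → bo b t = bo b (t - 1) ∧ go b t = go b (t - 1) ∧
      bv b t = bv b (t - 1) + 1 ∧ gv b t = gv b (t - 1)) ∧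
    (t % 2 = 0 → ¬ b t → bo b t = bo b (t - 1) ∧ go b t = go b (t - 1) ∧
      bv b t = bv b (t - 1) ∧ gv b t = gv b (t - 1) + 1) := by
  obtain ⟨t, rfl⟩ : ∃ k, t = k + 1 := ⟨t - 1, by omega⟩
  rw [Nat.add_sub_cancel]
  unfold bo go bv gv
  refine ⟨fun h1 h2 => ?_, fun h1 h2 => ?_, fun h1 h2 => ?_, fun h1 h2 => ?_⟩
  · exact ⟨cn_pos ⟨h1, h2⟩, cn_neg fun h => h.2 h2, cn_neg fun h => by omega,
      cn_neg fun h => h.2 h2⟩
  · exact ⟨cn_neg fun h => h2 h.2, cn_pos ⟨h1, h2⟩, cn_neg fun h => h2 h.2,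
      cn_neg fun h => by omega⟩
  · exact ⟨cn_neg fun h => by omega, cn_neg fun h => h.2 h2, cn_pos ⟨h1, h2⟩,
      cn_neg fun h => h.2 h2⟩
  · exact ⟨cn_neg fun h => h2 h.2, cn_neg fun h => by omega, cn_neg fun h => h2 h.2,
      cn_pos ⟨h1, h2⟩⟩

end Pool.Agent.Lob89.Gg
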