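import Pool.Agent.Lob89.GgSl
import Pool.Agent.Lob12.P1Split

/-!
# Both ends good: the mirror word
-/

namespace Pool.Agent.Lob89.Gg

open Pool.Agent.Lob12 Pool.Agent.Lob5 Pool.Agent.Lob89

variable {m : ℕ} {ld al x : ℕ → Prop} {s : ℤ}

/-- the counts of the mirror word -/
theorem mir_cnt (x : ℕ → Prop) (m : ℕ) {t : ℕ} (h : t ≤ m) :
    nB (fun e => x (2 * m + 1 - e)) t + nB x (m - t) = nB x m ∧
    nG (fun e => x (2 * m + 1 - e)) t + nG x (m - t) = nG x m ∧
    nP (fun e => x (2 * m + 1 - e)) t + nR x (m - t) = nR x m ∧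
    nR (fun e => x (2 * m + 1 - e)) t + nP x (m - t) = nP x m := by
  induction t with
  | zero =>
    rw [Nat.sub_zero]
    have h0 : nB (fun e => x (2 * m + 1 - e)) 0 = 0 ∧ nG (fun e => x (2 * m + 1 - e)) 0 = 0 ∧
      nP (fun e => x (2 * m + 1 - e)) 0 = 0 ∧ nR (fun e => x (2 * m + 1 - e)) 0 = 0 :=
      ⟨rfl, rfl, rfl, rfl⟩
    omega
  | succ t ih =>
    have ih := ih (by omega)
    obtain ⟨p1, p2, p3, p4⟩ := pstep (fun e => x (2 * m + 1 - e)) t
    obtain ⟨q1, q2, q3, q4⟩ := pstep x (m - (t + 1))
    rw [show m - (t + 1) + 1 = m - t by omega] at q1 q2 q3 q4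
    simp only [show 2 * m + 1 - (2 * t + 1) = 2 * (m - (t + 1)) + 2 by omega,
      show 2 * m + 1 - (2 * t + 2) = 2 * (m - (t + 1)) + 1 by omega] at p1 p2 p3 p4
    by_cases a : x (2 * (m - (t + 1)) + 1) <;> by_cases b : x (2 * (m - (t + 1)) + 2)
    · have := p1 b a
      have := q1 a b
      omega
    · have := p4 b a
      have := q3 a b
      omega
    · have := p3 b a
      have := q4 a b
      omega
    · have := p2 b a
      have := q2 a b
      omega

theorem mir_Y (W : GW m ld al x s) {t : ℕ} (h : t ≤ m) :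
    Y (fun e => x (2 * m + 1 - e)) t = s - Y x (m - t) := by
  have h1 := mir_cnt x m h
  have h2 := W.tot
  unfold Y at *
  omega

/-- the mirror word -/
theorem GW.mirror (W : GW m ld al x s) :
    GW m (fun i => ld (2 * m - i)) (fun i => al (2 * m - i)) (fun e => x (2 * m + 1 - e)) s := by
  have h2 := W.m2
  refine
    { m2 := h2
      ald := fun i h => W.ald _ h
      same := ?_
      dif := ?_
      x1 := ?_
      x2 := ?_
      xK1 := ?_
      xK := ?_
      tot := ?_
      s1 := W.s1 }
  · intro i i1 i2 i3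
    have := W.same (2 * m - i) (by omega) (by omega) i3
    rw [show 2 * m + 1 - i = 2 * m - i + 1 by omega,
      show 2 * m + 1 - (i + 1) = 2 * m - i by omega]
    exact this.symm
  · intro i i1 i2 i3
    have := W.dif (2 * m - i) (by omega) (by omega) i3
    rw [show 2 * m + 1 - i = 2 * m - i + 1 by omega,
      show 2 * m + 1 - (i + 1) = 2 * m - i by omega]
    tauto
  · rw [show 2 * m + 1 - 1 = 2 * m by omega]
    exact W.xK
  · rw [show 2 * m + 1 - 2 = 2 * m - 1 by omega]
    exact W.xK1
  · rw [show 2 * m + 1 - (2 * m - 1) = 2 by omega]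
    exact W.x2
  · rw [show 2 * m + 1 - 2 * m = 1 by omega]
    exact W.x1
  · rw [mir_Y W le_rfl, Nat.sub_self]
    have : Y x 0 = 0 := rfl
    omega

/-- a level of maximal height -/
theorem exists_top (x : ℕ → Prop) (m : ℕ) : ∃ i ≤ m, ∀ t ≤ m, Y x t ≤ Y x i := by
  induction m with
  | zero =>
    refine ⟨0, le_rfl, fun t ht => ?_⟩
    obtain rfl : t = 0 := by omega
    exact le_rfl
  | succ m ih =>
    obtain ⟨i, h1, h2⟩ := ih
    rcases le_total (Y x (m + 1)) (Y x i) with h | h
    · refine ⟨i, by omega, fun t ht => ?_⟩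
      rcases Nat.lt_or_ge t (m + 1) with c | c
      · exact h2 t (by omega)
      · obtain rfl : t = m + 1 := by omega
        exact h
    · refine ⟨m + 1, le_rfl, fun t ht => ?_⟩
      rcases Nat.lt_or_ge t (m + 1) with c | c
      · exact (h2 t (by omega)).trans h
      · obtain rfl : t = m + 1 := by omega
        exact le_rfl

/-- a level of minimal height -/
theorem exists_bot (x : ℕ → Prop) (m : ℕ) : ∃ i ≤ m, ∀ t ≤ m, Y x i ≤ Y x t := by
  induction m with
  | zero =>
    refine ⟨0, le_rfl, fun t ht => ?_⟩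
    obtain rfl : t = 0 := by omega
    exact le_rfl
  | succ m ih =>
    obtain ⟨i, h1, h2⟩ := ih
    rcases le_total (Y x i) (Y x (m + 1)) with h | h
    · refine ⟨i, by omega, fun t ht => ?_⟩
      rcases Nat.lt_or_ge t (m + 1) with c | c
      · exact h2 t (by omega)
      · obtain rfl : t = m + 1 := by omega
        exact h
    · refine ⟨m + 1, le_rfl, fun t ht => ?_⟩
      rcases Nat.lt_or_ge t (m + 1) with c | c
      · exact h.trans (h2 t (by omega))
      · obtain rfl : t = m + 1 := by omega
        exact le_rfl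

open Classical in
/-- If all unmarked loaded vertices are odd, their number is at most the number of mixed pairs. -/
theorem nN_le (W : GW m ld al x s) (hN : ∀ i, 1 ≤ i → i < m → ld (2 * i) → al (2 * i)) :
    nN (2 * m) ld al ≤ nP x m + nR x m := by
  have key : ∀ t ≤ m, ((Finset.range (2 * t)).filter fun i => 1 ≤ i ∧ ld i ∧ ¬ al i).card ≤
      nP x t + nR x t := by
    intro t
    induction t with
    | zero => intro _; simp
    | succ t ih =>
      intro ht
      have ih := ih (by omega)
      rw [show 2 * (t + 1) = 2 * t + 1 + 1 by omega, Finset.range_add_one, Finset.range_add_one,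
        Finset.filter_insert, Finset.filter_insert]
      have h1 : ¬ (1 ≤ 2 * t ∧ ld (2 * t) ∧ ¬ al (2 * t)) := by
        rintro ⟨a, b, c⟩
        exact c (hN t (by omega) (by omega) b)
      rw [if_neg h1]
      have m1 := nP_mono x (show t ≤ t + 1 by omega)
      have m2 := nR_mono x (show t ≤ t + 1 by omega)
      by_cases h2 : 1 ≤ 2 * t + 1 ∧ ld (2 * t + 1) ∧ ¬ al (2 * t + 1)
      · rw [if_pos h2]
        have h3 := Finset.card_insert_le (2 * t + 1)
          ((Finset.range (2 * t)).filter fun i => 1 ≤ i ∧ ld i ∧ ¬ al i)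
        have h4 := W.dif (2 * t + 1) (by omega) (by omega) h2.2.1
        obtain ⟨p1, p2, p3, p4⟩ := pstep x t
        rw [show 2 * t + 1 + 1 = 2 * t + 2 by omega] at h4
        by_cases a : x (2 * t + 1)
        · have := p3 a (h4.1 a)
          omega
        · have b : x (2 * t + 2) := by
            by_contra hh
            exact a (h4.2 hh)
          have := p4 a b
          omega
      · rw [if_neg h2]
        omega
  exact key m le_rfl

end Pool.Agent.Lob89.Gg
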