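import Pool.Agent.Lob89.GgR1

/-!
# Both ends good: pairs of edges

The pair `i` consists of the edges `2 i - 1`, `2 i`. `nB, nG, nP, nR`: numbers of pairs `bad bad`, `good good`,
`bad good`, `good bad` among the first `j` pairs; `Y x j = nG x j - nB x j` is the level after `j` pairs.
-/

namespace Pool.Agent.Lob89.Gg

open Pool.Agent.Lob12 Pool.Agent.Lob5 Pool.Agent.Lob89

/-- pairs `bad bad` -/
noncomputable def nB (x : ℕ → Prop) (j : ℕ) : ℕ := cn (fun i => x (2 * i - 1) ∧ x (2 * i)) j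
/-- pairs `good good` -/
noncomputable def nG (x : ℕ → Prop) (j : ℕ) : ℕ := cn (fun i => ¬ x (2 * i - 1) ∧ ¬ x (2 * i)) j
/-- pairs `bad good` -/
noncomputable def nP (x : ℕ → Prop) (j : ℕ) : ℕ := cn (fun i => x (2 * i - 1) ∧ ¬ x (2 * i)) j
/-- pairs `good bad` -/
noncomputable def nR (x : ℕ → Prop) (j : ℕ) : ℕ := cn (fun i => ¬ x (2 * i - 1) ∧ x (2 * i)) j

/-- the level after `j` pairs -/
noncomputable def Y (x : ℕ → Prop) (j : ℕ) : ℤ := nG x j - nB x j

theorem nB_mono (x : ℕ → Prop) {i j : ℕ} (h : i ≤ j) : nB x i ≤ nB x j := cn_mono _ h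
theorem nG_mono (x : ℕ → Prop) {i j : ℕ} (h : i ≤ j) : nG x i ≤ nG x j := cn_mono _ h
theorem nP_mono (x : ℕ → Prop) {i j : ℕ} (h : i ≤ j) : nP x i ≤ nP x j := cn_mono _ h
theorem nR_mono (x : ℕ → Prop) {i j : ℕ} (h : i ≤ j) : nR x i ≤ nR x j := cn_mono _ h

/-- the counts at `j + 1` and `j` for the four kinds of the pair -/
theorem pstep (x : ℕ → Prop) (j : ℕ) :
    (x (2 * j + 1) → x (2 * j + 2) → nB x (j + 1) = nB x j + 1 ∧ nG x (j + 1) = nG x j ∧
      nP x (j + 1) = nP x j ∧ nR x (j + 1) = nR x j) ∧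
    (¬ x (2 * j + 1) → ¬ x (2 * j + 2) → nB x (j + 1) = nB x j ∧ nG x (j + 1) = nG x j + 1 ∧
      nP x (j + 1) = nP x j ∧ nR x (j + 1) = nR x j) ∧
    (x (2 * j + 1) → ¬ x (2 * j + 2) → nB x (j + 1) = nB x j ∧ nG x (j + 1) = nG x j ∧
      nP x (j + 1) = nP x j + 1 ∧ nR x (j + 1) = nR x j) ∧
    (¬ x (2 * j + 1) → x (2 * j + 2) → nB x (j + 1) = nB x j ∧ nG x (j + 1) = nG x j ∧
      nP x (j + 1) = nP x j ∧ nR x (j + 1) = nR x j + 1) := by
  have e1 : 2 * (j + 1) - 1 = 2 * j + 1 := by omega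
  have e2 : 2 * (j + 1) = 2 * j + 2 := by omega
  unfold nB nG nP nR
  refine ⟨fun h1 h2 => ?_, fun h1 h2 => ?_, fun h1 h2 => ?_, fun h1 h2 => ?_⟩
  · refine ⟨cn_pos ?_, cn_neg ?_, cn_neg ?_, cn_neg ?_⟩ <;> rw [e1, e2] <;> tauto
  · refine ⟨cn_neg ?_, cn_pos ?_, cn_neg ?_, cn_neg ?_⟩ <;> rw [e1, e2] <;> tauto
  · refine ⟨cn_neg ?_, cn_neg ?_, cn_pos ?_, cn_neg ?_⟩ <;> rw [e1, e2] <;> tauto
  · refine ⟨cn_neg ?_, cn_neg ?_, cn_neg ?_, cn_pos ?_⟩ <;> rw [e1, e2] <;> tauto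

/-- the counts of the edges in terms of pairs -/
theorem pcnt (x : ℕ → Prop) (j : ℕ) :
    bo x (2 * j) = nB x j + nP x j ∧ go x (2 * j) = nG x j + nR x j ∧
    bv x (2 * j) = nB x j + nR x j ∧ gv x (2 * j) = nG x j + nP x j ∧
    nB x j + nG x j + nP x j + nR x j = j := by
  induction j with
  | zero => exact ⟨rfl, rfl, rfl, rfl, rfl⟩
  | succ j ih =>
    obtain ⟨p1, p2, p3, p4⟩ := pstep x j
    have s1 := step x (t := 2 * j + 1) (by omega)
    have s2 := step x (t := 2 * j + 2) (by omega)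
    rw [show 2 * j + 1 - 1 = 2 * j by omega] at s1
    rw [show 2 * j + 2 - 1 = 2 * j + 1 by omega] at s2
    have o1 : (2 * j + 1) % 2 = 1 := by omega
    have o2 : (2 * j + 2) % 2 = 0 := by omega
    rw [show 2 * (j + 1) = 2 * j + 2 by omega]
    by_cases a : x (2 * j + 1) <;> by_cases b : x (2 * j + 2)
    · have := p1 a b
      have := s1.1 o1 a
      have := s2.2.2.1 o2 b
      omega
    · have := p3 a b
      have := s1.1 o1 a
      have := s2.2.2.2 o2 b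
      omega
    · have := p4 a b
      have := s1.2.1 o1 a
      have := s2.2.2.1 o2 b
      omega
    · have := p2 a b
      have := s1.2.1 o1 a
      have := s2.2.2.2 o2 b
      omega

theorem fl_Y (x : ℕ → Prop) (j : ℕ) : fl x (2 * j) = Y x j := by
  have := pcnt x j
  unfold fl Y
  omega

/-- The level changes by at most one. -/
theorem Y_step (x : ℕ → Prop) (j : ℕ) :
    Y x (j + 1) ≤ Y x j + 1 ∧ Y x j ≤ Y x (j + 1) + 1 := by
  obtain ⟨p1, p2, p3, p4⟩ := pstep x j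
  unfold Y
  by_cases a : x (2 * j + 1) <;> by_cases b : x (2 * j + 2)
  · have := p1 a b; omega
  · have := p3 a b; omega
  · have := p4 a b; omega
  · have := p2 a b; omega

/-- a step up is a pair `good good` -/
theorem Y_up (x : ℕ → Prop) (j : ℕ) (h : Y x j < Y x (j + 1)) :
    ¬ x (2 * j + 1) ∧ ¬ x (2 * j + 2) := by
  obtain ⟨p1, p2, p3, p4⟩ := pstep x j
  unfold Y at h
  by_cases a : x (2 * j + 1) <;> by_cases b : x (2 * j + 2)
  · have := p1 a b; omega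
  · have := p3 a b; omega
  · have := p4 a b; omega
  · exact ⟨a, b⟩

/-- a step down is a pair `bad bad` -/
theorem Y_down (x : ℕ → Prop) (j : ℕ) (h : Y x (j + 1) < Y x j) :
    x (2 * j + 1) ∧ x (2 * j + 2) := by
  obtain ⟨p1, p2, p3, p4⟩ := pstep x j
  unfold Y at h
  by_cases a : x (2 * j + 1) <;> by_cases b : x (2 * j + 2)
  · exact ⟨a, b⟩
  · have := p3 a b; omega
  · have := p4 a b; omega
  · have := p2 a b; omega

/-- level of the odd vertex `v` after the edge `v` -/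
theorem fl_odd (x : ℕ → Prop) (j : ℕ) :
    (x (2 * j + 1) → fl x (2 * j + 1) = Y x j - 1) ∧
    (¬ x (2 * j + 1) → fl x (2 * j + 1) = Y x j) := by
  have s1 := step x (t := 2 * j + 1) (by omega)
  rw [show 2 * j + 1 - 1 = 2 * j by omega] at s1
  have o1 : (2 * j + 1) % 2 = 1 := by omega
  have h := fl_Y x j
  unfold fl at *
  refine ⟨fun a => ?_, fun a => ?_⟩
  · have := s1.1 o1 a
    omega
  · have := s1.2.1 o1 a
    omega

/-- The first passage from the level `y` to the level `y + 1`. -/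
theorem passage (x : ℕ → Prop) {m : ℕ} {y : ℤ} (h0 : 0 ≤ y) (h1 : ∃ i ≤ m, y < Y x i) :
    ∃ j, j + 1 ≤ m ∧ Y x j = y ∧ Y x (j + 1) = y + 1 ∧ ∀ i ≤ j, Y x i ≤ y := by
  classical
  have h2 : ∃ i, y < Y x i := by
    obtain ⟨i, _, h⟩ := h1
    exact ⟨i, h⟩
  have h3 := Nat.find_spec h2
  have h4 : Nat.find h2 ≤ m := by
    obtain ⟨i, a, b⟩ := h1
    exact (Nat.find_min' h2 b).trans a
  have h5 : Nat.find h2 ≠ 0 := by
    intro h
    rw [h] at h3
    have : Y x 0 = 0 := rfl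
    omega
  obtain ⟨j, hj⟩ := Nat.exists_eq_succ_of_ne_zero h5
  rw [Nat.succ_eq_add_one] at hj
  rw [hj] at h3 h4
  have h6 : ∀ i ≤ j, Y x i ≤ y := by
    intro i hi
    have := Nat.find_min h2 (m := i) (by omega)
    omega
  have h7 := (Y_step x j).1
  have h8 := h6 j le_rfl
  exact ⟨j, h4, by omega, by omega, h6⟩

/-- the levels at a loaded vertex on both sides -/
theorem Y_ld (x : ℕ → Prop) {v : ℕ} (h : v % 2 = 1 → (x v ↔ ¬ x (v + 1))) :
    Y x (v / 2) = Y x ((v + 1) / 2) := by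
  rcases Nat.even_or_odd' v with ⟨j, rfl | rfl⟩
  · rw [show 2 * j / 2 = j by omega, show (2 * j + 1) / 2 = j by omega]
  · have h := h (by omega)
    rw [show (2 * j + 1) / 2 = j by omega, show (2 * j + 1 + 1) / 2 = j + 1 by omega]
    rw [show 2 * j + 1 + 1 = 2 * j + 2 by omega] at h
    obtain ⟨p1, p2, p3, p4⟩ := pstep x j
    unfold Y
    by_cases a : x (2 * j + 1) <;> by_cases b : x (2 * j + 2)
    · exact absurd b (h.1 a)
    · have := p3 a b; omega
    · have := p4 a b; omega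
    · exact absurd (h.2 b) a

/-- the counts around a loaded vertex -/
theorem around (x : ℕ → Prop) {v : ℕ} (h1 : 1 ≤ v) (h : x v ↔ ¬ x (v + 1)) :
    (v % 2 = 0 → ¬ x v →
      (nG x (v / 2) + nP x (v / 2) = nG x ((v - 1) / 2) + nP x ((v - 1) / 2) + 1 ∧
        nB x (v / 2) = nB x ((v - 1) / 2) ∧ nR x (v / 2) = nR x ((v - 1) / 2) ∧
        nP x ((v - 1) / 2) ≤ nP x (v / 2)) ∧
      (nB x (v / 2 + 1) + nP x (v / 2 + 1) = nB x (v / 2) + nP x (v / 2) + 1 ∧
        nG x (v / 2 + 1) = nG x (v / 2) ∧ nR x (v / 2 + 1) = nR x (v / 2) ∧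
        nP x (v / 2) ≤ nP x (v / 2 + 1))) ∧
    (v % 2 = 0 → x v →
      (nB x (v / 2) + nR x (v / 2) = nB x ((v - 1) / 2) + nR x ((v - 1) / 2) + 1 ∧
        nG x (v / 2) = nG x ((v - 1) / 2) ∧ nP x (v / 2) = nP x ((v - 1) / 2) ∧
        nR x ((v - 1) / 2) ≤ nR x (v / 2)) ∧
      (nG x (v / 2 + 1) + nR x (v / 2 + 1) = nG x (v / 2) + nR x (v / 2) + 1 ∧
        nB x (v / 2 + 1) = nB x (v / 2) ∧ nP x (v / 2 + 1) = nP x (v / 2) ∧
        nR x (v / 2) ≤ nR x (v / 2 + 1))) ∧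
    (v % 2 = 1 → x v →
      (v - 1) / 2 = v / 2 ∧ nB x (v / 2 + 1) = nB x (v / 2) ∧ nG x (v / 2 + 1) = nG x (v / 2) ∧
        nP x (v / 2 + 1) = nP x (v / 2) + 1 ∧ nR x (v / 2 + 1) = nR x (v / 2)) ∧
    (v % 2 = 1 → ¬ x v →
      (v - 1) / 2 = v / 2 ∧ nB x (v / 2 + 1) = nB x (v / 2) ∧ nG x (v / 2 + 1) = nG x (v / 2) ∧
        nP x (v / 2 + 1) = nP x (v / 2) ∧ nR x (v / 2 + 1) = nR x (v / 2) + 1) := by
  rcases Nat.even_or_odd' v with ⟨j, rfl | rfl⟩
  · obtain ⟨i, rfl⟩ : ∃ i, j = i + 1 := ⟨j - 1, by omega⟩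
    rw [show 2 * (i + 1) / 2 = i + 1 by omega, show (2 * (i + 1) - 1) / 2 = i by omega]
    rw [show 2 * (i + 1) = 2 * i + 2 by omega] at *
    rw [show 2 * i + 2 + 1 = 2 * (i + 1) + 1 by omega] at h
    obtain ⟨p1, p2, p3, p4⟩ := pstep x i
    obtain ⟨q1, q2, q3, q4⟩ := pstep x (i + 1)
    refine ⟨fun _ a => ⟨?_, ?_⟩, fun _ a => ⟨?_, ?_⟩, fun h => by omega, fun h => by omega⟩
    · by_cases c : x (2 * i + 1)
      · have := p3 c a; omega
      · have := p2 c a; omega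
    · have d : x (2 * (i + 1) + 1) := by
        by_contra hh
        exact a (h.2 hh)
      by_cases c : x (2 * (i + 1) + 2)
      · have := q1 d c; omega
      · have := q3 d c; omega
    · by_cases c : x (2 * i + 1)
      · have := p1 c a; omega
      · have := p4 c a; omega
    · have d : ¬ x (2 * (i + 1) + 1) := h.1 a
      by_cases c : x (2 * (i + 1) + 2)
      · have := q4 d c; omega
      · have := q2 d c; omega
  · rw [show (2 * j + 1) / 2 = j by omega, show (2 * j + 1 - 1) / 2 = j by omega]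
    rw [show 2 * j + 1 + 1 = 2 * j + 2 by omega] at h
    obtain ⟨p1, p2, p3, p4⟩ := pstep x j
    refine ⟨fun h => by omega, fun h => by omega, fun _ a => ?_, fun _ a => ?_⟩
    · have := p3 a (h.1 a); omega
    · have b : x (2 * j + 2) := by
        by_contra hh
        exact a (h.2 hh)
      have := p4 a b; omega

end Pool.Agent.Lob89.Gg
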