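import Pool.Agent.Lob89.GgMirror

/-!
# Both ends good: the colouring without reserved edge in the middle

All unmarked loaded vertices are odd, and there are few pairs with a good odd edge.
-/

namespace Pool.Agent.Lob89.Gg

open Pool.Agent.Lob12 Pool.Agent.Lob5 Pool.Agent.Lob89

variable {m : ℕ} {ld al x : ℕ → Prop} {s : ℤ}

/-- the word of the colouring -/
theorem wdX (W : GW m ld al x s) : WD (2 * m - 1) (m - 1) ld al x := by
  have h2 := W.m2
  refine
    { hk := by omega
      h1 := by omega
      al_ld := W.ald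
      same := fun i i1 i2 => W.same i i1 (by omega)
      dif1 := fun i i1 i2 i3 => (W.dif i i1 (by omega) i3).1
      dif2 := fun i i1 i2 i3 i4 => ?_
      last := W.xK1 }
  by_contra h
  exact i4 ((W.dif i i1 (by omega) (W.ald i i3)).2 h)

theorem rx_MC {k : ℕ} (S : RX k ld al) (i : ℕ) (h1 : 1 ≤ i) (h2 : i < k) (h4 : ¬ ld i)
    (h5 : ¬ S.bad i) : S.J i ≤ 2 * S.h + 1 := by
  have h6 := S.same i h1 h2 h4
  have h7 : ¬ S.bad (i + 1) := fun h => h5 (h6.2 h)
  unfold RX.J
  rcases Nat.mod_two_eq_zero_or_one i with o | o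
  · have g1 := S.rk_eg i h1 h2.le o h5
    have g2 := S.rk_og (i + 1) (by omega) (by omega) (by omega) h7
    omega
  · have g1 := S.rk_og i h1 h2.le o h5
    have g2 := S.rk_eg (i + 1) (by omega) (by omega) (by omega) h7
    omega

section

variable (W : GW m ld al x s)

theorem x_P : ((wdX W).rx.P : ℤ) = nB x m + nP x m := by
  have h2 := W.m2
  have h0 : (wdX W).rx.P = bo x (2 * m - 1) := bo_cn x (2 * m - 1)
  have h1 := (step x (t := 2 * m) (by omega)).2.2.1 (by omega) W.xK
  have h3 := pcnt x m
  omega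

theorem x_Q : ((wdX W).rx.Q : ℤ) = nB x m + nR x m - 1 := by
  have h2 := W.m2
  have h0 : (wdX W).rx.Q = bv x (2 * m - 1) := bv_cn x (2 * m - 1)
  have h1 := (step x (t := 2 * m) (by omega)).2.2.1 (by omega) W.xK
  have h3 := pcnt x m
  omega

/-- the sum of ranks at a loaded vertex -/
theorem x_J {v : ℕ} (h1 : 1 ≤ v) (h2 : v < 2 * m) (h3 : ld v) :
    (v % 2 = 0 → ¬ x v → ((wdX W).rx.J v : ℤ) = m - 1 - s + Y x (v / 2)) ∧
    (v % 2 = 0 → x v → ((wdX W).rx.J v : ℤ) = m - 1 - s + Y x (v / 2) + 2) ∧
    (v % 2 = 1 → ((wdX W).rx.J v : ℤ) = m - 1 - s + Y x (v / 2) + 1) := by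
  have hm := W.m2
  have rv := W.ld_rng h1 h2 h3
  have hd := W.dif v h1 h2 h3
  obtain ⟨-, -, j3, j4⟩ := (wdX W).J_lam h1 (show v < 2 * m - 1 by omega)
  obtain ⟨f1, f2, f3⟩ := fl_v (x := x) v
  have hP := x_P W
  have hQ := x_Q W
  have hp := pcnt x m
  have ht := W.tot
  unfold Y at ht
  have hw := wk_fl x v
  refine ⟨fun o a => ?_, fun o a => ?_, fun o => ?_⟩
  · have b : x (v + 1) := by
      by_contra hh
      exact a (hd.2 hh)
    have := j3 a b
    have := f3 o
    omega
  · have := j4 a (hd.1 a)
    have := f3 o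
    omega
  · by_cases a : x v
    · have := j4 a (hd.1 a)
      have := f1 o a
      omega
    · have b : x (v + 1) := by
        by_contra hh
        exact a (hd.2 hh)
      have := j3 a b
      have := f2 o a
      omega

theorem r0x_odd (W : GW m ld al x s) (hN : ∀ i, 1 ≤ i → i < m → ld (2 * i) → al (2 * i))
    {n2 dl : ℕ} (hdl : n2 ≤ dl + nP x m + nR x m) (hpr : nP x m ≤ nR x m)
    (hT : nG x m + nR x m ≤ n2 + 1 ∨ (nG x m + nR x m = n2 + 2 ∧ ∃ t, 1 ≤ t ∧ t ≤ m ∧
      Y x t = s ∧ Y x (t - 1) = s - 1 ∧ nB x m = nB x t + 1 ∧ nR x m = nR x t ∧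
      ∀ i, t ≤ i → i ≤ m → s ≤ Y x i)) :
    ∃ C : WD (2 * m - 1) (m - 1) ld al x, RXW C.rx (2 * m - 1) n2 dl := by
  refine ⟨wdX W, ?_⟩
  have hm := W.m2
  have hh : (wdX W).rx.h = m - 1 := rfl
  have hP := x_P W
  have hQ := x_Q W
  have hp := pcnt x m
  have ht := W.tot
  have hf := W.first
  have hl := W.last
  have hs := W.s1
  have e1 := nB_mono x (show 1 ≤ m - 1 by omega)
  have ht' : (nG x m : ℤ) - nB x m = s := ht
  -- lower bound
  have A : ∀ v, 1 ≤ v → v < 2 * m → ld v → (m : ℤ) - 1 ≤ (wdX W).rx.J v + n2 := by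
    intro v v1 v2 v3
    have rv := W.ld_rng v1 v2 v3
    obtain ⟨j1, j2, j3⟩ := x_J W v1 v2 v3
    obtain ⟨a1, a2, a3, a4⟩ := around x v1 (W.dif v v1 v2 v3)
    have t1 := nB_mono x (show v / 2 ≤ m - 1 by omega)
    have t2 := nR_mono x (show v / 2 + 1 ≤ m by omega)
    have t3 := nP_mono x (show v / 2 + 1 ≤ m by omega)
    rcases Nat.mod_two_eq_zero_or_one v with o | o <;> by_cases a : x v
    · have := j2 o a
      unfold Y at *
      rcases hT with hT | hT
      · omega
      · omega
    · have := j1 o a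
      have := a1 o a
      unfold Y at *
      rcases hT with hT | hT
      · omega
      · omega
    · have := j3 o
      have := a3 o a
      unfold Y at *
      rcases hT with hT | hT
      · omega
      · omega
    · have := j3 o
      have := a4 o a
      unfold Y at *
      rcases hT with hT | hT
      · omega
      · omega
  have ho : ∀ z, 1 ≤ z → z < 2 * m → ld z → ¬ al z → z % 2 = 1 := by
    intro z z1 z2 z3 z4
    by_contra h
    have h5 : z = 2 * (z / 2) := by omega
    rw [h5] at z3 z4
    exact z4 (hN (z / 2) (by omega) (by omega) z3)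
  -- comparison
  have D : ∀ a z, 1 ≤ a → a < 2 * m → 1 ≤ z → z < 2 * m → al a → ld z → ¬ al z →
      (wdX W).rx.J a ≤ (wdX W).rx.J z + (wdX W).rx.Q + 1 + dl ∧
      (wdX W).rx.J a ≤ (wdX W).rx.J z + n2 + (wdX W).rx.P := by
    intro a z a1 a2 z1 z2 a3' z3 z4
    have a3 := W.ald a a3'
    have ra := W.ld_rng a1 a2 a3
    have rz := W.ld_rng z1 z2 z3
    have oz := ho z z1 z2 z3 z4
    have kz := (x_J W z1 z2 z3).2.2 oz
    obtain ⟨j1, j2, j3⟩ := x_J W a1 a2 a3
    obtain ⟨b1, b2, b3, b4⟩ := around x a1 (W.dif a a1 a2 a3)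
    obtain ⟨-, -, c3, c4⟩ := around x z1 (W.dif z z1 z2 z3)
    -- there is a mixed pair
    have mix : 1 ≤ nP x m + nR x m := by
      have t2 := nR_mono x (show z / 2 + 1 ≤ m by omega)
      have t3 := nP_mono x (show z / 2 + 1 ≤ m by omega)
      by_cases b : x z
      · have := c3 oz b
        omega
      · have := c4 oz b
        omega
    have t1 := nB_mono x (show a / 2 ≤ m by omega)
    have t2 := nG_mono x (show a / 2 ≤ m by omega)
    have t3 := nB_mono x (show 1 ≤ a / 2 by omega)
    have t4 := nB_mono x (show z / 2 ≤ m - 1 by omega)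
    have t5 := nB_mono x (show a / 2 ≤ m - 1 by omega)
    have t6 := nB_mono x (show 1 ≤ z / 2 by omega)
    -- the rough bound
    have U : ((wdX W).rx.J a : ℤ) ≤ m - 1 - s + Y x (a / 2) + 2 := by
      rcases Nat.mod_two_eq_zero_or_one a with o | o
      · by_cases b : x a
        · have := j2 o b
          omega
        · have := j1 o b
          omega
      · have := j3 o
        omega
    have key : ((wdX W).rx.J a : ℤ) ≤ (wdX W).rx.J z + s + nB x m + 1 ∧
        (nB x m = 2 → nG x m + nR x m = n2 + 2 →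
          ((wdX W).rx.J a : ℤ) ≤ (wdX W).rx.J z + s + 2) := by
      rcases Nat.lt_or_ge z a with c | c
      · have t7 := nB_mono x (show z / 2 ≤ a / 2 by omega)
        refine ⟨by unfold Y at *; omega, fun k1 k2 => ?_⟩
        rcases hT with hT | ⟨-, t, q1, q2, q3, q4, q5, q6, q7⟩
        · omega
        rcases Nat.mod_two_eq_zero_or_one a with o | o
        · by_cases b : x a
          · have := j2 o b
            have := b2 o b
            rcases Nat.lt_or_ge t (a / 2) with d | d
            · have t8 := nR_mono x (show t ≤ (a - 1) / 2 by omega)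
              have t9 := nR_mono x (show a / 2 ≤ m by omega)
              have t10 := nB_mono x (show 1 ≤ (a - 1) / 2 by omega)
              omega
            · have t8 := nG_mono x d
              have t9 := nB_mono x d
              unfold Y at *
              omega
          · have := j1 o b
            unfold Y at *
            omega
        · have := j3 o
          unfold Y at *
          omega
      · have t7 := nB_mono x (show a / 2 ≤ z / 2 by omega)
        have t8 := nG_mono x (show a / 2 ≤ z / 2 by omega)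
        unfold Y at *
        omega
    obtain ⟨key1, key2⟩ := key
    constructor
    · rcases hT with hT | hT
      · omega
      · by_cases k : nB x m = 2
        · have := key2 k hT.1
          omega
        · omega
    · rcases hT with hT | hT
      · omega
      · omega
  refine
    { M1 := by omega
      M2 := by omega
      MC := fun i i1 i2 i3 i4 => ?_
      a1 := fun a a1 a2 a3 => ?_
      n1 := fun z z1 z2 z3 _ => ?_
      t1 := fun z z1 z2 z3 _ => ?_
      t2 := fun z z1 z2 z3 z4 => ?_
      bb := fun a z a1 a2 z1 z2 a3 _ z3 z4 => (D a z a1 (by omega) z1 (by omega) a3 z3 z4).1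
      sh := fun a z a1 a2 z1 z2 a3 _ z3 z4 => (D a z a1 (by omega) z1 (by omega) a3 z3 z4).2
      gg := fun a z a1 a2 z1 z2 a3 _ z3 z4 _ => (D a z a1 (by omega) z1 (by omega) a3 z3 z4).1
      gb := fun a z a1 a2 z1 z2 a3 _ z3 z4 _ T hT => ?_
      two := Or.inl (by omega) }
  · have := rx_MC (wdX W).rx i i1 i2 i3 i4
    omega
  · have := A a a1 (by omega) (W.ald a a3)
    omega
  · have := A z z1 (by omega) z3
    omega
  · have := A z z1 (by omega) z3
    omega
  · have oz := ho z z1 (by omega) z3 z4
    have kz := (x_J W z1 (by omega) z3).2.2 oz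
    have t1 := nB_mono x (show z / 2 ≤ m by omega)
    unfold Y at *
    omega
  · have h0 : T.card = 0 := by
      rw [Finset.card_eq_zero, Finset.eq_empty_iff_forall_notMem]
      intro i hi
      obtain ⟨i1, i2, _, i3, _, i4⟩ := hT i hi
      have := A i i1 (by omega) i3
      omega
    rw [h0]
    exact (D a z a1 (by omega) z1 (by omega) a3 z3 z4).1

end

end Pool.Agent.Lob89.Gg
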