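import Pool.Agent.Lob89.GgBase

/-!
# Both ends good: the sums of ranks for the order `u+1, ..., K, 1, ..., u-1`
-/

namespace Pool.Agent.Lob89.Gg

open Pool.Agent.Lob12 Pool.Agent.Lob5 Pool.Agent.Lob89

theorem cn_find {p : ℕ → Prop} {x y m : ℕ} (h1 : cn p x < m) (h2 : m ≤ cn p y) :
    ∃ e, x < e ∧ e ≤ y ∧ p e ∧ cn p e = m := by
  induction y with
  | zero => rw [cn_zero] at h2; omega
  | succ y ih =>
    by_cases h3 : m ≤ cn p y
    · obtain ⟨e, e1, e2, e3⟩ := ih h3
      exact ⟨e, e1, by omega, e3⟩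
    · have h4 := cn_succ_le p y
      have h5 : p (y + 1) := by
        by_contra h
        rw [cn_neg h] at h2
        exact h3 h2
      refine ⟨y + 1, ?_, le_rfl, h5, by omega⟩
      by_contra h
      have := cn_mono p (show y + 1 ≤ x by omega)
      omega

section

variable {K u h : ℕ} {ld al b : ℕ → Prop}

theorem low1 (hK : K % 2 = 0) (hu : u % 2 = 1) {y : ℕ} (h2 : y + u ≤ K) :
    lx K u y ↔ (y + u) % 2 = 0 := by
  unfold lx
  omega

theorem low2 (hK : K % 2 = 0) (hu : u % 2 = 1) (huK : u < K) {y : ℕ} (h1 : 1 ≤ y) :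
    lx K u (K - u + y) ↔ y % 2 = 1 := by
  unfold lx
  omega

/-- the number of bad high edges -/
theorem R1_Q (C : CW K u h ld al b) :
    (C.owR.lr.Q : ℤ) = bo b K - bo b u + bv b u := by
  have hK := C.hK
  have huK := C.uK
  have hu := C.u1
  have h1 := cnR1 (K := K) (u := u) (x := K - u)
    (fun y => ¬ lx K u y ∧ bx K u b (psR K u) y) (fun e => e % 2 = 1 ∧ b e) (by omega)
    fun y y1 y2 => by
      rw [low1 (by omega) hu y2, bxR1 huK y1 y2]
      constructor
      · exact fun h => ⟨by omega, h.2⟩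
      · exact fun h => ⟨by omega, h.2⟩
  have h2 := cnR2 (K := K) (u := u) (y := u - 1)
    (fun y => ¬ lx K u y ∧ bx K u b (psR K u) y) (fun e => e % 2 = 0 ∧ b e) (by omega)
    fun y y1 y2 => by
      rw [low2 (by omega) hu huK y1, bxR2 huK y1 y2]
      constructor
      · exact fun h => ⟨by omega, h.2⟩
      · exact fun h => ⟨by omega, h.2⟩
  have h3 : C.owR.lr.Q = cn (fun y => ¬ lx K u y ∧ bx K u b (psR K u) y) (K - 1) := rfl
  have h4 := (step b (t := u) (by omega)).1 hu C.ub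
  rw [show K - u + u = K by omega] at h1
  rw [show K - u + (u - 1) = K - 1 by omega] at h2
  rw [h3, h2, h4.2.2.1]
  unfold bo bv
  push_cast
  omega

/-- the number of bad low edges -/
theorem R1_P (C : CW K u h ld al b) :
    (C.owR.lr.P : ℤ) = bv b K - bv b u + bo b u - 1 := by
  have hK := C.hK
  have huK := C.uK
  have hu := C.u1
  have h1 := cnR1 (K := K) (u := u) (x := K - u)
    (fun y => lx K u y ∧ bx K u b (psR K u) y) (fun e => e % 2 = 0 ∧ b e) (by omega)
    fun y y1 y2 => by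
      rw [low1 (by omega) hu y2, bxR1 huK y1 y2]
  have h2 := cnR2 (K := K) (u := u) (y := u - 1)
    (fun y => lx K u y ∧ bx K u b (psR K u) y) (fun e => e % 2 = 1 ∧ b e) (by omega)
    fun y y1 y2 => by
      rw [low2 (by omega) hu huK y1, bxR2 huK y1 y2]
  have h3 : C.owR.lr.P = cn (fun y => lx K u y ∧ bx K u b (psR K u) y) (K - 1) := rfl
  have h4 := (step b (t := u) (by omega)).1 hu C.ub
  rw [show K - u + u = K by omega] at h1
  rw [show K - u + (u - 1) = K - 1 by omega] at h2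
  rw [h3, h2, h4.1]
  unfold bo bv
  push_cast
  omega

theorem R1_PQ (C : CW K u h ld al b) :
    ((C.owR.lr.P + C.owR.lr.Q : ℕ) : ℤ) = h - fl b K := by
  have hK := C.hK
  have huK := C.uK
  have hu := C.u1
  have h1 := R1_Q C
  have h2 := R1_P C
  have h3 := odd_add b K
  have h4 := even_add b K
  have h5 := odd_add b u
  have h6 := even_add b u
  have h7 := wk_fl b K
  unfold fl at *
  push_cast
  omega

theorem px_R {v : ℕ} (h1 : u < v) : px (psR K u) v = v - u := by
  unfold px psR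
  rw [if_pos h1, if_pos (by omega)]
  omega

theorem px_L {v : ℕ} (h1 : v + 1 < u) : px (psR K u) v = K - u + v := by
  unfold px psR
  rw [if_neg (by omega), if_neg (by omega)]
  omega

/-- the sum of ranks at a vertex of the right part -/
theorem R1_JR (C : CW K u h ld al b) {v : ℕ} (h1 : u < v) (h2 : v < K) :
    (b v → b (v + 1) → 2 * (C.owR.lr.J v : ℤ) = 2 * (h - fl b K) + 2 - (v - u) +
      (v % 2 : ℕ) + 2 * fl b v - 1 - 2 * fl b u) ∧
    (¬ b v → ¬ b (v + 1) → 2 * (C.owR.lr.J v : ℤ) = 2 * (h - fl b K) + 2 + (v - u) +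
      (v % 2 : ℕ) + 2 * fl b v - 1 - 2 * fl b u) ∧
    (¬ b v → b (v + 1) → (C.owR.lr.J v : ℤ) = h - fl b K + fl b v - fl b u) ∧
    (b v → ¬ b (v + 1) →
      (C.owR.lr.J v : ℤ) = h - fl b K + fl b v - fl b u + 1 + (v % 2 : ℕ)) := by
  have hK := C.hK
  have huK := C.uK
  have hu := C.u1
  have hx := (px_R (K := K) h1).symm
  obtain ⟨j1, j2, j3, j4⟩ := C.owR.J_lam (x := v - u) (by omega) h2 (by omega) (by omega) hx
  have hw := wkR1 (bad := b) huK (x := v - u) (by omega)
  rw [show v - u + u = v by omega, wk_fl b v, wk_fl b u] at hw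
  rw [R1_PQ C, hw] at j1 j2 j3 j4
  have b1 := bxR1 (bad := b) huK (x := v - u) (by omega) (by omega)
  have b2 := bxR1 (bad := b) huK (x := v - u + 1) (by omega) (by omega)
  rw [show v - u + u = v by omega] at b1
  rw [show v - u + 1 + u = v + 1 by omega] at b2
  rw [b1, b2] at j1 j2 j3 j4
  refine ⟨fun a1 a2 => ?_, fun a1 a2 => ?_, fun a1 a2 => ?_, fun a1 a2 => ?_⟩
  · have := j1 a1 a2
    push_cast at this
    omega
  · have := j2 a1 a2
    push_cast at this
    omega
  · have := (j3 a1 a2).1 (by omega)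
    push_cast at this
    omega
  · have := (j4 a1 a2).1 (by omega)
    push_cast at this
    omega

/-- the sum of ranks at a vertex of the left part -/
theorem R1_JL (C : CW K u h ld al b) {v : ℕ} (h0 : 1 ≤ v) (h1 : v + 1 < u) :
    (b v → b (v + 1) → 2 * (C.owR.lr.J v : ℤ) = 2 * (h - fl b K) + 2 - (K - u + v) +
      2 * fl b K - 1 - 2 * fl b u + (v % 2 : ℕ) + 2 * fl b v) ∧
    (¬ b v → ¬ b (v + 1) → 2 * (C.owR.lr.J v : ℤ) = 2 * (h - fl b K) + 2 + (K - u + v) +
      2 * fl b K - 1 - 2 * fl b u + (v % 2 : ℕ) + 2 * fl b v) ∧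
    (¬ b v → b (v + 1) →
      (C.owR.lr.J v : ℤ) = h + fl b v - fl b u - 1 + 2 * (v % 2 : ℕ)) ∧
    (b v → ¬ b (v + 1) →
      (C.owR.lr.J v : ℤ) = h + fl b v - fl b u + 2 - (v % 2 : ℕ)) := by
  have hK := C.hK
  have huK := C.uK
  have hu := C.u1
  have hx := (px_L (K := K) h1).symm
  obtain ⟨j1, j2, j3, j4⟩ := C.owR.J_lam (x := K - u + v) h0 (by omega) (by omega) (by omega) hx
  have hw := wkR2 (bad := b) huK (y := v) (by omega)
  rw [wk_fl b K, wk_fl b u, wk_fl b v] at hw
  rw [R1_PQ C, hw] at j1 j2 j3 j4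
  have b1 := bxR2 (bad := b) huK (y := v) h0 (by omega)
  have b2 := bxR2 (bad := b) huK (y := v + 1) (by omega) h1
  rw [show K - u + (v + 1) = K - u + v + 1 by omega] at b2
  rw [b1, b2] at j1 j2 j3 j4
  refine ⟨fun a1 a2 => ?_, fun a1 a2 => ?_, fun a1 a2 => ?_, fun a1 a2 => ?_⟩
  · have := j1 a1 a2
    push_cast [Nat.cast_sub (show u ≤ K by omega)] at this
    omega
  · have := j2 a1 a2
    push_cast [Nat.cast_sub (show u ≤ K by omega)] at this
    omega
  · have := (j3 a1 a2).2 (by omega)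
    push_cast at this
    omega
  · have := (j4 a1 a2).2 (by omega)
    push_cast at this
    omega

/-- the sum of ranks at a loaded vertex `u - 1` -/
theorem R1_JP (C : CW K u h ld al b) (h1 : 2 ≤ u) (h2 : ld (u - 1)) :
    (C.owR.lr.J (u - 1) : ℤ) = h + fl b (u - 1) - fl b u - 1 := by
  have hu := C.u1
  have h3 := C.owR.J_pred h1 h2
  have h4 := (step b (t := u) (by omega)).1 hu C.ub
  rw [h3]
  unfold fl
  omega

end

end Pool.Agent.Lob89.Gg
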