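import Pool.Agent.Lob89.GgLrw

/-!
# Both ends good: one reserved edge, with slack

All unmarked loaded vertices are odd.
-/

namespace Pool.Agent.Lob89.Gg

open Pool.Agent.Lob12 Pool.Agent.Lob5 Pool.Agent.Lob89

section

variable {m : ℕ} {ld al x : ℕ → Prop} {s : ℤ} {y : ℤ} {j : ℕ} (W : GW m ld al x s)
  (p : Ps m x y j)

/-- upper bounds of the sums, both kinds -/
theorem gR_ub {v : ℕ} (h1 : 1 ≤ v) (h2 : v < 2 * m) (h3 : ld v) :
    (2 * j + 1 < v → ((cwR W p).owR.lr.J v : ℤ) ≤ (m - 1) - s + 2 + y + Y x (v / 2)) ∧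
    (v < 2 * j → ((cwR W p).owR.lr.J v : ℤ) ≤ (m - 1) + y + 3 - Y x (v / 2)) ∧
    (v < 2 * j → nB x j = 1 → nP x j = 0 →
      ((cwR W p).owR.lr.J v : ℤ) ≤ (m - 1) + y + 1 - Y x (v / 2)) ∧
    (v = 2 * j → ((cwR W p).owR.lr.J v : ℤ) = m - 1) ∧
    (v < 2 * j ∨ v = 2 * j ∨ 2 * j + 1 < v) := by
  have hu : v ≠ 2 * j + 1 := by
    rintro rfl
    exact (cwR W p).uC h3
  refine ⟨fun c => ?_, fun c => ?_, fun c n1 n2 => ?_, fun c => ?_, by omega⟩
  · have h5 := gR_JR W p c h2 h3
    by_cases a : x v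
    · have := h5.1 a
      omega
    · have := h5.2 a
      omega
  · obtain ⟨b1, b2, b3, b4⟩ := gR_JL W p h1 c h3
    rcases Nat.mod_two_eq_zero_or_one v with o | o <;> by_cases a : x v
    · have := b1 o a
      omega
    · have := b4 o a
      omega
    · have := b2 o a
      omega
    · have := b3 o a
      omega
  · obtain ⟨b1, b2, b3, b4⟩ := gR_JL W p h1 c h3
    obtain ⟨a1, a2, a3, a4⟩ := around x h1 (W.dif v h1 h2 h3)
    have rv := W.ld_rng h1 h2 h3
    have f := W.first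
    have e1 := nB_mono x (show v / 2 + 1 ≤ j by omega)
    have e2 := nP_mono x (show v / 2 + 1 ≤ j by omega)
    have e3 := nB_mono x (show 1 ≤ v / 2 by omega)
    rcases Nat.mod_two_eq_zero_or_one v with o | o <;> by_cases a : x v
    · have := b1 o a
      omega
    · have := a1 o a
      omega
    · have := a3 o a
      omega
    · have := b3 o a
      omega
  · subst c
    exact gR_JP W p h3

/-- lower bounds of the sums for odd vertices -/
theorem gR_lbo {z : ℕ} (h1 : 1 ≤ z) (h2 : z < 2 * m) (h3 : ld z) (h4 : z % 2 = 1) :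
    (2 * j + 1 < z → (m - 1) - s + 1 + y + Y x (z / 2) ≤ ((cwR W p).owR.lr.J z : ℤ)) ∧
    (z < 2 * j → (m - 1) + y - Y x (z / 2) + 1 ≤ ((cwR W p).owR.lr.J z : ℤ)) ∧
    (z < 2 * j ∨ 2 * j + 1 < z) := by
  have hu : z ≠ 2 * j + 1 := by
    rintro rfl
    exact (cwR W p).uC h3
  refine ⟨(gR_lb W p h1 h2 h3 (by omega)).1, fun c => ?_, by omega⟩
  obtain ⟨_, b2, b3, _⟩ := gR_JL W p h1 c h3
  by_cases a : x z
  · have := b2 h4 a
    omega
  · have := b3 h4 a
    omega

/-- Comparison with slack. -/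
theorem gR_Ds (h0 : 0 ≤ y) {X : ℤ} (hX : (2 * nB x m + s - 2 ≤ X ∧ 2 * y + 1 ≤ s) ∨
      (2 * nB x m + s - 3 ≤ X ∧ nB x j = 1 ∧ nP x j = 0 ∧ 2 * y + 3 ≤ s))
    {a z : ℕ} (a1 : 1 ≤ a) (a2 : a < 2 * m) (a3 : ld a)
    (z1 : 1 ≤ z) (z2 : z < 2 * m) (z3 : ld z) (z4 : z % 2 = 1) :
    ((cwR W p).owR.lr.J a : ℤ) ≤ (cwR W p).owR.lr.J z + X := by
  obtain ⟨g1, g2, g3, g4, g5, g6, g7, g8, -, -, g10⟩ := gR_glob W p
  obtain ⟨u1, u2, u3, u4, u5⟩ := gR_ub W p a1 a2 a3
  obtain ⟨l1, l2, l3⟩ := gR_lbo W p z1 z2 z3 z4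
  have ra := W.ld_rng a1 a2 a3
  have rz := W.ld_rng z1 z2 z3
  have e0 := nB_mono x (show j ≤ m - 1 by omega)
  rcases u5 with c | c | c
  · rcases l3 with d | d
    · have k1 := l2 d
      have k2 := p.le (z / 2) (by omega)
      have k3 := nB_mono x (show 1 ≤ z / 2 by omega)
      rcases Nat.lt_or_ge z a with e | e
      · have t1 := nB_mono x (show z / 2 ≤ a / 2 by omega)
        have t2 := nG_mono x (show z / 2 ≤ a / 2 by omega)
        have t3 := nB_mono x (show a / 2 ≤ m - 1 by omega)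
        have := u2 c
        unfold Y at *
        rcases hX with hX | hX
        · omega
        · omega
      · have t3 := nB_mono x (show a / 2 ≤ m - 1 by omega)
        have := u2 c
        unfold Y at *
        rcases hX with hX | hX
        · omega
        · have := u3 c hX.2.1 hX.2.2.1
          omega
    · have k1 := l1 d
      have t1 := nB_mono x (show a / 2 ≤ j by omega)
      have t2 := nG_mono x (show j + 1 ≤ z / 2 by omega)
      have t3 := nB_mono x (show z / 2 ≤ m - 1 by omega)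
      have := u2 c
      unfold Y at *
      rcases hX with hX | hX
      · omega
      · have := u3 c hX.2.1 hX.2.2.1
        omega
  · rcases l3 with d | d
    · have k1 := l2 d
      have k2 := p.le (z / 2) (by omega)
      have := u4 c
      omega
    · have k1 := l1 d
      have t2 := nG_mono x (show j + 1 ≤ z / 2 by omega)
      have t3 := nB_mono x (show z / 2 ≤ m - 1 by omega)
      have := u4 c
      unfold Y at *
      omega
  · have t1 := nB_mono x (show a / 2 ≤ m - 1 by omega)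
    have t2 := nG_mono x (show a / 2 ≤ m by omega)
    have t4 := nB_mono x (show 1 ≤ a / 2 by omega)
    have := u1 c
    rcases l3 with d | d
    · have k1 := l2 d
      have k2 := p.le (z / 2) (by omega)
      unfold Y at *
      omega
    · have k1 := l1 d
      have t5 := nG_mono x (show j + 1 ≤ z / 2 by omega)
      rcases Nat.lt_or_ge z a with e | e
      · have t6 := nB_mono x (show z / 2 ≤ a / 2 by omega)
        unfold Y at *
        omega
      · have t6 := nB_mono x (show a / 2 ≤ z / 2 by omega)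
        have t7 := nG_mono x (show a / 2 ≤ z / 2 by omega)
        have t8 := nB_mono x (show z / 2 ≤ m - 1 by omega)
        unfold Y at *
        omega

/-- the conditions with slack -/
theorem gR_lrw_sl (h0 : 0 ≤ y) {n2 dl : ℕ}
    (hN : ∀ i, 1 ≤ i → i < m → ld (2 * i) → al (2 * i))
    (hdl : n2 ≤ dl + nP x m + nR x m) (hpr : nR x m ≤ nP x m)
    (hT : (y + n2 + 2 = nG x m + nP x m ∧ 2 * y + 1 ≤ s ∧
        nG x m + nP x m ≠ nG x j + nP x j + n2 + 1) ∨
      (y + n2 + 3 = nG x m + nP x m ∧ nB x j = 1 ∧ nP x j = 0 ∧ 2 * y + 3 ≤ s)) :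
    LRW (cwR W p).owR.lr (2 * m - 1) n2 dl := by
  have hh : (cwR W p).owR.lr.h = m - 1 := rfl
  obtain ⟨g1, g2, g3, g4, g5, g6, g7, g8, g9, g9', g10⟩ := gR_glob W p
  have hm := pcnt x m
  have e1 := nG_mono x (show j + 1 ≤ m by omega)
  have e2 := nB_mono x (show j ≤ m - 1 by omega)
  have hA : ∀ i, 1 ≤ i → i < m → s ≤ y + 2 + n2 + Y x i := by
    intro i i1 i2
    have t1 := nB_mono x (show i ≤ m - 1 by omega)
    unfold Y
    rcases hT with hT | hT
    · omega
    · omega
  -- lower bound for all loaded vertices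
  have A : ∀ v, 1 ≤ v → v < 2 * m → ld v →
      (m : ℤ) - 1 ≤ (cwR W p).owR.lr.J v + 1 + n2 := by
    intro v v1 v2 v3
    by_cases hv : v = 2 * j
    · subst hv
      have := gR_JP W p v3
      omega
    · obtain ⟨l1, l2, l3⟩ := gR_lb W p v1 v2 v3 hv
      have rv := W.ld_rng v1 v2 v3
      rcases l3 with c | c
      · have := l2 c
        have := p.le (v / 2) (by omega)
        omega
      · have := l1 c
        have := hA (v / 2) (by omega) (by omega)
        omega
  have ho : ∀ z, 1 ≤ z → z < 2 * m → ld z → ¬ al z → z % 2 = 1 := by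
    intro z z1 z2 z3 z4
    by_contra h
    have h5 : z = 2 * (z / 2) := by omega
    rw [h5] at z3 z4
    exact z4 (hN (z / 2) (by omega) (by omega) z3)
  have hz : ∀ z, 1 ≤ z → z < 2 * m → ld z → ¬ al z → z ≠ 2 * j := by
    intro z z1 z2 z3 z4
    have := ho z z1 z2 z3 z4
    omega
  -- the three bounds
  have D : ∀ a z, 1 ≤ a → a < 2 * m → 1 ≤ z → z < 2 * m → al a → ld z → ¬ al z →
      (cwR W p).owR.lr.J a ≤ (cwR W p).owR.lr.J z + (cwR W p).owR.lr.Q + dl ∧
      (dl = 0 → (cwR W p).owR.lr.J a ≤ (cwR W p).owR.lr.J z + (cwR W p).owR.lr.P) ∧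
      (cwR W p).owR.lr.J a ≤ (cwR W p).owR.lr.J z + n2 + (cwR W p).owR.lr.P := by
    intro a z a1 a2 z1 z2 a3 z3 z4
    have K := fun (X : ℤ) h => gR_Ds W p h0 (X := X) h a1 a2 (W.ald a a3) z1 z2 z3
      (ho z z1 z2 z3 z4)
    refine ⟨?_, fun hd => ?_, ?_⟩
    · have := K ((cwR W p).owR.lr.Q + dl) (by
        rcases hT with hT | hT
        · exact Or.inl ⟨by omega, hT.2.1⟩
        · exact Or.inr ⟨by omega, hT.2⟩)
      omega
    · have := K (cwR W p).owR.lr.P (by
        rcases hT with hT | hT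
        · exact Or.inl ⟨by omega, hT.2.1⟩
        · exact Or.inr ⟨by omega, hT.2⟩)
      omega
    · have := K (n2 + (cwR W p).owR.lr.P) (by
        rcases hT with hT | hT
        · exact Or.inl ⟨by omega, hT.2.1⟩
        · exact Or.inr ⟨by omega, hT.2⟩)
      omega
  refine
    { M1 := by omega
      M2 := by omega
      MC := fun i i1 i2 i3 i4 i5 => ?_
      pr := fun i _ i2 i3 => ?_
      V := gR_V W p ?_
      a1 := fun a a1 a2 a3 => ?_
      n1 := fun z z1 z2 z3 _ => ?_
      t1 := fun z z1 z2 z3 _ => ?_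
      t2 := fun z z1 z2 z3 z4 => ?_
      bb := fun a z a1 a2 z1 z2 a3 _ z3 z4 =>
        ⟨Or.inr (D a z a1 a2 z1 z2 a3 z3 z4).1, (D a z a1 a2 z1 z2 a3 z3 z4).2.1⟩
      sh := fun a z a1 a2 z1 z2 a3 _ z3 z4 => ?_
      gg := fun a z a1 a2 z1 z2 a3 _ z3 z4 _ => (D a z a1 a2 z1 z2 a3 z3 z4).1
      gb := fun a z a1 a2 z1 z2 a3 _ z3 z4 _ T hT => ?_
      lt := Or.inl (by omega)
      two := Or.inl (by omega) }
  · have := lr_MC (cwR W p).owR.lr i i1 i2 i3 i4 i5
    omega
  · obtain rfl : i = 2 * j := by omega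
    exact hN j g6 (by omega) i3
  · rcases hT with hT | hT
    · rcases Nat.lt_or_ge (nG x m + nP x m) (nG x j + nP x j + n2 + 1) with c | c
      · exact Or.inr ⟨by omega, by omega⟩
      · exact Or.inl (by omega)
    · exact Or.inl (by omega)
  · have := A a a1 a2 (W.ald a a3)
    omega
  · have := A z z1 z2 z3
    omega
  · have := A z z1 z2 z3
    omega
  · obtain ⟨l1, l2, l3⟩ := gR_lb W p z1 z2 z3 (hz z z1 z2 z3 z4)
    have rz := W.ld_rng z1 z2 z3
    have t1 := nB_mono x (show z / 2 ≤ m by omega)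
    have t2 := nG_mono x (show z / 2 ≤ m by omega)
    rcases l3 with c | c
    · have := l2 c
      unfold Y at *
      omega
    · have := l1 c
      unfold Y at *
      omega
  · have := (D a z a1 a2 z1 z2 a3 z3 z4).2.2
    omega
  · have h0 : T.card = 0 := by
      rw [Finset.card_eq_zero, Finset.eq_empty_iff_forall_notMem]
      intro i hi
      obtain ⟨i1, i2, _, i3, _, i4⟩ := hT i hi
      have := A i i1 i2 i3
      omega
    rw [h0]
    exact (D a z a1 a2 z1 z2 a3 z3 z4).1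

end

end Pool.Agent.Lob89.Gg
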