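import Pool.Agent.Lob89.GgPair

/-!
# Both ends good: the word and the colouring with one reserved edge

`GW m ld al x s`: `x` is the negative of the natural colouring of a word with `2 m` edges and both ends good; the walk
ends at the level `s ≥ 1`. `xR x u`: the colouring `x` behind `u`, its negative up to `u`.
-/

namespace Pool.Agent.Lob89.Gg

open Pool.Agent.Lob12 Pool.Agent.Lob5 Pool.Agent.Lob89

/-- a word with both ends good; `x` is the negative of the natural colouring -/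
structure GW (m : ℕ) (ld al x : ℕ → Prop) (s : ℤ) : Prop where
  m2 : 2 ≤ m
  ald : ∀ i, al i → ld i
  same : ∀ i, 1 ≤ i → i < 2 * m → ¬ ld i → (x i ↔ x (i + 1))
  dif : ∀ i, 1 ≤ i → i < 2 * m → ld i → (x i ↔ ¬ x (i + 1))
  x1 : x 1
  x2 : x 2
  xK1 : x (2 * m - 1)
  xK : x (2 * m)
  tot : Y x m = s
  s1 : 1 ≤ s

section

variable {m : ℕ} {ld al x : ℕ → Prop} {s : ℤ}

/-- the counts after the first pair -/
theorem GW.first (W : GW m ld al x s) : nB x 1 = 1 ∧ nG x 1 = 0 ∧ nP x 1 = 0 ∧ nR x 1 = 0 := by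
  have h := (pstep x 0).1 W.x1 W.x2
  have h0 : nB x 0 = 0 ∧ nG x 0 = 0 ∧ nP x 0 = 0 ∧ nR x 0 = 0 := ⟨rfl, rfl, rfl, rfl⟩
  rw [Nat.zero_add] at h
  omega

/-- the counts before the last pair -/
theorem GW.last (W : GW m ld al x s) : nB x m = nB x (m - 1) + 1 ∧ nG x m = nG x (m - 1) ∧
    nP x m = nP x (m - 1) ∧ nR x m = nR x (m - 1) := by
  have h2 := W.m2
  obtain ⟨j, rfl⟩ : ∃ j, m = j + 1 := ⟨m - 1, by omega⟩
  have h1 := W.xK1
  have h3 := W.xK
  rw [show 2 * (j + 1) - 1 = 2 * j + 1 by omega] at h1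
  rw [show 2 * (j + 1) = 2 * j + 2 by omega] at h3
  rw [Nat.add_sub_cancel]
  exact (pstep x j).1 h1 h3

theorem GW.ld_iff (W : GW m ld al x s) {v : ℕ} (h1 : 1 ≤ v) (h2 : v < 2 * m) :
    ld v ↔ (x v ↔ ¬ x (v + 1)) := by
  constructor
  · exact W.dif v h1 h2
  · intro h
    by_contra h3
    have h4 := W.same v h1 h2 h3
    tauto

/-- a loaded vertex is not near an end -/
theorem GW.ld_rng (W : GW m ld al x s) {v : ℕ} (h1 : 1 ≤ v) (h2 : v < 2 * m) (h3 : ld v) :
    2 ≤ v ∧ v + 2 ≤ 2 * m := by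
  have h4 := W.dif v h1 h2 h3
  constructor
  · by_contra h5
    have h6 : v = 1 := by omega
    rw [h6] at h4
    exact h4.1 W.x1 W.x2
  · by_contra h5
    have h6 : v = 2 * m - 1 := by omega
    rw [h6, show 2 * m - 1 + 1 = 2 * m by omega] at h4
    exact h4.1 W.xK1 W.xK

end

/-- the colouring with the reserved edge `u` -/
def xR (x : ℕ → Prop) (u t : ℕ) : Prop := (t ≤ u ∧ ¬ x t) ∨ (u < t ∧ x t)

theorem xR_le {x : ℕ → Prop} {u t : ℕ} (h : t ≤ u) : xR x u t ↔ ¬ x t := by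
  unfold xR
  constructor
  · rintro (⟨_, a⟩ | ⟨a, _⟩)
    · exact a
    · omega
  · exact fun a => Or.inl ⟨h, a⟩

theorem xR_gt {x : ℕ → Prop} {u t : ℕ} (h : u < t) : xR x u t ↔ x t := by
  unfold xR
  constructor
  · rintro (⟨a, _⟩ | ⟨_, a⟩)
    · omega
    · exact a
  · exact fun a => Or.inr ⟨h, a⟩

theorem cn_tail {p q : ℕ → Prop} {u t : ℕ} (hut : u ≤ t) (h : ∀ y, u < y → y ≤ t → (p y ↔ q y)) :
    cn p t + cn q u = cn q t + cn p u := by
  induction t with
  | zero =>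
    obtain rfl : u = 0 := by omega
    omega
  | succ t ih =>
    rcases Nat.lt_or_ge t u with h1 | h1
    · obtain rfl : u = t + 1 := by omega
      omega
    · have h2 := ih h1 fun y a b => h y a (by omega)
      have h3 := h (t + 1) (by omega) le_rfl
      by_cases hp : p (t + 1)
      · rw [cn_pos hp, cn_pos (h3.1 hp)]
        omega
      · rw [cn_neg hp, cn_neg (fun hq => hp (h3.2 hq))]
        omega

/-- the counts of `xR` up to `u` -/
theorem xR_cnt1 (x : ℕ → Prop) {u t : ℕ} (h : t ≤ u) :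
    bo (xR x u) t = go x t ∧ go (xR x u) t = bo x t ∧ bv (xR x u) t = gv x t ∧
      gv (xR x u) t = bv x t := by
  unfold bo go bv gv
  refine ⟨cn_congr fun y y1 y2 => ?_, cn_congr fun y y1 y2 => ?_, cn_congr fun y y1 y2 => ?_,
    cn_congr fun y y1 y2 => ?_⟩ <;> rw [xR_le (show y ≤ u by omega)]
  · rw [not_not]
  · rw [not_not]

/-- the counts of `xR` behind `u` -/
theorem xR_cnt2 (x : ℕ → Prop) {u t : ℕ} (h : u ≤ t) :
    bo (xR x u) t + bo x u = bo x t + go x u ∧ go (xR x u) t + go x u = go x t + bo x u ∧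
      bv (xR x u) t + bv x u = bv x t + gv x u ∧ gv (xR x u) t + gv x u = gv x t + bv x u := by
  have h1 := xR_cnt1 x (le_refl u)
  have g1 := cn_tail (p := fun e => e % 2 = 1 ∧ xR x u e) (q := fun e => e % 2 = 1 ∧ x e) h
    fun y y1 _ => by rw [xR_gt y1]
  have g2 := cn_tail (p := fun e => e % 2 = 1 ∧ ¬ xR x u e) (q := fun e => e % 2 = 1 ∧ ¬ x e) h
    fun y y1 _ => by rw [xR_gt y1]
  have g3 := cn_tail (p := fun e => e % 2 = 0 ∧ xR x u e) (q := fun e => e % 2 = 0 ∧ x e) h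
    fun y y1 _ => by rw [xR_gt y1]
  have g4 := cn_tail (p := fun e => e % 2 = 0 ∧ ¬ xR x u e) (q := fun e => e % 2 = 0 ∧ ¬ x e) h
    fun y y1 _ => by rw [xR_gt y1]
  unfold bo go bv gv at *
  omega

end Pool.Agent.Lob89.Gg
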