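import Pool.Agent.Lob89.Path

/-!
From a lobster to its data, and from labels of the data to an antimagic labelling.
-/

namespace Pool.Agent.Lob89

open SimpleGraph Finset

universe u

variable {V : Type u} {G : SimpleGraph V}

lemma exists_parent {a b : V} {p : G.Walk a b} (hG : G.Connected) (h : Dom G p) :
    ∃ π : V → V, ∀ x, x ∉ p.support → G.Adj x (π x) ∧
      (π x ∈ p.support ∨ (π x ∉ p.support ∧ π (π x) ∈ p.support)) := by
  classical
  let π : V → V := fun x =>
    if h1 : ∃ y ∈ p.support, G.Adj x y then h1.choose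
    else if h2 : ∃ z, G.Adj x z ∧ ∃ y ∈ p.support, G.Adj z y then h2.choose else x
  have hπ1 : ∀ x, (∃ y ∈ p.support, G.Adj x y) → π x ∈ p.support ∧ G.Adj x (π x) := by
    intro x h1
    have : π x = h1.choose := by simp only [π]; rw [dif_pos h1]
    rw [this]
    exact h1.choose_spec
  refine ⟨π, fun x hx => ?_⟩
  by_cases h1 : ∃ y ∈ p.support, G.Adj x y
  · exact ⟨(hπ1 x h1).2, Or.inl (hπ1 x h1).1⟩
  · have h2 : ∃ z, G.Adj x z ∧ ∃ y ∈ p.support, G.Adj z y := by
      obtain ⟨y, hy, hxy⟩ := h.2 x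
      obtain ⟨r, hr⟩ := hG.exists_walk_length_eq_dist x y
      rw [← hr] at hxy
      cases r with
      | nil => exact absurd hy hx
      | cons hab r' =>
        cases r' with
        | nil => exact absurd ⟨_, hy, hab⟩ h1
        | cons hbc r'' =>
          cases r'' with
          | nil => exact ⟨_, hab, _, hy, hbc⟩
          | cons hcd r3 => simp at hxy
    have h3 : π x = h2.choose := by simp only [π]; rw [dif_neg h1, dif_pos h2]
    have h4 := h2.choose_spec
    rw [← h3] at h4
    refine ⟨h4.1, ?_⟩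
    by_cases h5 : π x ∈ p.support
    · exact Or.inl h5
    · exact Or.inr ⟨h5, (hπ1 _ h4.2).1⟩

section main

variable {a b : V} (p : G.Walk a b) (π : V → V)

/-- pendant leaves -/
abbrev TLf := {x : V // x ∉ p.support ∧ π x ∈ p.support ∧ ∀ y, y ∉ p.support → π y ≠ x}
/-- bush centres -/
abbrev TB := {x : V // x ∉ p.support ∧ π x ∈ p.support ∧ ∃ y, y ∉ p.support ∧ π y = x}
/-- bush leaves -/
abbrev TBL := {x : V // x ∉ p.support ∧ π x ∉ p.support}

/-- all vertices off the path -/
def off : TLf p π ⊕ (TB p π ⊕ TBL p π) → V :=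
  Sum.elim Subtype.val (Sum.elim Subtype.val Subtype.val)

lemma off_inj : Function.Injective (off p π) := by
  rintro (⟨x, hx⟩ | ⟨x, hx⟩ | ⟨x, hx⟩) (⟨y, hy⟩ | ⟨y, hy⟩ | ⟨y, hy⟩) h <;>
    simp only [off, Sum.elim_inl, Sum.elim_inr] at h <;> subst h
  · rfl
  · exact absurd hy.2.2 (by push Not; exact hx.2.2)
  · exact absurd hx.2.1 hy.2
  · exact absurd hx.2.2 (by push Not; exact hy.2.2)
  · rfl
  · exact absurd hx.2.1 hy.2
  · exact absurd hy.2.1 hx.2
  · exact absurd hy.2.1 hx.2
  · rfl

lemma off_notMem (t) : off p π t ∉ p.support := by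
  rcases t with (⟨x, hx⟩ | ⟨x, hx⟩ | ⟨x, hx⟩) <;> exact hx.1

lemma off_surj (x : V) (hx : x ∉ p.support) : ∃ t, off p π t = x := by
  by_cases h : π x ∈ p.support
  · by_cases h' : ∃ y, y ∉ p.support ∧ π y = x
    · exact ⟨Sum.inr (Sum.inl ⟨x, hx, h, h'⟩), rfl⟩
    · push Not at h'
      exact ⟨Sum.inl ⟨x, hx, h, h'⟩, rfl⟩
  · exact ⟨Sum.inr (Sum.inr ⟨x, hx, h⟩), rfl⟩

/-- the vertices -/
def vert : Fin (p.length + 1) ⊕ (TLf p π ⊕ (TB p π ⊕ TBL p π)) → V :=
  Sum.elim (fun i => p.getVert i) (off p π)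

lemma vert_bij (hp : p.IsPath) : Function.Bijective (vert p π) := by
  constructor
  · rintro (i | s) (j | t) h <;> simp only [vert, Sum.elim_inl, Sum.elim_inr] at h
    · congr 1
      apply Fin.ext
      exact hp.getVert_injOn (by simp; omega) (by simp; omega) h
    · exact absurd (h ▸ p.getVert_mem_support i) (off_notMem p π t)
    · exact absurd (h.symm ▸ p.getVert_mem_support j) (off_notMem p π s)
    · rw [off_inj p π h]
  · intro x
    by_cases hx : x ∈ p.support
    · obtain ⟨i, hi, hi'⟩ := Walk.mem_support_iff_exists_getVert.1 hx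
      exact ⟨Sum.inl ⟨i, by omega⟩, hi⟩
    · obtain ⟨t, ht⟩ := off_surj p π x hx
      exact ⟨Sum.inr t, ht⟩

/-- the edges -/
def edge : Fin p.length ⊕ (TLf p π ⊕ (TB p π ⊕ TBL p π)) → Sym2 V :=
  Sum.elim (fun i => s(p.getVert i, p.getVert (i + 1))) (fun t => s(off p π t, π (off p π t)))

variable {p π}

lemma edge_inj (hp : p.IsPath)
    (hπ : ∀ x, x ∉ p.support → G.Adj x (π x) ∧
      (π x ∈ p.support ∨ (π x ∉ p.support ∧ π (π x) ∈ p.support))) :
    Function.Injective (edge p π) := by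
  have hinj : ∀ i j : ℕ, i ≤ p.length → j ≤ p.length → p.getVert i = p.getVert j → i = j :=
    fun i j hi hj h => hp.getVert_injOn (by simpa using hi) (by simpa using hj) h
  rintro (i | s) (j | t) h <;> simp only [edge, Sum.elim_inl, Sum.elim_inr] at h
  · congr 1
    apply Fin.ext
    rw [Sym2.eq_iff] at h
    rcases h with ⟨h1, h2⟩ | ⟨h1, h2⟩
    · exact hinj _ _ (by omega) (by omega) h1
    · have e1 := hinj _ _ (by omega) (by omega) h1
      have e2 := hinj _ _ (by omega) (by omega) h2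
      omega
  · exfalso
    have : off p π t ∈ s(p.getVert i, p.getVert (i + 1)) := by rw [h]; simp
    rw [Sym2.mem_iff] at this
    rcases this with h1 | h1
    · exact off_notMem p π t (h1 ▸ p.getVert_mem_support _)
    · exact off_notMem p π t (h1 ▸ p.getVert_mem_support _)
  · exfalso
    have : off p π s ∈ s(p.getVert j, p.getVert (j + 1)) := by rw [← h]; simp
    rw [Sym2.mem_iff] at this
    rcases this with h1 | h1
    · exact off_notMem p π s (h1 ▸ p.getVert_mem_support _)
    · exact off_notMem p π s (h1 ▸ p.getVert_mem_support _)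
  · rw [Sym2.eq_iff] at h
    rcases h with ⟨h1, h2⟩ | ⟨h1, h2⟩
    · rw [off_inj p π h1]
    · exfalso
      have hs := off_notMem p π s
      have ht := off_notMem p π t
      rcases (hπ _ hs).2 with h3 | ⟨h3, h4⟩
      · exact ht (h2 ▸ h3)
      · rw [h2, ← h1] at h4
        exact hs h4

lemma edge_mem
    (hπ : ∀ x, x ∉ p.support → G.Adj x (π x) ∧
      (π x ∈ p.support ∨ (π x ∉ p.support ∧ π (π x) ∈ p.support))) (s) :
    edge p π s ∈ G.edgeSet := by
  rcases s with (i | t)
  · exact p.adj_getVert_succ i.2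
  · exact (hπ _ (off_notMem p π t)).1

end main

end Pool.Agent.Lob89
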