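import Pool.Agent.Lob89.Defs

/-!
Longest dominating paths in a lobster.
-/

namespace Pool.Agent.Lob89

open SimpleGraph Finset

variable {V : Type*} {G : SimpleGraph V}

/-- a path which is at distance at most two from every vertex -/
def Dom (G : SimpleGraph V) {u v : V} (p : G.Walk u v) : Prop :=
  p.IsPath ∧ ∀ x, ∃ y ∈ p.support, G.dist x y ≤ 2

lemma Dom.reverse {u v : V} {p : G.Walk u v} (h : Dom G p) : Dom G p.reverse := by
  refine ⟨h.1.reverse, fun x => ?_⟩
  obtain ⟨y, hy, hxy⟩ := h.2 x
  exact ⟨y, by simpa using hy, hxy⟩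

/-- maximal among the dominating paths -/
def MaxDom (G : SimpleGraph V) {u v : V} (p : G.Walk u v) : Prop :=
  Dom G p ∧ ∀ (u' v' : V) (q : G.Walk u' v'), Dom G q → q.length ≤ p.length

lemma MaxDom.reverse {u v : V} {p : G.Walk u v} (h : MaxDom G p) : MaxDom G p.reverse :=
  ⟨h.1.reverse, fun u' v' q hq => by simpa using h.2 u' v' q hq⟩

lemma exists_maxDom [Fintype V] (h : ∃ (u v : V) (p : G.Walk u v), Dom G p) :
    ∃ (u v : V) (p : G.Walk u v), MaxDom G p := by
  classical
  let S : Set ℕ := {n | ∃ (u v : V) (p : G.Walk u v), Dom G p ∧ p.length = n}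
  have hne : S.Nonempty := by
    obtain ⟨u, v, p, hp⟩ := h
    exact ⟨p.length, u, v, p, hp, rfl⟩
  have hbdd : BddAbove S := by
    refine ⟨Fintype.card V, ?_⟩
    rintro n ⟨u, v, p, hp, rfl⟩
    exact hp.1.length_lt.le
  obtain ⟨u, v, p, hp, hlen⟩ := Nat.sSup_mem hne hbdd
  refine ⟨u, v, p, hp, fun u' v' q hq => ?_⟩
  rw [hlen]
  exact le_csSup hbdd ⟨u', v', q, hq, rfl⟩

lemma MaxDom.mem_of_adj {u v : V} {p : G.Walk u v} (h : MaxDom G p) {x : V} (hx : G.Adj x u) :
    x ∈ p.support := by
  by_contra hcon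
  have hd : Dom G (Walk.cons hx p) := by
    refine ⟨(Walk.cons_isPath_iff hx p).2 ⟨h.1.1, hcon⟩, fun z => ?_⟩
    obtain ⟨y, hy, hzy⟩ := h.1.2 z
    exact ⟨y, by simp [hy], hzy⟩
  have := h.2 _ _ _ hd
  simp at this

lemma MaxDom.snd_free (hT : G.IsTree) {u w v : V} {huw : G.Adj u w} {q : G.Walk w v}
    (h : MaxDom G (Walk.cons huw q)) {x y : V} (hx : x ∉ (Walk.cons huw q).support)
    (hy : y ∉ (Walk.cons huw q).support) (hxw : G.Adj x w) (hyx : G.Adj y x) : False := by
  have hx' : x ∉ q.support := by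
    intro hh; exact hx (by simp [hh])
  have hy' : y ∉ q.support := by
    intro hh; exact hy (by simp [hh])
  have hqp : q.IsPath := ((Walk.cons_isPath_iff huw q).1 h.1.1).1
  have hd : Dom G (Walk.cons hyx (Walk.cons hxw q)) := by
    refine ⟨?_, fun z => ?_⟩
    · rw [Walk.cons_isPath_iff, Walk.cons_isPath_iff]
      refine ⟨⟨hqp, hx'⟩, ?_⟩
      simp only [Walk.support_cons, List.mem_cons, not_or]
      exact ⟨hyx.ne, hy'⟩
    · obtain ⟨a, ha, hza⟩ := h.1.2 z
      rw [Walk.support_cons, List.mem_cons] at ha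
      rcases ha with rfl | ha
      · refine ⟨w, by simp, ?_⟩
        obtain ⟨r, hr⟩ := hT.connected.exists_walk_length_eq_dist a z
        rw [SimpleGraph.dist_comm] at hza
        cases r with
        | nil =>
          have := SimpleGraph.dist_le (Walk.cons huw (Walk.nil : G.Walk w w))
          simp at this
          omega
        | cons hab r' =>
          rename_i b
          have hb : b ∈ (Walk.cons huw q).support := h.mem_of_adj hab.symm
          have hbw : b = w := by
            have := hT.isAcyclic.eq_snd_of_adj_start h.1.1 hab hb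
            simpa using this
          subst hbw
          have h1 := SimpleGraph.dist_le r'
          rw [SimpleGraph.dist_comm]
          simp at hr
          omega
      · exact ⟨a, by simp [ha], hza⟩
  have := h.2 _ _ _ hd
  simp at this

end Pool.Agent.Lob89
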