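import Pool.Agent.Lob89.PureChoiceDef

/-!
The choice lemma (pure arithmetic), see `/team-store/lob_pure_even_text_h12.md`, section (0).
The modes `gap` (`a = ν`, `b = n' + h + 3`, `w = n' + h + 2`, `y` in the middle zone; or
`{a, b} = {y, ν}`, `w = n' + h + 3`), `M` (`a = y`, `b = n' + h + 3`, `w = n' + h + 2`) and
`D` (`{a, b} = {j, ν}`, `y = j`).
-/

namespace Pool.Agent.Lob89

private theorem lw2_0 {a b v : ℕ} (ha : v < a) (hb : v + 1 < b) : lw2 a b v = v := by
  unfold lw2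
  rw [if_neg (by omega), if_neg (by omega)]
  simp

private theorem lw2_1 {a b v : ℕ} (ha : a ≤ v) (hb : v + 1 < b) : lw2 a b v = v + 1 := by
  unfold lw2
  rw [if_pos (by omega), if_neg (by omega)]

private theorem lw2_2 {a b v : ℕ} (ha : a ≤ v) (hb : b ≤ v + 1) : lw2 a b v = v + 2 := by
  unfold lw2
  rw [if_pos (by omega), if_pos (by omega)]

private theorem lw2_le (a b v : ℕ) : lw2 a b v ≤ v + 2 := by
  unfold lw2
  split_ifs <;> omega

private theorem le_lw2 (a b v : ℕ) : v ≤ lw2 a b v := by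
  unfold lw2
  split_ifs <;> omega

private theorem lw2_succ (a b v : ℕ) : lw2 a b v + 1 ≤ lw2 a b (v + 1) := by
  unfold lw2
  split_ifs <;> omega

/-- the gap condition, `q` even -/
private theorem gapE {h n' P Q a b w ν : ℕ} (hPQ : P + Q ≤ 2 * h)
    (hw : n' + h + 2 ≤ w) (hν : ν + 1 = Q) :
    lw2 a b (n' + (P + 1)) + 1 + ν = w + h + 1 ∨
    (lw2 a b (n' + P) + Q < lw2 a b (n' + (P + 1)) + 1 + ν ∧
      lw2 a b (n' + (P + 1)) + 1 + ν < lw2 a b (n' + (P + 1)) + (Q + 1) ∧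
      lw2 a b (n' + (P + 1)) + 1 + ν ≤ w + h + 1) := by
  right
  have h1 := lw2_succ a b (n' + P)
  have h2 := lw2_le a b (n' + (P + 1))
  rw [show n' + P + 1 = n' + (P + 1) from by ring] at h1
  omega

/-- the gap condition, `q` odd -/
private theorem gapO {h n' P Q a b w ν : ℕ} (hQ : n' + Q + 3 ≤ h)
    (hw : n' + h + 2 ≤ w) (hν : ν ≤ h + 2) (h1 : lw2 a b (n' + P) ≤ ν + lw2 a b (n' + 1))
    (h2 : ν + lw2 a b (n' + 1) < lw2 a b (n' + (P + 1))) :
    lw2 a b (n' + 1) + (Q + 1) + ν = w + h + 1 ∨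
    (lw2 a b (n' + P) + Q < lw2 a b (n' + 1) + (Q + 1) + ν ∧
      lw2 a b (n' + 1) + (Q + 1) + ν < lw2 a b (n' + (P + 1)) + (Q + 1) ∧
      lw2 a b (n' + 1) + (Q + 1) + ν ≤ w + h + 1) := by
  right
  have h3 := lw2_le a b (n' + 1)
  omega

/-- the gap condition in general: what has to be checked -/
private def NuOK (n2 β P Q ro rE a b ν : ℕ) : Prop :=
  (ro = P + 1 ∧ rE = 1 ∧ ν + 1 = Q) ∨
  (ro = 1 ∧ rE = Q + 1 ∧ lw2 a b (n2 + β + P) ≤ ν + lw2 a b (n2 + β + 1) ∧
    ν + lw2 a b (n2 + β + 1) < lw2 a b (n2 + β + (P + 1)))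

private theorem gap_of {h n2 β P Q ro rE r1 re N0 a b w ν : ℕ}
    (H : ChoiceHyp h n2 β P Q ro rE r1 re N0) (hw : n2 + β + h + 2 ≤ w) (hν : ν ≤ h + 2)
    (hn : NuOK n2 β P Q ro rE a b ν) :
    lw2 a b (n2 + β + ro) + rE + ν = w + h + 1 ∨
    (lw2 a b (n2 + β + P) + Q < lw2 a b (n2 + β + ro) + rE + ν ∧
      lw2 a b (n2 + β + ro) + rE + ν < lw2 a b (n2 + β + (P + 1)) + (Q + 1) ∧
      lw2 a b (n2 + β + ro) + rE + ν ≤ w + h + 1) := by
  obtain ⟨hβ, hPQ, hq, hN0, hr1, hre, hrel⟩ := H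
  rcases hn with ⟨rfl, rfl, hn⟩ | ⟨rfl, rfl, hn1, hn2⟩
  · exact gapE (by omega) hw hn
  · exact gapO (by omega) hw hν hn1 hn2

/-- the range condition at the fat end -/
private theorem fat_of {h n2 β N0 y z1 r1 a b : ℕ} (hβ : β ≤ 1)
    (hz : lw2 a b (n2 + β + r1) = z1)
    (h1 : n2 + β + h + 2 + N0 < β + y + z1) (h2 : y + z1 ≤ n2 + β + h + 2 + N0 + 1 + n2) :
    n2 + β + h + 2 + N0 < β * lw2 a b 1 + y + lw2 a b (n2 + β + r1) ∧
      y + lw2 a b (n2 + β + r1) ≤ n2 + β + h + 2 + N0 + 1 + n2 := by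
  have h3 := le_lw2 a b 1
  rcases Nat.lt_or_ge 0 β with b1 | b1
  · obtain rfl : β = 1 := by omega
    omega
  · obtain rfl : β = 0 := by omega
    omega

/-- first gap mode: `y` in the middle zone, `z1 = n' + r1 + [ν ≤ n' + r1]` -/
private theorem choice_G1 {h n2 β P Q ro rE r1 re N0 ν z1 : ℕ}
    (H : ChoiceHyp h n2 β P Q ro rE r1 re N0)
    (hν : (ro = P + 1 ∧ rE = 1 ∧ ν + 1 = Q) ∨ (ro = 1 ∧ rE = Q + 1 ∧ ν = P))
    (hz : (n2 + β + r1 < ν ∧ z1 = n2 + β + r1) ∨ (ν ≤ n2 + β + r1 ∧ z1 = n2 + β + r1 + 1))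
    (hN : z1 ≤ N0) :
    ∃ a b w y ν, Choice h n2 β P Q ro rE r1 re N0 a b w y ν := by
  have hz1 : lw2 ν (n2 + β + h + 3) (n2 + β + r1) = z1 := by
    have := H.hr1
    rcases hz with ⟨h1, h2⟩ | ⟨h1, h2⟩
    · rw [lw2_0 h1 (by omega), h2]
    · rw [lw2_1 h1 (by omega), h2]
  have hn : NuOK n2 β P Q ro rE ν (n2 + β + h + 3) ν := by
    rcases hν with hν | ⟨h1, h2, h3⟩
    · exact Or.inl hν
    · have hPQ := H.hPQ
      have hq := H.hq
      refine Or.inr ⟨h1, h2, ?_, ?_⟩
      · rw [lw2_1 (by omega) (by omega), lw2_0 (by omega) (by omega)]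
        omega
      · have h4 := lw2_succ ν (n2 + β + h + 3) (n2 + β + P)
        rw [show n2 + β + P + 1 = n2 + β + (P + 1) from by ring] at h4
        rw [lw2_1 (v := n2 + β + P) (by omega) (by omega)] at h4
        rw [lw2_0 (v := n2 + β + 1) (by omega) (by omega)]
        omega
  have hg := gap_of (w := n2 + β + h + 2) H le_rfl (by have := H.hq; omega) hn
  obtain ⟨hβ, hPQ, hq, hN0, hr1, hre, hrel⟩ := H
  have h0 := lw2_1 (a := ν) (b := n2 + β + h + 3) (v := n2 + β + (h + 1)) (by omega) (by omega)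
  refine ⟨ν, n2 + β + h + 3, n2 + β + h + 2, n2 + β + h + 3 + N0 - z1, ν, ?_⟩
  have B1 : n2 + β + h + 2 < n2 + β + h + 3 + N0 - z1 := by omega
  have B2 : ν < n2 + β + h + 3 := by omega
  refine ⟨by omega, by omega, by omega, by omega, by omega, by omega, by omega, by omega, ?_,
    hg, Or.inl (fat_of hβ hz1 (by omega) (by omega))⟩
  rw [if_pos B1, if_neg (by omega)]

/-- second gap mode: `y` and `ν` inserted -/
private theorem choice_G2 {h n2 β P Q ro rE r1 re N0 a b y ν z1 : ℕ}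
    (H : ChoiceHyp h n2 β P Q ro rE r1 re N0)
    (hab : (y < ν ∧ a = y ∧ b = ν) ∨ (ν < y ∧ a = ν ∧ b = y))
    (hy : 1 ≤ y ∧ y ≤ n2 + β + h + 3) (hν : 1 ≤ ν ∧ ν ≤ h + 2)
    (hn : NuOK n2 β P Q ro rE a b ν)
    (hz : lw2 a b (n2 + β + r1) = z1)
    (hf1 : n2 + β + h + 2 + N0 < β + y + z1) (hf2 : y + z1 ≤ n2 + β + h + 2 + N0 + 1 + n2) :
    ∃ a b w y ν, Choice h n2 β P Q ro rE r1 re N0 a b w y ν := by
  have hg := gap_of (w := n2 + β + h + 3) H (by omega) hν.2 hn
  obtain ⟨hβ, hPQ, hq, hN0, hr1, hre, hrel⟩ := H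
  have h0 := lw2_le a b (n2 + β + (h + 1))
  refine ⟨a, b, n2 + β + h + 3, y, ν, ?_⟩
  refine ⟨by omega, by omega, by omega, by omega, by omega, by omega, by omega, by omega, ?_,
    hg, Or.inl (fat_of hβ hz (by omega) (by omega))⟩
  rw [if_neg (by omega), if_neg (by omega)]

/-- mode `D` -/
private theorem choice_D {h n2 β P Q ro rE r1 re N0 a b y ν r : ℕ}
    (H : ChoiceHyp h n2 β P Q ro rE r1 re N0)
    (hab : (y < ν ∧ a = y ∧ b = ν) ∨ (ν < y ∧ a = ν ∧ b = y))
    (hy : 1 ≤ y ∧ y ≤ n2 + β + h + 3) (hν : 1 ≤ ν ∧ ν ≤ h + 2)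
    (hn : NuOK n2 β P Q ro rE a b ν)
    (hr : 1 ≤ r ∧ r ≤ h + 1) (hr2 : r ≠ re)
    (hf : β * lw2 a b 1 + y + lw2 a b (n2 + β + r1) = lw2 a b (n2 + β + r)) :
    ∃ a b w y ν, Choice h n2 β P Q ro rE r1 re N0 a b w y ν := by
  have hg := gap_of (w := n2 + β + h + 3) H (by omega) hν.2 hn
  obtain ⟨hβ, hPQ, hq, hN0, hr1, hre, hrel⟩ := H
  have h0 := lw2_le a b (n2 + β + (h + 1))
  refine ⟨a, b, n2 + β + h + 3, y, ν, ?_⟩
  refine ⟨by omega, by omega, by omega, by omega, by omega, by omega, by omega, by omega, ?_,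
    hg, Or.inr ⟨r, hr.1, hr.2, hr2, hf⟩⟩
  rw [if_neg (by omega), if_neg (by omega)]

/-- the label `y` for a given `ν`, `q` even -/
private theorem pickE {l0 T ν : ℕ} (h1 : ¬ (l0 + 2 ≤ ν ∧ T = ν)) (h2 : ¬ (ν ≤ l0 ∧ T = ν + 2))
    (hT : 3 ≤ T) :
    ∃ y a b, ((y < ν ∧ a = y ∧ b = ν) ∨ (ν < y ∧ a = ν ∧ b = y)) ∧ 1 ≤ y ∧
      y + lw2 a b l0 = T + l0 ∧ ((ν ≤ l0 ∧ y + 1 ≤ T) ∨ (l0 < ν ∧ y ≤ T)) := by
  rcases Nat.lt_or_ge (l0 + 1) ν with c1 | c1
  · rcases Nat.lt_or_ge l0 T with c2 | c2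
    · rcases Nat.lt_or_ge T ν with c3 | c3
      · refine ⟨T, T, ν, Or.inl ⟨c3, rfl, rfl⟩, by omega, ?_, Or.inr ⟨by omega, le_rfl⟩⟩
        rw [lw2_0 (by omega) (by omega)]
      · refine ⟨T, ν, T, Or.inr ⟨by omega, rfl, rfl⟩, by omega, ?_, Or.inr ⟨by omega, le_rfl⟩⟩
        rw [lw2_0 (by omega) (by omega)]
    · refine ⟨T - 1, T - 1, ν, Or.inl ⟨by omega, rfl, rfl⟩, by omega, ?_,
        Or.inr ⟨by omega, by omega⟩⟩
      rw [lw2_1 (by omega) (by omega)]
      omega
  · rcases Nat.lt_or_ge l0 ν with c2 | c2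
    · rcases Nat.lt_or_ge (l0 + 1) T with c3 | c3
      · refine ⟨T, ν, T, Or.inr ⟨by omega, rfl, rfl⟩, by omega, ?_, Or.inr ⟨by omega, le_rfl⟩⟩
        rw [lw2_0 (by omega) (by omega)]
      · refine ⟨T - 2, T - 2, ν, Or.inl ⟨by omega, rfl, rfl⟩, by omega, ?_,
          Or.inr ⟨by omega, by omega⟩⟩
        rw [lw2_2 (by omega) (by omega)]
        omega
    · rcases Nat.lt_or_ge (l0 + 2) T with c3 | c3
      · refine ⟨T - 1, ν, T - 1, Or.inr ⟨by omega, rfl, rfl⟩, by omega, ?_,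
          Or.inl ⟨c2, by omega⟩⟩
        rw [lw2_1 (by omega) (by omega)]
        omega
      · rcases Nat.lt_or_ge (T - 2) ν with c4 | c4
        · refine ⟨T - 2, T - 2, ν, Or.inl ⟨by omega, rfl, rfl⟩, by omega, ?_,
            Or.inl ⟨c2, by omega⟩⟩
          rw [lw2_2 (by omega) (by omega)]
          omega
        · refine ⟨T - 2, ν, T - 2, Or.inr ⟨by omega, rfl, rfl⟩, by omega, ?_,
            Or.inl ⟨c2, by omega⟩⟩
          rw [lw2_2 (by omega) (by omega)]
          omega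

/-- `NuOK` for `q` odd and `ν = P` -/
private theorem nuP {n2 β P Q ro rE a b y : ℕ} (h1 : ro = 1) (h2 : rE = Q + 1)
    (hP : n2 + β + 4 ≤ P)
    (hab : (y < P ∧ a = y ∧ b = P) ∨ (P < y ∧ a = P ∧ b = y))
    (hy : y ≤ n2 + β + 1 ∨ n2 + β + P + 2 ≤ y) : NuOK n2 β P Q ro rE a b P := by
  refine Or.inr ⟨h1, h2, ?_, ?_⟩
  · rcases hy with hy | hy
    · rw [lw2_2 (by omega) (by omega), lw2_1 (by omega) (by omega)]
      omega
    · rw [lw2_1 (by omega) (by omega), lw2_0 (by omega) (by omega)]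
      omega
  · have h4 := lw2_succ a b (n2 + β + P)
    rw [show n2 + β + P + 1 = n2 + β + (P + 1) from by ring] at h4
    rcases hy with hy | hy
    · rw [lw2_2 (v := n2 + β + P) (by omega) (by omega)] at h4
      rw [lw2_1 (v := n2 + β + 1) (by omega) (by omega)]
      omega
    · rw [lw2_1 (v := n2 + β + P) (by omega) (by omega)] at h4
      rw [lw2_0 (v := n2 + β + 1) (by omega) (by omega)]
      omega

/-- `NuOK` for `q` odd and `ν = P + 1` -/
private theorem nuP1 {n2 β P Q ro rE a b y : ℕ} (h1 : ro = 1) (h2 : rE = Q + 1)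
    (hP : n2 + β + 4 ≤ P)
    (hab : (y < P + 1 ∧ a = y ∧ b = P + 1) ∨ (P + 1 < y ∧ a = P + 1 ∧ b = y))
    (hy : n2 + β + 2 ≤ y ∧ y ≤ n2 + β + P + 2) : NuOK n2 β P Q ro rE a b (P + 1) := by
  refine Or.inr ⟨h1, h2, ?_, ?_⟩
  · have h3 := lw2_le a b (n2 + β + P)
    rw [lw2_0 (v := n2 + β + 1) (by omega) (by omega)]
    omega
  · rw [lw2_0 (v := n2 + β + 1) (by omega) (by omega), lw2_2 (by omega) (by omega)]
    omega

/-- the labels `y` and `ν` for `q` odd -/
private theorem pickO {n2 β P Q ro rE l0 T : ℕ} (e1 : ro = 1) (e2 : rE = Q + 1)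
    (hP : n2 + β + 4 ≤ P) (hl : n2 + β + 1 ≤ l0)
    (h1 : ¬ (l0 + 1 ≤ P ∧ T = P + 1)) (h2 : ¬ (P + 1 ≤ l0 ∧ T = P + 3)) (hT : 3 ≤ T) :
    ∃ y ν a b, ((y < ν ∧ a = y ∧ b = ν) ∨ (ν < y ∧ a = ν ∧ b = y)) ∧ 1 ≤ y ∧
      (1 ≤ ν ∧ ν ≤ P + 1) ∧ NuOK n2 β P Q ro rE a b ν ∧
      y + lw2 a b l0 = T + l0 ∧ y ≤ T ∧ (l0 + 1 ≤ P ∨ y + 1 ≤ T ∨ y ≤ n2 + β + P + 2) := by
  rcases Nat.lt_or_ge l0 P with c1 | c1
  · rcases Nat.lt_or_ge (n2 + β + P + 1) T with c2 | c2
    · -- y = T, ν = P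
      have hab : (T < P ∧ P = T ∧ T = P) ∨ (P < T ∧ P = P ∧ T = T) := Or.inr ⟨by omega, rfl, rfl⟩
      refine ⟨T, P, P, T, hab, by omega, by omega, nuP e1 e2 hP hab (by omega), ?_, by omega,
        by omega⟩
      rw [lw2_0 (by omega) (by omega)]
    · rcases Nat.lt_or_ge l0 T with c3 | c3
      · -- y = T, ν = P + 1
        rcases Nat.lt_or_ge T (P + 1) with c4 | c4
        · have hab : (T < P + 1 ∧ T = T ∧ P + 1 = P + 1) ∨ (P + 1 < T ∧ T = P + 1 ∧ P + 1 = T) :=
            Or.inl ⟨by omega, rfl, rfl⟩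
          refine ⟨T, P + 1, T, P + 1, hab, by omega, by omega, nuP1 e1 e2 hP hab (by omega), ?_,
            by omega, by omega⟩
          rw [lw2_0 (by omega) (by omega)]
        · have hab : (T < P + 1 ∧ P + 1 = T ∧ T = P + 1) ∨ (P + 1 < T ∧ P + 1 = P + 1 ∧ T = T) :=
            Or.inr ⟨by omega, rfl, rfl⟩
          refine ⟨T, P + 1, P + 1, T, hab, by omega, by omega, nuP1 e1 e2 hP hab (by omega), ?_,
            by omega, by omega⟩
          rw [lw2_0 (by omega) (by omega)]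
      · rcases Nat.lt_or_ge (n2 + β + 2) T with c4 | c4
        · -- y = T - 1, ν = P + 1
          have hab : (T - 1 < P + 1 ∧ T - 1 = T - 1 ∧ P + 1 = P + 1) ∨
              (P + 1 < T - 1 ∧ T - 1 = P + 1 ∧ P + 1 = T - 1) :=
            Or.inl ⟨by omega, rfl, rfl⟩
          refine ⟨T - 1, P + 1, T - 1, P + 1, hab, by omega, by omega,
            nuP1 e1 e2 hP hab (by omega), ?_, by omega, by omega⟩
          rw [lw2_1 (by omega) (by omega)]
          omega
        · rcases Nat.lt_or_ge (l0 + 1) P with c5 | c5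
          · -- y = T - 1, ν = P
            have hab : (T - 1 < P ∧ T - 1 = T - 1 ∧ P = P) ∨
                (P < T - 1 ∧ T - 1 = P ∧ P = T - 1) :=
              Or.inl ⟨by omega, rfl, rfl⟩
            refine ⟨T - 1, P, T - 1, P, hab, by omega, by omega,
              nuP e1 e2 hP hab (by omega), ?_, by omega, by omega⟩
            rw [lw2_1 (by omega) (by omega)]
            omega
          · -- y = T - 2, ν = P
            have hab : (T - 2 < P ∧ T - 2 = T - 2 ∧ P = P) ∨
                (P < T - 2 ∧ T - 2 = P ∧ P = T - 2) :=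
              Or.inl ⟨by omega, rfl, rfl⟩
            refine ⟨T - 2, P, T - 2, P, hab, by omega, by omega,
              nuP e1 e2 hP hab (by omega), ?_, by omega, by omega⟩
            rw [lw2_2 (by omega) (by omega)]
            omega
  · rcases Nat.lt_or_ge P l0 with c2 | c2
    · rcases Nat.lt_or_ge (l0 + 3) T with c3 | c3
      · rcases Nat.lt_or_ge (n2 + β + P + 2) T with c4 | c4
        · -- y = T - 1, ν = P
          have hab : (T - 1 < P ∧ P = T - 1 ∧ T - 1 = P) ∨ (P < T - 1 ∧ P = P ∧ T - 1 = T - 1) :=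
            Or.inr ⟨by omega, rfl, rfl⟩
          refine ⟨T - 1, P, P, T - 1, hab, by omega, by omega,
            nuP e1 e2 hP hab (by omega), ?_, by omega, by omega⟩
          rw [lw2_1 (by omega) (by omega)]
          omega
        · -- y = T - 1, ν = P + 1
          have hab : (T - 1 < P + 1 ∧ P + 1 = T - 1 ∧ T - 1 = P + 1) ∨
              (P + 1 < T - 1 ∧ P + 1 = P + 1 ∧ T - 1 = T - 1) :=
            Or.inr ⟨by omega, rfl, rfl⟩
          refine ⟨T - 1, P + 1, P + 1, T - 1, hab, by omega, by omega,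
            nuP1 e1 e2 hP hab (by omega), ?_, by omega, by omega⟩
          rw [lw2_1 (by omega) (by omega)]
          omega
      · rcases Nat.lt_or_ge (n2 + β + 3) T with c4 | c4
        · rcases Nat.lt_or_ge (n2 + β + P + 4) T with c5 | c5
          · -- y = T - 2, ν = P
            have hab : (T - 2 < P ∧ P = T - 2 ∧ T - 2 = P) ∨
                (P < T - 2 ∧ P = P ∧ T - 2 = T - 2) :=
              Or.inr ⟨by omega, rfl, rfl⟩
            refine ⟨T - 2, P, P, T - 2, hab, by omega, by omega,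
              nuP e1 e2 hP hab (by omega), ?_, by omega, by omega⟩
            rw [lw2_2 (by omega) (by omega)]
            omega
          · -- y = T - 2, ν = P + 1
            rcases Nat.lt_or_ge (T - 2) (P + 1) with c6 | c6
            · have hab : (T - 2 < P + 1 ∧ T - 2 = T - 2 ∧ P + 1 = P + 1) ∨
                  (P + 1 < T - 2 ∧ T - 2 = P + 1 ∧ P + 1 = T - 2) :=
                Or.inl ⟨by omega, rfl, rfl⟩
              refine ⟨T - 2, P + 1, T - 2, P + 1, hab, by omega, by omega,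
                nuP1 e1 e2 hP hab (by omega), ?_, by omega, by omega⟩
              rw [lw2_2 (by omega) (by omega)]
              omega
            · have hab : (T - 2 < P + 1 ∧ P + 1 = T - 2 ∧ T - 2 = P + 1) ∨
                  (P + 1 < T - 2 ∧ P + 1 = P + 1 ∧ T - 2 = T - 2) :=
                Or.inr ⟨by omega, rfl, rfl⟩
              refine ⟨T - 2, P + 1, P + 1, T - 2, hab, by omega, by omega,
                nuP1 e1 e2 hP hab (by omega), ?_, by omega, by omega⟩
              rw [lw2_2 (by omega) (by omega)]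
              omega
        · -- y = T - 2, ν = P
          have hab : (T - 2 < P ∧ T - 2 = T - 2 ∧ P = P) ∨
              (P < T - 2 ∧ T - 2 = P ∧ P = T - 2) :=
            Or.inl ⟨by omega, rfl, rfl⟩
          refine ⟨T - 2, P, T - 2, P, hab, by omega, by omega,
            nuP e1 e2 hP hab (by omega), ?_, by omega, by omega⟩
          rw [lw2_2 (by omega) (by omega)]
          omega
    · -- l0 = P
      rcases Nat.lt_or_ge (n2 + β + P + 2) T with c3 | c3
      · -- y = T - 1, ν = P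
        have hab : (T - 1 < P ∧ P = T - 1 ∧ T - 1 = P) ∨ (P < T - 1 ∧ P = P ∧ T - 1 = T - 1) :=
          Or.inr ⟨by omega, rfl, rfl⟩
        refine ⟨T - 1, P, P, T - 1, hab, by omega, by omega,
          nuP e1 e2 hP hab (by omega), ?_, by omega, by omega⟩
        rw [lw2_1 (by omega) (by omega)]
        omega
      · rcases Nat.lt_or_ge (P + 1) T with c4 | c4
        · -- y = T, ν = P + 1
          have hab : (T < P + 1 ∧ P + 1 = T ∧ T = P + 1) ∨ (P + 1 < T ∧ P + 1 = P + 1 ∧ T = T) :=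
            Or.inr ⟨by omega, rfl, rfl⟩
          refine ⟨T, P + 1, P + 1, T, hab, by omega, by omega, nuP1 e1 e2 hP hab (by omega), ?_,
            by omega, by omega⟩
          rw [lw2_0 (by omega) (by omega)]
        · rcases Nat.lt_or_ge (n2 + β + 3) T with c5 | c5
          · -- y = T - 2, ν = P + 1
            have hab : (T - 2 < P + 1 ∧ T - 2 = T - 2 ∧ P + 1 = P + 1) ∨
                (P + 1 < T - 2 ∧ T - 2 = P + 1 ∧ P + 1 = T - 2) :=
              Or.inl ⟨by omega, rfl, rfl⟩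
            refine ⟨T - 2, P + 1, T - 2, P + 1, hab, by omega, by omega,
              nuP1 e1 e2 hP hab (by omega), ?_, by omega, by omega⟩
            rw [lw2_2 (by omega) (by omega)]
            omega
          · -- y = T - 2, ν = P
            have hab : (T - 2 < P ∧ T - 2 = T - 2 ∧ P = P) ∨
                (P < T - 2 ∧ T - 2 = P ∧ P = T - 2) :=
              Or.inl ⟨by omega, rfl, rfl⟩
            refine ⟨T - 2, P, T - 2, P, hab, by omega, by omega,
              nuP e1 e2 hP hab (by omega), ?_, by omega, by omega⟩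
            rw [lw2_2 (by omega) (by omega)]
            omega

/-- mode `M` -/
private theorem choice_M {h P Q ro rE re N0 ν : ℕ}
    (H : ChoiceHyp h 0 0 P Q ro rE (h + 1) re N0) (hN : N0 ≤ h)
    (hν : h + 3 ≤ ν ∧ ν ≤ h + 2 + N0)
    (hs : lw2 (N0 + 1) (h + 3) (0 + 0 + ro) + rE + ν = 2 * h + 3) :
    ∃ a b w y ν, Choice h 0 0 P Q ro rE (h + 1) re N0 a b w y ν := by
  obtain ⟨hβ, hPQ, hq, hN0, hr1, hre, hrel⟩ := H
  have hz : lw2 (N0 + 1) (h + 3) (0 + 0 + (h + 1)) = h + 2 := by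
    rw [lw2_1 (by omega) (by omega)]
    omega
  refine ⟨N0 + 1, h + 3, h + 2, N0 + 1, ν, ?_⟩
  refine ⟨by omega, by omega, by omega, by omega, by omega, by omega, by omega, by omega, ?_,
    Or.inl (by omega), Or.inl (fat_of hβ hz (by omega) (by omega))⟩
  rw [if_neg (by omega), if_pos (by omega)]
  omega

/-- mode `D`, `q` even -/
private theorem main_DE {h P Q r1 re N0 : ℕ}
    (H : ChoiceHyp h 0 0 P Q (P + 1) 1 r1 re N0) (hQ : Q ≤ h) (hP : P + 3 ≤ h) (hr : r1 ≤ h)
    (hc : (r1 + 3 ≤ Q ∧ h + N0 + 4 = Q + r1) ∨ (Q ≤ r1 + 1 ∧ h + N0 + 2 = Q + r1)) :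
    ∃ a b w y ν, Choice h 0 0 P Q (P + 1) 1 r1 re N0 a b w y ν := by
  have hPQ := H.hPQ
  have hN0 := H.hN
  have hr1 := H.hr1
  have hrel := H.hrel
  have hn : ∀ a b, NuOK 0 0 P Q (P + 1) 1 a b (Q - 1) := fun a b => Or.inl ⟨rfl, rfl, by omega⟩
  rcases Nat.lt_or_ge (r1 + 4) Q with c1 | c1
  · -- `Q - 1 ≥ r1 + 4`
    by_cases e : re = r1 + 1
    · -- j = 2, r = r1 + 2
      refine choice_D (r := r1 + 2) H (Or.inl ⟨?_, rfl, rfl⟩) (y := 2) (ν := Q - 1)
        (by omega) (by omega) (hn _ _) (by omega) (by omega) ?_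
      · omega
      · rw [lw2_1 (v := 0 + 0 + r1) (by omega) (by omega),
          lw2_1 (v := 0 + 0 + (r1 + 2)) (by omega) (by omega)]
        omega
    · refine choice_D (r := r1 + 1) H (Or.inl ⟨?_, rfl, rfl⟩) (y := 1) (ν := Q - 1)
        (by omega) (by omega) (hn _ _) (by omega) (by omega) ?_
      · omega
      · rw [lw2_1 (v := 0 + 0 + r1) (by omega) (by omega),
          lw2_1 (v := 0 + 0 + (r1 + 1)) (by omega) (by omega)]
        omega
  · rcases Nat.lt_or_ge (r1 + 3) Q with c2 | c2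
    · -- `Q - 1 = r1 + 3`
      by_cases e : re = r1 + 1
      · -- j = 3, r = r1 + 2
        refine choice_D (r := r1 + 2) H (Or.inl ⟨?_, rfl, rfl⟩) (y := 3) (ν := Q - 1)
          (by omega) (by omega) (hn _ _) (by omega) (by omega) ?_
        · omega
        · rw [lw2_1 (v := 0 + 0 + r1) (by omega) (by omega),
            lw2_2 (v := 0 + 0 + (r1 + 2)) (by omega) (by omega)]
          omega
      · -- j = 1, r = r1 + 1
        refine choice_D (r := r1 + 1) H (Or.inl ⟨?_, rfl, rfl⟩) (y := 1) (ν := Q - 1)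
          (by omega) (by omega) (hn _ _) (by omega) (by omega) ?_
        · omega
        · rw [lw2_1 (v := 0 + 0 + r1) (by omega) (by omega),
            lw2_1 (v := 0 + 0 + (r1 + 1)) (by omega) (by omega)]
          omega
    · rcases Nat.lt_or_ge (r1 + 2) Q with c3 | c3
      · -- `Q - 1 = r1 + 2`
        by_cases e : re = r1 + 1
        · -- j = 3, r = r1 + 2
          refine choice_D (r := r1 + 2) H (Or.inl ⟨?_, rfl, rfl⟩) (y := 3) (ν := Q - 1)
            (by omega) (by omega) (hn _ _) (by omega) (by omega) ?_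
          · omega
          · rw [lw2_1 (v := 0 + 0 + r1) (by omega) (by omega),
              lw2_2 (v := 0 + 0 + (r1 + 2)) (by omega) (by omega)]
            omega
        · -- j = 2, r = r1 + 1
          refine choice_D (r := r1 + 1) H (Or.inl ⟨?_, rfl, rfl⟩) (y := 2) (ν := Q - 1)
            (by omega) (by omega) (hn _ _) (by omega) (by omega) ?_
          · omega
          · rw [lw2_1 (v := 0 + 0 + r1) (by omega) (by omega),
              lw2_2 (v := 0 + 0 + (r1 + 1)) (by omega) (by omega)]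
            omega
      · -- `Q - 1 ≤ r1`
        by_cases e : re = r1 + 1
        · -- j = 2, r = r1 + 2
          refine choice_D (r := r1 + 2) H (Or.inl ⟨?_, rfl, rfl⟩) (y := 2) (ν := Q - 1)
            (by omega) (by omega) (hn _ _) (by omega) (by omega) ?_
          · omega
          · rw [lw2_2 (v := 0 + 0 + r1) (by omega) (by omega),
              lw2_2 (v := 0 + 0 + (r1 + 2)) (by omega) (by omega)]
            omega
        · refine choice_D (r := r1 + 1) H (Or.inl ⟨?_, rfl, rfl⟩) (y := 1) (ν := Q - 1)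
            (by omega) (by omega) (hn _ _) (by omega) (by omega) ?_
          · omega
          · rw [lw2_2 (v := 0 + 0 + r1) (by omega) (by omega),
              lw2_2 (v := 0 + 0 + (r1 + 1)) (by omega) (by omega)]
            omega

/-- mode `D`, `q` odd -/
private theorem main_DO {h P Q r1 re N0 : ℕ}
    (H : ChoiceHyp h 0 0 P Q 1 (Q + 1) r1 re N0) (hQ : Q + 3 ≤ h) (hP : P ≤ h + 1) (hr : r1 ≤ h)
    (hx : ¬ (P = h + 1 ∧ r1 = h))
    (hc : (r1 + 1 ≤ P ∧ h + N0 + 2 = P + r1) ∨ (P + 1 ≤ r1 ∧ h + N0 = P + r1)) :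
    ∃ a b w y ν, Choice h 0 0 P Q 1 (Q + 1) r1 re N0 a b w y ν := by
  have hPQ := H.hPQ
  have hN0 := H.hN
  have hr1 := H.hr1
  have hrel := H.hrel
  have hn0 : ∀ y a b, y ≤ 1 → ((y < P ∧ a = y ∧ b = P) ∨ (P < y ∧ a = P ∧ b = y)) →
      NuOK 0 0 P Q 1 (Q + 1) a b P :=
    fun y a b hy hab => nuP rfl rfl (by omega) hab (Or.inl (by omega))
  have hn1 : ∀ y a b, 2 ≤ y → y ≤ P + 2 →
      ((y < P + 1 ∧ a = y ∧ b = P + 1) ∨ (P + 1 < y ∧ a = P + 1 ∧ b = y)) →
      NuOK 0 0 P Q 1 (Q + 1) a b (P + 1) :=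
    fun y a b hy hy2 hab => nuP1 rfl rfl (by omega) hab (by omega)
  rcases Nat.lt_or_ge (r1 + 2) P with c1 | c1
  · by_cases e : re = r1 + 1
    · -- j = 2, ν = P + 1, r = r1 + 2
      have hab : (2 < P + 1 ∧ 2 = 2 ∧ P + 1 = P + 1) ∨ (P + 1 < 2 ∧ 2 = P + 1 ∧ P + 1 = 2) :=
        Or.inl ⟨by omega, rfl, rfl⟩
      refine choice_D (r := r1 + 2) H hab
        (by omega) (by omega) (hn1 _ _ _ (by omega) (by omega) hab) (by omega) (by omega) ?_
      rw [lw2_1 (v := 0 + 0 + r1) (by omega) (by omega),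
        lw2_1 (v := 0 + 0 + (r1 + 2)) (by omega) (by omega)]
      omega
    · -- j = 1, ν = P, r = r1 + 1
      have hab : (1 < P ∧ 1 = 1 ∧ P = P) ∨ (P < 1 ∧ 1 = P ∧ P = 1) :=
        Or.inl ⟨by omega, rfl, rfl⟩
      refine choice_D (r := r1 + 1) H hab
        (by omega) (by omega) (hn0 _ _ _ (by omega) hab) (by omega) (by omega) ?_
      rw [lw2_1 (v := 0 + 0 + r1) (by omega) (by omega),
        lw2_1 (v := 0 + 0 + (r1 + 1)) (by omega) (by omega)]
      omega
  · rcases Nat.lt_or_ge (r1 + 1) P with c2 | c2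
    · rcases Nat.lt_or_ge 2 r1 with c3 | c3
      · -- P = r1 + 2, j = 3, ν = P + 1, r = r1 + 2
        have hab : (3 < P + 1 ∧ 3 = 3 ∧ P + 1 = P + 1) ∨ (P + 1 < 3 ∧ 3 = P + 1 ∧ P + 1 = 3) :=
          Or.inl ⟨by omega, rfl, rfl⟩
        refine choice_D (r := r1 + 2) H hab
          (by omega) (by omega) (hn1 _ _ _ (by omega) (by omega) hab) (by omega) (by omega) ?_
        rw [lw2_1 (v := 0 + 0 + r1) (by omega) (by omega),
          lw2_2 (v := 0 + 0 + (r1 + 2)) (by omega) (by omega)]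
        omega
      · -- h = 3, P = 4, r1 = 2, N0 = 1: y = 4, ν = 5, r = 4
        have hab : (4 < P + 1 ∧ 4 = 4 ∧ P + 1 = P + 1) ∨ (P + 1 < 4 ∧ 4 = P + 1 ∧ P + 1 = 4) :=
          Or.inl ⟨by omega, rfl, rfl⟩
        refine choice_D (r := 4) H hab
          (by omega) (by omega) (hn1 _ _ _ (by omega) (by omega) hab) (by omega) (by omega) ?_
        rw [lw2_0 (v := 0 + 0 + r1) (by omega) (by omega),
          lw2_2 (v := 0 + 0 + 4) (by omega) (by omega)]
        omega
    · rcases Nat.lt_or_ge r1 P with c3 | c3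
      · by_cases e : re = r1 + 1
        · -- P = r1 + 1, j = 3, ν = P + 1, r = r1 + 2
          have hab : (3 < P + 1 ∧ 3 = 3 ∧ P + 1 = P + 1) ∨ (P + 1 < 3 ∧ 3 = P + 1 ∧ P + 1 = 3) :=
            Or.inl ⟨by omega, rfl, rfl⟩
          refine choice_D (r := r1 + 2) H hab
            (by omega) (by omega) (hn1 _ _ _ (by omega) (by omega) hab) (by omega) (by omega) ?_
          rw [lw2_1 (v := 0 + 0 + r1) (by omega) (by omega),
            lw2_2 (v := 0 + 0 + (r1 + 2)) (by omega) (by omega)]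
          omega
        · -- P = r1 + 1, j = 1, ν = P, r = r1 + 1
          have hab : (1 < P ∧ 1 = 1 ∧ P = P) ∨ (P < 1 ∧ 1 = P ∧ P = 1) :=
            Or.inl ⟨by omega, rfl, rfl⟩
          refine choice_D (r := r1 + 1) H hab
            (by omega) (by omega) (hn0 _ _ _ (by omega) hab) (by omega) (by omega) ?_
          rw [lw2_2 (v := 0 + 0 + r1) (by omega) (by omega),
            lw2_2 (v := 0 + 0 + (r1 + 1)) (by omega) (by omega)]
          omega
      · -- P + 1 ≤ r1, j = 1, ν = P, r = r1 + 1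
        have hab : (1 < P ∧ 1 = 1 ∧ P = P) ∨ (P < 1 ∧ 1 = P ∧ P = 1) :=
          Or.inl ⟨by omega, rfl, rfl⟩
        refine choice_D (r := r1 + 1) H hab
          (by omega) (by omega) (hn0 _ _ _ (by omega) hab) (by omega) (by omega) ?_
        rw [lw2_2 (v := 0 + 0 + r1) (by omega) (by omega),
          lw2_2 (v := 0 + 0 + (r1 + 1)) (by omega) (by omega)]
        omega

/-- second gap mode, `q` even, for a given shift: `T + r1 = h + 3 + N0 + d` -/
private theorem main_E {h n2 β P Q r1 re N0 T : ℕ}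
    (H : ChoiceHyp h n2 β P Q (P + 1) 1 r1 re N0) (hQ : Q ≤ h) (hP : n2 + β + P + 3 ≤ h)
    (h1 : ¬ (n2 + β + r1 + 2 ≤ Q - 1 ∧ T = Q - 1)) (h2 : ¬ (Q - 1 ≤ n2 + β + r1 ∧ T = Q - 1 + 2))
    (hT : 3 ≤ T) (hT1 : T + r1 ≤ h + 3 + N0 + n2) (hT2 : h + 3 + N0 ≤ T + r1 + β)
    (hT3 : (n2 + β + r1 < Q - 1 ∧ T ≤ n2 + β + h + 3) ∨
      (Q - 1 ≤ n2 + β + r1 ∧ T ≤ n2 + β + h + 4)) :
    ∃ a b w y ν, Choice h n2 β P Q (P + 1) 1 r1 re N0 a b w y ν := by
  have hPQ := H.hPQ
  obtain ⟨y, a, b, hab, y1, hf, hb⟩ := pickE h1 h2 hT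
  exact choice_G2 H hab (by omega) (by omega) (Or.inl ⟨rfl, rfl, by omega⟩) rfl (by omega)
    (by omega)

/-- second gap mode, `q` odd, for a given shift: `T + r1 = h + 3 + N0 + d` -/
private theorem main_O {h n2 β P Q r1 re N0 T : ℕ}
    (H : ChoiceHyp h n2 β P Q 1 (Q + 1) r1 re N0) (hP : P ≤ h + 1) (hQ : n2 + β + Q + 3 ≤ h)
    (h1 : ¬ (n2 + β + r1 + 1 ≤ P ∧ T = P + 1)) (h2 : ¬ (P + 1 ≤ n2 + β + r1 ∧ T = P + 3))
    (hT : 3 ≤ T) (hT1 : T + r1 ≤ h + 3 + N0 + n2) (hT2 : h + 3 + N0 ≤ T + r1 + β)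
    (hT3 : (n2 + β + r1 < P ∧ T ≤ n2 + β + h + 3) ∨
      (P ≤ n2 + β + r1 ∧ T ≤ n2 + β + h + 4)) :
    ∃ a b w y ν, Choice h n2 β P Q 1 (Q + 1) r1 re N0 a b w y ν := by
  have hPQ := H.hPQ
  have hr1 := H.hr1
  obtain ⟨y, ν, a, b, hab, y1, hν, hn, hf, hb, hb2⟩ :=
    pickO (ro := 1) (rE := Q + 1) (n2 := n2) (β := β) (P := P) (Q := Q) rfl rfl (by omega)
      (by omega) h1 h2 hT
  exact choice_G2 H hab (by omega) (by omega) hn rfl (by omega) (by omega)

theorem exists_choice {h n2 β P Q ro rE r1 re N0 : ℕ}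
    (H : ChoiceHyp h n2 β P Q ro rE r1 re N0) :
    ∃ a b w y ν, Choice h n2 β P Q ro rE r1 re N0 a b w y ν := by
  have hβ := H.hβ
  have hPQ := H.hPQ
  have hN0 := H.hN
  have hr1 := H.hr1
  rcases H.hq with ⟨rfl, rfl, hQ, hP⟩ | ⟨rfl, rfl, hP, hQ, hx1, hx2⟩
  · -- `q` even
    rcases Nat.lt_or_ge (n2 + β + r1) (Q - 1) with c1 | c1
    · rcases Nat.lt_or_ge N0 (n2 + β + r1) with c2 | c2
      · by_cases f : n2 + β + r1 + 2 ≤ Q - 1 ∧ h + 3 + N0 = Q - 1 + r1
        · rcases Nat.lt_or_ge 0 n2 with d1 | d1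
          · exact main_E (T := h + 4 + N0 - r1) H hQ hP (by omega) (by omega) (by omega)
              (by omega) (by omega) (by omega)
          · rcases Nat.lt_or_ge 0 β with d2 | d2
            · exact main_E (T := h + 2 + N0 - r1) H hQ hP (by omega) (by omega) (by omega)
                (by omega) (by omega) (by omega)
            · obtain rfl : n2 = 0 := by omega
              obtain rfl : β = 0 := by omega
              exact main_DE H hQ (by omega) (by omega) (by omega)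
        · exact main_E (T := h + 3 + N0 - r1) H hQ hP (by omega) (by omega) (by omega)
            (by omega) (by omega) (by omega)
      · exact choice_G1 (ν := Q - 1) H (Or.inl ⟨rfl, rfl, by omega⟩) (Or.inl ⟨c1, rfl⟩) c2
    · rcases Nat.lt_or_ge N0 (n2 + β + r1 + 1) with c2 | c2
      · by_cases f : h + 3 + N0 = Q + 1 + r1
        · rcases Nat.lt_or_ge 0 n2 with d1 | d1
          · exact main_E (T := h + 4 + N0 - r1) H hQ hP (by omega) (by omega) (by omega)
              (by omega) (by omega) (by omega)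
          · rcases Nat.lt_or_ge 0 β with d2 | d2
            · exact main_E (T := h + 2 + N0 - r1) H hQ hP (by omega) (by omega) (by omega)
                (by omega) (by omega) (by omega)
            · obtain rfl : n2 = 0 := by omega
              obtain rfl : β = 0 := by omega
              rcases Nat.lt_or_ge h r1 with d3 | d3
              · obtain rfl : r1 = h + 1 := by omega
                have v1 := lw2_le (N0 + 1) (h + 3) (0 + 0 + (P + 1))
                have v2 := le_lw2 (N0 + 1) (h + 3) (0 + 0 + (P + 1))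
                refine choice_M (ν := 2 * h + 2 - lw2 (N0 + 1) (h + 3) (0 + 0 + (P + 1))) H
                  (by omega) ?_ (by omega)
                rcases Nat.lt_or_ge P N0 with d4 | d4
                · rw [lw2_0 (by omega) (by omega)]
                  omega
                · rw [lw2_1 (by omega) (by omega)]
                  omega
              · exact main_DE H hQ (by omega) (by omega) (by omega)
        · exact main_E (T := h + 3 + N0 - r1) H hQ hP (by omega) (by omega) (by omega)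
            (by omega) (by omega) (by omega)
      · exact choice_G1 (ν := Q - 1) H (Or.inl ⟨rfl, rfl, by omega⟩) (Or.inr ⟨c1, rfl⟩) c2
  · -- `q` odd
    rcases Nat.lt_or_ge (n2 + β + r1) P with c1 | c1
    · rcases Nat.lt_or_ge N0 (n2 + β + r1) with c2 | c2
      · by_cases f : h + 2 + N0 = P + r1
        · rcases Nat.lt_or_ge 0 n2 with d1 | d1
          · exact main_O (T := h + 4 + N0 - r1) H hP hQ (by omega) (by omega) (by omega)
              (by omega) (by omega) (by omega)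
          · rcases Nat.lt_or_ge 0 β with d2 | d2
            · exact main_O (T := h + 2 + N0 - r1) H hP hQ (by omega) (by omega) (by omega)
                (by omega) (by omega) (by omega)
            · obtain rfl : n2 = 0 := by omega
              obtain rfl : β = 0 := by omega
              exact main_DO H (by omega) hP (by omega) hx2 (by omega)
        · exact main_O (T := h + 3 + N0 - r1) H hP hQ (by omega) (by omega) (by omega)
            (by omega) (by omega) (by omega)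
      · exact choice_G1 (ν := P) H (Or.inr ⟨rfl, rfl, rfl⟩) (Or.inl ⟨c1, rfl⟩) c2
    · rcases Nat.lt_or_ge N0 (n2 + β + r1 + 1) with c2 | c2
      · by_cases f : P + 1 ≤ n2 + β + r1 ∧ h + N0 = P + r1
        · rcases Nat.lt_or_ge 0 n2 with d1 | d1
          · exact main_O (T := h + 4 + N0 - r1) H hP hQ (by omega) (by omega) (by omega)
              (by omega) (by omega) (by omega)
          · rcases Nat.lt_or_ge 0 β with d2 | d2
            · exact main_O (T := h + 2 + N0 - r1) H hP hQ (by omega) (by omega) (by omega)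
                (by omega) (by omega) (by omega)
            · obtain rfl : n2 = 0 := by omega
              obtain rfl : β = 0 := by omega
              rcases Nat.lt_or_ge h r1 with d3 | d3
              · obtain rfl : r1 = h + 1 := by omega
                refine choice_M (ν := 2 * h + 1 - Q) H (by omega) (by omega) ?_
                rw [lw2_0 (by omega) (by omega)]
                omega
              · exact main_DO H (by omega) hP (by omega) hx2 (by omega)
        · exact main_O (T := h + 3 + N0 - r1) H hP hQ (by omega) (by omega) (by omega)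
            (by omega) (by omega) (by omega)
      · exact choice_G1 (ν := P) H (Or.inr ⟨rfl, rfl, rfl⟩) (Or.inr ⟨c1, rfl⟩) c2

end Pool.Agent.Lob89
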