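import Mathlib

/-!
The choice of the two inserted labels in the pure class, `K` even, regime 1, with a special leaf.
-/

namespace Pool.Agent.Lob89

/-- The `v`-th positive number different from `a` and `b` (`a < b`). -/
def lw2 (a b v : ℕ) : ℕ := v + (if a ≤ v then 1 else 0) + (if b ≤ v + 1 then 1 else 0)

/-- The arithmetic facts about a special leaf at the seam. `P`, `Q` are the numbers of bad odd and
bad even edges, `ro`, `rE` the ranks of the odd and the even edge at the seam, `r1` and `re` the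
ranks of the first and of the last edge of the odd path, `N0` the number of loaded vertices. -/
structure ChoiceHyp (h n2 β P Q ro rE r1 re N0 : ℕ) : Prop where
  hβ : β ≤ 1
  hPQ : h + 1 ≤ P + Q
  hq : (ro = P + 1 ∧ rE = 1 ∧ Q ≤ h ∧ n2 + β + P + 3 ≤ h) ∨
    (ro = 1 ∧ rE = Q + 1 ∧ P ≤ h + 1 ∧ n2 + β + Q + 3 ≤ h ∧
      ¬ (P = h ∧ r1 = h + 1) ∧ ¬ (P = h + 1 ∧ r1 = h))
  hN : n2 + 1 ≤ N0
  hr1 : 1 ≤ r1 ∧ r1 ≤ h + 1
  hre : 1 ≤ re ∧ re ≤ h + 1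
  hrel : (r1 ≤ P ∧ re = r1 + 1 ∧ re ≤ P) ∨ (P < r1 ∧ P < re ∧ re + 1 = r1) ∨
    (r1 ≤ P ∧ P < re) ∨ (P < r1 ∧ re ≤ P)

/-- A valid choice: `y` is the label of the leaf at the fat end, `ν` the label of the special
leaf, `w + 1` the first label of the middle zone; `n' = n2 + β`. -/
structure Choice (h n2 β P Q ro rE r1 re N0 a b w y ν : ℕ) : Prop where
  ab : a < b
  loww : lw2 a b (n2 + β + (h + 1)) ≤ w
  wS : w ≤ n2 + β + h + 2 + N0
  y_mem : 1 ≤ y ∧ y ≤ n2 + β + h + 2 + N0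
  ν_mem : 1 ≤ ν ∧ ν ≤ n2 + β + h + 2 + N0
  ne : ν ≠ y
  y_new : y = a ∨ y = b ∨ w < y
  ν_new : ν = a ∨ ν = b ∨ w < ν
  card : w + (if w < y then 1 else 0) + (if w < ν then 1 else 0) = n2 + β + h + 3
  gap : lw2 a b (n2 + β + ro) + rE + ν = w + h + 1 ∨
    (lw2 a b (n2 + β + P) + Q < lw2 a b (n2 + β + ro) + rE + ν ∧
      lw2 a b (n2 + β + ro) + rE + ν < lw2 a b (n2 + β + (P + 1)) + (Q + 1) ∧
      lw2 a b (n2 + β + ro) + rE + ν ≤ w + h + 1)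
  fat : (n2 + β + h + 2 + N0 < β * lw2 a b 1 + y + lw2 a b (n2 + β + r1) ∧
      y + lw2 a b (n2 + β + r1) ≤ n2 + β + h + 2 + N0 + 1 + n2) ∨
    ∃ r, 1 ≤ r ∧ r ≤ h + 1 ∧ r ≠ re ∧
      β * lw2 a b 1 + y + lw2 a b (n2 + β + r1) = lw2 a b (n2 + β + r)

end Pool.Agent.Lob89
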