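import Pool.Agent.Lob89.PureR1ab
import Pool.Agent.Lob89.Walk3

/-!
The pure class, `k` odd.
-/

namespace Pool.Agent.Lob89

open Finset

set_option linter.unusedSectionVars false

section walks

variable {k h q : ℕ} {ld : ℕ → Prop} {G : ℕ → Bool}

lemma Win.next_down (hW : Win k h q ld G) {i : ℕ} (hi : i < k) (hG : G (i + 1) = false)
    (hw : walk G i < walk G k) :
    ∃ z, i < z ∧ z < k ∧ ld z ∧ walk G z < walk G i ∧ G z = false := by
  by_contra hno
  push Not at hno
  have key : ∀ j, i + 1 ≤ j → j ≤ k → G j = false ∧ walk G j < walk G i := by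
    intro j hj
    induction j, hj using Nat.le_induction with
    | base =>
      intro _
      refine ⟨hG, ?_⟩
      rw [walk_succ, hG]
      simp
    | succ j hj ih =>
      intro hjk
      obtain ⟨a, b⟩ := ih (by omega)
      have hnl : ¬ ld j := fun hl => hno j (by omega) (by omega) hl b a
      have h5 := hW.eq_of_not (by omega) (by omega) hnl
      rw [a] at h5
      refine ⟨h5.symm, ?_⟩
      rw [walk_succ, ← h5]
      simp
      omega
  have := (key k (by omega) le_rfl).2
  omega

lemma Win.prev_down (hW : Win k h q ld G) {i : ℕ} (hi : i ≤ k) (hG : G i = true)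
    (hi0 : 1 ≤ i) (hw : walk G i < 0) :
    ∃ z, 1 ≤ z ∧ z < i ∧ ld z ∧ walk G z < walk G i ∧ G (z + 1) = true := by
  by_contra hno
  push Not at hno
  have key : ∀ m j, j + m + 1 = i → G (j + 1) = true ∧ walk G j < walk G i := by
    intro m
    induction m with
    | zero =>
      intro j hj
      have h1 : j + 1 = i := by omega
      refine ⟨by rw [h1]; exact hG, ?_⟩
      have h2 := walk_succ G j
      rw [h1, hG] at h2
      rw [h2]
      simp
    | succ m ih =>
      intro j hj
      obtain ⟨a, b⟩ := ih (j + 1) (by omega)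
      have hnl : ¬ ld (j + 1) := fun hl => hno (j + 1) (by omega) (by omega) hl b a
      have h5 := hW.eq_of_not (by omega) (by omega) hnl
      rw [a] at h5
      refine ⟨h5, ?_⟩
      have h2 := walk_succ G j
      rw [h5] at h2
      simp at h2
      omega
  have := (key (i - 1) 0 (by omega)).2
  have h0 : walk G 0 = 0 := rfl
  omega

lemma oddRank_eq (k q : ℕ) (G : ℕ → Bool) (i : ℕ) :
    oddRank k q G i = rank k q G (oddE i) := by
  unfold oddRank oddE
  split_ifs <;> rfl

/-- If the seam is a minimum then the other colour is not exhausted. -/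
lemma Win.min_bounds (hW : Win k h q ld G) (hq : ld q) (g2 : G (q + 1) = true) :
    (q % 2 = 0 → cnt k q G false 1 k + 1 ≤ h + 1) ∧ (q % 2 = 1 → cnt k q G false 0 k + 1 ≤ h) := by
  have hqk := hW.q_lt
  have hm := hW.ld_mem q hq
  have t1 := tot_odd (G := G) hW.k_eq hqk
  have t2 := tot_even (G := G) hW.k_eq hqk
  have h1 := cnt_lt hqk G (show 1 ≤ q + 1 by omega) (show q + 1 ≤ k by omega)
    (wtime_lt hqk (show 1 ≤ q + 1 by omega) (show q + 1 ≤ k by omega))
  rw [g2] at h1
  constructor
  · intro hp
    rw [show (q + 1) % 2 = 1 by omega] at h1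
    omega
  · intro hp
    rw [show (q + 1) % 2 = 0 by omega] at h1
    omega

lemma Win.junc_q_le (hW : Win k h q ld G) (hq : ld q) (g1 : G q = false) (g2 : G (q + 1) = true) :
    junc k q G q ≤ h + 2 := by
  have := hW.junc_q hq g1 g2
  have := hW.min_bounds hq g2
  omega

lemma Win.junc_q_max (hW : Win k h q ld G) (hq : ld q) (g1 : G q = true) (g2 : G (q + 1) = false) :
    (q % 2 = 0 ∧ junc k q G q = h + cnt k q G false 1 k) ∨
    (q % 2 = 1 ∧ junc k q G q = h + 1 + cnt k q G false 0 k) := by
  have hqk := hW.q_lt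
  have hm := hW.ld_mem q hq
  have t1' := tot_odd (G := G) hW.k_eq hqk
  have t2' := tot_even (G := G) hW.k_eq hqk
  have a1 := rank_good (k := k) (q := q) g1
  have a2 := rank_mem_bad hqk (show 1 ≤ q + 1 by omega) (show q + 1 ≤ k by omega) g2
  have t1 : wtime k q q = k - 1 := by unfold wtime; rw [if_neg (lt_irrefl _)]; omega
  have t2 : wtime k q (q + 1) = 0 := by unfold wtime; rw [if_pos (by omega)]; omega
  rw [t1] at a1
  rw [t2, cnt_zero] at a2
  have a3 := cnt_self hqk G hm.1 hm.2.le true (q % 2)
  rw [t1, if_pos ⟨g1, rfl⟩, Nat.sub_add_cancel (by omega)] at a3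
  unfold junc
  rcases Nat.mod_two_eq_zero_or_one q with hp | hp
  · left
    have hp' : (q + 1) % 2 = 1 := by omega
    rw [hp] at a1 a3
    rw [hp'] at a2
    omega
  · right
    have hp' : (q + 1) % 2 = 0 := by omega
    rw [hp] at a1 a3
    rw [hp'] at a2
    omega

/-- A maximal seam against a minimum. -/
lemma Win.max_min (hW : Win k h q ld G) (hq : ld q) (g1 : G q = true) (g2 : G (q + 1) = false)
    {z : ℕ} (hz : ld z) (hzq : z ≠ q) (g3 : G z = false) (g4 : G (z + 1) = true) :
    junc k q G q ≤ h + junc k q G z := by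
  have hqk := hW.q_lt
  have hm := hW.ld_mem z hz
  have h1 := hW.junc_q_max hq g1 g2
  obtain ⟨d, hd, ho⟩ := cnt_om (G := G) hW.k_eq hqk hm.1 hm.2 hzq
  have m1 := cnt_last (G := G) hqk hm.1 hm.2 hzq false 1
  have m2 := cnt_last (G := G) hqk hm.1 hm.2 hzq false 0
  rcases Nat.mod_two_eq_zero_or_one z with hp | hp
  · have := junc_min_even hqk hm.1 hm.2 hzq g3 g4 hp
    rw [hp] at ho
    omega
  · have := junc_min_odd hqk hm.1 hm.2 hzq g3 g4 hp
    rw [hp] at ho
    omega

end walks

variable {Lf B BL : Type*} [Fintype Lf] [Fintype B] [Fintype BL] [DecidableEq B]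

/-- Regime 1: no special vertex, the tops are sorted. -/
theorem pure_sorted {k h q : ℕ} {la : Lf → ℕ} {ba : B → ℕ} {par : BL → B}
    {last : B → BL} {two : B → Prop} [DecidablePred two] {G : ℕ → Bool}
    (hd : LobData k la ba par) (hP : PureData la ba par last two)
    (hW : Win k h q (Loaded la ba) G)
    (hA : ∀ x, h ≤ Fintype.card {b // two b} + junc k q G (la x))
    (hZ : ∀ b, Fintype.card B ≤ junc k q G (ba b))
    (hAZ : ∀ x b, junc k q G (la x) ≤ h + junc k q G (ba b)) :
    HasLabels k la ba par := by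
  obtain ⟨τ, hτ1, _, hτ3, hτ4⟩ := greedy (fun b => junc k q G (ba b))
    (Finset.Icc 1 (Fintype.card B)) (by rw [Nat.card_Icc]; omega)
  have hτ1' : ∀ b, 1 ≤ τ b ∧ τ b ≤ Fintype.card B := fun b => Finset.mem_Icc.1 (hτ1 b)
  refine regime_one_a hd hP hW.rankBase (Or.inl hA) τ hτ1' hτ3 hτ4 ?_ ?_
  · intro b
    have h1 := hZ b
    have h2 := hτ1' b
    show _ < junc k q G (ba b) + τ b
    omega
  · intro x b _
    have h1 := hAZ x b
    have h2 := hτ1' b
    show junc k q G (la x) < h + (junc k q G (ba b) + τ b)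
    omega

/-- Regime 1: a special leaf at the seam. -/
theorem pure_special {k h q : ℕ} {la : Lf → ℕ} {ba : B → ℕ} {par : BL → B}
    {last : B → BL} {two : B → Prop} [DecidablePred two] {G : ℕ → Bool}
    (hd : LobData k la ba par) (hP : PureData la ba par last two)
    (hW : Win k h q (Loaded la ba) G) (hneg : walk G k < 0)
    (x0 : Lf) (hx0 : la x0 = q) (g1 : G q = false) (g2 : G (q + 1) = true)
    (hsp : Fintype.card {b // two b} + junc k q G q < h)
    (hA : ∀ x, x ≠ x0 → h + 1 ≤ junc k q G (la x))
    (hs : Fintype.card B < h)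
    (hZ : ∀ b, Fintype.card B ≤ junc k q G (ba b)) :
    HasLabels k la ba par := by
  have hlq : Loaded la ba q := Or.inl ⟨x0, hx0⟩
  have hbq : ∀ b, ba b ≠ q := fun b hb => hP.la_ne_ba x0 b (hx0.trans hb.symm)
  have hlx : ∀ x, x ≠ x0 → la x ≠ q := fun x hx hxq => hx (hP.la_inj (hxq.trans hx0.symm))
  have hpair : ∀ x b, x ≠ x0 → junc k q G (la x) + 1 ≤ h + junc k q G (ba b) := by
    intro x b hx
    have h1 := hW.pair (Or.inl ⟨x, rfl⟩) (hlx x hx) (Or.inr ⟨b, rfl⟩) (hbq b) (hP.la_ne_ba x b)
    have h2 : 0 < Fintype.card B := Fintype.card_pos_iff.2 ⟨b⟩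
    have h3 := h1.2 (by omega)
    omega
  by_cases hM : h + 1 ≤ Fintype.card {b // two b} + junc k q G q + (Fintype.card Lf + Fintype.card B)
  · obtain ⟨τ, hτ1, _, hτ3, hτ4⟩ := greedy (fun b => junc k q G (ba b))
      (Finset.Icc 1 (Fintype.card B)) (by rw [Nat.card_Icc]; omega)
    have hτ1' : ∀ b, 1 ≤ τ b ∧ τ b ≤ Fintype.card B := fun b => Finset.mem_Icc.1 (hτ1 b)
    refine regime_one_a hd hP hW.rankBase (Or.inr ⟨x0, ?_, ?_, ?_⟩) τ hτ1' hτ3 hτ4 ?_ ?_
    · rw [hx0]; exact hsp
    · rw [hx0]; exact hM
    · intro x hx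
      have h1 : h + 1 ≤ junc k q G (la x) := hA x hx
      show h + 1 ≤ _ + junc k q G (la x)
      omega
    · intro b
      have h1 := hZ b
      have h2 := hτ1' b
      show _ < junc k q G (ba b) + τ b
      omega
    · intro x b hx
      have hne : x ≠ x0 := by
        rintro rfl
        rw [hx0] at hx
        have : h ≤ Fintype.card {b // two b} + junc k q G q := hx
        omega
      have h1 := hpair x b hne
      show junc k q G (la x) < h + (junc k q G (ba b) + τ b)
      omega
  · have hB := hW.two_bad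
    have hk := hW.k_eq
    have t1 := tot_odd (G := G) hk hW.q_lt
    have t2 := tot_even (G := G) hk hW.q_lt
    refine regime_one_b hd hP hW.rankBase x0 ?_ hA (cnt k q G false 1 k) (cnt k q G false 0 k)
      (by omega) (by omega) (by omega) ?_ ?_ ?_ hZ hpair
    · rw [hx0]
      show _ + junc k q G q + _ < _
      omega
    · intro i h1 h2 h3
      have := hW.unloaded h1 h2 h3
      rw [oddRank_eq] at this
      exact this
    · intro i j h1 h2 h3 h4 h5 h6 h7
      have := hW.comp h1 h2 h5 h3 h4 h6 h7
      rw [oddRank_eq, oddRank_eq] at this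
      exact this
    · rw [hx0, ← oddRank_eq]
      have h1 := hW.min_bounds hlq g2
      rcases hW.junc_q hlq g1 g2 with ⟨h2, h3, h4⟩ | ⟨h2, h3, h4⟩
      · exact Or.inl ⟨h3, h4, h1.1 h2⟩
      · exact Or.inr ⟨h3, h4, h1.2 h2⟩

/-- Regime 1, at most two bushes. -/
theorem pure_odd_few {k h : ℕ} {la : Lf → ℕ} {ba : B → ℕ} {par : BL → B}
    {last : B → BL} {two : B → Prop} [DecidablePred two]
    (hd : LobData k la ba par) (hP : PureData la ba par last two) (hk : k = 2 * h + 1)
    (hs : Fintype.card B < h) (hs2 : Fintype.card B ≤ 2) :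
    HasLabels k la ba par := by
  have hld : ∀ i, Loaded la ba i → 1 ≤ i ∧ i < k := by
    rintro i (⟨x, rfl⟩ | ⟨b, rfl⟩)
    · exact ⟨hd.la_pos x, by have := hd.la_lt x; omega⟩
    · exact ⟨by have := hd.ba_pos b; omega, by have := hd.ba_lt b; omega⟩
  obtain ⟨G, hG1, hG2⟩ := exists_colour hk (Loaded la ba)
  have hW0 : Win k h 0 (Loaded la ba) G := ⟨hk, by omega, hld, hG1, Or.inl rfl⟩
  have hlA : ∀ x, Loaded la ba (la x) := fun x => Or.inl ⟨x, rfl⟩
  have hlZ : ∀ b, Loaded la ba (ba b) := fun b => Or.inr ⟨b, rfl⟩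
  by_cases hall : ∀ x, h ≤ Fintype.card {b // two b} + junc k 0 G (la x)
  · refine pure_sorted hd hP hW0 hall ?_ ?_
    · intro b
      have := hld _ (hlZ b)
      have h1 : 2 ≤ junc k 0 G (ba b) := (hW0.rankBase.J_bounds this.1 this.2).1
      omega
    · intro x b
      have h1 := hld _ (hlZ b)
      have h2 := hld _ (hlA x)
      have := (hW0.pair (hlA x) (by omega) (hlZ b) (by omega) (hP.la_ne_ba x b)).1
      omega
  · push Not at hall
    obtain ⟨x1, hx1⟩ := hall
    have hx1' : walk G (la x1) < walk G k := by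
      by_contra hc
      have h1 := hld _ (hlA x1)
      have := hW0.big hG2 (hlA x1) (by omega) (Or.inl ⟨rfl, by omega⟩)
      omega
    obtain ⟨q, hS⟩ := seam_of_colour hk (Loaded la ba) (fun i => ∃ x, la x = i) hld
      (fun i hi => Or.inl hi) G hG1 hG2
    rcases hS.cases with ⟨_, h1⟩ | ⟨⟨x0, hx0⟩, hqk, hmin⟩
    · have := h1 _ ⟨x1, rfl⟩
      omega
    have hW := hS.toWin
    have hlq : Loaded la ba q := Or.inl ⟨x0, hx0⟩
    have hqm := hld q hlq
    have hbq : ∀ b, ba b ≠ q := fun b hb => hP.la_ne_ba x0 b (hx0.trans hb.symm)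
    have hlx : ∀ x, x ≠ x0 → la x ≠ q := fun x hx hxq => hx (hP.la_inj (hxq.trans hx0.symm))
    have hA : ∀ x, x ≠ x0 → h + 1 ≤ junc k q G (la x) := fun x hx =>
      hS.big (hlA x) ⟨x, rfl⟩ (hlx x hx)
    have hZ : ∀ b, Fintype.card B ≤ junc k q G (ba b) := by
      intro b
      have := hld _ (hlZ b)
      have h1 : 2 ≤ junc k q G (ba b) := (hW.rankBase.J_bounds this.1 this.2).1
      omega
    have hZ2 : ∀ b, 2 ≤ junc k q G (ba b) := by
      intro b
      have := hld _ (hlZ b)
      exact (hW.rankBase.J_bounds this.1 this.2).1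
    have hneq := (hG1 q hqm.1 hqm.2).1 hlq
    cases g1 : G q
    · -- minimum
      have g2 : G (q + 1) = true := by
        cases hc : G (q + 1)
        · exact absurd (g1.trans hc.symm) hneq
        · rfl
      by_cases hsp : Fintype.card {b // two b} + junc k q G q < h
      · exact pure_special hd hP hW hG2 x0 hx0 g1 g2 hsp hA hs hZ
      · refine pure_sorted hd hP hW ?_ hZ ?_
        · intro x
          by_cases hx : x = x0
          · rw [hx, hx0]; omega
          · have := hA x hx
            omega
        · intro x b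
          by_cases hx : x = x0
          · rw [hx, hx0]
            have h1 := hW.junc_q_le hlq g1 g2
            have h2 := hZ2 b
            omega
          · have := (hW.pair (hlA x) (hlx x hx) (hlZ b) (hbq b) (hP.la_ne_ba x b)).1
            omega
    · -- maximum
      have g2 : G (q + 1) = false := by
        cases hc : G (q + 1)
        · rfl
        · exact absurd (g1.trans hc.symm) hneq
      have hjq := hW.junc_q_max hlq g1 g2
      obtain ⟨z1, hz1, hz1k, hz1l, hz1w, hz1G⟩ := hW.next_down hqm.2 g2 hqk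
      obtain ⟨z2, hz2, hz2q, hz2l, hz2w, hz2G⟩ := hW.prev_down hqm.2.le g1 hqm.1 (by omega)
      have hz1Z : ∃ b, ba b = z1 := by
        rcases hz1l with hx | hb
        · have := (hmin z1 hx).1
          omega
        · exact hb
      have hz2Z : ∃ b, ba b = z2 := by
        rcases hz2l with hx | hb
        · have := (hmin z2 hx).1
          omega
        · exact hb
      obtain ⟨b1, hb1⟩ := hz1Z
      obtain ⟨b2, hb2⟩ := hz2Z
      have hb12 : b1 ≠ b2 := by
        rintro rfl
        omega
      have hbb : ∀ b, b = b1 ∨ b = b2 := by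
        intro b
        by_contra hc
        push Not at hc
        have h3 : ({b, b1, b2} : Finset B).card = 3 := by
          rw [Finset.card_insert_of_notMem, Finset.card_insert_of_notMem, Finset.card_singleton]
          · simp [hb12]
          · simp [hc.1, hc.2]
        have h4 := Finset.card_le_univ ({b, b1, b2} : Finset B)
        omega
      have hminZ : ∀ b, junc k q G q ≤ h + junc k q G (ba b) := by
        intro b
        have hm := hld _ (hlZ b)
        have hne := (hG1 _ hm.1 hm.2).1 (hlZ b)
        rcases hbb b with rfl | rfl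
        · rw [hb1] at hne ⊢
          refine hW.max_min hlq g1 g2 (by rw [← hb1]; exact hlZ _) (by omega) hz1G ?_
          cases hc : G (z1 + 1)
          · exact absurd (hz1G.trans hc.symm) hne
          · rfl
        · rw [hb2] at hne ⊢
          refine hW.max_min hlq g1 g2 (by rw [← hb2]; exact hlZ _) (by omega) ?_ hz2G
          cases hc : G z2
          · rfl
          · exact absurd (hc.trans hz2G.symm) hne
      refine pure_sorted hd hP hW ?_ hZ ?_
      · intro x
        by_cases hx : x = x0
        · rw [hx, hx0]; omega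
        · have := hA x hx
          omega
      · intro x b
        by_cases hx : x = x0
        · rw [hx, hx0]
          exact hminZ b
        · have := (hW.pair (hlA x) (hlx x hx) (hlZ b) (hbq b) (hP.la_ne_ba x b)).1
          omega

/-- Regime 1, at least three bushes. -/
theorem pure_odd_many {k h : ℕ} {la : Lf → ℕ} {ba : B → ℕ} {par : BL → B}
    {last : B → BL} {two : B → Prop} [DecidablePred two]
    (hd : LobData k la ba par) (hP : PureData la ba par last two) (hk : k = 2 * h + 1)
    (hs : Fintype.card B < h) (hs3 : 3 ≤ Fintype.card B) :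
    HasLabels k la ba par := by
  classical
  have hld : ∀ i, Loaded la ba i → 1 ≤ i ∧ i < k := by
    rintro i (⟨x, rfl⟩ | ⟨b, rfl⟩)
    · exact ⟨hd.la_pos x, by have := hd.la_lt x; omega⟩
    · exact ⟨by have := hd.ba_pos b; omega, by have := hd.ba_lt b; omega⟩
  obtain ⟨G, hG1, hG2⟩ := exists_colour hk (Loaded la ba)
  obtain ⟨q, hS⟩ := seam_of_colour hk (Loaded la ba) (Loaded la ba) hld
    (fun i hi => hi) G hG1 hG2
  have hW := hS.toWin
  have hlA : ∀ x, Loaded la ba (la x) := fun x => Or.inl ⟨x, rfl⟩
  have hlZ : ∀ b, Loaded la ba (ba b) := fun b => Or.inr ⟨b, rfl⟩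
  have hbig : ∀ i, Loaded la ba i → i ≠ q → h + 1 ≤ junc k q G i := fun i hi hiq => hS.big hi hi hiq
  by_cases hqA : ∃ x0, la x0 = q
  · obtain ⟨x0, hx0⟩ := hqA
    have hlq : Loaded la ba q := Or.inl ⟨x0, hx0⟩
    obtain ⟨g1, g2⟩ := hS.min hlq
    have hbq : ∀ b, ba b ≠ q := fun b hb => hP.la_ne_ba x0 b (hx0.trans hb.symm)
    have hlx : ∀ x, x ≠ x0 → la x ≠ q := fun x hx hxq => hx (hP.la_inj (hxq.trans hx0.symm))
    have hA : ∀ x, x ≠ x0 → h + 1 ≤ junc k q G (la x) := fun x hx => hbig _ (hlA x) (hlx x hx)
    have hZ : ∀ b, Fintype.card B ≤ junc k q G (ba b) := by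
      intro b
      have := hbig _ (hlZ b) (hbq b)
      omega
    by_cases hsp : Fintype.card {b // two b} + junc k q G q < h
    · exact pure_special hd hP hW hG2 x0 hx0 g1 g2 hsp hA hs hZ
    · refine pure_sorted hd hP hW ?_ hZ ?_
      · intro x
        by_cases hx : x = x0
        · rw [hx, hx0]; omega
        · have := hA x hx
          omega
      · intro x b
        by_cases hx : x = x0
        · rw [hx, hx0]
          have h1 := hW.junc_q_le hlq g1 g2
          have h2 := hbig _ (hlZ b) (hbq b)
          omega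
        · have := (hW.pair (hlA x) (hlx x hx) (hlZ b) (hbq b) (hP.la_ne_ba x b)).1
          omega
  · have hxq : ∀ x, la x ≠ q := fun x hx => hqA ⟨x, hx⟩
    have hA : ∀ x, h ≤ Fintype.card {b // two b} + junc k q G (la x) := by
      intro x
      have := hbig _ (hlA x) (hxq x)
      omega
    by_cases hqZ : ∃ b0, ba b0 = q
    · obtain ⟨b0, hb0⟩ := hqZ
      have hlq : Loaded la ba q := Or.inr ⟨b0, hb0⟩
      obtain ⟨g1, g2⟩ := hS.min hlq
      have hbq : ∀ b, b ≠ b0 → ba b ≠ q := fun b hb hbq => hb (hP.ba_inj (hbq.trans hb0.symm))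
      have hZ' : ∀ b, b ≠ b0 → h + 1 ≤ junc k q G (ba b) := fun b hb => hbig _ (hlZ b) (hbq b hb)
      by_cases hsmall : ∃ b1, b1 ≠ b0 ∧ junc k q G (ba b1) ≤ junc k q G q
      · obtain ⟨b1, hb1, hb1'⟩ := hsmall
        have h1 := hZ' b1 hb1
        refine pure_sorted hd hP hW hA ?_ ?_
        · intro b
          by_cases hb : b = b0
          · rw [hb, hb0]; omega
          · have := hZ' b hb
            omega
        · intro x b
          by_cases hb : b = b0
          · rw [hb, hb0]
            have := (hW.pair (hlA x) (hxq x) (hlZ b1) (hbq b1 hb1) (hP.la_ne_ba x b1)).1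
            omega
          · have := (hW.pair (hlA x) (hxq x) (hlZ b) (hbq b hb) (hP.la_ne_ba x b)).1
            omega
      · push Not at hsmall
        -- the smallest other junction
        obtain ⟨b1, hb1, hb1min⟩ : ∃ b1, b1 ≠ b0 ∧
            ∀ b, b ≠ b0 → junc k q G (ba b1) ≤ junc k q G (ba b) := by
          have hne : (Finset.univ.erase b0 : Finset B).Nonempty := by
            rw [← Finset.card_pos, Finset.card_erase_of_mem (Finset.mem_univ _), Finset.card_univ]
            omega
          obtain ⟨b1, h1, h2⟩ := Finset.exists_min_image _ (fun b => junc k q G (ba b)) hne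
          exact ⟨b1, Finset.ne_of_mem_erase h1, fun b hb =>
            h2 b (Finset.mem_erase.2 ⟨hb, Finset.mem_univ _⟩)⟩
        have hlt := hsmall b1 hb1
        obtain ⟨t, ht1, ht2, ht3⟩ : ∃ t, 1 ≤ t ∧ t ≤ Fintype.card B ∧
            (junc k q G q + t = junc k q G (ba b1) ∨
              (t = Fintype.card B ∧ junc k q G q + t ≤ junc k q G (ba b1))) := by
          by_cases hc : junc k q G (ba b1) - junc k q G q ≤ Fintype.card B
          · exact ⟨junc k q G (ba b1) - junc k q G q, by omega, hc, Or.inl (by omega)⟩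
          · exact ⟨Fintype.card B, by omega, le_rfl, Or.inr ⟨rfl, by omega⟩⟩
        obtain ⟨σ, hσ1, _, hσ3, hσ4⟩ := greedy (E := {b // b ≠ b0}) (fun b => junc k q G (ba b.1))
          ((Finset.Icc 1 (Fintype.card B)).erase t) (by
            rw [Finset.card_erase_of_mem (Finset.mem_Icc.2 ⟨ht1, ht2⟩), Nat.card_Icc]
            rw [Fintype.card_subtype_compl, Fintype.card_subtype_eq]
            omega)
        have hσ : ∀ b, σ b ≠ t ∧ 1 ≤ σ b ∧ σ b ≤ Fintype.card B := by
          intro b
          have := hσ1 b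
          rw [Finset.mem_erase, Finset.mem_Icc] at this
          exact this
        let τ : B → ℕ := fun b => if hb : b = b0 then t else σ ⟨b, hb⟩
        have hτ0 : τ b0 = t := dif_pos rfl
        have hτb : ∀ b (hb : b ≠ b0), τ b = σ ⟨b, hb⟩ := fun b hb => dif_neg hb
        refine regime_one_a hd hP hW.rankBase (Or.inl hA) τ ?_ ?_ ?_ ?_ ?_
        · intro b
          by_cases hb : b = b0
          · rw [hb, hτ0]; exact ⟨ht1, ht2⟩
          · rw [hτb b hb]; exact (hσ _).2
        · intro a b hab
          by_cases ha : a = b0 <;> by_cases hb : b = b0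
          · rw [ha, hb]
          · rw [ha, hτ0, hτb b hb] at hab
            exact absurd hab.symm (hσ _).1
          · rw [hb, hτ0, hτb a ha] at hab
            exact absurd hab (hσ _).1
          · rw [hτb a ha, hτb b hb] at hab
            exact congrArg Subtype.val (hσ3 hab)
        · have key : ∀ b, b ≠ b0 → junc k q G (ba b0) + τ b0 < junc k q G (ba b) + τ b := by
            intro b hb
            rw [hb0, hτ0, hτb b hb]
            have h1 := hb1min b hb
            have h2 := (hσ ⟨b, hb⟩).2
            omega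
          intro a b hab
          have hab' : junc k q G (ba a) + τ a = junc k q G (ba b) + τ b := hab
          by_cases ha : a = b0 <;> by_cases hb : b = b0
          · rw [ha, hb]
          · rw [ha] at hab'
            have := key b hb
            omega
          · rw [hb] at hab'
            have := key a ha
            omega
          · rw [hτb a ha, hτb b hb] at hab'
            exact congrArg Subtype.val (hσ4 (a₁ := ⟨a, ha⟩) (a₂ := ⟨b, hb⟩) hab')
        · intro b
          show Fintype.card B < junc k q G (ba b) + τ b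
          by_cases hb : b = b0
          · rw [hb, hτ0, hb0]
            have h1 := hZ' b1 hb1
            have hm := hld q hlq
            have h2 : 2 ≤ junc k q G q := (hW.rankBase.J_bounds hm.1 hm.2).1
            omega
          · have := hZ' b hb
            omega
        · intro x b _
          show junc k q G (la x) < h + (junc k q G (ba b) + τ b)
          by_cases hb : b = b0
          · rw [hb, hτ0, hb0]
            have h1 := (hW.pair (hlA x) (hxq x) (hlZ b1) (hbq b1 hb1) (hP.la_ne_ba x b1)).2 (by omega)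
            have h2 := (hW.le hlq g1 g2 (hlA x) (hxq x)).1
            omega
          · rw [hτb b hb]
            have h1 := (hW.pair (hlA x) (hxq x) (hlZ b) (hbq b hb) (hP.la_ne_ba x b)).1
            have h2 := (hσ ⟨b, hb⟩).2
            omega
    · have hbq : ∀ b, ba b ≠ q := fun b hb => hqZ ⟨b, hb⟩
      refine pure_sorted hd hP hW hA ?_ ?_
      · intro b
        have := hbig _ (hlZ b) (hbq b)
        omega
      · intro x b
        have := (hW.pair (hlA x) (hxq x) (hlZ b) (hbq b) (hP.la_ne_ba x b)).1
        omega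

/-- The pure class, `k` odd. -/
theorem pure_odd {k h : ℕ} {la : Lf → ℕ} {ba : B → ℕ} {par : BL → B}
    {last : B → BL} {two : B → Prop} [DecidablePred two]
    (hd : LobData k la ba par) (hP : PureData la ba par last two) (hk : k = 2 * h + 1) :
    HasLabels k la ba par := by
  by_cases hs : h ≤ Fintype.card B
  · have hld : ∀ i, Loaded la ba i → 1 ≤ i ∧ i < k := by
      rintro i (⟨x, rfl⟩ | ⟨b, rfl⟩)
      · exact ⟨hd.la_pos x, by have := hd.la_lt x; omega⟩
      · exact ⟨by have := hd.ba_pos b; omega, by have := hd.ba_lt b; omega⟩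
    obtain ⟨G, hG1, hG2⟩ := exists_colour hk (Loaded la ba)
    obtain ⟨q, hS⟩ := seam_of_colour hk (Loaded la ba) (Loaded la ba) hld
      (fun i hi => hi) G hG1 hG2
    exact regime_two hd hP hS.rankData hs
  · by_cases hs2 : Fintype.card B ≤ 2
    · exact pure_odd_few hd hP hk (by omega) hs2
    · exact pure_odd_many hd hP hk (by omega) (by omega)

end Pool.Agent.Lob89
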