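import Pool.Agent.Lob89.PureFat
import Pool.Agent.Lob89.PureChoice
import Pool.Agent.Lob89.PureOdd

/-!
The pure class, `K = 2 h + 2`, regime 1: the layouts with a window.
-/

namespace Pool.Agent.Lob89

open Finset

set_option linter.unusedSectionVars false

/-- The `v`-th positive number different from `a`. -/
def lw1 (a v : ℕ) : ℕ := v + if a ≤ v then 1 else 0

lemma lw1_strictMono (a : ℕ) : StrictMono (lw1 a) := by
  intro u v huv
  unfold lw1
  split_ifs <;> omega

lemma lw2_strictMono {a b : ℕ} : StrictMono (lw2 a b) := by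
  intro u v huv
  unfold lw2
  split_ifs <;> omega

/-- The sum at an inner vertex of the odd path, minus `S`. -/
def bs (k q : ℕ) (G : ℕ → Bool) (n' : ℕ) (low : ℕ → ℕ) (i : ℕ) : ℕ :=
  low (n' + rank k q G (oddE i)) + rank k q G (evenE i)

variable {Lf B BL : Type*} [Fintype Lf] [Fintype B] [Fintype BL] [DecidableEq B]

/-- loaded vertices of the odd path -/
def ldf (la : Lf → ℕ) (ba : B → ℕ) (i : ℕ) : Prop := 1 ≤ i ∧ Loaded la ba (i + 1)

/-- The labels of the edges to the bush centres. -/
structure Tops (k h q n' : ℕ) (G : ℕ → Bool) (la : Lf → ℕ) (ba : B → ℕ) (low : ℕ → ℕ)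
    (sp : Lf → Prop) (τ : B → ℕ) : Prop where
  mem : ∀ b, 1 ≤ τ b ∧ τ b ≤ Fintype.card B
  inj : Function.Injective τ
  injb : Function.Injective fun b => bs k q G n' low (ba b - 1) + τ b
  light : ∀ b, ∃ i c, 1 ≤ i ∧ i < k ∧ Fintype.card B < junc k q G i + c ∧
    bs k q G n' low i + c ≤ bs k q G n' low (ba b - 1) + τ b
  pair : ∀ x b, ¬ sp x → la x ≠ 1 →
    bs k q G n' low (la x - 1) < h + (bs k q G n' low (ba b - 1) + τ b)

lemma rank_odd_even (k q : ℕ) (G : ℕ → Bool) (i : ℕ) :
    rank k q G (oddE i) + rank k q G (evenE i) = junc k q G i :=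
  rk_odd_even (rank k q G) i

theorem fat_mid {K h q : ℕ} {la : Lf → ℕ} {ba : B → ℕ} {par : BL → B}
    {last : B → BL} {two : B → Prop} [DecidablePred two] {G : ℕ → Bool}
    (hd : LobData K la ba par) (hP : PureData la ba par last two)
    (hK : K = 2 * h + 2) (hh : 1 ≤ h) (hW : Win (2 * h + 1) h q (ldf la ba) G)
    (β n' S w y δ : ℕ) (hδ : δ ≤ 1)
    (hβ : (β = 0 ∧ ∀ x, la x ≠ 1) ∨ (β = 1 ∧ ∃ x, la x = 1))
    (hn' : n' = Fintype.card {b // two b} + β)
    (hS : S = Fintype.card {b // two b} + (h + 1) + 1 + Fintype.card Lf + Fintype.card B)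
    (low : ℕ → ℕ) (hlow : StrictMono low) (hlow1 : 1 ≤ low 1)
    (hloww : low (n' + (h + 1)) ≤ w) (hwS : w ≤ S)
    (hy : 1 ≤ y ∧ y ≤ S ∧ ∀ v, 1 ≤ v → v ≤ n' + (h + 1) → low v ≠ y)
    (sp : Lf → Prop) [DecidablePred sp] (hspu : ∀ x z, sp x → sp z → x = z)
    (hsp1 : ∀ x, sp x → la x ≠ 1) (ν : ℕ)
    (hν : ∀ x, sp x → 1 ≤ ν ∧ ν ≤ S ∧ ν ≠ y ∧ ∀ v, 1 ≤ v → v ≤ n' + (h + 1) → low v ≠ ν)
    (M : Finset ℕ)
    (hMc : M.card = Fintype.card {x // ¬ sp x ∧ la x ≠ 1} + Fintype.card B)
    (hMm : ∀ m ∈ M, w + 1 ≤ m ∧ m ≤ S) (hyM : y ∉ M) (hνM : ∀ x, sp x → ν ∉ M)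
    (hF : S < β * low 1 + y + low (n' + rank (2 * h + 1) q G 1) ∨
      ∃ r, 1 ≤ r ∧ r ≤ h + 1 ∧ r ≠ rank (2 * h + 1) q G (2 * h + 1) ∧
        β * low 1 + y + low (n' + rank (2 * h + 1) q G 1) = low (n' + r))
    (hF2 : β * low 1 + y + low (n' + rank (2 * h + 1) q G 1) ≤ S + low (n' + 1))
    (hsp2 : ∀ x, sp x → bs (2 * h + 1) q G n' low (la x - 1) + ν ≤ w + h + δ ∧
      ∀ i, 1 ≤ i → i < 2 * h + 1 → ¬ Loaded la ba (i + 1) →
        bs (2 * h + 1) q G n' low i ≠ bs (2 * h + 1) q G n' low (la x - 1) + ν)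
    (hA : ∀ x, ¬ sp x → la x ≠ 1 → h + δ ≤ n' + junc (2 * h + 1) q G (la x - 1))
    (τ : B → ℕ) (hτ : Tops (2 * h + 1) h q n' G la ba low sp τ) :
    HasLabels K la ba par := by
  classical
  set k := 2 * h + 1 with hk
  set s := Fintype.card B with hsdef
  set n2 := Fintype.card {b // two b} with hn2
  have hRB := hW.rankBase
  have hbm : ∀ b, 1 ≤ ba b - 1 ∧ ba b - 1 < k := fun b => by
    have h1 := (hd.ev (by omega) b).1
    have h2 := (hd.ev (by omega) b).2
    omega
  have hlm : ∀ x, la x ≠ 1 → 1 ≤ la x - 1 ∧ la x - 1 < k := fun x hx => by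
    have h1 := hd.la_pos x
    have h2 := hd.la_lt x
    omega
  have hodd' : ∀ i, 1 ≤ i → i < k → 1 ≤ rank k q G (oddE i) ∧ rank k q G (oddE i) ≤ h + 1 := by
    intro i h1 h2
    have := oddE_mem h1 h2
    exact hRB.odd_mem _ this.1 this.2.1 this.2.2.1
  have heven' : ∀ i, 1 ≤ i → i < k → 1 ≤ rank k q G (evenE i) ∧ rank k q G (evenE i) ≤ h := by
    intro i h1 h2
    have := oddE_mem h1 h2
    exact hRB.even_mem _ this.2.2.2.1 this.2.2.2.2.1 this.2.2.2.2.2
  have hadd : ∀ m n, m + low n ≤ low (m + n) := fun m n => hlow.add_le_nat m n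
  have hlow0 : ∀ v, v ≤ low v := fun v => hlow.le_apply
  have hbs1 : ∀ i, 1 ≤ i → i < k → bs k q G n' low i ≤ w + h := by
    intro i h1 h2
    have h3 := hodd' i h1 h2
    have h4 := heven' i h1 h2
    have h5 : low (n' + rank k q G (oddE i)) ≤ low (n' + (h + 1)) := hlow.monotone (by omega)
    unfold bs
    omega
  have hbs2 : ∀ i, 1 ≤ i → i < k → low (n' + 1) + 1 ≤ bs k q G n' low i := by
    intro i h1 h2
    have h3 := hodd' i h1 h2
    have h4 := heven' i h1 h2
    have h5 : low (n' + 1) ≤ low (n' + rank k q G (oddE i)) := hlow.monotone (by omega)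
    unfold bs
    omega
  have hbs3 : ∀ i, n' + junc k q G i ≤ bs k q G n' low i := by
    intro i
    have h1 := hlow0 (n' + rank k q G (oddE i))
    have h2 := rank_odd_even k q G i
    unfold bs
    omega
  let base : ℕ → ℕ := fun i => S + bs k q G n' low i
  set V := w + S + h + δ with hV
  have habove : ∀ b, τ b + above two τ b ≤ s + 1 := above_le hτ.inj (fun b => (hτ.mem b).2)
  have habove1 : ∀ b, 1 ≤ above two τ b := fun b => by unfold above; omega
  have habove2 : ∀ b, two b → above two τ b ≤ n2 := fun b hb => above_le_card hb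
  obtain ⟨m0, hm, hm1⟩ := exists_threshold
    (ι := Option ({x // ¬ sp x ∧ la x ≠ 1} ⊕ B))
    (fun o => match o with
      | none => V
      | some (Sum.inl x) => base (la x.1 - 1) + S
      | some (Sum.inr b) => (S + h + τ b) + (if two b then low (β + above two τ b) else 0) + S)
    (fun b => base (ba b - 1) + (S + h + τ b)) (by
      intro o b
      obtain ⟨i, c, hi1, hi2, h1, h1'⟩ := hτ.light b
      have h2 := hτ.mem b
      have h7 := hbs3 i
      match o with
      | none =>
        show V < S + bs k q G n' low (ba b - 1) + (S + h + τ b)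
        have h8 := hbs2 (ba b - 1) (hbm b).1 (hbm b).2
        omega
      | some (Sum.inl x) =>
        show S + bs k q G n' low (la x.1 - 1) + S <
          S + bs k q G n' low (ba b - 1) + (S + h + τ b)
        have h3 := hτ.pair x.1 b x.2.1 x.2.2
        omega
      | some (Sum.inr b') =>
        show (S + h + τ b') + (if two b' then low (β + above two τ b') else 0) + S <
          S + bs k q G n' low (ba b - 1) + (S + h + τ b)
        have h3 := habove b'
        have h4 := hτ.mem b'
        split_ifs with ht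
        · have h5 := habove1 b'
          have h6 := habove2 b' ht
          have h9 := hodd' i hi1 hi2
          have h10 := rank_odd_even k q G i
          have h8 : (n' + rank k q G (oddE i) - (β + above two τ b')) +
              low (β + above two τ b') ≤ low (n' + rank k q G (oddE i)) := by
            have := hadd (n' + rank k q G (oddE i) - (β + above two τ b'))
              (β + above two τ b')
            rwa [Nat.sub_add_cancel (by omega)] at this
          have h11 : bs k q G n' low i =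
            low (n' + rank k q G (oddE i)) + rank k q G (evenE i) := rfl
          omega
        · omega)
  have hr1 := hRB.odd_mem 1 le_rfl (by omega) rfl
  refine regime_fat_gen (rk := rank k q G) hd hP hK hh hRB.odd_mem hRB.even_mem hRB.inj
    β n' S w y hβ hn' hS low hlow hlow1 hloww hwS hy sp hspu hsp1 ν hν M hMc hMm hyM hνM
    V m0 base ?_ hF ?_ ?_ ?_ ?_ ?_ ?_ ?_ ?_ (hm none) τ hτ.mem hτ.inj ?_ hm1
    (fun x hx h1 => hm (some (Sum.inl ⟨x, hx, h1⟩))) (fun b => hm (some (Sum.inr b)))
  · intro i _ _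
    show S + (low (n' + rank k q G (oddE i)) + rank k q G (evenE i)) =
      low (n' + rank k q G (oddE i)) + (S + rank k q G (evenE i))
    ring
  · intro i h1 h2
    have := hbs2 i h1 h2
    show _ < S + bs k q G n' low i
    omega
  · have h1 : low (n' + 1) ≤ low (n' + (h + 1)) := hlow.monotone (by omega)
    omega
  · intro i j h1 h2 h3 h4 h5 h6 h7
    by_contra hne
    have h7' : S + bs k q G n' low i = S + bs k q G n' low j := h7
    have h8 := hW.comp (i := i) (j := j) h1 h2 (fun hl => h5 hl.2) h3 h4 (fun hl => h6 hl.2) hne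
    rw [oddRank_eq, oddRank_eq] at h8
    have e1 := rank_odd_even k q G i
    have e2 := rank_odd_even k q G j
    unfold bs at h7'
    rcases h8 with ⟨h8, h9⟩ | ⟨h8, h9⟩
    · have h10 := hadd (rank k q G (oddE j) - rank k q G (oddE i)) (n' + rank k q G (oddE i))
      rw [show rank k q G (oddE j) - rank k q G (oddE i) + (n' + rank k q G (oddE i)) =
        n' + rank k q G (oddE j) by omega] at h10
      omega
    · have h10 := hadd (rank k q G (oddE i) - rank k q G (oddE j)) (n' + rank k q G (oddE j))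
      rw [show rank k q G (oddE i) - rank k q G (oddE j) + (n' + rank k q G (oddE j)) =
        n' + rank k q G (oddE i) by omega] at h10
      omega
  · intro i h1 h2 _
    have := hbs1 i h1 h2
    show S + bs k q G n' low i ≤ V
    omega
  · intro x hx
    have h1 := hsp2 x hx
    refine ⟨?_, fun i h2 h3 h4 => ?_⟩
    · show S + bs k q G n' low (la x - 1) + ν ≤ V
      omega
    · have h5 := h1.2 i h2 h3 h4
      show S + bs k q G n' low i ≠ S + bs k q G n' low (la x - 1) + ν
      omega
  · intro x hx h1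
    have h2 := hA x hx h1
    have h3 := hbs3 (la x - 1)
    show V < S + bs k q G n' low (la x - 1) + (w + 1)
    omega
  · omega
  · omega
  · intro a b hab
    apply hτ.injb
    have h1 : S + bs k q G n' low (ba a - 1) + τ a = S + bs k q G n' low (ba b - 1) + τ b := hab
    show bs k q G n' low (ba a - 1) + τ a = bs k q G n' low (ba b - 1) + τ b
    omega

end Pool.Agent.Lob89
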