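import Pool.Agent.Lob89.PureR1ab

/-!
The pure class, `K = 2 h + 2` even, regime 1: the general layout. The edge `1` is a leaf at the
vertex `1` (the fat end), the edges `2, ..., K` form an odd path with ranks `rk 1, ..., rk (2 h + 1)`.
-/

namespace Pool.Agent.Lob89

open Finset

set_option linter.unusedSectionVars false

variable {Lf B BL : Type*} [Fintype Lf] [Fintype B] [Fintype BL] [DecidableEq B]

/-- The general layout of regime 1, `K` even. -/
theorem regime_fat_gen {K h : ℕ} {la : Lf → ℕ} {ba : B → ℕ} {par : BL → B}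
    {last : B → BL} {two : B → Prop} [DecidablePred two] {rk : ℕ → ℕ}
    (hd : LobData K la ba par) (hP : PureData la ba par last two)
    (hK : K = 2 * h + 2) (hh : 1 ≤ h)
    (hodd : ∀ e, 1 ≤ e → e ≤ 2 * h + 1 → e % 2 = 1 → 1 ≤ rk e ∧ rk e ≤ h + 1)
    (heven : ∀ e, 1 ≤ e → e ≤ 2 * h + 1 → e % 2 = 0 → 1 ≤ rk e ∧ rk e ≤ h)
    (hinj : ∀ e f, 1 ≤ e → e ≤ 2 * h + 1 → 1 ≤ f → f ≤ 2 * h + 1 → e % 2 = f % 2 →
      rk e = rk f → e = f)
    (β n' S w y : ℕ) (hβ : (β = 0 ∧ ∀ x, la x ≠ 1) ∨ (β = 1 ∧ ∃ x, la x = 1))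
    (hn' : n' = Fintype.card {b // two b} + β)
    (hS : S = Fintype.card {b // two b} + (h + 1) + 1 + Fintype.card Lf + Fintype.card B)
    (low : ℕ → ℕ) (hlow : StrictMono low) (hlow1 : 1 ≤ low 1)
    (hloww : low (n' + (h + 1)) ≤ w) (hwS : w ≤ S)
    (hy : 1 ≤ y ∧ y ≤ S ∧ ∀ v, 1 ≤ v → v ≤ n' + (h + 1) → low v ≠ y)
    (sp : Lf → Prop) [DecidablePred sp] (hspu : ∀ x z, sp x → sp z → x = z)
    (hsp1 : ∀ x, sp x → la x ≠ 1) (ν : ℕ)
    (hν : ∀ x, sp x → 1 ≤ ν ∧ ν ≤ S ∧ ν ≠ y ∧ ∀ v, 1 ≤ v → v ≤ n' + (h + 1) → low v ≠ ν)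
    (M : Finset ℕ)
    (hMc : M.card = Fintype.card {x // ¬ sp x ∧ la x ≠ 1} + Fintype.card B)
    (hMm : ∀ m ∈ M, w + 1 ≤ m ∧ m ≤ S) (hyM : y ∉ M) (hνM : ∀ x, sp x → ν ∉ M)
    (V m0 : ℕ) (base : ℕ → ℕ)
    (hbase : ∀ i, 1 ≤ i → i < 2 * h + 1 →
      base i = low (n' + rk (oddE i)) + (S + rk (evenE i)))
    (hF : S < β * low 1 + y + low (n' + rk 1) ∨
      ∃ r, 1 ≤ r ∧ r ≤ h + 1 ∧ r ≠ rk (2 * h + 1) ∧
        β * low 1 + y + low (n' + rk 1) = low (n' + r))
    (hF2 : ∀ i, 1 ≤ i → i < 2 * h + 1 → β * low 1 + y + low (n' + rk 1) < base i)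
    (hF3 : β * low 1 + y + low (n' + rk 1) ≤ V)
    (hCinj : ∀ i j, 1 ≤ i → i < 2 * h + 1 → 1 ≤ j → j < 2 * h + 1 →
      ¬ Loaded la ba (i + 1) → ¬ Loaded la ba (j + 1) → base i = base j → i = j)
    (hCV : ∀ i, 1 ≤ i → i < 2 * h + 1 → ¬ Loaded la ba (i + 1) → base i ≤ V)
    (hspV : ∀ x, sp x → base (la x - 1) + ν ≤ V ∧
      ∀ i, 1 ≤ i → i < 2 * h + 1 → ¬ Loaded la ba (i + 1) → base i ≠ base (la x - 1) + ν)
    (hAV : ∀ x, ¬ sp x → la x ≠ 1 → V < base (la x - 1) + (w + 1))
    (hSV : S ≤ V) (hLV : V < (S + h + 1) + (w + 1)) (hVm : V < m0)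
    (τ : B → ℕ) (hτ1 : ∀ b, 1 ≤ τ b ∧ τ b ≤ Fintype.card B) (hτ3 : Function.Injective τ)
    (hτ4 : Function.Injective fun b => base (ba b - 1) + τ b)
    (hm1 : ∀ b, m0 ≤ base (ba b - 1) + (S + h + τ b))
    (hm2 : ∀ x, ¬ sp x → la x ≠ 1 → base (la x - 1) + S < m0)
    (hm3 : ∀ b, (S + h + τ b) + (if two b then low (β + above two τ b) else 0) + S < m0) :
    HasLabels K la ba par := by
  classical
  set s := Fintype.card B with hsdef
  set n2 := Fintype.card {b // two b} with hn2
  have hk2 := hd.two_le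
  have hla_mem : ∀ x, 1 ≤ la x ∧ la x < K := fun x => ⟨hd.la_pos x, by have := hd.la_lt x; omega⟩
  have hba_mem : ∀ b, 2 ≤ ba b ∧ ba b < K :=
    fun b => ⟨(hd.ev (by omega) b).1, by have := (hd.ev (by omega) b).2; omega⟩
  have hlow_inj : ∀ v v', low v = low v' → v = v' := fun v v' h => hlow.injective h
  have hlow_pos : ∀ v, 1 ≤ v → 1 ≤ low v := fun v hv => hlow1.trans (hlow.monotone hv)
  have hlow_w : ∀ v, v ≤ n' + (h + 1) → low v ≤ w := fun v hv => (hlow.monotone hv).trans hloww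
  have hβ1 : ∀ x, la x = 1 → β = 1 := by
    intro x hx
    rcases hβ with ⟨_, h2⟩ | ⟨h1, _⟩
    · exact absurd hx (h2 x)
    · exact h1
  -- elements
  let W : {x // ¬ sp x ∧ la x ≠ 1} ⊕ B → ℕ := Sum.elim (fun x => base (la x.1 - 1))
    (fun b => (S + h + τ b) + if two b then low (β + above two τ b) else 0)
  obtain ⟨σ, hσ1, _, hσ3, hσ4⟩ := greedy W M (by rw [hMc, Fintype.card_sum])
  have hσm : ∀ e, w + 1 ≤ σ e ∧ σ e ≤ S := fun e => hMm _ (hσ1 e)
  have habove1 : ∀ b, 1 ≤ above two τ b := fun b => by unfold above; omega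
  have habove2 : ∀ b, two b → above two τ b ≤ n2 := fun b hb => above_le_card hb
  -- labels
  let p : ℕ → ℕ := fun e => if e = 1 then y else
    if e % 2 = 0 then low (n' + rk (e - 1)) else S + rk (e - 1)
  let fl : Lf → ℕ := fun x => if hx : sp x then ν else
    if h1 : la x = 1 then low 1 else σ (Sum.inl ⟨x, hx, h1⟩)
  let ft : B → ℕ := fun b => S + h + τ b
  let fb : BL → ℕ := bushLab par last (fun b => σ (Sum.inr b)) (fun b => low (β + above two τ b))
  have hfl_sp : ∀ x, sp x → fl x = ν := fun x hx => dif_pos hx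
  have hfl_1 : ∀ x, ¬ sp x → la x = 1 → fl x = low 1 := fun x hx h1 => by
    show (if hx : sp x then ν else if h1 : la x = 1 then low 1 else σ (Sum.inl ⟨x, hx, h1⟩)) = _
    rw [dif_neg hx, dif_pos h1]
  have hfl_A : ∀ x (hx : ¬ sp x) (h1 : la x ≠ 1), fl x = σ (Sum.inl ⟨x, hx, h1⟩) :=
    fun x hx h1 => by
    show (if hx : sp x then ν else if h1 : la x = 1 then low 1 else σ (Sum.inl ⟨x, hx, h1⟩)) = _
    rw [dif_neg hx, dif_neg h1]
  have hfb1 : ∀ z, z = last (par z) → fb z = σ (Sum.inr (par z)) := fun z hz => if_pos hz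
  have hfb2 : ∀ z, z ≠ last (par z) → fb z = low (β + above two τ (par z)) :=
    fun z hz => if_neg hz
  have hsum : ∀ b, ft b + ∑ z, (if par z = b then fb z else 0) = W (Sum.inr b) + σ (Sum.inr b) := by
    intro b
    rw [sum_bush hP]
    show (S + h + τ b) + _ = (S + h + τ b) + _ + _
    ring
  have hp1 : p 1 = y := rfl
  have hp_odd : ∀ e, 1 ≤ e → e % 2 = 1 → p (e + 1) = low (n' + rk e) := fun e h1 he => by
    show (if e + 1 = 1 then y else
      if (e + 1) % 2 = 0 then low (n' + rk (e + 1 - 1)) else S + rk (e + 1 - 1)) = _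
    rw [if_neg (by omega), if_pos (by omega), Nat.add_sub_cancel]
  have hp_even : ∀ e, 1 ≤ e → e % 2 = 0 → p (e + 1) = S + rk e := fun e h1 he => by
    show (if e + 1 = 1 then y else
      if (e + 1) % 2 = 0 then low (n' + rk (e + 1 - 1)) else S + rk (e + 1 - 1)) = _
    rw [if_neg (by omega), if_neg (by omega), Nat.add_sub_cancel]
  have hpb : ∀ i, 1 ≤ i → i < 2 * h + 1 → p (i + 1) + p (i + 2) = base i := by
    intro i h1 h2
    rw [hbase i h1 h2]
    unfold oddE evenE
    rcases Nat.mod_two_eq_zero_or_one i with hi | hi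
    · rw [hp_even i h1 hi, hp_odd (i + 1) (by omega) (by omega), if_neg (by omega),
        if_neg (by omega)]
      ring
    · rw [hp_odd i h1 hi, hp_even (i + 1) (by omega) (by omega), if_pos hi, if_pos hi]
  -- ranges
  have hp_range : ∀ e, 1 ≤ e → e ≤ K → (e = 1 ∧ p e = y) ∨
      (e % 2 = 0 ∧ 2 ≤ e ∧ ∃ v, n' + 1 ≤ v ∧ v ≤ n' + (h + 1) ∧ v = n' + rk (e - 1) ∧
        p e = low v) ∨
      (e % 2 = 1 ∧ 3 ≤ e ∧ S + 1 ≤ p e ∧ p e ≤ S + h ∧ p e = S + rk (e - 1)) := by
    intro e h1 h2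
    by_cases he1 : e = 1
    · exact Or.inl ⟨he1, by rw [he1]; exact hp1⟩
    · obtain ⟨j, rfl⟩ : ∃ j, e = j + 1 := ⟨e - 1, by omega⟩
      rcases Nat.mod_two_eq_zero_or_one j with hj | hj
      · right; right
        have := heven j (by omega) (by omega) hj
        rw [hp_even j (by omega) hj, Nat.add_sub_cancel]
        omega
      · right; left
        have := hodd j (by omega) (by omega) hj
        rw [hp_odd j (by omega) hj]
        exact ⟨by omega, by omega, n' + rk j, by omega, by omega, by rw [Nat.add_sub_cancel], rfl⟩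
  have hfl_range : ∀ x, (sp x ∧ fl x = ν) ∨ (¬ sp x ∧ la x = 1 ∧ fl x = low 1) ∨
      (¬ sp x ∧ la x ≠ 1 ∧ w + 1 ≤ fl x ∧ fl x ≤ S ∧ fl x ∈ M) := by
    intro x
    by_cases hx : sp x
    · exact Or.inl ⟨hx, hfl_sp x hx⟩
    · right
      by_cases h1 : la x = 1
      · exact Or.inl ⟨hx, h1, hfl_1 x hx h1⟩
      · right
        rw [hfl_A x hx h1]
        exact ⟨hx, h1, (hσm _).1, (hσm _).2, hσ1 _⟩
  have hfb_range : ∀ z, (z = last (par z) ∧ w + 1 ≤ fb z ∧ fb z ≤ S ∧ fb z ∈ M) ∨
      (z ≠ last (par z) ∧ ∃ v, β + 1 ≤ v ∧ v ≤ n' ∧ v = β + above two τ (par z) ∧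
        fb z = low v) := by
    intro z
    by_cases hz : z = last (par z)
    · left
      rw [hfb1 z hz]
      exact ⟨hz, (hσm _).1, (hσm _).2, hσ1 _⟩
    · right
      rw [hfb2 z hz]
      have h1 := habove1 (par z)
      have h2 := habove2 (par z) ((hP.two_iff _).2 ⟨z, rfl, hz⟩)
      exact ⟨hz, β + above two τ (par z), by omega, by omega, rfl, rfl⟩
  have hp_inj : ∀ e f, 1 ≤ e → e ≤ K → 1 ≤ f → f ≤ K → p e = p f → e = f := by
    intro e f he1 he2 hf1 hf2 hef
    rcases hp_range e he1 he2 with ⟨h1, h2⟩ | ⟨h1, h2, v, h3, h4, h5, h6⟩ | ⟨h1, h2, h3, h4, h5⟩ <;>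
      rcases hp_range f hf1 hf2 with ⟨k1, k2⟩ | ⟨k1, k2, v', k3, k4, k5, k6⟩ |
        ⟨k1, k2, k3, k4, k5⟩
    · omega
    · exact absurd (by rw [← k6, ← hef, h2]) (hy.2.2 v' (by omega) k4)
    · have := hy.2.1; omega
    · exact absurd (by rw [← h6, hef, k2]) (hy.2.2 v (by omega) h4)
    · rw [h6, k6] at hef
      have h7 := hlow_inj _ _ hef
      have h8 := hinj (e - 1) (f - 1) (by omega) (by omega) (by omega) (by omega) (by omega)
        (by omega)
      omega
    · have := hlow_w v (by omega); omega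
    · have := hy.2.1; omega
    · have := hlow_w v' (by omega); omega
    · have h8 := hinj (e - 1) (f - 1) (by omega) (by omega) (by omega) (by omega) (by omega)
        (by omega)
      omega
  have hfl_inj : Function.Injective fl := by
    intro x z hxz
    rcases hfl_range x with ⟨h1, h2⟩ | ⟨h1, h2, h3⟩ | ⟨h1, h2, h3, h4, h5⟩ <;>
      rcases hfl_range z with ⟨k1, k2⟩ | ⟨k1, k2, k3⟩ | ⟨k1, k2, k3, k4, k5⟩
    · exact hspu x z h1 k1
    · exact absurd (by rw [← k3, ← hxz, h2]) ((hν x h1).2.2.2 1 le_rfl (by omega))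
    · exact absurd (by rw [← h2, hxz]; exact k5) (hνM x h1)
    · exact absurd (by rw [← h3, hxz, k2]) ((hν z k1).2.2.2 1 le_rfl (by omega))
    · exact hP.la_inj (h2.trans k2.symm)
    · have := hlow_w 1 (by omega); omega
    · exact absurd (by rw [← k2, ← hxz]; exact h5) (hνM z k1)
    · have := hlow_w 1 (by omega); omega
    · rw [hfl_A x h1 h2, hfl_A z k1 k2] at hxz
      exact congrArg Subtype.val (Sum.inl_injective (hσ3 hxz))
  have hfb_inj : Function.Injective fb := by
    intro x z hxz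
    rcases hfb_range x with ⟨h1, h2, h3, h4⟩ | ⟨h1, v, h2, h3, h4, h5⟩ <;>
      rcases hfb_range z with ⟨k1, k2, k3, k4⟩ | ⟨k1, v', k2, k3, k4, k5⟩
    · rw [hfb1 x h1, hfb1 z k1] at hxz
      rw [h1, k1, Sum.inr_injective (hσ3 hxz)]
    · have := hlow_w v' (by omega); omega
    · have := hlow_w v (by omega); omega
    · rw [h5, k5] at hxz
      have h6 := hlow_inj _ _ hxz
      have ht1 : two (par x) := (hP.two_iff _).2 ⟨x, rfl, h1⟩
      have ht2 : two (par z) := (hP.two_iff _).2 ⟨z, rfl, k1⟩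
      exact hP.second_unique x z (above_inj hτ3 ht1 ht2 (by omega)) h1 k1
  have hft_inj : Function.Injective ft := by
    intro a b hab
    have : S + h + τ a = S + h + τ b := hab
    exact hτ3 (by omega)
  have hfl_p : ∀ x e, 1 ≤ e → e ≤ K → fl x ≠ p e := by
    intro x e he1 he2 hxe
    rcases hfl_range x with ⟨h1, h2⟩ | ⟨h1, h2, h3⟩ | ⟨h1, h2, h3, h4, h5⟩ <;>
      rcases hp_range e he1 he2 with ⟨k1, k2⟩ | ⟨k1, k2, v', k3, k4, k5, k6⟩ |
        ⟨k1, k2, k3, k4, k5⟩
    · exact (hν x h1).2.2.1 (by omega)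
    · exact (hν x h1).2.2.2 v' (by omega) k4 (by omega)
    · have := (hν x h1).2.1; omega
    · exact hy.2.2 1 le_rfl (by omega) (by omega)
    · have h6 := hlow_inj 1 v' (by omega)
      have := hβ1 x h2
      omega
    · have := hlow_w 1 (by omega); omega
    · exact hyM (by rw [← k2, ← hxe]; exact h5)
    · have := hlow_w v' (by omega); omega
    · omega
  have hfl_fb : ∀ x z, fl x ≠ fb z := by
    intro x z hxz
    rcases hfl_range x with ⟨h1, h2⟩ | ⟨h1, h2, h3⟩ | ⟨h1, h2, h3, h4, h5⟩ <;>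
      rcases hfb_range z with ⟨k1, k2, k3, k4⟩ | ⟨k1, v', k2, k3, k4, k5⟩
    · exact hνM x h1 (by rw [← h2, hxz]; exact k4)
    · exact (hν x h1).2.2.2 v' (by omega) (by omega) (by omega)
    · have := hlow_w 1 (by omega); omega
    · have h6 := hlow_inj 1 v' (by omega)
      have := hβ1 x h2
      omega
    · rw [hfl_A x h1 h2, hfb1 z k1] at hxz
      exact Sum.inl_ne_inr (hσ3 hxz)
    · have := hlow_w v' (by omega); omega
  have hfb_p : ∀ z e, 1 ≤ e → e ≤ K → fb z ≠ p e := by
    intro z e he1 he2 hze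
    rcases hfb_range z with ⟨h1, h2, h3, h4⟩ | ⟨h1, v, h2, h3, h4, h5⟩ <;>
      rcases hp_range e he1 he2 with ⟨k1, k2⟩ | ⟨k1, k2, v', k3, k4, k5, k6⟩ |
        ⟨k1, k2, k3, k4, k5⟩
    · exact hyM (by rw [← k2, ← hze]; exact h4)
    · have := hlow_w v' (by omega); omega
    · omega
    · exact hy.2.2 v (by omega) (by omega) (by omega)
    · have h6 := hlow_inj v v' (by omega)
      omega
    · have := hlow_w v (by omega); omega
  have hp_le : ∀ e, 1 ≤ e → e ≤ K → 1 ≤ p e ∧ p e ≤ S + h := by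
    intro e he1 he2
    rcases hp_range e he1 he2 with ⟨k1, k2⟩ | ⟨k1, k2, v', k3, k4, k5, k6⟩ |
        ⟨k1, k2, k3, k4, k5⟩
    · omega
    · have := hlow_w v' (by omega)
      have := hlow_pos v' (by omega)
      omega
    · omega
  have hfl_le : ∀ x, 1 ≤ fl x ∧ fl x ≤ S := by
    intro x
    rcases hfl_range x with ⟨h1, h2⟩ | ⟨h1, h2, h3⟩ | ⟨h1, h2, h3, h4, h5⟩
    · have := hν x h1; omega
    · have := hlow_w 1 (by omega)
      omega
    · omega
  have hfb_le : ∀ z, 1 ≤ fb z ∧ fb z ≤ S := by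
    intro z
    rcases hfb_range z with ⟨h1, h2, h3, h4⟩ | ⟨h1, v, h2, h3, h4, h5⟩
    · omega
    · have := hlow_w v (by omega)
      have := hlow_pos v (by omega)
      omega
  have hft_range : ∀ b, S + h + 1 ≤ ft b ∧ ft b ≤ S + h + s := by
    intro b
    have := hτ1 b
    show S + h + 1 ≤ S + h + τ b ∧ S + h + τ b ≤ S + h + s
    omega
  have hlinj : Function.Injective (labels (k := K) p fl ft fb) := by
    rintro (i | x | b | z) (j | x' | b' | z') hxy
    · have h1 : p ((i : ℕ) + 1) = p ((j : ℕ) + 1) := hxy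
      have := hp_inj _ _ (by omega) (by omega) (by omega) (by omega) h1
      rw [Fin.ext (show (i : ℕ) = j by omega)]
    · exfalso
      have h1 : p ((i : ℕ) + 1) = fl x' := hxy
      exact hfl_p x' _ (by omega) (by omega) h1.symm
    · exfalso
      have h1 : p ((i : ℕ) + 1) = ft b' := hxy
      have h3 := hp_le (i + 1) (by omega) (by omega)
      have h4 := hft_range b'
      omega
    · exfalso
      have h1 : p ((i : ℕ) + 1) = fb z' := hxy
      exact hfb_p z' _ (by omega) (by omega) h1.symm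
    · exfalso
      have h1 : fl x = p ((j : ℕ) + 1) := hxy
      exact hfl_p x _ (by omega) (by omega) h1
    · have h1 : fl x = fl x' := hxy
      rw [hfl_inj h1]
    · exfalso
      have h1 : fl x = ft b' := hxy
      have h3 := hft_range b'
      have h4 := hfl_le x
      omega
    · exact absurd hxy (hfl_fb x z')
    · exfalso
      have h1 : ft b = p ((j : ℕ) + 1) := hxy
      have h3 := hp_le (j + 1) (by omega) (by omega)
      have h4 := hft_range b
      omega
    · exfalso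
      have h1 : ft b = fl x' := hxy
      have h3 := hft_range b
      have h4 := hfl_le x'
      omega
    · have h1 : ft b = ft b' := hxy
      rw [hft_inj h1]
    · exfalso
      have h1 : ft b = fb z' := hxy
      have h3 := hft_range b
      have h4 := hfb_le z'
      omega
    · exfalso
      have h1 : fb z = p ((j : ℕ) + 1) := hxy
      exact hfb_p z _ (by omega) (by omega) h1
    · exact absurd (Eq.symm hxy) (hfl_fb x' z)
    · exfalso
      have h1 : fb z = ft b' := hxy
      have h3 := hft_range b'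
      have h4 := hfb_le z
      omega
    · have h1 : fb z = fb z' := hxy
      rw [hfb_inj h1]
  refine ⟨p, fl, ft, fb, hlinj, ?_, ?_⟩
  · -- range
    have hBL := card_BL hP
    rintro (i | x | b | z)
    · have h3 := hp_le (i + 1) (by omega) (by omega)
      show 1 ≤ p ((i : ℕ) + 1) ∧ p ((i : ℕ) + 1) ≤ _
      omega
    · show 1 ≤ fl x ∧ fl x ≤ _
      have := hfl_le x
      omega
    · have h3 := hft_range b
      show 1 ≤ ft b ∧ ft b ≤ _
      omega
    · have h3 := hfb_le z
      show 1 ≤ fb z ∧ fb z ≤ _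
      omega
  · -- sums
    have hrk1 := hodd 1 le_rfl (by omega) (by omega)
    have hrkk := hodd (2 * h + 1) (by omega) le_rfl (by omega)
    obtain ⟨F, hFd⟩ : ∃ F, F = β * low 1 + y + low (n' + rk 1) := ⟨_, rfl⟩
    rw [← hFd] at hF hF3
    have hF2' : ∀ i, 1 ≤ i → i < 2 * h + 1 → F < base i := by
      intro i h1 h2
      rw [hFd]; exact hF2 i h1 h2
    -- the vertex 1
    let v1 : Fin (K + 1) := ⟨1, by omega⟩
    have hv1 : vsums K la ba par p fl ft fb (Sum.inl v1) = F := by
      show pathSum K la ba p fl ft 1 = F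
      have hp2 : p 2 = low (n' + rk 1) := hp_odd 1 le_rfl (by omega)
      rcases hβ with ⟨h1, h2⟩ | ⟨h1, x, h2⟩
      · rw [pathSum_free le_rfl (by omega) (by
          rintro (⟨x, hx⟩ | ⟨b, hb⟩)
          · exact h2 x hx
          · have := hba_mem b; omega)]
        show p 1 + p 2 = F
        rw [hp1, hp2, hFd, h1]
        ring
      · have h3 := pathSum_A (p := p) (fl := fl) (ft := ft) hd hP x
        rw [h2] at h3
        rw [h3]
        show p 1 + p 2 + fl x = F
        rw [hp1, hp2, hfl_1 x (fun h => hsp1 x h h2) h2, hFd, h1]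
        ring
    have hft_val : ∀ b, vsums K la ba par p fl ft fb (Sum.inr (Sum.inr (Sum.inl b))) =
        W (Sum.inr b) + σ (Sum.inr b) := fun b => hsum b
    have hC_val : ∀ i : Fin (K + 1), 2 ≤ (i : ℕ) → (i : ℕ) < K → ¬ Loaded la ba i →
        vsums K la ba par p fl ft fb (Sum.inl i) = base (i - 1) := by
      intro i h1 h2 h3
      have h0 : vsums K la ba par p fl ft fb (Sum.inl i) = pathSum K la ba p fl ft i := rfl
      rw [h0, pathSum_free (by omega) h2 h3, ← hpb (i - 1) (by omega) (by omega)]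
      congr 2 <;> omega
    have hA_val : ∀ (i : Fin (K + 1)) x, la x = i → la x ≠ 1 →
        vsums K la ba par p fl ft fb (Sum.inl i) = base (la x - 1) + fl x := by
      intro i x hx h1
      have h0 : vsums K la ba par p fl ft fb (Sum.inl i) = pathSum K la ba p fl ft i := rfl
      have h2 := hla_mem x
      rw [h0, ← hx, pathSum_A hd hP, ← hpb (la x - 1) (by omega) (by omega)]
      congr 3 <;> omega
    have hZ_val : ∀ (i : Fin (K + 1)) b, ba b = i →
        vsums K la ba par p fl ft fb (Sum.inl i) = base (ba b - 1) + ft b := by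
      intro i b hx
      have h0 : vsums K la ba par p fl ft fb (Sum.inl i) = pathSum K la ba p fl ft i := rfl
      have h2 := hba_mem b
      rw [h0, ← hx, pathSum_Z hd hP, ← hpb (ba b - 1) (by omega) (by omega)]
      congr 3 <;> omega
    have hend_val : ∀ e, vsums K la ba par p fl ft fb (leafVert e) =
        labels (k := K) p fl ft fb (leafSlot hk2 e) := fun e => vsums_leafVert hd e
    have hb_lt : ∀ i, 1 ≤ i → i < 2 * h + 1 → S + 1 ≤ base i ∧ base i ≤ w + (S + h) := by
      intro i h1 h2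
      rw [hbase i h1 h2]
      have h3 := oddE_mem (k := 2 * h + 1) h1 h2
      have a1 := hodd _ h3.1 h3.2.1 h3.2.2.1
      have a2 := heven _ h3.2.2.2.1 h3.2.2.2.2.1 h3.2.2.2.2.2
      have a3 := hlow_w (n' + rk (oddE i)) (by omega)
      omega
    -- leaf values
    have hleaf_le : ∀ e, vsums K la ba par p fl ft fb (leafVert e) ≤ S := by
      intro e
      rw [hend_val]
      rcases e with (_ | _) | x | z
      · show p (K - 1 + 1) ≤ S
        have h1 : K - 1 + 1 = (2 * h + 1) + 1 := by omega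
        rw [h1, hp_odd (2 * h + 1) (by omega) (by omega)]
        have := hlow_w (n' + rk (2 * h + 1)) (by omega)
        omega
      · show p (0 + 1) ≤ S
        rw [zero_add, hp1]; exact hy.2.1
      · exact (hfl_le x).2
      · exact (hfb_le z).2
    have hleafF : ∀ e, vsums K la ba par p fl ft fb (leafVert e) ≠ F := by
      intro e he
      have hle := hleaf_le e
      rcases hF with hF | ⟨r, hr1, hr2, hr3, hr4⟩
      · omega
      · rw [hend_val] at he
        rw [hr4] at he
        rcases e with (_ | _) | x | z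
        · have h2 : p (K - 1 + 1) = low (n' + r) := he
          have h1 : K - 1 + 1 = (2 * h + 1) + 1 := by omega
          rw [h1, hp_odd (2 * h + 1) (by omega) (by omega)] at h2
          have := hlow_inj _ _ h2
          omega
        · have h2 : p (0 + 1) = low (n' + r) := he
          rw [zero_add, hp1] at h2
          exact hy.2.2 (n' + r) (by omega) (by omega) h2.symm
        · have h2 : fl x = low (n' + r) := he
          rcases hfl_range x with ⟨h1, h3⟩ | ⟨h1, h4, h3⟩ | ⟨h1, h4, h3, h5, h6⟩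
          · exact (hν x h1).2.2.2 (n' + r) (by omega) (by omega) (by omega)
          · rw [h3] at h2
            have h5 := hlow_inj _ _ h2
            have := hβ1 x h4
            omega
          · have := hlow_w (n' + r) (by omega)
            omega
        · have h2 : fb z = low (n' + r) := he
          rcases hfb_range z with ⟨h1, h3, h4, h5⟩ | ⟨h1, v, h3, h4, h5, h6⟩
          · have := hlow_w (n' + r) (by omega)
            omega
          · rw [h6] at h2
            have := hlow_inj _ _ h2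
            omega
    let lo : ℕ → ℕ := fun t => match t with
      | 0 => 0
      | 1 => S + 1
      | 2 => V + 1
      | 3 => m0
      | _ => m0 + w + (S + h) + (S + h + s) + 1
    let P : ℕ → {v : Fin (K + 1) ⊕ (Lf ⊕ (B ⊕ BL)) // v ≠ Sum.inl v1} → Prop := fun t v => match t with
      | 0 => ∃ e, leafVert e = v.1
      | 1 => (∃ i : Fin (K + 1), v.1 = Sum.inl i ∧ 2 ≤ (i : ℕ) ∧ (i : ℕ) < K ∧
          ¬ Loaded la ba i) ∨
        (∃ (i : Fin (K + 1)) (x : Lf), v.1 = Sum.inl i ∧ la x = i ∧ sp x)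
      | 2 => (∃ (i : Fin (K + 1)) (x : Lf), v.1 = Sum.inl i ∧ la x = i ∧ ¬ sp x ∧ la x ≠ 1) ∨
        (∃ b, v.1 = Sum.inr (Sum.inr (Sum.inl b)))
      | 3 => ∃ (i : Fin (K + 1)) (b : B), v.1 = Sum.inl i ∧ ba b = i
      | _ => False
    have hlo : ∀ t, lo t ≤ lo (t + 1) := by
      intro t
      match t with
      | 0 => show 0 ≤ S + 1; omega
      | 1 => show S + 1 ≤ V + 1; omega
      | 2 => show V + 1 ≤ m0; omega
      | 3 => show m0 ≤ m0 + w + (S + h) + (S + h + s) + 1; omega
      | (n + 4) => exact le_refl _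
    have hcase : ∀ v : {v : Fin (K + 1) ⊕ (Lf ⊕ (B ⊕ BL)) // v ≠ Sum.inl v1},
        (∃ t, P t v ∧ lo t ≤ vsums K la ba par p fl ft fb v.1 ∧
          vsums K la ba par p fl ft fb v.1 < lo (t + 1)) ∧
        vsums K la ba par p fl ft fb v.1 ≠ F := by
      rintro ⟨(i | x | b | z), hne⟩
      · show (∃ t, P t ⟨Sum.inl i, hne⟩ ∧ lo t ≤ vsums K la ba par p fl ft fb (Sum.inl i) ∧
          vsums K la ba par p fl ft fb (Sum.inl i) < lo (t + 1)) ∧
          vsums K la ba par p fl ft fb (Sum.inl i) ≠ F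
        have hi1 : (i : ℕ) ≠ 1 := by
          intro h
          apply hne
          rw [show i = v1 from Fin.ext h]
        rcases path_cases hd i with h1 | h1 | ⟨x, h1⟩ | ⟨b, h1⟩ | ⟨h1, h2, h3⟩
        · have he : leafVert (Sum.inl true) = (Sum.inl i : Fin (K + 1) ⊕ (Lf ⊕ (B ⊕ BL))) := by
            rw [h1]; rfl
          have h2 := hleaf_le (Sum.inl true)
          have h3 := hleafF (Sum.inl true)
          rw [he] at h2 h3
          refine ⟨⟨0, ⟨_, he⟩, Nat.zero_le _, ?_⟩, h3⟩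
          show _ < S + 1
          omega
        · have he : leafVert (Sum.inl false) = (Sum.inl i : Fin (K + 1) ⊕ (Lf ⊕ (B ⊕ BL))) := by
            rw [h1]; rfl
          have h2 := hleaf_le (Sum.inl false)
          have h3 := hleafF (Sum.inl false)
          rw [he] at h2 h3
          refine ⟨⟨0, ⟨_, he⟩, Nat.zero_le _, ?_⟩, h3⟩
          show _ < S + 1
          omega
        · have hx1 : la x ≠ 1 := by omega
          have hxm := hla_mem x
          have h5 := hb_lt (la x - 1) (by omega) (by omega)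
          have h7 := hF2' (la x - 1) (by omega) (by omega)
          rw [hA_val i x h1 hx1]
          refine ⟨?_, by omega⟩
          by_cases hx : sp x
          · refine ⟨1, Or.inr ⟨i, x, rfl, h1, hx⟩, ?_⟩
            rw [hfl_sp x hx]
            show S + 1 ≤ _ ∧ _ < V + 1
            have h4 := (hspV x hx).1
            omega
          · refine ⟨2, Or.inl ⟨i, x, rfl, h1, hx, hx1⟩, ?_⟩
            rw [hfl_A x hx hx1]
            show V + 1 ≤ _ ∧ _ < m0
            have h4 := hAV x hx hx1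
            have h5 := hm2 x hx hx1
            have h6 := hσm (Sum.inl ⟨x, hx, hx1⟩)
            omega
        · have hxm := hba_mem b
          have h5 := hb_lt (ba b - 1) (by omega) (by omega)
          have h7 := hF2' (ba b - 1) (by omega) (by omega)
          rw [hZ_val i b h1]
          refine ⟨⟨3, ⟨i, b, rfl, h1⟩, ?_⟩, by omega⟩
          show m0 ≤ base (ba b - 1) + (S + h + τ b) ∧
            base (ba b - 1) + (S + h + τ b) < m0 + w + (S + h) + (S + h + s) + 1
          have h4 := hm1 b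
          have h6 := hτ1 b
          omega
        · have h5 := hb_lt (i - 1) (by omega) (by omega)
          have h7 := hF2' (i - 1) (by omega) (by omega)
          have h8 : ¬ Loaded la ba (((i : ℕ) - 1) + 1) := by
            rw [Nat.sub_add_cancel (by omega)]; exact h3
          have h6 := hCV (i - 1) (by omega) (by omega) h8
          rw [hC_val i (by omega) h2 h3]
          refine ⟨⟨1, Or.inl ⟨i, rfl, by omega, h2, h3⟩, ?_⟩, by omega⟩
          show S + 1 ≤ _ ∧ _ < V + 1
          omega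
      · have he : leafVert (Sum.inr (Sum.inl x)) =
            (Sum.inr (Sum.inl x) : Fin (K + 1) ⊕ (Lf ⊕ (B ⊕ BL))) := rfl
        have h2 := hleaf_le (Sum.inr (Sum.inl x))
        have h3 := hleafF (Sum.inr (Sum.inl x))
        rw [he] at h2 h3
        refine ⟨⟨0, ⟨_, he⟩, Nat.zero_le _, ?_⟩, h3⟩
        show _ < S + 1
        exact Nat.lt_succ_of_le h2
      · show (∃ t, P t ⟨_, hne⟩ ∧
          lo t ≤ vsums K la ba par p fl ft fb (Sum.inr (Sum.inr (Sum.inl b))) ∧
          vsums K la ba par p fl ft fb (Sum.inr (Sum.inr (Sum.inl b))) < lo (t + 1)) ∧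
          vsums K la ba par p fl ft fb (Sum.inr (Sum.inr (Sum.inl b))) ≠ F
        have h1 := hm3 b
        have h2 := hσm (Sum.inr b)
        have h3 := hτ1 b
        rw [hft_val]
        have h4 : W (Sum.inr b) = (S + h + τ b) + if two b then low (β + above two τ b) else 0 :=
          rfl
        rw [h4]
        refine ⟨⟨2, Or.inr ⟨b, rfl⟩, ?_⟩, by omega⟩
        show V + 1 ≤ _ ∧ _ < m0
        omega
      · have he : leafVert (Sum.inr (Sum.inr z)) =
            (Sum.inr (Sum.inr (Sum.inr z)) : Fin (K + 1) ⊕ (Lf ⊕ (B ⊕ BL))) := rfl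
        have h2 := hleaf_le (Sum.inr (Sum.inr z))
        have h3 := hleafF (Sum.inr (Sum.inr z))
        rw [he] at h2 h3
        refine ⟨⟨0, ⟨_, he⟩, Nat.zero_le _, ?_⟩, h3⟩
        show _ < S + 1
        exact Nat.lt_succ_of_le h2
    have hrest : Function.Injective
        (fun v : {v : Fin (K + 1) ⊕ (Lf ⊕ (B ⊕ BL)) // v ≠ Sum.inl v1} =>
          vsums K la ba par p fl ft fb v.1) := by
      apply inj_of_zones' _ P lo hlo (fun v => (hcase v).1)
      intro t v v' hv hv' hvv
      apply Subtype.ext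
      have hvv' : vsums K la ba par p fl ft fb v.1 = vsums K la ba par p fl ft fb v'.1 := hvv
      match t, hv, hv' with
      | 0, ⟨e, he⟩, ⟨e', he'⟩ =>
        rw [← he, ← he', hend_val, hend_val] at hvv'
        rw [← he, ← he', leafSlot_inj hk2 (hlinj hvv')]
      | 1, Or.inl ⟨i, hi, h1, h2, h3⟩, Or.inl ⟨i', hi', h1', h2', h3'⟩ =>
        rw [hi, hi', hC_val i h1 h2 h3, hC_val i' h1' h2' h3'] at hvv'
        have h8 : ¬ Loaded la ba (((i : ℕ) - 1) + 1) := by
          rw [Nat.sub_add_cancel (by omega)]; exact h3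
        have h8' : ¬ Loaded la ba (((i' : ℕ) - 1) + 1) := by
          rw [Nat.sub_add_cancel (by omega)]; exact h3'
        have := hCinj (i - 1) (i' - 1) (by omega) (by omega) (by omega) (by omega) h8 h8' hvv'
        rw [hi, hi', Fin.ext (show (i : ℕ) = i' by omega)]
      | 1, Or.inl ⟨i, hi, h1, h2, h3⟩, Or.inr ⟨i', x', hi', hx', hsx'⟩ =>
        have h8 : ¬ Loaded la ba (((i : ℕ) - 1) + 1) := by
          rw [Nat.sub_add_cancel (by omega)]; exact h3
        rw [hi, hi', hC_val i h1 h2 h3, hA_val i' x' hx' (hsp1 x' hsx'), hfl_sp x' hsx'] at hvv'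
        exact absurd hvv' ((hspV x' hsx').2 (i - 1) (by omega) (by omega) h8)
      | 1, Or.inr ⟨i', x', hi', hx', hsx'⟩, Or.inl ⟨i, hi, h1, h2, h3⟩ =>
        have h8 : ¬ Loaded la ba (((i : ℕ) - 1) + 1) := by
          rw [Nat.sub_add_cancel (by omega)]; exact h3
        rw [hi, hi', hC_val i h1 h2 h3, hA_val i' x' hx' (hsp1 x' hsx'), hfl_sp x' hsx'] at hvv'
        exact absurd hvv'.symm ((hspV x' hsx').2 (i - 1) (by omega) (by omega) h8)
      | 1, Or.inr ⟨i, x, hi, hx, hsx⟩, Or.inr ⟨i', x', hi', hx', hsx'⟩ =>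
        have h7 : x = x' := hspu x x' hsx hsx'
        subst h7
        rw [hi, hi', Fin.ext (hx.symm.trans hx')]
      | 2, Or.inl ⟨i, x, hi, hx, hsx, hx1⟩, Or.inl ⟨i', x', hi', hx', hsx', hx1'⟩ =>
        rw [hi, hi', hA_val i x hx hx1, hA_val i' x' hx' hx1', hfl_A x hsx hx1,
          hfl_A x' hsx' hx1'] at hvv'
        have h4 : (⟨x, hsx, hx1⟩ : {x // ¬ sp x ∧ la x ≠ 1}) = ⟨x', hsx', hx1'⟩ :=
          Sum.inl_injective (hσ4 hvv')
        have h7 : x = x' := congrArg Subtype.val h4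
        subst h7
        rw [hi, hi', Fin.ext (hx.symm.trans hx')]
      | 2, Or.inl ⟨i, x, hi, hx, hsx, hx1⟩, Or.inr ⟨b, hb⟩ =>
        rw [hi, hb, hA_val i x hx hx1, hft_val, hfl_A x hsx hx1] at hvv'
        exact absurd (hσ4 (a₁ := Sum.inl ⟨x, hsx, hx1⟩) (a₂ := Sum.inr b) hvv') Sum.inl_ne_inr
      | 2, Or.inr ⟨b, hb⟩, Or.inl ⟨i, x, hi, hx, hsx, hx1⟩ =>
        rw [hi, hb, hA_val i x hx hx1, hft_val, hfl_A x hsx hx1] at hvv'
        exact absurd (hσ4 (a₁ := Sum.inl ⟨x, hsx, hx1⟩) (a₂ := Sum.inr b) hvv'.symm)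
          Sum.inl_ne_inr
      | 2, Or.inr ⟨b, hb⟩, Or.inr ⟨b', hb'⟩ =>
        rw [hb, hb', hft_val, hft_val] at hvv'
        rw [hb, hb', Sum.inr_injective (hσ4 hvv')]
      | 3, ⟨i, b, hi, hb⟩, ⟨i', b', hi', hb'⟩ =>
        rw [hi, hi', hZ_val i b hb, hZ_val i' b' hb'] at hvv'
        have h4 : base (ba b - 1) + (S + h + τ b) = base (ba b' - 1) + (S + h + τ b') := hvv'
        have h5 : base (ba b - 1) + τ b = base (ba b' - 1) + τ b' := by omega
        have h7 : b = b' := hτ4 h5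
        subst h7
        rw [hi, hi', Fin.ext (hb.symm.trans hb')]
      | (n + 4), hv, _ => exact hv.elim
    intro v v' hvv
    by_cases hv : v = Sum.inl v1 <;> by_cases hv' : v' = Sum.inl v1
    · rw [hv, hv']
    · rw [hv, hv1] at hvv
      exact absurd hvv.symm (hcase ⟨v', hv'⟩).2
    · rw [hv', hv1] at hvv
      exact absurd hvv (hcase ⟨v, hv⟩).2
    · exact congrArg Subtype.val (hrest (a₁ := ⟨v, hv⟩) (a₂ := ⟨v', hv'⟩) hvv)

end Pool.Agent.Lob89
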