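import Pool.Agent.Lob89.PureR2

/-!
The pure class, `k` odd, regime 1: the general layout.
-/

namespace Pool.Agent.Lob89

open Finset

set_option linter.unusedSectionVars false

variable {Lf B BL : Type*} [Fintype Lf] [Fintype B] [Fintype BL] [DecidableEq B]

/-- the odd edge at the vertex `i` -/
def oddE (i : ℕ) : ℕ := if i % 2 = 1 then i else i + 1

/-- the even edge at the vertex `i` -/
def evenE (i : ℕ) : ℕ := if i % 2 = 1 then i + 1 else i

/-- The general layout of regime 1. -/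
theorem regime_one_gen {k h : ℕ} {la : Lf → ℕ} {ba : B → ℕ} {par : BL → B}
    {last : B → BL} {two : B → Prop} [DecidablePred two] {rk : ℕ → ℕ}
    (hd : LobData k la ba par) (hP : PureData la ba par last two)
    (hk1 : k = 2 * h + 1)
    (hodd : ∀ e, 1 ≤ e → e ≤ k → e % 2 = 1 → 1 ≤ rk e ∧ rk e ≤ h + 1)
    (heven : ∀ e, 1 ≤ e → e ≤ k → e % 2 = 0 → 1 ≤ rk e ∧ rk e ≤ h)
    (hinj : ∀ e f, 1 ≤ e → e ≤ k → 1 ≤ f → f ≤ k → e % 2 = f % 2 → rk e = rk f → e = f)
    (w N : ℕ) (Lo : ℕ → ℕ)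
    (hLo : ∀ r, 1 ≤ r → r ≤ h + 1 → Fintype.card {b // two b} + 1 ≤ Lo r ∧ Lo r ≤ w)
    (hLoi : ∀ r r', 1 ≤ r → r ≤ h + 1 → 1 ≤ r' → r' ≤ h + 1 → Lo r = Lo r' → r = r')
    (sp : Lf → Prop) [DecidablePred sp] (hspu : ∀ x y, sp x → sp y → x = y) (ν : ℕ) (M : Finset ℕ)
    (hMc : M.card = Fintype.card {x // ¬ sp x} + Fintype.card B)
    (hMm : ∀ m ∈ M, w + 1 ≤ m ∧ m ≤ w + N)
    (hν : ∀ x, sp x → Fintype.card {b // two b} + 1 ≤ ν ∧ ν ≤ w + N ∧ ν ∉ M ∧
      ∀ r, 1 ≤ r → r ≤ h + 1 → Lo r ≠ ν)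
    (hcount : w + N = Fintype.card {b // two b} + (h + 1) + Fintype.card Lf + Fintype.card B)
    (V m0 : ℕ) (base : ℕ → ℕ)
    (hbase : ∀ i, 1 ≤ i → i < k → base i = Lo (rk (oddE i)) + (w + N + rk (evenE i)))
    (hCinj : ∀ i j, 1 ≤ i → i < k → 1 ≤ j → j < k → ¬ Loaded la ba i → ¬ Loaded la ba j →
      base i = base j → i = j)
    (hCV : ∀ i, 1 ≤ i → i < k → ¬ Loaded la ba i → base i ≤ V)
    (hspV : ∀ x, sp x → base (la x) + ν ≤ V ∧
      ∀ i, 1 ≤ i → i < k → ¬ Loaded la ba i → base i ≠ base (la x) + ν)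
    (hAV : ∀ x, ¬ sp x → V < base (la x) + (w + 1))
    (hwV : w + N ≤ V) (hLV : V < (w + N + h + 1) + (w + 1)) (hVm : V < m0)
    (τ : B → ℕ) (hτ1 : ∀ b, 1 ≤ τ b ∧ τ b ≤ Fintype.card B) (hτ3 : Function.Injective τ)
    (hτ4 : Function.Injective fun b => base (ba b) + τ b)
    (hm1 : ∀ b, m0 ≤ base (ba b) + (w + N + h + τ b))
    (hm2 : ∀ x, ¬ sp x → base (la x) + (w + N) < m0)
    (hm3 : ∀ b, (w + N + h + τ b) + (if two b then above two τ b else 0) + (w + N) < m0) :
    HasLabels k la ba par := by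
  classical
  set s := Fintype.card B with hsdef
  set n2 := Fintype.card {b // two b} with hn2
  have hk2 := hd.two_le
  have hla_mem : ∀ x, 1 ≤ la x ∧ la x < k := fun x => ⟨hd.la_pos x, by have := hd.la_lt x; omega⟩
  have hba_mem : ∀ b, 1 ≤ ba b ∧ ba b < k :=
    fun b => ⟨by have := hd.ba_pos b; omega, by have := hd.ba_lt b; omega⟩
  -- elements
  let W : {x // ¬ sp x} ⊕ B → ℕ := Sum.elim (fun x => base (la x.1))
    (fun b => (w + N + h + τ b) + if two b then above two τ b else 0)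
  obtain ⟨σ, hσ1, _, hσ3, hσ4⟩ := greedy W M (by rw [hMc, Fintype.card_sum])
  have hσm : ∀ e, w + 1 ≤ σ e ∧ σ e ≤ w + N := fun e => hMm _ (hσ1 e)
  have habove1 : ∀ b, 1 ≤ above two τ b := fun b => by unfold above; omega
  have habove2 : ∀ b, two b → above two τ b ≤ n2 := fun b hb => above_le_card hb
  -- labels
  let p : ℕ → ℕ := fun e => if e % 2 = 1 then Lo (rk e) else w + N + rk e
  let fl : Lf → ℕ := fun x => if hx : sp x then ν else σ (Sum.inl ⟨x, hx⟩)
  let ft : B → ℕ := fun b => w + N + h + τ b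
  let fb : BL → ℕ := bushLab par last (fun b => σ (Sum.inr b)) (above two τ)
  have hfl_sp : ∀ x, sp x → fl x = ν := fun x hx => dif_pos hx
  have hfl_A : ∀ x (hx : ¬ sp x), fl x = σ (Sum.inl ⟨x, hx⟩) := fun x hx => dif_neg hx
  have hfb1 : ∀ y, y = last (par y) → fb y = σ (Sum.inr (par y)) := fun y hy => if_pos hy
  have hfb2 : ∀ y, y ≠ last (par y) → fb y = above two τ (par y) := fun y hy => if_neg hy
  have hsum : ∀ b, ft b + ∑ y, (if par y = b then fb y else 0) = W (Sum.inr b) + σ (Sum.inr b) := by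
    intro b
    rw [sum_bush hP]
    show (w + N + h + τ b) + _ = (w + N + h + τ b) + _ + _
    ring
  have hp_odd : ∀ e, e % 2 = 1 → p e = Lo (rk e) := fun e he => if_pos he
  have hp_even : ∀ e, e % 2 = 0 → p e = w + N + rk e := fun e he => if_neg (by omega)
  have hpb : ∀ i, 1 ≤ i → i < k → p i + p (i + 1) = base i := by
    intro i h1 h2
    rw [hbase i h1 h2]
    unfold oddE evenE
    rcases Nat.mod_two_eq_zero_or_one i with hi | hi
    · rw [hp_even i hi, hp_odd (i + 1) (by omega), if_neg (by omega), if_neg (by omega)]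
      ring
    · rw [hp_odd i hi, hp_even (i + 1) (by omega), if_pos hi, if_pos hi]
  -- ranges
  have hp_range : ∀ e, 1 ≤ e → e ≤ k → (e % 2 = 1 ∧ n2 + 1 ≤ p e ∧ p e ≤ w) ∨
      (e % 2 = 0 ∧ w + N + 1 ≤ p e ∧ p e ≤ w + N + h) := by
    intro e h1 h2
    rcases Nat.mod_two_eq_zero_or_one e with he | he
    · right
      have := heven e h1 h2 he
      rw [hp_even e he]
      omega
    · left
      have := hodd e h1 h2 he
      have := hLo (rk e) this.1 this.2
      rw [hp_odd e he]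
      omega
  have hfl_range : ∀ x, (sp x ∧ fl x = ν) ∨ (¬ sp x ∧ w + 1 ≤ fl x ∧ fl x ≤ w + N) := by
    intro x
    by_cases hx : sp x
    · exact Or.inl ⟨hx, hfl_sp x hx⟩
    · right
      rw [hfl_A x hx]
      exact ⟨hx, hσm _⟩
  have hfb_range : ∀ y, (y = last (par y) ∧ w + 1 ≤ fb y ∧ fb y ≤ w + N) ∨
      (y ≠ last (par y) ∧ 1 ≤ fb y ∧ fb y ≤ n2) := by
    intro y
    by_cases hy : y = last (par y)
    · left
      rw [hfb1 y hy]
      exact ⟨hy, hσm _⟩
    · right
      rw [hfb2 y hy]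
      exact ⟨hy, habove1 _, habove2 _ ((hP.two_iff _).2 ⟨y, rfl, hy⟩)⟩
  have hn2w : n2 + 1 ≤ w := by
    have := hLo 1 le_rfl (by omega)
    omega
  have hfl_inj : Function.Injective fl := by
    intro x y hxy
    rcases hfl_range x with ⟨h1, h2⟩ | ⟨h1, h2, h3⟩ <;> rcases hfl_range y with ⟨h4, h5⟩ | ⟨h4, h5, h6⟩
    · exact hspu x y h1 h4
    · exfalso
      apply (hν x h1).2.2.1
      rw [← h2, hxy, hfl_A y h4]
      exact hσ1 _
    · exfalso
      apply (hν y h4).2.2.1
      rw [← h5, ← hxy, hfl_A x h1]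
      exact hσ1 _
    · rw [hfl_A x h1, hfl_A y h4] at hxy
      exact congrArg Subtype.val (Sum.inl_injective (hσ3 hxy))
  have hfb_inj : Function.Injective fb := by
    intro y z hyz
    rcases hfb_range y with ⟨h1, h2, h3⟩ | ⟨h1, h2, h3⟩ <;>
      rcases hfb_range z with ⟨h4, h5, h6⟩ | ⟨h4, h5, h6⟩
    · rw [hfb1 y h1, hfb1 z h4] at hyz
      rw [h1, h4, Sum.inr_injective (hσ3 hyz)]
    · omega
    · omega
    · rw [hfb2 y h1, hfb2 z h4] at hyz
      have ht1 : two (par y) := (hP.two_iff _).2 ⟨y, rfl, h1⟩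
      have ht2 : two (par z) := (hP.two_iff _).2 ⟨z, rfl, h4⟩
      exact hP.second_unique y z (above_inj hτ3 ht1 ht2 hyz) h1 h4
  have hft_inj : Function.Injective ft := by
    intro a b hab
    have : w + N + h + τ a = w + N + h + τ b := hab
    exact hτ3 (by omega)
  have hp_inj : ∀ e f, 1 ≤ e → e ≤ k → 1 ≤ f → f ≤ k → p e = p f → e = f := by
    intro e f he1 he2 hf1 hf2 hef
    rcases hp_range e he1 he2 with ⟨h1, h2, h3⟩ | ⟨h1, h2, h3⟩ <;>
      rcases hp_range f hf1 hf2 with ⟨h4, h5, h6⟩ | ⟨h4, h5, h6⟩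
    · rw [hp_odd e h1, hp_odd f h4] at hef
      have a1 := hodd e he1 he2 h1
      have a2 := hodd f hf1 hf2 h4
      exact hinj e f he1 he2 hf1 hf2 (by omega) (hLoi _ _ a1.1 a1.2 a2.1 a2.2 hef)
    · omega
    · omega
    · rw [hp_even e h1, hp_even f h4] at hef
      exact hinj e f he1 he2 hf1 hf2 (by omega) (by omega)
  have hfl_fb : ∀ x y, fl x ≠ fb y := by
    intro x y hxy
    rcases hfl_range x with ⟨h1, h2⟩ | ⟨h1, h2, h3⟩ <;>
      rcases hfb_range y with ⟨h4, h5, h6⟩ | ⟨h4, h5, h6⟩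
    · apply (hν x h1).2.2.1
      rw [← h2, hxy, hfb1 y h4]
      exact hσ1 _
    · have := (hν x h1).1
      omega
    · rw [hfl_A x h1, hfb1 y h4] at hxy
      exact Sum.inl_ne_inr (hσ3 hxy)
    · omega
  have hfl_p : ∀ x e, 1 ≤ e → e ≤ k → fl x ≠ p e := by
    intro x e h1 h2 hxy
    have h3 := hp_range e h1 h2
    rcases hfl_range x with ⟨h4, h5⟩ | ⟨h4, h5, h6⟩
    · have h7 := hν x h4
      rcases h3 with ⟨h8, h9, h10⟩ | ⟨h8, h9, h10⟩
      · have a1 := hodd e h1 h2 h8
        apply h7.2.2.2 (rk e) a1.1 a1.2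
        rw [← hp_odd e h8, ← hxy, h5]
      · omega
    · omega
  have hfl_le : ∀ x, 1 ≤ fl x ∧ fl x ≤ w + N := by
    intro x
    rcases hfl_range x with ⟨h4, h5⟩ | ⟨h4, h5, h6⟩
    · have h7 := hν x h4
      omega
    · omega
  have hft_range : ∀ b, w + N + h + 1 ≤ ft b ∧ ft b ≤ w + N + h + s := by
    intro b
    have := hτ1 b
    show w + N + h + 1 ≤ w + N + h + τ b ∧ w + N + h + τ b ≤ w + N + h + s
    omega
  have hlinj : Function.Injective (labels (k := k) p fl ft fb) := by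
    rintro (i | x | b | y) (j | x' | b' | y') hxy
    · have h1 : p ((i : ℕ) + 1) = p ((j : ℕ) + 1) := hxy
      have := hp_inj _ _ (by omega) (by omega) (by omega) (by omega) h1
      rw [Fin.ext (show (i : ℕ) = j by omega)]
    · exfalso
      have h1 : p ((i : ℕ) + 1) = fl x' := hxy
      exact hfl_p x' _ (by omega) (by omega) h1.symm
    · exfalso
      have h1 : p ((i : ℕ) + 1) = ft b' := hxy
      have h3 := hp_range (i + 1) (by omega) (by omega)
      have h4 := hft_range b'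
      omega
    · exfalso
      have h1 : p ((i : ℕ) + 1) = fb y' := hxy
      have h3 := hp_range (i + 1) (by omega) (by omega)
      have h4 := hfb_range y'
      omega
    · exfalso
      have h1 : fl x = p ((j : ℕ) + 1) := hxy
      exact hfl_p x _ (by omega) (by omega) h1
    · have h1 : fl x = fl x' := hxy
      rw [hfl_inj h1]
    · exfalso
      have h1 : fl x = ft b' := hxy
      have h3 := hft_range b'
      have h4 := hfl_le x
      omega
    · exact absurd hxy (hfl_fb x y')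
    · exfalso
      have h1 : ft b = p ((j : ℕ) + 1) := hxy
      have h3 := hp_range (j + 1) (by omega) (by omega)
      have h4 := hft_range b
      omega
    · exfalso
      have h1 : ft b = fl x' := hxy
      have h3 := hft_range b
      have h4 := hfl_le x'
      omega
    · have h1 : ft b = ft b' := hxy
      rw [hft_inj h1]
    · exfalso
      have h1 : ft b = fb y' := hxy
      have h3 := hft_range b
      have h4 := hfb_range y'
      omega
    · exfalso
      have h1 : fb y = p ((j : ℕ) + 1) := hxy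
      have h3 := hp_range (j + 1) (by omega) (by omega)
      have h4 := hfb_range y
      omega
    · exact absurd (Eq.symm hxy) (hfl_fb x' y)
    · exfalso
      have h1 : fb y = ft b' := hxy
      have h3 := hft_range b'
      have h4 := hfb_range y
      omega
    · have h1 : fb y = fb y' := hxy
      rw [hfb_inj h1]
  refine ⟨p, fl, ft, fb, hlinj, ?_, ?_⟩
  · -- range
    have hBL := card_BL hP
    rintro (i | x | b | y)
    · have h3 := hp_range (i + 1) (by omega) (by omega)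
      show 1 ≤ p ((i : ℕ) + 1) ∧ p ((i : ℕ) + 1) ≤ _
      omega
    · show 1 ≤ fl x ∧ fl x ≤ _
      have := hfl_le x
      omega
    · have h3 := hft_range b
      show 1 ≤ ft b ∧ ft b ≤ _
      omega
    · have h3 := hfb_range y
      show 1 ≤ fb y ∧ fb y ≤ _
      omega
  · -- sums
    have hft_val : ∀ b, vsums k la ba par p fl ft fb (Sum.inr (Sum.inr (Sum.inl b))) =
        W (Sum.inr b) + σ (Sum.inr b) := fun b => hsum b
    have hC_val : ∀ i : Fin (k + 1), 1 ≤ (i : ℕ) → (i : ℕ) < k → ¬ Loaded la ba i →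
        vsums k la ba par p fl ft fb (Sum.inl i) = base i := by
      intro i h1 h2 h3
      have : vsums k la ba par p fl ft fb (Sum.inl i) = pathSum k la ba p fl ft i := rfl
      rw [this, pathSum_free h1 h2 h3, hpb _ h1 h2]
    have hA_val : ∀ (i : Fin (k + 1)) x, la x = i →
        vsums k la ba par p fl ft fb (Sum.inl i) = base (la x) + fl x := by
      intro i x hx
      have : vsums k la ba par p fl ft fb (Sum.inl i) = pathSum k la ba p fl ft i := rfl
      rw [this, ← hx, pathSum_A hd hP, hpb _ (hla_mem x).1 (hla_mem x).2]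
    have hZ_val : ∀ (i : Fin (k + 1)) b, ba b = i →
        vsums k la ba par p fl ft fb (Sum.inl i) = base (ba b) + ft b := by
      intro i b hx
      have : vsums k la ba par p fl ft fb (Sum.inl i) = pathSum k la ba p fl ft i := rfl
      rw [this, ← hx, pathSum_Z hd hP, hpb _ (hba_mem b).1 (hba_mem b).2]
    have hend_val : ∀ e, vsums k la ba par p fl ft fb (leafVert e) =
        labels (k := k) p fl ft fb (leafSlot hk2 e) := fun e => vsums_leafVert hd e
    have hb_lt : ∀ i, 1 ≤ i → i < k → w + N + 1 ≤ base i ∧ base i ≤ w + (w + N + h) := by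
      intro i h1 h2
      rw [← hpb i h1 h2]
      have a1 := hp_range i h1 h2.le
      have a2 := hp_range (i + 1) (by omega) (by omega)
      omega
    let lo : ℕ → ℕ := fun t => match t with
      | 0 => 0
      | 1 => w + N + 1
      | 2 => V + 1
      | 3 => m0
      | _ => m0 + w + (w + N + h) + (w + N + h + s) + 1
    let P : ℕ → Fin (k + 1) ⊕ (Lf ⊕ (B ⊕ BL)) → Prop := fun t v => match t with
      | 0 => ∃ e, leafVert e = v
      | 1 => (∃ i : Fin (k + 1), v = Sum.inl i ∧ 1 ≤ (i : ℕ) ∧ (i : ℕ) < k ∧ ¬ Loaded la ba i) ∨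
        (∃ (i : Fin (k + 1)) (x : Lf), v = Sum.inl i ∧ la x = i ∧ sp x)
      | 2 => (∃ (i : Fin (k + 1)) (x : Lf), v = Sum.inl i ∧ la x = i ∧ ¬ sp x) ∨
        (∃ b, v = Sum.inr (Sum.inr (Sum.inl b)))
      | 3 => ∃ (i : Fin (k + 1)) (b : B), v = Sum.inl i ∧ ba b = i
      | _ => False
    have hlo : ∀ t, lo t ≤ lo (t + 1) := by
      intro t
      match t with
      | 0 => show 0 ≤ w + N + 1; omega
      | 1 => show w + N + 1 ≤ V + 1; omega
      | 2 => show V + 1 ≤ m0; omega
      | 3 => show m0 ≤ m0 + w + (w + N + h) + (w + N + h + s) + 1; omega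
      | (n + 4) => exact le_refl _
    apply inj_of_zones' _ P lo hlo
    · rintro (i | x | b | y)
      · rcases path_cases hd i with h1 | h1 | ⟨x, h1⟩ | ⟨b, h1⟩ | ⟨h1, h2, h3⟩
        · refine ⟨0, ⟨Sum.inl true, by rw [h1]; rfl⟩, Nat.zero_le _, ?_⟩
          rw [h1]
          have h3 := hp_range 1 le_rfl (by omega)
          show vsums k la ba par p fl ft fb (leafVert (Sum.inl true)) < w + N + 1
          rw [hend_val]
          show p 1 < w + N + 1
          omega
        · refine ⟨0, ⟨Sum.inl false, by rw [h1]; rfl⟩, Nat.zero_le _, ?_⟩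
          rw [h1]
          have h3 := hp_range k (by omega) le_rfl
          show vsums k la ba par p fl ft fb (leafVert (Sum.inl false)) < w + N + 1
          rw [hend_val]
          show p (k - 1 + 1) < w + N + 1
          rw [Nat.sub_add_cancel (by omega)]
          omega
        · by_cases hx : sp x
          · refine ⟨1, Or.inr ⟨i, x, rfl, h1, hx⟩, ?_⟩
            rw [hA_val i x h1, hfl_sp x hx]
            show w + N + 1 ≤ _ ∧ _ < V + 1
            have h4 := (hspV x hx).1
            have h5 := hb_lt _ (hla_mem x).1 (hla_mem x).2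
            omega
          · refine ⟨2, Or.inl ⟨i, x, rfl, h1, hx⟩, ?_⟩
            rw [hA_val i x h1, hfl_A x hx]
            show V + 1 ≤ _ ∧ _ < m0
            have h4 := hAV x hx
            have h5 := hm2 x hx
            have h6 := hσm (Sum.inl ⟨x, hx⟩)
            omega
        · refine ⟨3, ⟨i, b, rfl, h1⟩, ?_⟩
          rw [hZ_val i b h1]
          show m0 ≤ base (ba b) + (w + N + h + τ b) ∧
            base (ba b) + (w + N + h + τ b) < m0 + w + (w + N + h) + (w + N + h + s) + 1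
          have h4 := hm1 b
          have h5 := hb_lt _ (hba_mem b).1 (hba_mem b).2
          have h6 := hτ1 b
          omega
        · refine ⟨1, Or.inl ⟨i, rfl, h1, h2, h3⟩, ?_⟩
          rw [hC_val i h1 h2 h3]
          show w + N + 1 ≤ _ ∧ _ < V + 1
          have h4 := hb_lt i h1 h2
          have h5 := hCV i h1 h2 h3
          omega
      · refine ⟨0, ⟨Sum.inr (Sum.inl x), rfl⟩, Nat.zero_le _, ?_⟩
        show fl x < w + N + 1
        have := hfl_le x
        omega
      · refine ⟨2, Or.inr ⟨b, rfl⟩, ?_⟩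
        rw [hft_val]
        show V + 1 ≤ (w + N + h + τ b) + (if two b then above two τ b else 0) + σ (Sum.inr b) ∧
          (w + N + h + τ b) + (if two b then above two τ b else 0) + σ (Sum.inr b) < m0
        have h1 := hm3 b
        have h2 := hσm (Sum.inr b)
        have h3 := hτ1 b
        omega
      · refine ⟨0, ⟨Sum.inr (Sum.inr y), rfl⟩, Nat.zero_le _, ?_⟩
        show fb y < w + N + 1
        have := hfb_range y
        omega
    · intro t v v' hv hv' hvv
      match t, hv, hv' with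
      | 0, ⟨e, he⟩, ⟨e', he'⟩ =>
        rw [← he, ← he', hend_val, hend_val] at hvv
        rw [← he, ← he', leafSlot_inj hk2 (hlinj hvv)]
      | 1, Or.inl ⟨i, hi, h1, h2, h3⟩, Or.inl ⟨i', hi', h1', h2', h3'⟩ =>
        rw [hi, hi', hC_val i h1 h2 h3, hC_val i' h1' h2' h3'] at hvv
        rw [hi, hi', Fin.ext (hCinj i i' h1 h2 h1' h2' h3 h3' hvv)]
      | 1, Or.inl ⟨i, hi, h1, h2, h3⟩, Or.inr ⟨i', x', hi', hx', hsx'⟩ =>
        rw [hi, hi', hC_val i h1 h2 h3, hA_val i' x' hx', hfl_sp x' hsx'] at hvv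
        exact absurd hvv ((hspV x' hsx').2 i h1 h2 h3)
      | 1, Or.inr ⟨i', x', hi', hx', hsx'⟩, Or.inl ⟨i, hi, h1, h2, h3⟩ =>
        rw [hi, hi', hC_val i h1 h2 h3, hA_val i' x' hx', hfl_sp x' hsx'] at hvv
        exact absurd hvv.symm ((hspV x' hsx').2 i h1 h2 h3)
      | 1, Or.inr ⟨i, x, hi, hx, hsx⟩, Or.inr ⟨i', x', hi', hx', hsx'⟩ =>
        have h7 : x = x' := hspu x x' hsx hsx'
        subst h7
        rw [hi, hi', Fin.ext (hx.symm.trans hx')]
      | 2, Or.inl ⟨i, x, hi, hx, hsx⟩, Or.inl ⟨i', x', hi', hx', hsx'⟩ =>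
        rw [hi, hi', hA_val i x hx, hA_val i' x' hx', hfl_A x hsx, hfl_A x' hsx'] at hvv
        have h4 : (⟨x, hsx⟩ : {x // ¬ sp x}) = ⟨x', hsx'⟩ := Sum.inl_injective (hσ4 hvv)
        have h7 : x = x' := congrArg Subtype.val h4
        subst h7
        rw [hi, hi', Fin.ext (hx.symm.trans hx')]
      | 2, Or.inl ⟨i, x, hi, hx, hsx⟩, Or.inr ⟨b, hb⟩ =>
        rw [hi, hb, hA_val i x hx, hft_val, hfl_A x hsx] at hvv
        exact absurd (hσ4 (a₁ := Sum.inl ⟨x, hsx⟩) (a₂ := Sum.inr b) hvv) Sum.inl_ne_inr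
      | 2, Or.inr ⟨b, hb⟩, Or.inl ⟨i, x, hi, hx, hsx⟩ =>
        rw [hi, hb, hA_val i x hx, hft_val, hfl_A x hsx] at hvv
        exact absurd (hσ4 (a₁ := Sum.inl ⟨x, hsx⟩) (a₂ := Sum.inr b) hvv.symm) Sum.inl_ne_inr
      | 2, Or.inr ⟨b, hb⟩, Or.inr ⟨b', hb'⟩ =>
        rw [hb, hb', hft_val, hft_val] at hvv
        rw [hb, hb', Sum.inr_injective (hσ4 hvv)]
      | 3, ⟨i, b, hi, hb⟩, ⟨i', b', hi', hb'⟩ =>
        rw [hi, hi', hZ_val i b hb, hZ_val i' b' hb'] at hvv
        have h4 : base (ba b) + (w + N + h + τ b) = base (ba b') + (w + N + h + τ b') := hvv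
        have h5 : base (ba b) + τ b = base (ba b') + τ b' := by omega
        have h7 : b = b' := hτ4 h5
        subst h7
        rw [hi, hi', Fin.ext (hb.symm.trans hb')]
      | (n + 4), hv, _ => exact hv.elim

end Pool.Agent.Lob89
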