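import Pool.Agent.Lob89.PureR1

/-!
The pure class, `k` odd, regime 1: the layouts without and with a gap.
-/

namespace Pool.Agent.Lob89

open Finset

set_option linter.unusedSectionVars false

variable {Lf B BL : Type*} [Fintype Lf] [Fintype B] [Fintype BL] [DecidableEq B]

lemma exists_threshold {ι κ : Type*} [Finite ι] [Finite κ] (U : ι → ℕ) (f : κ → ℕ)
    (h : ∀ i b, U i < f b) : ∃ m, (∀ i, U i < m) ∧ ∀ b, m ≤ f b := by
  classical
  by_cases hk : Nonempty κ
  · obtain ⟨b, hb⟩ := Finite.exists_min f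
    exact ⟨f b, fun i => h i b, hb⟩
  · obtain ⟨C, hC⟩ : ∃ C, ∀ i, U i ≤ C := by
      obtain ⟨C, hC⟩ := (Set.finite_range U).bddAbove
      exact ⟨C, fun e => hC ⟨e, rfl⟩⟩
    exact ⟨C + 1, fun i => by have := hC i; omega, fun b => (hk ⟨b⟩).elim⟩

lemma rk_odd_even (rk : ℕ → ℕ) (i : ℕ) : rk (oddE i) + rk (evenE i) = rk i + rk (i + 1) := by
  unfold oddE evenE
  split_ifs
  · rfl
  · exact add_comm _ _

lemma oddE_mem {k i : ℕ} (h1 : 1 ≤ i) (h2 : i < k) :
    1 ≤ oddE i ∧ oddE i ≤ k ∧ oddE i % 2 = 1 ∧ 1 ≤ evenE i ∧ evenE i ≤ k ∧ evenE i % 2 = 0 := by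
  unfold oddE evenE
  split_ifs <;> omega

/-- Regime 1, no gap. -/
theorem regime_one_a {k h : ℕ} {la : Lf → ℕ} {ba : B → ℕ} {par : BL → B}
    {last : B → BL} {two : B → Prop} [DecidablePred two] {rk : ℕ → ℕ}
    (hd : LobData k la ba par) (hP : PureData la ba par last two)
    (hR : RankBase k h (Loaded la ba) rk)
    (hsp : (∀ x, h ≤ Fintype.card {b // two b} + (rk (la x) + rk (la x + 1))) ∨
      ∃ x0, Fintype.card {b // two b} + (rk (la x0) + rk (la x0 + 1)) < h ∧
        h + 1 ≤ Fintype.card {b // two b} + (rk (la x0) + rk (la x0 + 1)) +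
          (Fintype.card Lf + Fintype.card B) ∧
        ∀ x, x ≠ x0 → h + 1 ≤ Fintype.card {b // two b} + (rk (la x) + rk (la x + 1)))
    (τ : B → ℕ) (hτ1 : ∀ b, 1 ≤ τ b ∧ τ b ≤ Fintype.card B) (hτ3 : Function.Injective τ)
    (hτ4 : Function.Injective fun b => rk (ba b) + rk (ba b + 1) + τ b)
    (hτ5 : ∀ b, Fintype.card B < rk (ba b) + rk (ba b + 1) + τ b)
    (hτ6 : ∀ x b, h ≤ Fintype.card {b // two b} + (rk (la x) + rk (la x + 1)) →
      rk (la x) + rk (la x + 1) < h + (rk (ba b) + rk (ba b + 1) + τ b)) :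
    HasLabels k la ba par := by
  classical
  set s := Fintype.card B with hsdef
  set n2 := Fintype.card {b // two b} with hn2
  have hla_mem : ∀ x, 1 ≤ la x ∧ la x < k := fun x => ⟨hd.la_pos x, by have := hd.la_lt x; omega⟩
  have hba_mem : ∀ b, 1 ≤ ba b ∧ ba b < k :=
    fun b => ⟨by have := hd.ba_pos b; omega, by have := hd.ba_lt b; omega⟩
  let J : ℕ → ℕ := fun i => rk i + rk (i + 1)
  have hJ : ∀ i, 1 ≤ i → i < k → 2 ≤ J i ∧ J i ≤ 2 * h + 1 := fun i h1 h2 => hR.J_bounds h1 h2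
  set w := n2 + h + 1 with hw
  set N := Fintype.card Lf + s with hN
  let sp : Lf → Prop := fun x => n2 + J (la x) < h
  have hsp' : (∀ x, ¬ sp x) ∨ ∃ x0, sp x0 ∧ h + 1 ≤ n2 + J (la x0) + N ∧
      ∀ x, x ≠ x0 → h + 1 ≤ n2 + J (la x) := by
    rcases hsp with h1 | ⟨x0, h1, h2, h3⟩
    · exact Or.inl fun x => not_lt.2 (h1 x)
    · exact Or.inr ⟨x0, h1, h2, h3⟩
  have hspu : ∀ x y, sp x → sp y → x = y := by
    intro x y hx hy
    rcases hsp' with h1 | ⟨x0, _, _, h3⟩
    · exact absurd hx (h1 x)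
    · have h4 : x = x0 := by
        by_contra hne
        have h5 : n2 + J (la x) < h := hx
        have := h3 x hne
        omega
      have h6 : y = x0 := by
        by_contra hne
        have h5 : n2 + J (la y) < h := hy
        have := h3 y hne
        omega
      rw [h4, h6]
  -- the special label
  obtain ⟨ν, hν⟩ : ∃ ν, ∀ x, sp x → n2 + J (la x) + ν = w + h + 1 := by
    by_cases hex : ∃ x, sp x
    · obtain ⟨x, hx⟩ := hex
      have h5 : n2 + J (la x) < h := hx
      refine ⟨w + h + 1 - (n2 + J (la x)), fun y hy => ?_⟩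
      rw [hspu y x hy hx]
      omega
    · exact ⟨0, fun x hx => (hex ⟨x, hx⟩).elim⟩
  have hνr : ∀ x, sp x → w + 1 ≤ ν ∧ ν ≤ w + N := by
    intro x hx
    have h1 := hν x hx
    have h5 : n2 + J (la x) < h := hx
    rcases hsp' with h2 | ⟨x0, h2, h3, _⟩
    · exact absurd hx (h2 x)
    · have h6 := hspu x x0 hx h2
      subst h6
      omega
  set nsp := Fintype.card {x // sp x} with hnsp
  have hcardLf : Fintype.card Lf = Fintype.card {x // ¬ sp x} + nsp := by
    rw [hnsp, Fintype.card_subtype_compl]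
    have : Fintype.card {x // sp x} ≤ Fintype.card Lf := Fintype.card_subtype_le _
    omega
  let M : Finset ℕ := if (∃ x, sp x) then (Finset.Icc (w + 1) (w + N)).erase ν
    else Finset.Icc (w + 1) (w + N)
  have hMc : M.card = Fintype.card {x // ¬ sp x} + s := by
    by_cases hex : ∃ x, sp x
    · have h1 : M = (Finset.Icc (w + 1) (w + N)).erase ν := if_pos hex
      obtain ⟨x, hx⟩ := hex
      have h2 := hνr x hx
      rw [h1, Finset.card_erase_of_mem (Finset.mem_Icc.2 h2), Nat.card_Icc]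
      have h3 : nsp = 1 := by
        rw [hnsp]
        exact Fintype.card_eq_one_iff.2 ⟨⟨x, hx⟩, fun y => Subtype.ext (hspu _ _ y.2 hx)⟩
      omega
    · have h1 : M = Finset.Icc (w + 1) (w + N) := if_neg hex
      rw [h1, Nat.card_Icc]
      have h3 : nsp = 0 := by
        rw [hnsp]
        exact Fintype.card_eq_zero_iff.2 ⟨fun y => hex ⟨y.1, y.2⟩⟩
      omega
  have hMm : ∀ m ∈ M, w + 1 ≤ m ∧ m ≤ w + N := by
    intro m hm
    by_cases hex : ∃ x, sp x
    · have h1 : M = (Finset.Icc (w + 1) (w + N)).erase ν := if_pos hex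
      rw [h1, Finset.mem_erase, Finset.mem_Icc] at hm
      exact hm.2
    · have h1 : M = Finset.Icc (w + 1) (w + N) := if_neg hex
      rw [h1, Finset.mem_Icc] at hm
      exact hm
  have hνM : ∀ x, sp x → ν ∉ M := by
    intro x hx hm
    have h1 : M = (Finset.Icc (w + 1) (w + N)).erase ν := if_pos ⟨x, hx⟩
    rw [h1, Finset.mem_erase] at hm
    exact hm.1 rfl
  let V : ℕ := if (∃ x, sp x) then 2 * w + N + h + 1 else 2 * w + N + h
  have hV : (∀ x, ¬ sp x) ∧ V = 2 * w + N + h ∨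
      (∀ x, ¬ sp x → h + 1 ≤ n2 + J (la x)) ∧ V = 2 * w + N + h + 1 := by
    by_cases hex : ∃ x, sp x
    · right
      refine ⟨?_, if_pos hex⟩
      intro x hx
      rcases hsp' with h1 | ⟨x0, h1, h2, h3⟩
      · exact absurd hex (fun ⟨y, hy⟩ => h1 y hy)
      · apply h3
        rintro rfl
        exact hx h1
    · left
      exact ⟨fun x hx => hex ⟨x, hx⟩, if_neg hex⟩
  let base : ℕ → ℕ := fun i => w + N + n2 + J i
  have habove : ∀ b, τ b + above two τ b ≤ s + 1 := above_le hτ3 (fun b => (hτ1 b).2)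
  have habove1 : ∀ b, 1 ≤ above two τ b := fun b => by unfold above; omega
  have habove2 : ∀ b, two b → above two τ b ≤ n2 := fun b hb => above_le_card hb
  obtain ⟨m0, hm, hm1⟩ := exists_threshold
    (ι := Option ({x // ¬ sp x} ⊕ B))
    (fun o => match o with
      | none => V
      | some (Sum.inl x) => base (la x.1) + (w + N)
      | some (Sum.inr b) => (w + N + h + τ b) + (if two b then above two τ b else 0) + (w + N))
    (fun b => base (ba b) + (w + N + h + τ b)) (by
      intro o b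
      have h1 := hτ5 b
      have h2 := hτ1 b
      have h0 : s < J (ba b) + τ b := h1
      match o with
      | none =>
        show V < w + N + n2 + J (ba b) + (w + N + h + τ b)
        rcases hV with ⟨_, h3⟩ | ⟨_, h3⟩
        · rw [h3]; omega
        · rw [h3]; omega
      | some (Sum.inl x) =>
        show w + N + n2 + J (la x.1) + (w + N) < w + N + n2 + J (ba b) + (w + N + h + τ b)
        have h3 : J (la x.1) < h + (J (ba b) + τ b) := hτ6 x.1 b (not_lt.1 x.2)
        omega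
      | some (Sum.inr b') =>
        show (w + N + h + τ b') + (if two b' then above two τ b' else 0) + (w + N) <
          w + N + n2 + J (ba b) + (w + N + h + τ b)
        have h3 := habove b'
        have h4 := hτ1 b'
        split_ifs with ht
        · have h5 := habove1 b'
          have h6 := habove2 b' ht
          omega
        · omega)
  have hodd' : ∀ i, 1 ≤ i → i < k → 1 ≤ rk (oddE i) ∧ rk (oddE i) ≤ h + 1 := by
    intro i h1 h2
    have := oddE_mem h1 h2
    exact hR.odd_mem _ this.1 this.2.1 this.2.2.1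
  refine regime_one_gen hd hP hR.k_eq hR.odd_mem hR.even_mem hR.inj w N (fun r => n2 + r)
    ?_ ?_ sp hspu ν M hMc hMm ?_ ?_ V m0 base ?_ ?_ ?_ ?_ ?_ ?_ ?_ (hm none) τ hτ1 hτ3 ?_ hm1
    (fun x hx => hm (some (Sum.inl ⟨x, hx⟩))) (fun b => hm (some (Sum.inr b)))
  · intro r h1 h2
    show n2 + 1 ≤ n2 + r ∧ n2 + r ≤ w
    omega
  · intro r r' _ _ _ _ h5
    have h6 : n2 + r = n2 + r' := h5
    omega
  · intro x hx
    have h1 := hνr x hx
    refine ⟨by omega, h1.2, hνM x hx, ?_⟩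
    intro r h2 h3
    show n2 + r ≠ ν
    omega
  · omega
  · intro i h1 h2
    have := rk_odd_even rk i
    show w + N + n2 + (rk i + rk (i + 1)) = n2 + rk (oddE i) + (w + N + rk (evenE i))
    omega
  · intro i j h1 h2 h3 h4 h5 h6 h7
    have h8 : w + N + n2 + (rk i + rk (i + 1)) = w + N + n2 + (rk j + rk (j + 1)) := h7
    exact hR.cdist i j h1 h2 h3 h4 h5 h6 (by omega)
  · intro i h1 h2 h3
    show w + N + n2 + J i ≤ V
    have := hJ i h1 h2
    rcases hV with ⟨_, h4⟩ | ⟨_, h4⟩ <;> rw [h4] <;> omega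
  · intro x hx
    have h1 := hν x hx
    have hV' : V = 2 * w + N + h + 1 := if_pos ⟨x, hx⟩
    constructor
    · show w + N + n2 + J (la x) + ν ≤ V
      rw [hV']; omega
    · intro i h2 h3 h4
      show w + N + n2 + J i ≠ w + N + n2 + J (la x) + ν
      have := hJ i h2 h3
      omega
  · intro x hx
    show V < w + N + n2 + J (la x) + (w + 1)
    have h5 : ¬ (n2 + J (la x) < h) := hx
    rcases hV with ⟨_, h4⟩ | ⟨h3, h4⟩
    · rw [h4]; omega
    · rw [h4]
      have := h3 x hx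
      omega
  · show w + N ≤ V
    rcases hV with ⟨_, h4⟩ | ⟨h3, h4⟩ <;> rw [h4] <;> omega
  · show V < _
    rcases hV with ⟨_, h4⟩ | ⟨h3, h4⟩ <;> rw [h4] <;> omega
  · intro a b hab
    apply hτ4
    have h1 : w + N + n2 + J (ba a) + τ a = w + N + n2 + J (ba b) + τ b := hab
    show J (ba a) + τ a = J (ba b) + τ b
    omega

/-- Regime 1, with a gap. -/
theorem regime_one_b {k h : ℕ} {la : Lf → ℕ} {ba : B → ℕ} {par : BL → B}
    {last : B → BL} {two : B → Prop} [DecidablePred two] {rk : ℕ → ℕ}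
    (hd : LobData k la ba par) (hP : PureData la ba par last two)
    (hR : RankBase k h (Loaded la ba) rk) (x0 : Lf)
    (hx0 : Fintype.card {b // two b} + (rk (la x0) + rk (la x0 + 1)) +
      (Fintype.card Lf + Fintype.card B) < h + 1)
    (hx : ∀ x, x ≠ x0 → h + 1 ≤ rk (la x) + rk (la x + 1))
    (P Q : ℕ) (hPQ : h + 1 ≤ P + Q) (hPh : P ≤ h + 1) (hQh : Q ≤ h)
    (hun : ∀ i, 1 ≤ i → i < k → ¬ Loaded la ba i →
      (rk i + rk (i + 1) ≤ P + Q ∧ rk (oddE i) ≤ P) ∨
      (P + Q + 2 ≤ rk i + rk (i + 1) ∧ P + 1 ≤ rk (oddE i)))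
    (hcomp : ∀ i j, 1 ≤ i → i < k → 1 ≤ j → j < k → ¬ Loaded la ba i → ¬ Loaded la ba j → i ≠ j →
      (rk i + rk (i + 1) < rk j + rk (j + 1) ∧ rk (oddE i) ≤ rk (oddE j)) ∨
      (rk j + rk (j + 1) < rk i + rk (i + 1) ∧ rk (oddE j) ≤ rk (oddE i)))
    (hq : (rk (la x0) + rk (la x0 + 1) = P + 2 ∧ rk (oddE (la x0)) = P + 1 ∧ P + 1 ≤ h + 1) ∨
      (rk (la x0) + rk (la x0 + 1) = Q + 2 ∧ rk (oddE (la x0)) = 1 ∧ Q + 1 ≤ h))
    (hZ1 : ∀ b, Fintype.card B ≤ rk (ba b) + rk (ba b + 1))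
    (hZ2 : ∀ x b, x ≠ x0 → rk (la x) + rk (la x + 1) + 1 ≤ h + (rk (ba b) + rk (ba b + 1))) :
    HasLabels k la ba par := by
  classical
  set s := Fintype.card B with hsdef
  set n2 := Fintype.card {b // two b} with hn2
  have hla_mem : ∀ x, 1 ≤ la x ∧ la x < k := fun x => ⟨hd.la_pos x, by have := hd.la_lt x; omega⟩
  have hba_mem : ∀ b, 1 ≤ ba b ∧ ba b < k :=
    fun b => ⟨by have := hd.ba_pos b; omega, by have := hd.ba_lt b; omega⟩
  let J : ℕ → ℕ := fun i => rk i + rk (i + 1)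
  have hJ : ∀ i, 1 ≤ i → i < k → 2 ≤ J i ∧ J i ≤ 2 * h + 1 := fun i h1 h2 => hR.J_bounds h1 h2
  have hcL : 1 ≤ Fintype.card Lf := Fintype.card_pos_iff.2 ⟨x0⟩
  set w := n2 + h + 2 with hw
  set N := Fintype.card Lf - 1 + s with hN
  -- the special label
  obtain ⟨ν, hν1, hν2, hν3⟩ : ∃ ν, n2 + 1 < ν ∧ ν ≤ h + 1 ∧
      ((J (la x0) = P + 2 ∧ rk (oddE (la x0)) = P + 1 ∧ P + 1 ≤ h + 1 ∧ ν + 1 = Q) ∨
      (J (la x0) = Q + 2 ∧ rk (oddE (la x0)) = 1 ∧ Q + 1 ≤ h ∧ ν = P)) := by
    rcases hq with ⟨h1, h2, h3⟩ | ⟨h1, h2, h3⟩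
    · refine ⟨Q - 1, by omega, by omega, Or.inl ⟨h1, h2, h3, by omega⟩⟩
    · refine ⟨P, by omega, by omega, Or.inr ⟨h1, h2, h3, rfl⟩⟩
  let Lo : ℕ → ℕ := fun r => n2 + r + if ν ≤ n2 + r then 1 else 0
  have hLo1 : ∀ r, Lo r = n2 + r + if ν ≤ n2 + r then 1 else 0 := fun r => rfl
  have hLomono : ∀ r r', r ≤ r' → Lo r ≤ Lo r' := by
    intro r r' hrr
    rw [hLo1, hLo1]
    split_ifs <;> omega
  let base : ℕ → ℕ := fun i => Lo (rk (oddE i)) + (w + N + rk (evenE i))
  have hbase : ∀ i, base i = w + N + n2 + J i + if ν ≤ n2 + rk (oddE i) then 1 else 0 := by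
    intro i
    have := rk_odd_even rk i
    show n2 + rk (oddE i) + (if ν ≤ n2 + rk (oddE i) then 1 else 0) + (w + N + rk (evenE i)) =
      w + N + n2 + (rk i + rk (i + 1)) + if ν ≤ n2 + rk (oddE i) then 1 else 0
    omega
  have hbase1 : ∀ i, w + N + n2 + J i ≤ base i ∧ base i ≤ w + N + n2 + J i + 1 := by
    intro i
    rw [hbase]
    split_ifs <;> omega
  have hodd' : ∀ i, 1 ≤ i → i < k → 1 ≤ rk (oddE i) ∧ rk (oddE i) ≤ h + 1 := by
    intro i h1 h2
    have := oddE_mem h1 h2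
    exact hR.odd_mem _ this.1 this.2.1 this.2.2.1
  have heven' : ∀ i, 1 ≤ i → i < k → 1 ≤ rk (evenE i) ∧ rk (evenE i) ≤ h := by
    intro i h1 h2
    have := oddE_mem h1 h2
    exact hR.even_mem _ this.2.2.2.1 this.2.2.2.2.1 this.2.2.2.2.2
  -- tops
  obtain ⟨τ, hτ1, _, hτ3, hτ4⟩ := greedy (fun b => base (ba b)) (Finset.Icc 1 s)
    (by rw [Nat.card_Icc]; omega)
  have hτ1' : ∀ b, 1 ≤ τ b ∧ τ b ≤ s := fun b => Finset.mem_Icc.1 (hτ1 b)
  let sp : Lf → Prop := fun x => x = x0
  have hnsp : Fintype.card {x // ¬ sp x} = Fintype.card Lf - 1 := by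
    rw [Fintype.card_subtype_compl, Fintype.card_subtype_eq]
  have hcnt : w + N = n2 + (h + 1) + Fintype.card Lf + s := by omega
  have habove : ∀ b, τ b + above two τ b ≤ s + 1 := above_le hτ3 (fun b => (hτ1' b).2)
  have habove1 : ∀ b, 1 ≤ above two τ b := fun b => by unfold above; omega
  have habove2 : ∀ b, two b → above two τ b ≤ n2 := fun b hb => above_le_card hb
  set V := 2 * w + N + h + 1 with hV
  obtain ⟨m0, hm, hm1⟩ := exists_threshold
    (ι := Option ({x // ¬ sp x} ⊕ B))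
    (fun o => match o with
      | none => V
      | some (Sum.inl x) => base (la x.1) + (w + N)
      | some (Sum.inr b) => (w + N + h + τ b) + (if two b then above two τ b else 0) + (w + N))
    (fun b => base (ba b) + (w + N + h + τ b)) (by
      intro o b
      have h1 : s ≤ J (ba b) := hZ1 b
      have h2 := hτ1' b
      have h7 := hbase1 (ba b)
      match o with
      | none =>
        show V < base (ba b) + (w + N + h + τ b)
        omega
      | some (Sum.inl x) =>
        show base (la x.1) + (w + N) < base (ba b) + (w + N + h + τ b)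
        have h3 : J (la x.1) + 1 ≤ h + J (ba b) := hZ2 x.1 b x.2
        have h8 := hbase1 (la x.1)
        omega
      | some (Sum.inr b') =>
        show (w + N + h + τ b') + (if two b' then above two τ b' else 0) + (w + N) <
          base (ba b) + (w + N + h + τ b)
        have h3 := habove b'
        have h4 := hτ1' b'
        split_ifs with ht
        · have h5 := habove1 b'
          have h6 := habove2 b' ht
          omega
        · omega)
  have hspecial : base (la x0) + ν ≤ V ∧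
      ∀ i, 1 ≤ i → i < k → ¬ Loaded la ba i → base i ≠ base (la x0) + ν := by
    have hb := hbase (la x0)
    have hLP := hLo1 P
    have hLP1 := hLo1 (P + 1)
    rcases hν3 with ⟨h1, h2, h3, h4⟩ | ⟨h1, h2, h3, h4⟩
    · rw [h1, h2] at hb
      constructor
      · rw [hb]
        split_ifs <;> omega
      · intro i h5 h6 h7
        rw [hb, hbase i]
        rcases hun i h5 h6 h7 with ⟨h8, h9⟩ | ⟨h8, h9⟩
        · have h8' : J i ≤ P + Q := h8
          split_ifs <;> omega
        · have h8' : P + Q + 2 ≤ J i := h8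
          split_ifs <;> omega
    · rw [h1, h2] at hb
      constructor
      · rw [hb]
        split_ifs <;> omega
      · intro i h5 h6 h7
        rw [hb, hbase i]
        rcases hun i h5 h6 h7 with ⟨h8, h9⟩ | ⟨h8, h9⟩
        · have h8' : J i ≤ P + Q := h8
          split_ifs <;> omega
        · have h8' : P + Q + 2 ≤ J i := h8
          split_ifs <;> omega
  refine regime_one_gen hd hP hR.k_eq hR.odd_mem hR.even_mem hR.inj w N Lo
    ?_ ?_ sp (fun x y hx hy => hx.trans hy.symm) ν (Finset.Icc (w + 1) (w + N)) ?_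
    (fun m hm => Finset.mem_Icc.1 hm) ?_ hcnt V m0 base (fun i _ _ => rfl) ?_ ?_ ?_ ?_ ?_ ?_
    (hm none) τ hτ1' hτ3 hτ4 hm1
    (fun x hx => hm (some (Sum.inl ⟨x, hx⟩))) (fun b => hm (some (Sum.inr b)))
  · intro r h1 h2
    rw [hLo1]
    split_ifs <;> omega
  · intro r r' h1 h2 h3 h4 h5
    rw [hLo1, hLo1] at h5
    split_ifs at h5 <;> omega
  · rw [hnsp, Nat.card_Icc]
    omega
  · intro x hx'
    refine ⟨by omega, by omega, ?_, ?_⟩
    · rw [Finset.mem_Icc]
      omega
    · intro r h1 h2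
      rw [hLo1]
      split_ifs <;> omega
  · intro i j h1 h2 h3 h4 h5 h6 h7
    by_contra hne
    rw [hbase, hbase] at h7
    rcases hcomp i j h1 h2 h3 h4 h5 h6 hne with ⟨h8, h9⟩ | ⟨h8, h9⟩
    · have h8' : J i < J j := h8
      split_ifs at h7 <;> omega
    · have h8' : J j < J i := h8
      split_ifs at h7 <;> omega
  · intro i h1 h2 _
    have := hodd' i h1 h2
    have h3 := heven' i h1 h2
    show Lo (rk (oddE i)) + (w + N + rk (evenE i)) ≤ V
    rw [hLo1]
    split_ifs <;> omega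
  · intro x hx'
    rw [show x = x0 from hx']
    exact hspecial
  · intro x hx'
    have h1 := hx x hx'
    have h2 := hbase1 (la x)
    have h3 : h + 1 ≤ J (la x) := h1
    omega
  · omega
  · omega

end Pool.Agent.Lob89
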