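import Mathlib

/-!
Abstract ranks of the path edges for `k = 2 h + 1`.
-/

namespace Pool.Agent.Lob89

/-- Ranks of the path edges `1, ..., k`, `k = 2 h + 1`: the odd edges get distinct ranks in
`1, ..., h + 1`, the even edges distinct ranks in `1, ..., h`, the sums at vertices which are not
loaded are distinct. -/
structure RankBase (k h : ℕ) (ld : ℕ → Prop) (rk : ℕ → ℕ) : Prop where
  k_eq : k = 2 * h + 1
  odd_mem : ∀ e, 1 ≤ e → e ≤ k → e % 2 = 1 → 1 ≤ rk e ∧ rk e ≤ h + 1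
  even_mem : ∀ e, 1 ≤ e → e ≤ k → e % 2 = 0 → 1 ≤ rk e ∧ rk e ≤ h
  inj : ∀ e f, 1 ≤ e → e ≤ k → 1 ≤ f → f ≤ k → e % 2 = f % 2 → rk e = rk f → e = f
  cdist : ∀ i j, 1 ≤ i → i < k → 1 ≤ j → j < k → ¬ ld i → ¬ ld j →
    rk i + rk (i + 1) = rk j + rk (j + 1) → i = j

/-- Moreover all loaded vertices except possibly the seam `q` have sum at least `h + 1`. -/
structure RankData (k h q : ℕ) (ld : ℕ → Prop) (rk : ℕ → ℕ) : Prop
    extends RankBase k h ld rk where
  big : ∀ i, 1 ≤ i → i < k → ld i → i ≠ q → h + 1 ≤ rk i + rk (i + 1)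

lemma RankBase.J_bounds {k h : ℕ} {ld : ℕ → Prop} {rk : ℕ → ℕ} (hR : RankBase k h ld rk)
    {i : ℕ} (h1 : 1 ≤ i) (h2 : i < k) :
    2 ≤ rk i + rk (i + 1) ∧ rk i + rk (i + 1) ≤ 2 * h + 1 := by
  rcases Nat.mod_two_eq_zero_or_one i with h | h
  · have a := hR.even_mem i h1 h2.le h
    have b := hR.odd_mem (i + 1) (by omega) (by omega) (by omega)
    omega
  · have a := hR.odd_mem i h1 h2.le h
    have b := hR.even_mem (i + 1) (by omega) (by omega) (by omega)
    omega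

end Pool.Agent.Lob89
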