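import Pool.Agent.Lob89.PureBase
import Pool.Agent.Lob89.RankData

/-!
The pure class, `k` odd, regime 2: at least `h` bushes, `k = 2 h + 1`.
-/

namespace Pool.Agent.Lob89

open Finset

set_option linter.unusedSectionVars false

variable {Lf B BL : Type*} [Fintype Lf] [Fintype B] [Fintype BL] [DecidableEq B]

/-- The second label of a bush: one plus the number of bushes with two leaves and a larger top. -/
noncomputable def above (two : B → Prop) (τ : B → ℕ) (b : B) : ℕ :=
  open Classical in (Finset.univ.filter fun c => two c ∧ τ b < τ c).card + 1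

lemma above_lt {two : B → Prop} {τ : B → ℕ} {a b : B} (hb : two b) (h : τ a < τ b) :
    above two τ b < above two τ a := by
  classical
  unfold above
  apply Nat.add_lt_add_right
  apply Finset.card_lt_card
  rw [Finset.ssubset_iff_of_subset]
  · exact ⟨b, by simp [hb, h], by simp⟩
  · intro c hc
    rw [Finset.mem_filter] at hc ⊢
    exact ⟨Finset.mem_univ _, hc.2.1, h.trans hc.2.2⟩

lemma above_inj {two : B → Prop} {τ : B → ℕ} (hτ : Function.Injective τ) {a b : B}
    (ha : two a) (hb : two b) (h : above two τ a = above two τ b) : a = b := by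
  rcases lt_trichotomy (τ a) (τ b) with h1 | h1 | h1
  · have := above_lt (two := two) (τ := τ) hb h1
    omega
  · exact hτ h1
  · have := above_lt (two := two) (τ := τ) ha h1
    omega

lemma above_le_card {two : B → Prop} [DecidablePred two] {τ : B → ℕ} {b : B} (hb : two b) :
    above two τ b ≤ Fintype.card {b // two b} := by
  classical
  unfold above
  rw [Fintype.card_subtype]
  have : (Finset.univ.filter fun c => two c ∧ τ b < τ c) ⊂ Finset.univ.filter fun c => two c := by
    rw [Finset.ssubset_iff_of_subset]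
    · exact ⟨b, by simp [hb], by simp⟩
    · intro c hc
      rw [Finset.mem_filter] at hc ⊢
      exact ⟨Finset.mem_univ _, hc.2.1⟩
  have h1 := Finset.card_lt_card this
  exact lt_of_le_of_lt (le_of_eq (by congr)) h1

lemma above_le {two : B → Prop} {τ : B → ℕ} (hτ : Function.Injective τ) {s : ℕ}
    (hs : ∀ b, τ b ≤ s) (b : B) : τ b + above two τ b ≤ s + 1 := by
  classical
  unfold above
  have h1 : (Finset.univ.filter fun c => two c ∧ τ b < τ c).card ≤ (Finset.Ioc (τ b) s).card := by
    apply Finset.card_le_card_of_injOn τ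
    · intro c hc
      have hc' := (Finset.mem_filter.1 (Finset.mem_coe.1 hc)).2.2
      exact Finset.mem_coe.2 (Finset.mem_Ioc.2 ⟨hc', hs c⟩)
    · intro c _ d _ h
      exact hτ h
  rw [Nat.card_Ioc] at h1
  have h3 : (Finset.univ.filter fun c => two c ∧ τ b < τ c).card =
    (@Finset.filter B (fun c => two c ∧ τ b < τ c)
      (fun a => Classical.propDecidable _) Finset.univ).card := by congr
  have := hs b
  omega

theorem regime_two {k h q : ℕ} {la : Lf → ℕ} {ba : B → ℕ} {par : BL → B}
    {last : B → BL} {two : B → Prop} {rk : ℕ → ℕ}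
    (hd : LobData k la ba par) (hP : PureData la ba par last two)
    (hR : RankData k h q (Loaded la ba) rk) (hs : h ≤ Fintype.card B) :
    HasLabels k la ba par := by
  classical
  set s := Fintype.card B with hsdef
  set n2 := Fintype.card {b // two b} with hn2
  -- junctions
  let J : ℕ → ℕ := fun i => rk i + rk (i + 1)
  have hla_mem : ∀ x, 1 ≤ la x ∧ la x < k := fun x => ⟨hd.la_pos x, by have := hd.la_lt x; omega⟩
  have hba_mem : ∀ b, 1 ≤ ba b ∧ ba b < k :=
    fun b => ⟨by have := hd.ba_pos b; omega, by have := hd.ba_lt b; omega⟩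
  have hJ : ∀ i, 1 ≤ i → i < k → 2 ≤ J i ∧ J i ≤ 2 * h + 1 := fun i h1 h2 => hR.J_bounds h1 h2
  -- the special leaf
  let sp : Lf → Prop := fun x => J (la x) < h + 1
  have hspq : ∀ x, sp x → la x = q := by
    intro x hx
    by_contra hne
    have := hR.big (la x) (hla_mem x).1 (hla_mem x).2 (Or.inl ⟨x, rfl⟩) hne
    exact absurd this (not_le.2 hx)
  have hspu : ∀ x y, sp x → sp y → x = y := fun x y hx hy =>
    hP.la_inj ((hspq x hx).trans (hspq y hy).symm)
  set nA := Fintype.card {x // ¬ sp x} with hnA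
  set nsp := Fintype.card {x // sp x} with hnsp
  have hcardLf : Fintype.card Lf = nA + nsp := by
    rw [hnA, hnsp, Fintype.card_subtype_compl]
    have : Fintype.card {x // sp x} ≤ Fintype.card Lf := Fintype.card_subtype_le _
    omega
  have hnsp1 : nsp ≤ 1 := by
    rw [hnsp]
    apply Fintype.card_le_one_iff.2
    rintro ⟨x, hx⟩ ⟨y, hy⟩
    exact Subtype.ext (hspu x y hx hy)
  have hnsp_pos : ∀ x, sp x → nsp = 1 := by
    intro x hx
    have : 0 < nsp := by rw [hnsp]; exact Fintype.card_pos_iff.2 ⟨⟨x, hx⟩⟩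
    omega
  -- block sizes
  set U := n2 + s + nA with hU
  set w := U + (h + 1) with hw
  set M := s + nsp with hM
  -- tops
  obtain ⟨τ, hτ1, hτ2, hτ3, hτ4⟩ := greedy (fun b => J (ba b)) (Finset.Icc 1 s)
    (by rw [Nat.card_Icc]; omega)
  have hτ1' : ∀ b, 1 ≤ τ b ∧ τ b ≤ s := fun b => Finset.mem_Icc.1 (hτ1 b)
  -- leaves
  obtain ⟨ρ, hρ1, hρ2, hρ3⟩ := exists_antitone (E := {x // ¬ sp x}) (fun x => J (la x.1))
  have hJA : ∀ x : {x // ¬ sp x}, h + 1 ≤ J (la x.1) ∧ J (la x.1) ≤ 2 * h + 1 := fun x =>
    ⟨not_lt.1 x.2, (hJ _ (hla_mem x.1).1 (hla_mem x.1).2).2⟩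
  let xA : {x // ¬ sp x} → ℕ := fun x => h + 1 + s + n2 + ρ x - J (la x.1)
  have hxA : ∀ x, J (la x.1) + xA x = h + 1 + s + n2 + ρ x := by
    intro x
    have := hJA x
    show J (la x.1) + (h + 1 + s + n2 + ρ x - J (la x.1)) = _
    have h2 := (hρ1 x).1
    omega
  have hxA_inj : Function.Injective xA := by
    intro a b hab
    have ha := hxA a
    have hb := hxA b
    apply hρ2
    rcases lt_trichotomy (J (la a.1)) (J (la b.1)) with hlt | heq | hgt
    · have := hρ3 b a hlt
      omega
    · omega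
    · have := hρ3 a b hgt
      omega
  have hxA_mem : ∀ x, n2 + 1 ≤ xA x ∧ xA x ≤ U := by
    intro x
    have h1 := hxA x
    have h2 := hJA x
    have h3 := hρ1 x
    rw [← hnA] at h3
    omega
  -- the remaining labels of `X`
  set R : Finset ℕ := Finset.Icc (n2 + 1) U \ Finset.univ.image xA with hRdef
  have hRcard : R.card = s := by
    rw [hRdef, Finset.card_sdiff_of_subset]
    · rw [Nat.card_Icc, Finset.card_image_of_injective _ hxA_inj, Finset.card_univ, ← hnA]
      omega
    · intro z hz
      rw [Finset.mem_image] at hz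
      obtain ⟨x, _, rfl⟩ := hz
      rw [Finset.mem_Icc]
      exact hxA_mem x
  let W : B → ℕ := fun b => (w + nsp + τ b) + if two b then above two τ b else 0
  obtain ⟨σ, hσ1, _, hσ3, hσ4⟩ := greedy W R (by rw [hRcard])
  have hσmem : ∀ b, n2 + 1 ≤ σ b ∧ σ b ≤ U := by
    intro b
    have := hσ1 b
    rw [hRdef, Finset.mem_sdiff, Finset.mem_Icc] at this
    exact this.1
  have hσA : ∀ b x, σ b ≠ xA x := by
    intro b x hx
    have := hσ1 b
    rw [hRdef, Finset.mem_sdiff] at this
    exact this.2 (by rw [hx]; exact Finset.mem_image_of_mem _ (Finset.mem_univ _))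
  have habove : ∀ b, τ b + above two τ b ≤ s + 1 := above_le hτ3 (fun b => (hτ1' b).2)
  have habove1 : ∀ b, 1 ≤ above two τ b := fun b => by unfold above; omega
  have habove2 : ∀ b, two b → above two τ b ≤ n2 := fun b hb => above_le_card hb
  -- the labels
  let p : ℕ → ℕ := fun e => if e % 2 = 1 then U + rk e else w + M + rk e
  let fl : Lf → ℕ := fun x => if hx : sp x then w + 1 else xA ⟨x, hx⟩
  let ft : B → ℕ := fun b => w + nsp + τ b
  let fb : BL → ℕ := bushLab par last σ (above two τ)
  have hfl_sp : ∀ x, sp x → fl x = w + 1 := fun x hx => dif_pos hx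
  have hfl_A : ∀ x (hx : ¬ sp x), fl x = xA ⟨x, hx⟩ := fun x hx => dif_neg hx
  have hfb1 : ∀ y, y = last (par y) → fb y = σ (par y) := fun y hy => if_pos hy
  have hfb2 : ∀ y, y ≠ last (par y) → fb y = above two τ (par y) := fun y hy => if_neg hy
  have hsum : ∀ b, ft b + ∑ y, (if par y = b then fb y else 0) = W b + σ b := by
    intro b
    rw [sum_bush hP]
    show (w + nsp + τ b) + _ = (w + nsp + τ b) + _ + _
    ring
  have hp_odd : ∀ e, e % 2 = 1 → p e = U + rk e := fun e he => if_pos he
  have hp_even : ∀ e, e % 2 = 0 → p e = w + M + rk e := fun e he => if_neg (by omega)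
  have hpJ : ∀ i, p i + p (i + 1) = U + w + M + J i := by
    intro i
    rcases Nat.mod_two_eq_zero_or_one i with hi | hi
    · rw [hp_even i hi, hp_odd (i + 1) (by omega)]
      show _ = U + w + M + (rk i + rk (i + 1))
      ring
    · rw [hp_odd i hi, hp_even (i + 1) (by omega)]
      show _ = U + w + M + (rk i + rk (i + 1))
      ring
  have hk1 : k = 2 * h + 1 := hR.k_eq
  have hk2 := hd.two_le
  -- ranges
  have hp_range : ∀ e, 1 ≤ e → e ≤ k → (e % 2 = 1 ∧ U + 1 ≤ p e ∧ p e ≤ w) ∨
      (e % 2 = 0 ∧ w + M + 1 ≤ p e ∧ p e ≤ w + M + h) := by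
    intro e h1 h2
    rcases Nat.mod_two_eq_zero_or_one e with he | he
    · right
      have := hR.even_mem e h1 h2 he
      rw [hp_even e he]
      omega
    · left
      have := hR.odd_mem e h1 h2 he
      rw [hp_odd e he]
      omega
  have hfl_range : ∀ x, (sp x ∧ fl x = w + 1) ∨ (¬ sp x ∧ n2 + 1 ≤ fl x ∧ fl x ≤ U) := by
    intro x
    by_cases hx : sp x
    · exact Or.inl ⟨hx, hfl_sp x hx⟩
    · right
      rw [hfl_A x hx]
      exact ⟨hx, hxA_mem _⟩
  have hfb_range : ∀ y, (y = last (par y) ∧ n2 + 1 ≤ fb y ∧ fb y ≤ U) ∨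
      (y ≠ last (par y) ∧ 1 ≤ fb y ∧ fb y ≤ n2) := by
    intro y
    by_cases hy : y = last (par y)
    · left
      rw [hfb1 y hy]
      exact ⟨hy, hσmem _⟩
    · right
      rw [hfb2 y hy]
      exact ⟨hy, habove1 _, habove2 _ ((hP.two_iff _).2 ⟨y, rfl, hy⟩)⟩
  have hfl_inj : Function.Injective fl := by
    intro x y hxy
    rcases hfl_range x with ⟨h1, h2⟩ | ⟨h1, h2, h3⟩ <;> rcases hfl_range y with ⟨h4, h5⟩ | ⟨h4, h5, h6⟩
    · exact hspu x y h1 h4
    · omega
    · omega
    · rw [hfl_A x h1, hfl_A y h4] at hxy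
      exact congrArg Subtype.val (hxA_inj hxy)
  have hfb_inj : Function.Injective fb := by
    intro y z hyz
    rcases hfb_range y with ⟨h1, h2, h3⟩ | ⟨h1, h2, h3⟩ <;>
      rcases hfb_range z with ⟨h4, h5, h6⟩ | ⟨h4, h5, h6⟩
    · rw [hfb1 y h1, hfb1 z h4] at hyz
      rw [h1, h4, hσ3 hyz]
    · omega
    · omega
    · rw [hfb2 y h1, hfb2 z h4] at hyz
      have ht1 : two (par y) := (hP.two_iff _).2 ⟨y, rfl, h1⟩
      have ht2 : two (par z) := (hP.two_iff _).2 ⟨z, rfl, h4⟩
      exact hP.second_unique y z (above_inj hτ3 ht1 ht2 hyz) h1 h4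
  have hft_inj : Function.Injective ft := by
    intro a b hab
    have : w + nsp + τ a = w + nsp + τ b := hab
    exact hτ3 (by omega)
  have hp_inj : ∀ e f, 1 ≤ e → e ≤ k → 1 ≤ f → f ≤ k → p e = p f → e = f := by
    intro e f he1 he2 hf1 hf2 hef
    rcases hp_range e he1 he2 with ⟨h1, h2, h3⟩ | ⟨h1, h2, h3⟩ <;>
      rcases hp_range f hf1 hf2 with ⟨h4, h5, h6⟩ | ⟨h4, h5, h6⟩
    · rw [hp_odd e h1, hp_odd f h4] at hef
      exact hR.inj e f he1 he2 hf1 hf2 (by omega) (by omega)
    · omega
    · omega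
    · rw [hp_even e h1, hp_even f h4] at hef
      exact hR.inj e f he1 he2 hf1 hf2 (by omega) (by omega)
  have hfl_fb : ∀ x y, fl x ≠ fb y := by
    intro x y hxy
    rcases hfl_range x with ⟨h1, h2⟩ | ⟨h1, h2, h3⟩ <;>
      rcases hfb_range y with ⟨h4, h5, h6⟩ | ⟨h4, h5, h6⟩
    · omega
    · omega
    · rw [hfl_A x h1, hfb1 y h4] at hxy
      exact hσA _ _ hxy.symm
    · omega
  have hft_range : ∀ b, w + nsp + 1 ≤ ft b ∧ ft b ≤ w + M := by
    intro b
    have := hτ1' b
    show w + nsp + 1 ≤ w + nsp + τ b ∧ w + nsp + τ b ≤ w + M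
    omega
  have hlinj : Function.Injective (labels (k := k) p fl ft fb) := by
    rintro (i | x | b | y) (j | x' | b' | y') hxy
    · have h1 : p ((i : ℕ) + 1) = p ((j : ℕ) + 1) := hxy
      have := hp_inj _ _ (by omega) (by omega) (by omega) (by omega) h1
      rw [Fin.ext (show (i : ℕ) = j by omega)]
    · exfalso
      have h1 : p ((i : ℕ) + 1) = fl x' := hxy
      have h3 := hp_range (i + 1) (by omega) (by omega)
      have h4 := hfl_range x'
      rcases h4 with ⟨h4, h5⟩ | h4
      · have := hnsp_pos x' h4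
        omega
      · omega
    · exfalso
      have h1 : p ((i : ℕ) + 1) = ft b' := hxy
      have h3 := hp_range (i + 1) (by omega) (by omega)
      have h4 := hft_range b'
      omega
    · exfalso
      have h1 : p ((i : ℕ) + 1) = fb y' := hxy
      have h3 := hp_range (i + 1) (by omega) (by omega)
      have h4 := hfb_range y'
      omega
    · exfalso
      have h1 : fl x = p ((j : ℕ) + 1) := hxy
      have h3 := hp_range (j + 1) (by omega) (by omega)
      have h4 := hfl_range x
      rcases h4 with ⟨h4, h5⟩ | h4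
      · have := hnsp_pos x h4
        omega
      · omega
    · have h1 : fl x = fl x' := hxy
      rw [hfl_inj h1]
    · exfalso
      have h1 : fl x = ft b' := hxy
      have h3 := hft_range b'
      have h4 := hfl_range x
      rcases h4 with ⟨h4, h5⟩ | h4
      · have := hnsp_pos x h4
        omega
      · omega
    · exact absurd hxy (hfl_fb x y')
    · exfalso
      have h1 : ft b = p ((j : ℕ) + 1) := hxy
      have h3 := hp_range (j + 1) (by omega) (by omega)
      have h4 := hft_range b
      omega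
    · exfalso
      have h1 : ft b = fl x' := hxy
      have h3 := hft_range b
      have h4 := hfl_range x'
      rcases h4 with ⟨h4, h5⟩ | h4
      · have := hnsp_pos x' h4
        omega
      · omega
    · have h1 : ft b = ft b' := hxy
      rw [hft_inj h1]
    · exfalso
      have h1 : ft b = fb y' := hxy
      have h3 := hft_range b
      have h4 := hfb_range y'
      omega
    · exfalso
      have h1 : fb y = p ((j : ℕ) + 1) := hxy
      have h3 := hp_range (j + 1) (by omega) (by omega)
      have h4 := hfb_range y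
      omega
    · exact absurd (Eq.symm hxy) (hfl_fb x' y)
    · exfalso
      have h1 : fb y = ft b' := hxy
      have h3 := hft_range b'
      have h4 := hfb_range y
      omega
    · have h1 : fb y = fb y' := hxy
      rw [hfb_inj h1]
  refine ⟨p, fl, ft, fb, hlinj, ?_, ?_⟩
  · -- range
    have hBL := card_BL hP
    rintro (i | x | b | y)
    · have h3 := hp_range (i + 1) (by omega) (by omega)
      show 1 ≤ p ((i : ℕ) + 1) ∧ p ((i : ℕ) + 1) ≤ _
      omega
    · show 1 ≤ fl x ∧ fl x ≤ _
      rcases hfl_range x with ⟨h4, h5⟩ | h4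
      · have := hnsp_pos x h4
        omega
      · omega
    · have h3 := hft_range b
      show 1 ≤ ft b ∧ ft b ≤ _
      omega
    · have h3 := hfb_range y
      show 1 ≤ fb y ∧ fb y ≤ _
      omega
  · -- sums
    have hft_val : ∀ b, vsums k la ba par p fl ft fb (Sum.inr (Sum.inr (Sum.inl b))) = W b + σ b :=
      fun b => hsum b
    have hC_val : ∀ i : Fin (k + 1), 1 ≤ (i : ℕ) → (i : ℕ) < k → ¬ Loaded la ba i →
        vsums k la ba par p fl ft fb (Sum.inl i) = U + w + M + J i := by
      intro i h1 h2 h3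
      have : vsums k la ba par p fl ft fb (Sum.inl i) = pathSum k la ba p fl ft i := rfl
      rw [this, pathSum_free h1 h2 h3, hpJ]
    have hA_val : ∀ (i : Fin (k + 1)) x, la x = i →
        vsums k la ba par p fl ft fb (Sum.inl i) = U + w + M + J (la x) + fl x := by
      intro i x hx
      have : vsums k la ba par p fl ft fb (Sum.inl i) = pathSum k la ba p fl ft i := rfl
      rw [this, ← hx, pathSum_A hd hP, hpJ]
    have hZ_val : ∀ (i : Fin (k + 1)) b, ba b = i →
        vsums k la ba par p fl ft fb (Sum.inl i) = U + w + M + J (ba b) + ft b := by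
      intro i b hx
      have : vsums k la ba par p fl ft fb (Sum.inl i) = pathSum k la ba p fl ft i := rfl
      rw [this, ← hx, pathSum_Z hd hP, hpJ]
    have hend_val : ∀ e, vsums k la ba par p fl ft fb (leafVert e) =
        labels (k := k) p fl ft fb (leafSlot hk2 e) := fun e => vsums_leafVert hd e
    let lo : ℕ → ℕ := fun t => match t with
      | 0 => 0
      | 1 => w + 2
      | 2 => U + w + M + 2
      | 3 => U + w + M + (2 * h + 2)
      | 4 => U + w + M + w + 1
      | 5 => U + w + M + w + 1 + nsp * (h + 1)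
      | _ => U + w + M + w + 1 + nsp * (h + 1) + (2 * h + 1) + w + M + 1
    let P : ℕ → Fin (k + 1) ⊕ (Lf ⊕ (B ⊕ BL)) → Prop := fun t v => match t with
      | 0 => ∃ e, leafVert e = v
      | 1 => ∃ b, v = Sum.inr (Sum.inr (Sum.inl b))
      | 2 => ∃ i : Fin (k + 1), v = Sum.inl i ∧ 1 ≤ (i : ℕ) ∧ (i : ℕ) < k ∧ ¬ Loaded la ba i
      | 3 => ∃ (i : Fin (k + 1)) (x : Lf), v = Sum.inl i ∧ la x = i ∧ ¬ sp x
      | 4 => ∃ (i : Fin (k + 1)) (x : Lf), v = Sum.inl i ∧ la x = i ∧ sp x
      | 5 => ∃ (i : Fin (k + 1)) (b : B), v = Sum.inl i ∧ ba b = i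
      | _ => False
    have hnn : nsp = 0 ∨ nsp = 1 := by omega
    have hlo : ∀ t, lo t ≤ lo (t + 1) := by
      intro t
      match t with
      | 0 => show 0 ≤ w + 2; omega
      | 1 => show w + 2 ≤ U + w + M + 2; omega
      | 2 => show U + w + M + 2 ≤ U + w + M + (2 * h + 2); omega
      | 3 => show U + w + M + (2 * h + 2) ≤ U + w + M + w + 1; omega
      | 4 => show U + w + M + w + 1 ≤ U + w + M + w + 1 + nsp * (h + 1); omega
      | 5 =>
        show U + w + M + w + 1 + nsp * (h + 1) ≤
          U + w + M + w + 1 + nsp * (h + 1) + (2 * h + 1) + w + M + 1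
        omega
      | (n + 6) => exact le_refl _
    apply inj_of_zones' _ P lo hlo
    · rintro (i | x | b | y)
      · rcases path_cases hd i with h1 | h1 | ⟨x, h1⟩ | ⟨b, h1⟩ | ⟨h1, h2, h3⟩
        · refine ⟨0, ⟨Sum.inl true, by rw [h1]; rfl⟩, Nat.zero_le _, ?_⟩
          rw [h1]
          have h3 := hp_range 1 le_rfl (by omega)
          show vsums k la ba par p fl ft fb (leafVert (Sum.inl true)) < w + 2
          rw [hend_val]
          show p 1 < w + 2
          omega
        · refine ⟨0, ⟨Sum.inl false, by rw [h1]; rfl⟩, Nat.zero_le _, ?_⟩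
          rw [h1]
          have h3 := hp_range k (by omega) le_rfl
          show vsums k la ba par p fl ft fb (leafVert (Sum.inl false)) < w + 2
          rw [hend_val]
          show p (k - 1 + 1) < w + 2
          rw [Nat.sub_add_cancel (by omega)]
          omega
        · by_cases hx : sp x
          · refine ⟨4, ⟨i, x, rfl, h1, hx⟩, ?_⟩
            rw [hA_val i x h1, hfl_sp x hx]
            show U + w + M + w + 1 ≤ _ ∧ _ < U + w + M + w + 1 + nsp * (h + 1)
            rw [hnsp_pos x hx]
            have h4 : J (la x) < h + 1 := hx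
            omega
          · refine ⟨3, ⟨i, x, rfl, h1, hx⟩, ?_⟩
            rw [hA_val i x h1, hfl_A x hx]
            show U + w + M + (2 * h + 2) ≤ _ ∧ _ < U + w + M + w + 1
            have h4 := hxA ⟨x, hx⟩
            have h5 : J (la x) + xA ⟨x, hx⟩ = h + 1 + s + n2 + ρ ⟨x, hx⟩ := h4
            have h6 := hρ1 ⟨x, hx⟩
            rw [← hnA] at h6
            omega
        · refine ⟨5, ⟨i, b, rfl, h1⟩, ?_⟩
          rw [hZ_val i b h1]
          show U + w + M + w + 1 + nsp * (h + 1) ≤ U + w + M + J (ba b) + (w + nsp + τ b) ∧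
            U + w + M + J (ba b) + (w + nsp + τ b) <
              U + w + M + w + 1 + nsp * (h + 1) + (2 * h + 1) + w + M + 1
          have h4 := hτ1' b
          have h5 := hJ _ (hba_mem b).1 (hba_mem b).2
          rcases hnn with hn | hn
          · rw [hn]
            omega
          · rw [hn]
            obtain ⟨x, hx⟩ : ∃ x, sp x := by
              have : 0 < Fintype.card {x // sp x} := by rw [← hnsp]; omega
              obtain ⟨x, hx⟩ := Fintype.card_pos_iff.1 this
              exact ⟨x, hx⟩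
            have h6 : ba b ≠ q := by
              rw [← hspq x hx]
              exact fun h => hP.la_ne_ba x b h.symm
            have h7 := hR.big _ (hba_mem b).1 (hba_mem b).2 (Or.inr ⟨b, rfl⟩) h6
            have h8 : h + 1 ≤ J (ba b) := h7
            omega
        · refine ⟨2, ⟨i, rfl, h1, h2, h3⟩, ?_⟩
          rw [hC_val i h1 h2 h3]
          have h4 := hJ i h1 h2
          show U + w + M + 2 ≤ _ ∧ _ < U + w + M + (2 * h + 2)
          omega
      · refine ⟨0, ⟨Sum.inr (Sum.inl x), rfl⟩, Nat.zero_le _, ?_⟩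
        show fl x < w + 2
        have := hfl_range x
        omega
      · refine ⟨1, ⟨b, rfl⟩, ?_⟩
        rw [hft_val]
        show w + 2 ≤ (w + nsp + τ b) + (if two b then above two τ b else 0) + σ b ∧
          (w + nsp + τ b) + (if two b then above two τ b else 0) + σ b < U + w + M + 2
        have h1 := habove b
        have h2 := hσmem b
        have h3 := hτ1' b
        have h4 : (if two b then above two τ b else 0) ≤ above two τ b := by
          split_ifs <;> omega
        omega
      · refine ⟨0, ⟨Sum.inr (Sum.inr y), rfl⟩, Nat.zero_le _, ?_⟩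
        show fb y < w + 2
        have := hfb_range y
        omega
    · intro t v v' hv hv' hvv
      match t, hv, hv' with
      | 0, ⟨e, he⟩, ⟨e', he'⟩ =>
        rw [← he, ← he', hend_val, hend_val] at hvv
        rw [← he, ← he', leafSlot_inj hk2 (hlinj hvv)]
      | 1, ⟨b, hb⟩, ⟨b', hb'⟩ =>
        rw [hb, hb', hft_val, hft_val] at hvv
        rw [hb, hb', hσ4 hvv]
      | 2, ⟨i, hi, h1, h2, h3⟩, ⟨i', hi', h1', h2', h3'⟩ =>
        rw [hi, hi', hC_val i h1 h2 h3, hC_val i' h1' h2' h3'] at hvv
        rw [hi, hi', Fin.ext (hR.cdist i i' h1 h2 h1' h2' h3 h3' (Nat.add_left_cancel hvv))]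
      | 3, ⟨i, x, hi, hx, hsx⟩, ⟨i', x', hi', hx', hsx'⟩ =>
        rw [hi, hi', hA_val i x hx, hA_val i' x' hx', hfl_A x hsx, hfl_A x' hsx'] at hvv
        have h4 : J (la x) + xA ⟨x, hsx⟩ = h + 1 + s + n2 + ρ ⟨x, hsx⟩ := hxA ⟨x, hsx⟩
        have h5 : J (la x') + xA ⟨x', hsx'⟩ = h + 1 + s + n2 + ρ ⟨x', hsx'⟩ := hxA ⟨x', hsx'⟩
        have h6 : ρ ⟨x, hsx⟩ = ρ ⟨x', hsx'⟩ := by omega
        have h7 : x = x' := congrArg Subtype.val (hρ2 h6)
        subst h7
        rw [hi, hi', Fin.ext (hx.symm.trans hx')]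
      | 4, ⟨i, x, hi, hx, hsx⟩, ⟨i', x', hi', hx', hsx'⟩ =>
        have h7 : x = x' := hspu x x' hsx hsx'
        subst h7
        rw [hi, hi', Fin.ext (hx.symm.trans hx')]
      | 5, ⟨i, b, hi, hb⟩, ⟨i', b', hi', hb'⟩ =>
        rw [hi, hi', hZ_val i b hb, hZ_val i' b' hb'] at hvv
        have h4 : U + w + M + J (ba b) + (w + nsp + τ b) =
          U + w + M + J (ba b') + (w + nsp + τ b') := hvv
        have h5 : J (ba b) + τ b = J (ba b') + τ b' := by omega
        have h7 : b = b' := hτ4 h5
        subst h7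
        rw [hi, hi', Fin.ext (hb.symm.trans hb')]
      | (n + 6), hv, _ => exact hv.elim

end Pool.Agent.Lob89
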