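import Pool.Agent.Lob89.Diam

/-!
The reduction with more information about the data (degrees).
-/

namespace Pool.Agent.Lob89

open SimpleGraph Finset

universe u

variable {V : Type u} {G : SimpleGraph V}

/-- The reduction for one dominating path `p` with free ends; if the length of `p` is even, no
bush may hang at the second and at the last but one vertex. -/
theorem reductionF [Fintype V] [DecidableEq V] (G : SimpleGraph V) [DecidableRel G.Adj]
    (hT : G.IsTree) {a b : V} {p : G.Walk a b} (hp : Dom G p) (hk : 2 ≤ p.length)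
    (he1 : ∀ x, G.Adj x a → x ∈ p.support) (he2 : ∀ x, G.Adj x b → x ∈ p.support)
    (hs1 : p.length % 2 = 0 → ∀ x y, x ∉ p.support → y ∉ p.support →
      G.Adj x (p.getVert 1) → ¬ G.Adj y x)
    (hs2 : p.length % 2 = 0 → ∀ x y, x ∉ p.support → y ∉ p.support →
      G.Adj x (p.getVert (p.length - 1)) → ¬ G.Adj y x)
    (core : ∀ (Lf B BL : Type u) [Fintype Lf] [Fintype B] [Fintype BL] [DecidableEq B]
      (la : Lf → ℕ) (ba : B → ℕ) (par : BL → B), LobData p.length la ba par →
      (∀ i, i ≤ p.length → G.degree (p.getVert i) =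
        pathSum p.length la ba (fun _ => 1) (fun _ => 1) (fun _ => 1) i) →
      (∀ b, ∃ z, z ∉ p.support ∧ G.Adj z (p.getVert (ba b)) ∧ (∃ y, y ∉ p.support ∧ G.Adj y z) ∧
        G.degree z = 1 + ∑ y, if par y = b then 1 else 0) →
      (∀ x, ∃ z, z ∉ p.support ∧ G.Adj z (p.getVert (la x)) ∧ G.degree z = 1) →
        HasLabels p.length la ba par) :
    IsAntimagic G := by
  classical
  have hpath := hp.1
  obtain ⟨π, hπ⟩ := exists_parent hT.connected hp
  set S := p.support with hS
  have hinj : ∀ i j : ℕ, i ≤ p.length → j ≤ p.length → p.getVert i = p.getVert j → i = j :=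
    fun i j hi hj h => hpath.getVert_injOn (by simpa using hi) (by simpa using hj) h
  -- positions
  have hpos : ∀ x : V, ∃ i, x ∈ S → p.getVert i = x ∧ i ≤ p.length := by
    intro x
    by_cases hx : x ∈ S
    · obtain ⟨i, hi⟩ := Walk.mem_support_iff_exists_getVert.1 hx
      exact ⟨i, fun _ => hi⟩
    · exact ⟨0, fun h => absurd h hx⟩
  choose pos hpos using hpos
  have hpos_get : ∀ i, i ≤ p.length → pos (p.getVert i) = i := by
    intro i hi
    have h1 := hpos (p.getVert i) (p.getVert_mem_support i)
    exact hinj _ _ h1.2 hi h1.1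
  -- ends have no neighbours off the path
  have hend1 : ∀ x, x ∉ S → π x ≠ a := by
    intro x hx h
    exact hx (he1 x (h ▸ (hπ x hx).1))
  have hend2 : ∀ x, x ∉ S → π x ≠ b := by
    intro x hx h
    exact hx (he2 x (h ▸ (hπ x hx).1))
  -- the data
  let la : TLf p π → ℕ := fun x => pos (π x.1)
  let ba : TB p π → ℕ := fun x => pos (π x.1)
  have hparB : ∀ x : TBL p π, π x.1 ∉ S ∧ π (π x.1) ∈ S ∧ ∃ y, y ∉ S ∧ π y = π x.1 := by
    intro x
    rcases (hπ x.1 x.2.1).2 with h | h
    · exact absurd h x.2.2
    · exact ⟨h.1, h.2, x.1, x.2.1, rfl⟩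
  let par : TBL p π → TB p π := fun x => ⟨π x.1, hparB x⟩
  have hnot0 : ∀ x, x ∉ S → π x ∈ S → 1 ≤ pos (π x) := by
    intro x hx hx'
    rw [Nat.one_le_iff_ne_zero]
    intro h
    have := (hpos _ hx').1
    rw [h, Walk.getVert_zero] at this
    exact hend1 x hx this.symm
  have hnotk : ∀ x, x ∉ S → π x ∈ S → pos (π x) + 1 ≤ p.length := by
    intro x hx hx'
    have h1 := (hpos _ hx').2
    have h2 : pos (π x) ≠ p.length := by
      intro h
      have := (hpos _ hx').1
      rw [h, Walk.getVert_length] at this
      exact hend2 x hx this.symm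
    omega
  have hdata : LobData p.length la ba par := by
    refine ⟨hk, fun x => hnot0 _ x.2.1 x.2.2.1, fun x => hnotk _ x.2.1 x.2.2.1,
      fun x => hnot0 _ x.2.1 x.2.2.1, fun x => hnotk _ x.2.1 x.2.2.1, ?_, ?_⟩
    · rintro hev ⟨x, hx, hx', y, hy, hyx⟩
      have hadj1 := (hπ x hx).1
      have hadj2 := (hπ y hy).1
      rw [hyx] at hadj2
      have h1 := hnot0 x hx hx'
      have h2 := hnotk x hx hx'
      have h3 := (hpos _ hx').1
      rw [← h3] at hadj1
      show 2 ≤ pos (π x) ∧ pos (π x) + 2 ≤ p.length
      constructor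
      · by_contra h
        have h4 : pos (π x) = 1 := by omega
        rw [h4] at hadj1
        exact hs1 hev x y hx hy hadj1 hadj2
      · by_contra h
        have h4 : pos (π x) = p.length - 1 := by omega
        rw [h4] at hadj1
        exact hs2 hev x y hx hy hadj1 hadj2
    · rintro ⟨x, hx, hx', y, hy, hyx⟩
      refine ⟨⟨y, hy, ?_⟩, ?_⟩
      · rw [hyx]; exact hx
      · exact Subtype.ext hyx
  have hφinj : Function.Injective (edge p π) := edge_inj hpath hπ
  have hφmem : ∀ s, edge p π s ∈ G.edgeSet := edge_mem hπ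
  -- cardinalities
  have hcardS : Fintype.card (Fin p.length ⊕ (TLf p π ⊕ (TB p π ⊕ TBL p π))) =
      G.edgeFinset.card := by
    have h1 : Fintype.card (Fin (p.length + 1) ⊕ (TLf p π ⊕ (TB p π ⊕ TBL p π))) =
        Fintype.card V := Fintype.card_of_bijective (vert_bij p π hpath)
    have h2 := hT.card_edgeFinset
    rw [Fintype.card_sum, Fintype.card_fin] at h1 ⊢
    omega
  have hm : p.length + Fintype.card (TLf p π) + Fintype.card (TB p π) + Fintype.card (TBL p π) =
      G.edgeFinset.card := by
    rw [← hcardS, Fintype.card_sum, Fintype.card_sum, Fintype.card_sum, Fintype.card_fin]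
    ring
  have hφsurj : ∀ e ∈ G.edgeSet, ∃ s, edge p π s = e := by
    have himg : Finset.univ.image (edge p π) = G.edgeFinset := by
      apply Finset.eq_of_subset_of_card_le
      · intro e he
        rw [Finset.mem_image] at he
        obtain ⟨s, _, rfl⟩ := he
        rw [SimpleGraph.mem_edgeFinset]
        exact hφmem s
      · rw [Finset.card_image_of_injective _ hφinj, Finset.card_univ, hcardS]
    intro e he
    have : e ∈ Finset.univ.image (edge p π) := by
      rw [himg, SimpleGraph.mem_edgeFinset]; exact he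
    rw [Finset.mem_image] at this
    obtain ⟨s, _, hs⟩ := this
    exact ⟨s, hs⟩
  have hsum : ∀ (pl : ℕ → ℕ) (fl : TLf p π → ℕ) (ft : TB p π → ℕ) (fb : TBL p π → ℕ) q,
      ∑ e ∈ G.incidenceFinset (vert p π q), edgeLab (edge p π) (labels (k := p.length) pl fl ft fb) e =
      vsums p.length la ba par pl fl ft fb q := by
    intro pl fl ft fb q
    set lab := labels (k := p.length) pl fl ft fb with hlab
    rw [sum_incidence hφmem, Fintype.sum_sum_type, Fintype.sum_sum_type, Fintype.sum_sum_type]
    have hlab1 : ∀ i : Fin p.length, lab (Sum.inl i) = pl (i + 1) := fun i => rfl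
    have hlab2 : ∀ x, lab (Sum.inr (Sum.inl x)) = fl x := fun i => rfl
    have hlab3 : ∀ x, lab (Sum.inr (Sum.inr (Sum.inl x))) = ft x := fun i => rfl
    have hlab4 : ∀ x, lab (Sum.inr (Sum.inr (Sum.inr x))) = fb x := fun i => rfl
    simp only [hlab1, hlab2, hlab3, hlab4]
    have he1 : ∀ i : Fin p.length, edge p π (Sum.inl i) = s(p.getVert i, p.getVert (i + 1)) :=
      fun i => rfl
    have he2 : ∀ x, edge p π (Sum.inr (Sum.inl x)) = s(x.1, π x.1) := fun i => rfl
    have he3 : ∀ x, edge p π (Sum.inr (Sum.inr (Sum.inl x))) = s(x.1, π x.1) := fun i => rfl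
    have he4 : ∀ x, edge p π (Sum.inr (Sum.inr (Sum.inr x))) = s(x.1, π x.1) := fun i => rfl
    simp only [he1, he2, he3, he4, Sym2.mem_iff]
    rcases q with (i | ⟨x, hx⟩ | ⟨x, hx⟩ | ⟨x, hx⟩)
    · -- path vertex
      have hv : vert p π (Sum.inl i) = p.getVert i := rfl
      rw [hv]
      have hi : (i : ℕ) ≤ p.length := by omega
      have hiS : p.getVert i ∈ S := p.getVert_mem_support i
      have t1 : (∑ j : Fin p.length, if (p.getVert (i : ℕ) = p.getVert (j : ℕ) ∨
          p.getVert (i : ℕ) = p.getVert ((j : ℕ) + 1)) then pl (j + 1) else 0) =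
          (if 1 ≤ (i : ℕ) then pl i else 0) + (if (i : ℕ) < p.length then pl (i + 1) else 0) := by
        rw [← sum_path p.length pl i hi]
        refine Finset.sum_congr rfl fun j _ => ?_
        have : (p.getVert (i : ℕ) = p.getVert (j : ℕ) ∨
          p.getVert (i : ℕ) = p.getVert ((j : ℕ) + 1)) ↔ ((i : ℕ) = j ∨ (i : ℕ) = j + 1) := by
          constructor
          · rintro (h | h)
            · exact Or.inl (hinj _ _ hi (by omega) h)
            · exact Or.inr (hinj _ _ hi (by omega) h)
          · rintro (h | h)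
            · left; rw [h]
            · right; rw [h]
        simp only [this]
      have t2 : (∑ x : TLf p π, if (p.getVert (i : ℕ) = x.1 ∨ p.getVert (i : ℕ) = π x.1)
          then fl x else 0) = ∑ x, if la x = i then fl x else 0 := by
        refine Finset.sum_congr rfl fun x _ => ?_
        have : (p.getVert (i : ℕ) = x.1 ∨ p.getVert (i : ℕ) = π x.1) ↔ la x = i := by
          constructor
          · rintro (h | h)
            · exact absurd (h ▸ hiS) x.2.1
            · show pos (π x.1) = i
              rw [← h]; exact hpos_get i hi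
          · intro h
            right
            have := (hpos _ x.2.2.1).1
            rw [← this]
            show _ = p.getVert (la x)
            rw [h]
        simp only [this]
      have t3 : (∑ x : TB p π, if (p.getVert (i : ℕ) = x.1 ∨ p.getVert (i : ℕ) = π x.1)
          then ft x else 0) = ∑ x, if ba x = i then ft x else 0 := by
        refine Finset.sum_congr rfl fun x _ => ?_
        have : (p.getVert (i : ℕ) = x.1 ∨ p.getVert (i : ℕ) = π x.1) ↔ ba x = i := by
          constructor
          · rintro (h | h)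
            · exact absurd (h ▸ hiS) x.2.1
            · show pos (π x.1) = i
              rw [← h]; exact hpos_get i hi
          · intro h
            right
            have := (hpos _ x.2.2.1).1
            rw [← this]
            show _ = p.getVert (ba x)
            rw [h]
        simp only [this]
      have t4 : (∑ x : TBL p π, if (p.getVert (i : ℕ) = x.1 ∨ p.getVert (i : ℕ) = π x.1)
          then fb x else 0) = 0 := by
        refine Finset.sum_eq_zero fun x _ => ?_
        rw [if_neg]
        rintro (h | h)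
        · exact absurd (h ▸ hiS) x.2.1
        · exact absurd (h ▸ hiS) x.2.2
      rw [t1, t2, t3, t4]
      show _ = pathSum p.length la ba pl fl ft i
      unfold pathSum
      ring
    · -- pendant leaf
      have hv : vert p π (Sum.inr (Sum.inl ⟨x, hx⟩)) = x := rfl
      rw [hv]
      have t1 : (∑ j : Fin p.length, if (x = p.getVert (j : ℕ) ∨
          x = p.getVert ((j : ℕ) + 1)) then pl (j + 1) else 0) = 0 := by
        refine Finset.sum_eq_zero fun j _ => ?_
        rw [if_neg]
        rintro (h | h)
        · exact hx.1 (h ▸ p.getVert_mem_support _)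
        · exact hx.1 (h ▸ p.getVert_mem_support _)
      have t2 : (∑ y : TLf p π, if (x = y.1 ∨ x = π y.1) then fl y else 0) = fl ⟨x, hx⟩ := by
        rw [Finset.sum_eq_single ⟨x, hx⟩]
        · rw [if_pos (Or.inl rfl)]
        · intro y _ hy
          rw [if_neg]
          rintro (h | h)
          · exact hy (Subtype.ext h.symm)
          · exact hx.2.2 y.1 y.2.1 h.symm
        · simp
      have t3 : (∑ y : TB p π, if (x = y.1 ∨ x = π y.1) then ft y else 0) = 0 := by
        refine Finset.sum_eq_zero fun y _ => ?_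
        rw [if_neg]
        rintro (h | h)
        · obtain ⟨z, hz, hz'⟩ := y.2.2.2
          exact hx.2.2 z hz (hz'.trans h.symm)
        · exact hx.2.2 y.1 y.2.1 h.symm
      have t4 : (∑ y : TBL p π, if (x = y.1 ∨ x = π y.1) then fb y else 0) = 0 := by
        refine Finset.sum_eq_zero fun y _ => ?_
        rw [if_neg]
        rintro (h | h)
        · exact y.2.2 (h ▸ hx.2.1)
        · exact hx.2.2 y.1 y.2.1 h.symm
      rw [t1, t2, t3, t4]
      show _ = fl ⟨x, hx⟩
      ring
    · -- bush centre
      have hv : vert p π (Sum.inr (Sum.inr (Sum.inl ⟨x, hx⟩))) = x := rfl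
      rw [hv]
      have t1 : (∑ j : Fin p.length, if (x = p.getVert (j : ℕ) ∨
          x = p.getVert ((j : ℕ) + 1)) then pl (j + 1) else 0) = 0 := by
        refine Finset.sum_eq_zero fun j _ => ?_
        rw [if_neg]
        rintro (h | h)
        · exact hx.1 (h ▸ p.getVert_mem_support _)
        · exact hx.1 (h ▸ p.getVert_mem_support _)
      have t2 : (∑ y : TLf p π, if (x = y.1 ∨ x = π y.1) then fl y else 0) = 0 := by
        refine Finset.sum_eq_zero fun y _ => ?_
        rw [if_neg]
        rintro (h | h)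
        · obtain ⟨z, hz, hz'⟩ := hx.2.2
          exact y.2.2.2 z hz (hz'.trans h)
        · exact hx.1 (h ▸ y.2.2.1)
      have t3 : (∑ y : TB p π, if (x = y.1 ∨ x = π y.1) then ft y else 0) = ft ⟨x, hx⟩ := by
        rw [Finset.sum_eq_single ⟨x, hx⟩]
        · rw [if_pos (Or.inl rfl)]
        · intro y _ hy
          rw [if_neg]
          rintro (h | h)
          · exact hy (Subtype.ext h.symm)
          · exact hx.1 (h ▸ y.2.2.1)
        · simp
      have t4 : (∑ y : TBL p π, if (x = y.1 ∨ x = π y.1) then fb y else 0) =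
          ∑ y, if par y = ⟨x, hx⟩ then fb y else 0 := by
        refine Finset.sum_congr rfl fun y _ => ?_
        have : (x = y.1 ∨ x = π y.1) ↔ par y = ⟨x, hx⟩ := by
          constructor
          · rintro (h | h)
            · exact absurd (h ▸ hx.2.1) y.2.2
            · exact Subtype.ext h.symm
          · intro h
            right
            exact (congrArg Subtype.val h).symm
        simp only [this]
      rw [t1, t2, t3, t4]
      show _ = ft ⟨x, hx⟩ + ∑ y, if par y = ⟨x, hx⟩ then fb y else 0
      ring
    · -- bush leaf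
      have hv : vert p π (Sum.inr (Sum.inr (Sum.inr ⟨x, hx⟩))) = x := rfl
      rw [hv]
      have hno : ∀ y, y ∉ S → x ≠ π y := by
        intro y hy h
        rcases (hπ y hy).2 with h1 | ⟨_, h1⟩
        · exact hx.1 (h ▸ h1)
        · rw [← h] at h1; exact hx.2 h1
      have t1 : (∑ j : Fin p.length, if (x = p.getVert (j : ℕ) ∨
          x = p.getVert ((j : ℕ) + 1)) then pl (j + 1) else 0) = 0 := by
        refine Finset.sum_eq_zero fun j _ => ?_
        rw [if_neg]
        rintro (h | h)
        · exact hx.1 (h ▸ p.getVert_mem_support _)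
        · exact hx.1 (h ▸ p.getVert_mem_support _)
      have t2 : (∑ y : TLf p π, if (x = y.1 ∨ x = π y.1) then fl y else 0) = 0 := by
        refine Finset.sum_eq_zero fun y _ => ?_
        rw [if_neg]
        rintro (h | h)
        · exact hx.2 (h ▸ y.2.2.1)
        · exact hno y.1 y.2.1 h
      have t3 : (∑ y : TB p π, if (x = y.1 ∨ x = π y.1) then ft y else 0) = 0 := by
        refine Finset.sum_eq_zero fun y _ => ?_
        rw [if_neg]
        rintro (h | h)
        · exact hx.2 (h ▸ y.2.2.1)
        · exact hno y.1 y.2.1 h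
      have t4 : (∑ y : TBL p π, if (x = y.1 ∨ x = π y.1) then fb y else 0) = fb ⟨x, hx⟩ := by
        rw [Finset.sum_eq_single ⟨x, hx⟩]
        · rw [if_pos (Or.inl rfl)]
        · intro y _ hy
          rw [if_neg]
          rintro (h | h)
          · exact hy (Subtype.ext h.symm)
          · exact hno y.1 y.2.1 h
        · simp
      rw [t1, t2, t3, t4]
      show _ = fb ⟨x, hx⟩
      ring
  -- degrees
  have hdeg : ∀ q, G.degree (vert p π q) =
      vsums p.length la ba par (fun _ => 1) (fun _ => 1) (fun _ => 1) (fun _ => 1) q := by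
    intro q
    rw [← hsum, ← SimpleGraph.card_incidenceFinset_eq_degree, Finset.card_eq_sum_ones]
    refine Finset.sum_congr rfl fun e he => ?_
    obtain ⟨s, rfl⟩ := hφsurj e (by
      rw [SimpleGraph.mem_incidenceFinset] at he
      exact he.1)
    rw [edgeLab_apply hφinj]
    rcases s with i | x | x | x <;> rfl
  have hF1 : ∀ i, i ≤ p.length → G.degree (p.getVert i) =
      pathSum p.length la ba (fun _ => 1) (fun _ => 1) (fun _ => 1) i := fun i hi =>
    hdeg (Sum.inl ⟨i, by omega⟩)
  have hF2 : ∀ b, ∃ z, z ∉ p.support ∧ G.Adj z (p.getVert (ba b)) ∧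
      (∃ y, y ∉ p.support ∧ G.Adj y z) ∧
      G.degree z = 1 + ∑ y, if par y = b then 1 else 0 := by
    rintro ⟨x, hx, hx', y, hy, hyx⟩
    refine ⟨x, hx, ?_, ⟨y, hy, ?_⟩, hdeg (Sum.inr (Sum.inr (Sum.inl ⟨x, hx, hx', y, hy, hyx⟩)))⟩
    · show G.Adj x (p.getVert (pos (π x)))
      rw [(hpos _ hx').1]
      exact (hπ x hx).1
    · have := (hπ y hy).1
      rwa [hyx] at this
  have hF3 : ∀ x, ∃ z, z ∉ p.support ∧ G.Adj z (p.getVert (la x)) ∧ G.degree z = 1 := by
    rintro ⟨x, hx, hx', hx''⟩
    refine ⟨x, hx, ?_, hdeg (Sum.inr (Sum.inl ⟨x, hx, hx', hx''⟩))⟩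
    show G.Adj x (p.getVert (pos (π x)))
    rw [(hpos _ hx').1]
    exact (hπ x hx).1
  obtain ⟨pl, fl, ft, fb, hlinj, hlrange, hvinj⟩ := core (TLf p π) (TB p π) (TBL p π)
    la ba par hdata hF1 hF2 hF3
  rw [hm] at hlrange
  set lab := labels (k := p.length) pl fl ft fb with hlab
  refine ⟨edgeLab (edge p π) lab, ⟨?_, ?_, ?_⟩, ?_⟩
  · intro e he
    obtain ⟨s, rfl⟩ := hφsurj e he
    rw [edgeLab_apply hφinj]
    exact hlrange s
  · intro e he e' he' h
    obtain ⟨s, rfl⟩ := hφsurj e he
    obtain ⟨s', rfl⟩ := hφsurj e' he'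
    rw [edgeLab_apply hφinj, edgeLab_apply hφinj] at h
    rw [hlinj h]
  · intro y hy
    have himg : Finset.univ.image lab = Finset.Icc 1 G.edgeFinset.card := by
      apply Finset.eq_of_subset_of_card_le
      · intro e he
        rw [Finset.mem_image] at he
        obtain ⟨s, _, rfl⟩ := he
        rw [Finset.mem_Icc]
        exact hlrange s
      · rw [Finset.card_image_of_injective _ hlinj, Finset.card_univ, hcardS]
        simp
    have : y ∈ Finset.univ.image lab := by
      rw [himg, Finset.mem_Icc]; exact hy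
    rw [Finset.mem_image] at this
    obtain ⟨s, _, hs⟩ := this
    exact ⟨edge p π s, hφmem s, by rw [edgeLab_apply hφinj]; exact hs⟩
  · intro v w hvw
    obtain ⟨q, rfl⟩ := (vert_bij p π hpath).2 v
    obtain ⟨q', rfl⟩ := (vert_bij p π hpath).2 w
    have e1 := hsum pl fl ft fb q
    have e2 := hsum pl fl ft fb q'
    rw [← hlab] at e1 e2
    rw [hvinj (e1.symm.trans (Eq.trans hvw e2))]

end Pool.Agent.Lob89
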