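import Pool.Agent.Lob89.Graph

/-!
The reduction: labels of the data give an antimagic labelling of the lobster.
-/

namespace Pool.Agent.Lob89

open SimpleGraph Finset

universe u

variable {V : Type u} {G : SimpleGraph V}

/-- the edge labelling from the labels of the slots -/
noncomputable def edgeLab {S : Type*} [Fintype S] (φ : S → Sym2 V) (lab : S → ℕ) (e : Sym2 V) : ℕ :=
  by classical exact ∑ s, if φ s = e then lab s else 0

lemma edgeLab_apply {S : Type*} [Fintype S] {φ : S → Sym2 V} (hφ : Function.Injective φ)
    (lab : S → ℕ) (s : S) : edgeLab φ lab (φ s) = lab s := by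
  classical
  unfold edgeLab
  rw [Finset.sum_eq_single s]
  · simp
  · intro b _ hb
    rw [if_neg (fun h => hb (hφ h))]
  · simp

lemma sum_incidence [Fintype V] [DecidableEq V] [DecidableRel G.Adj] {S : Type*} [Fintype S]
    {φ : S → Sym2 V} (hmem : ∀ s, φ s ∈ G.edgeSet)
    (lab : S → ℕ) (v : V) [DecidablePred fun s => v ∈ φ s] :
    ∑ e ∈ G.incidenceFinset v, edgeLab φ lab e = ∑ s, if v ∈ φ s then lab s else 0 := by
  classical
  unfold edgeLab
  rw [Finset.sum_comm]
  refine Finset.sum_congr rfl fun s _ => ?_
  have hiff : φ s ∈ G.incidenceFinset v ↔ v ∈ φ s := by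
    rw [SimpleGraph.mem_incidenceFinset]
    exact ⟨fun h => h.2, fun h => ⟨hmem s, h⟩⟩
  by_cases h : v ∈ φ s
  · rw [if_pos h, Finset.sum_eq_single (φ s)]
    · rw [if_pos rfl]
    · intro b _ hb
      rw [if_neg (fun h => hb h.symm)]
    · intro h'
      exact absurd (hiff.2 h) h'
  · rw [if_neg h]
    refine Finset.sum_eq_zero fun e he => ?_
    rw [if_neg]
    rintro rfl
    exact h (hiff.1 he)

/-- sum over the two path edges at the path vertex `i` -/
lemma sum_path (k : ℕ) (f : ℕ → ℕ) (i : ℕ) (hi : i ≤ k) :
    (∑ j : Fin k, if (i = j ∨ i = j + 1) then f (j + 1) else 0) =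
      (if 1 ≤ i then f i else 0) + (if i < k then f (i + 1) else 0) := by
  rw [Fin.sum_univ_eq_sum_range (fun j => if (i = j ∨ i = j + 1) then f (j + 1) else 0) k]
  have h1 : ∀ j ∈ Finset.range k, (if (i = j ∨ i = j + 1) then f (j + 1) else 0) =
      (if j + 1 = i then f i else 0) + (if j = i then f (i + 1) else 0) := by
    intro j _
    by_cases h : j + 1 = i
    · rw [if_pos (Or.inr h.symm), if_pos h, if_neg (by omega), h, add_zero]
    · by_cases h' : j = i
      · rw [if_pos (Or.inl h'.symm), if_neg h, if_pos h', h', zero_add]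
      · rw [if_neg (by omega), if_neg h, if_neg h']
  rw [Finset.sum_congr rfl h1, Finset.sum_add_distrib, Finset.sum_ite_eq']
  congr 1
  · by_cases h : 1 ≤ i
    · rw [if_pos h]
      rw [Finset.sum_eq_single (i - 1)]
      · rw [if_pos (by omega)]
      · intro b _ hb; rw [if_neg (by omega)]
      · intro hh; rw [Finset.mem_range] at hh; rw [if_neg (by omega)]
    · rw [if_neg h]
      apply Finset.sum_eq_zero
      intro j _; rw [if_neg (by omega)]
  · simp only [Finset.mem_range]

/-- a dominating path with free ends in a tree with at least three vertices has length at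
least two -/
lemma two_le_length [Fintype V] (hG : G.Connected) {a b : V} {p : G.Walk a b}
    (hp : Dom G p) (he1 : ∀ x, G.Adj x a → x ∈ p.support) (he2 : ∀ x, G.Adj x b → x ∈ p.support)
    (h3 : 3 ≤ Fintype.card V) : 2 ≤ p.length := by
  classical
  obtain ⟨π, hπ⟩ := exists_parent hG hp
  set S := p.support with hS
  have hend1 : ∀ x, x ∉ S → π x ≠ a := by
    intro x hx h
    exact hx (he1 x (h ▸ (hπ x hx).1))
  have hend2 : ∀ x, x ∉ S → π x ≠ b := by
    intro x hx h
    exact hx (he2 x (h ▸ (hπ x hx).1))
  by_contra hlt
  have hall : ∀ x, x ∈ S := by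
    intro x
    by_contra hx
    have key : ∀ y, y ∉ S → π y ∉ S := by
      intro y hy hy'
      obtain ⟨i, hi, hi'⟩ := Walk.mem_support_iff_exists_getVert.1 hy'
      have : i = 0 ∨ i = p.length := by omega
      rcases this with h | h
      · subst h; rw [Walk.getVert_zero] at hi; exact hend1 y hy hi.symm
      · rw [h, Walk.getVert_length] at hi; exact hend2 y hy hi.symm
    rcases (hπ x hx).2 with h | ⟨h, h'⟩
    · exact key x hx h
    · exact key _ h h'
  have hcard : Fintype.card V ≤ S.length := by
    have h1 : (Finset.univ : Finset V) ⊆ S.toFinset := by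
      intro x _; simpa using hall x
    calc Fintype.card V = (Finset.univ : Finset V).card := rfl
      _ ≤ S.toFinset.card := Finset.card_le_card h1
      _ ≤ S.length := List.toFinset_card_le _
  have : S.length = p.length + 1 := Walk.length_support p
  omega

/-- the end of a path is free if it has degree one -/
lemma free_end [Fintype V] [DecidableRel G.Adj] {a b : V} (p : G.Walk a b)
    (hl : 1 ≤ p.length) (ha : G.degree a = 1) (x : V) (hx : G.Adj x a) : x ∈ p.support := by
  classical
  cases p with
  | nil => simp at hl
  | cons hab q =>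
    rename_i w
    rw [← SimpleGraph.card_neighborFinset_eq_degree, Finset.card_eq_one] at ha
    obtain ⟨z, hz⟩ := ha
    have h1 : x ∈ G.neighborFinset a := by
      rw [SimpleGraph.mem_neighborFinset]; exact hx.symm
    have h2 : w ∈ G.neighborFinset a := by
      rw [SimpleGraph.mem_neighborFinset]; exact hab
    rw [hz, Finset.mem_singleton] at h1 h2
    rw [h1, ← h2, Walk.support_cons]
    exact List.mem_cons_of_mem _ (Walk.start_mem_support q)

/-- The reduction for one dominating path `p` with free ends; if the length of `p` is even, no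
bush may hang at the second and at the last but one vertex. -/
theorem reductionP [Fintype V] [DecidableEq V] (G : SimpleGraph V) [DecidableRel G.Adj]
    (hT : G.IsTree) {a b : V} {p : G.Walk a b} (hp : Dom G p) (hk : 2 ≤ p.length)
    (he1 : ∀ x, G.Adj x a → x ∈ p.support) (he2 : ∀ x, G.Adj x b → x ∈ p.support)
    (hs1 : p.length % 2 = 0 → ∀ x y, x ∉ p.support → y ∉ p.support →
      G.Adj x (p.getVert 1) → ¬ G.Adj y x)
    (hs2 : p.length % 2 = 0 → ∀ x y, x ∉ p.support → y ∉ p.support →
      G.Adj x (p.getVert (p.length - 1)) → ¬ G.Adj y x)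
    (core : ∀ (Lf B BL : Type u) [Fintype Lf] [Fintype B] [Fintype BL] [DecidableEq B]
      (la : Lf → ℕ) (ba : B → ℕ) (par : BL → B), LobData p.length la ba par →
        HasLabels p.length la ba par) :
    IsAntimagic G := by
  classical
  have hpath := hp.1
  obtain ⟨π, hπ⟩ := exists_parent hT.connected hp
  set S := p.support with hS
  have hinj : ∀ i j : ℕ, i ≤ p.length → j ≤ p.length → p.getVert i = p.getVert j → i = j :=
    fun i j hi hj h => hpath.getVert_injOn (by simpa using hi) (by simpa using hj) h
  -- positions
  have hpos : ∀ x : V, ∃ i, x ∈ S → p.getVert i = x ∧ i ≤ p.length := by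
    intro x
    by_cases hx : x ∈ S
    · obtain ⟨i, hi⟩ := Walk.mem_support_iff_exists_getVert.1 hx
      exact ⟨i, fun _ => hi⟩
    · exact ⟨0, fun h => absurd h hx⟩
  choose pos hpos using hpos
  have hpos_get : ∀ i, i ≤ p.length → pos (p.getVert i) = i := by
    intro i hi
    have h1 := hpos (p.getVert i) (p.getVert_mem_support i)
    exact hinj _ _ h1.2 hi h1.1
  -- ends have no neighbours off the path
  have hend1 : ∀ x, x ∉ S → π x ≠ a := by
    intro x hx h
    exact hx (he1 x (h ▸ (hπ x hx).1))
  have hend2 : ∀ x, x ∉ S → π x ≠ b := by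
    intro x hx h
    exact hx (he2 x (h ▸ (hπ x hx).1))
  -- the data
  let la : TLf p π → ℕ := fun x => pos (π x.1)
  let ba : TB p π → ℕ := fun x => pos (π x.1)
  have hparB : ∀ x : TBL p π, π x.1 ∉ S ∧ π (π x.1) ∈ S ∧ ∃ y, y ∉ S ∧ π y = π x.1 := by
    intro x
    rcases (hπ x.1 x.2.1).2 with h | h
    · exact absurd h x.2.2
    · exact ⟨h.1, h.2, x.1, x.2.1, rfl⟩
  let par : TBL p π → TB p π := fun x => ⟨π x.1, hparB x⟩
  have hnot0 : ∀ x, x ∉ S → π x ∈ S → 1 ≤ pos (π x) := by
    intro x hx hx'
    rw [Nat.one_le_iff_ne_zero]
    intro h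
    have := (hpos _ hx').1
    rw [h, Walk.getVert_zero] at this
    exact hend1 x hx this.symm
  have hnotk : ∀ x, x ∉ S → π x ∈ S → pos (π x) + 1 ≤ p.length := by
    intro x hx hx'
    have h1 := (hpos _ hx').2
    have h2 : pos (π x) ≠ p.length := by
      intro h
      have := (hpos _ hx').1
      rw [h, Walk.getVert_length] at this
      exact hend2 x hx this.symm
    omega
  have hdata : LobData p.length la ba par := by
    refine ⟨hk, fun x => hnot0 _ x.2.1 x.2.2.1, fun x => hnotk _ x.2.1 x.2.2.1,
      fun x => hnot0 _ x.2.1 x.2.2.1, fun x => hnotk _ x.2.1 x.2.2.1, ?_, ?_⟩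
    · rintro hev ⟨x, hx, hx', y, hy, hyx⟩
      have hadj1 := (hπ x hx).1
      have hadj2 := (hπ y hy).1
      rw [hyx] at hadj2
      have h1 := hnot0 x hx hx'
      have h2 := hnotk x hx hx'
      have h3 := (hpos _ hx').1
      rw [← h3] at hadj1
      show 2 ≤ pos (π x) ∧ pos (π x) + 2 ≤ p.length
      constructor
      · by_contra h
        have h4 : pos (π x) = 1 := by omega
        rw [h4] at hadj1
        exact hs1 hev x y hx hy hadj1 hadj2
      · by_contra h
        have h4 : pos (π x) = p.length - 1 := by omega
        rw [h4] at hadj1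
        exact hs2 hev x y hx hy hadj1 hadj2
    · rintro ⟨x, hx, hx', y, hy, hyx⟩
      refine ⟨⟨y, hy, ?_⟩, ?_⟩
      · rw [hyx]; exact hx
      · exact Subtype.ext hyx
  obtain ⟨pl, fl, ft, fb, hlinj, hlrange, hvinj⟩ := core (TLf p π) (TB p π) (TBL p π)
    la ba par hdata
  set lab := labels (k := p.length) pl fl ft fb with hlab
  have hφinj : Function.Injective (edge p π) := edge_inj hpath hπ
  have hφmem : ∀ s, edge p π s ∈ G.edgeSet := edge_mem hπ
  -- cardinalities
  have hcardS : Fintype.card (Fin p.length ⊕ (TLf p π ⊕ (TB p π ⊕ TBL p π))) =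
      G.edgeFinset.card := by
    have h1 : Fintype.card (Fin (p.length + 1) ⊕ (TLf p π ⊕ (TB p π ⊕ TBL p π))) =
        Fintype.card V := Fintype.card_of_bijective (vert_bij p π hpath)
    have h2 := hT.card_edgeFinset
    rw [Fintype.card_sum, Fintype.card_fin] at h1 ⊢
    omega
  have hm : p.length + Fintype.card (TLf p π) + Fintype.card (TB p π) + Fintype.card (TBL p π) =
      G.edgeFinset.card := by
    rw [← hcardS, Fintype.card_sum, Fintype.card_sum, Fintype.card_sum, Fintype.card_fin]
    ring
  rw [hm] at hlrange
  have hφsurj : ∀ e ∈ G.edgeSet, ∃ s, edge p π s = e := by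
    have himg : Finset.univ.image (edge p π) = G.edgeFinset := by
      apply Finset.eq_of_subset_of_card_le
      · intro e he
        rw [Finset.mem_image] at he
        obtain ⟨s, _, rfl⟩ := he
        rw [SimpleGraph.mem_edgeFinset]
        exact hφmem s
      · rw [Finset.card_image_of_injective _ hφinj, Finset.card_univ, hcardS]
    intro e he
    have : e ∈ Finset.univ.image (edge p π) := by
      rw [himg, SimpleGraph.mem_edgeFinset]; exact he
    rw [Finset.mem_image] at this
    obtain ⟨s, _, hs⟩ := this
    exact ⟨s, hs⟩
  refine ⟨edgeLab (edge p π) lab, ⟨?_, ?_, ?_⟩, ?_⟩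
  · intro e he
    obtain ⟨s, rfl⟩ := hφsurj e he
    rw [edgeLab_apply hφinj]
    exact hlrange s
  · intro e he e' he' h
    obtain ⟨s, rfl⟩ := hφsurj e he
    obtain ⟨s', rfl⟩ := hφsurj e' he'
    rw [edgeLab_apply hφinj, edgeLab_apply hφinj] at h
    rw [hlinj h]
  · intro y hy
    have himg : Finset.univ.image lab = Finset.Icc 1 G.edgeFinset.card := by
      apply Finset.eq_of_subset_of_card_le
      · intro e he
        rw [Finset.mem_image] at he
        obtain ⟨s, _, rfl⟩ := he
        rw [Finset.mem_Icc]
        exact hlrange s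
      · rw [Finset.card_image_of_injective _ hlinj, Finset.card_univ, hcardS]
        simp
    have : y ∈ Finset.univ.image lab := by
      rw [himg, Finset.mem_Icc]; exact hy
    rw [Finset.mem_image] at this
    obtain ⟨s, _, hs⟩ := this
    exact ⟨edge p π s, hφmem s, by rw [edgeLab_apply hφinj]; exact hs⟩
  · -- vertex sums
    have hsum : ∀ q, ∑ e ∈ G.incidenceFinset (vert p π q), edgeLab (edge p π) lab e =
        vsums p.length la ba par pl fl ft fb q := by
      intro q
      rw [sum_incidence hφmem, Fintype.sum_sum_type, Fintype.sum_sum_type, Fintype.sum_sum_type]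
      have hlab1 : ∀ i : Fin p.length, lab (Sum.inl i) = pl (i + 1) := fun i => rfl
      have hlab2 : ∀ x, lab (Sum.inr (Sum.inl x)) = fl x := fun i => rfl
      have hlab3 : ∀ x, lab (Sum.inr (Sum.inr (Sum.inl x))) = ft x := fun i => rfl
      have hlab4 : ∀ x, lab (Sum.inr (Sum.inr (Sum.inr x))) = fb x := fun i => rfl
      simp only [hlab1, hlab2, hlab3, hlab4]
      have he1 : ∀ i : Fin p.length, edge p π (Sum.inl i) = s(p.getVert i, p.getVert (i + 1)) :=
        fun i => rfl
      have he2 : ∀ x, edge p π (Sum.inr (Sum.inl x)) = s(x.1, π x.1) := fun i => rfl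
      have he3 : ∀ x, edge p π (Sum.inr (Sum.inr (Sum.inl x))) = s(x.1, π x.1) := fun i => rfl
      have he4 : ∀ x, edge p π (Sum.inr (Sum.inr (Sum.inr x))) = s(x.1, π x.1) := fun i => rfl
      simp only [he1, he2, he3, he4, Sym2.mem_iff]
      rcases q with (i | ⟨x, hx⟩ | ⟨x, hx⟩ | ⟨x, hx⟩)
      · -- path vertex
        have hv : vert p π (Sum.inl i) = p.getVert i := rfl
        rw [hv]
        have hi : (i : ℕ) ≤ p.length := by omega
        have hiS : p.getVert i ∈ S := p.getVert_mem_support i
        have t1 : (∑ j : Fin p.length, if (p.getVert (i : ℕ) = p.getVert (j : ℕ) ∨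
            p.getVert (i : ℕ) = p.getVert ((j : ℕ) + 1)) then pl (j + 1) else 0) =
            (if 1 ≤ (i : ℕ) then pl i else 0) + (if (i : ℕ) < p.length then pl (i + 1) else 0) := by
          rw [← sum_path p.length pl i hi]
          refine Finset.sum_congr rfl fun j _ => ?_
          have : (p.getVert (i : ℕ) = p.getVert (j : ℕ) ∨
            p.getVert (i : ℕ) = p.getVert ((j : ℕ) + 1)) ↔ ((i : ℕ) = j ∨ (i : ℕ) = j + 1) := by
            constructor
            · rintro (h | h)
              · exact Or.inl (hinj _ _ hi (by omega) h)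
              · exact Or.inr (hinj _ _ hi (by omega) h)
            · rintro (h | h)
              · left; rw [h]
              · right; rw [h]
          simp only [this]
        have t2 : (∑ x : TLf p π, if (p.getVert (i : ℕ) = x.1 ∨ p.getVert (i : ℕ) = π x.1)
            then fl x else 0) = ∑ x, if la x = i then fl x else 0 := by
          refine Finset.sum_congr rfl fun x _ => ?_
          have : (p.getVert (i : ℕ) = x.1 ∨ p.getVert (i : ℕ) = π x.1) ↔ la x = i := by
            constructor
            · rintro (h | h)
              · exact absurd (h ▸ hiS) x.2.1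
              · show pos (π x.1) = i
                rw [← h]; exact hpos_get i hi
            · intro h
              right
              have := (hpos _ x.2.2.1).1
              rw [← this]
              show _ = p.getVert (la x)
              rw [h]
          simp only [this]
        have t3 : (∑ x : TB p π, if (p.getVert (i : ℕ) = x.1 ∨ p.getVert (i : ℕ) = π x.1)
            then ft x else 0) = ∑ x, if ba x = i then ft x else 0 := by
          refine Finset.sum_congr rfl fun x _ => ?_
          have : (p.getVert (i : ℕ) = x.1 ∨ p.getVert (i : ℕ) = π x.1) ↔ ba x = i := by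
            constructor
            · rintro (h | h)
              · exact absurd (h ▸ hiS) x.2.1
              · show pos (π x.1) = i
                rw [← h]; exact hpos_get i hi
            · intro h
              right
              have := (hpos _ x.2.2.1).1
              rw [← this]
              show _ = p.getVert (ba x)
              rw [h]
          simp only [this]
        have t4 : (∑ x : TBL p π, if (p.getVert (i : ℕ) = x.1 ∨ p.getVert (i : ℕ) = π x.1)
            then fb x else 0) = 0 := by
          refine Finset.sum_eq_zero fun x _ => ?_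
          rw [if_neg]
          rintro (h | h)
          · exact absurd (h ▸ hiS) x.2.1
          · exact absurd (h ▸ hiS) x.2.2
        rw [t1, t2, t3, t4]
        show _ = pathSum p.length la ba pl fl ft i
        unfold pathSum
        ring
      · -- pendant leaf
        have hv : vert p π (Sum.inr (Sum.inl ⟨x, hx⟩)) = x := rfl
        rw [hv]
        have t1 : (∑ j : Fin p.length, if (x = p.getVert (j : ℕ) ∨
            x = p.getVert ((j : ℕ) + 1)) then pl (j + 1) else 0) = 0 := by
          refine Finset.sum_eq_zero fun j _ => ?_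
          rw [if_neg]
          rintro (h | h)
          · exact hx.1 (h ▸ p.getVert_mem_support _)
          · exact hx.1 (h ▸ p.getVert_mem_support _)
        have t2 : (∑ y : TLf p π, if (x = y.1 ∨ x = π y.1) then fl y else 0) = fl ⟨x, hx⟩ := by
          rw [Finset.sum_eq_single ⟨x, hx⟩]
          · rw [if_pos (Or.inl rfl)]
          · intro y _ hy
            rw [if_neg]
            rintro (h | h)
            · exact hy (Subtype.ext h.symm)
            · exact hx.2.2 y.1 y.2.1 h.symm
          · simp
        have t3 : (∑ y : TB p π, if (x = y.1 ∨ x = π y.1) then ft y else 0) = 0 := by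
          refine Finset.sum_eq_zero fun y _ => ?_
          rw [if_neg]
          rintro (h | h)
          · obtain ⟨z, hz, hz'⟩ := y.2.2.2
            exact hx.2.2 z hz (hz'.trans h.symm)
          · exact hx.2.2 y.1 y.2.1 h.symm
        have t4 : (∑ y : TBL p π, if (x = y.1 ∨ x = π y.1) then fb y else 0) = 0 := by
          refine Finset.sum_eq_zero fun y _ => ?_
          rw [if_neg]
          rintro (h | h)
          · exact y.2.2 (h ▸ hx.2.1)
          · exact hx.2.2 y.1 y.2.1 h.symm
        rw [t1, t2, t3, t4]
        show _ = fl ⟨x, hx⟩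
        ring
      · -- bush centre
        have hv : vert p π (Sum.inr (Sum.inr (Sum.inl ⟨x, hx⟩))) = x := rfl
        rw [hv]
        have t1 : (∑ j : Fin p.length, if (x = p.getVert (j : ℕ) ∨
            x = p.getVert ((j : ℕ) + 1)) then pl (j + 1) else 0) = 0 := by
          refine Finset.sum_eq_zero fun j _ => ?_
          rw [if_neg]
          rintro (h | h)
          · exact hx.1 (h ▸ p.getVert_mem_support _)
          · exact hx.1 (h ▸ p.getVert_mem_support _)
        have t2 : (∑ y : TLf p π, if (x = y.1 ∨ x = π y.1) then fl y else 0) = 0 := by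
          refine Finset.sum_eq_zero fun y _ => ?_
          rw [if_neg]
          rintro (h | h)
          · obtain ⟨z, hz, hz'⟩ := hx.2.2
            exact y.2.2.2 z hz (hz'.trans h)
          · exact hx.1 (h ▸ y.2.2.1)
        have t3 : (∑ y : TB p π, if (x = y.1 ∨ x = π y.1) then ft y else 0) = ft ⟨x, hx⟩ := by
          rw [Finset.sum_eq_single ⟨x, hx⟩]
          · rw [if_pos (Or.inl rfl)]
          · intro y _ hy
            rw [if_neg]
            rintro (h | h)
            · exact hy (Subtype.ext h.symm)
            · exact hx.1 (h ▸ y.2.2.1)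
          · simp
        have t4 : (∑ y : TBL p π, if (x = y.1 ∨ x = π y.1) then fb y else 0) =
            ∑ y, if par y = ⟨x, hx⟩ then fb y else 0 := by
          refine Finset.sum_congr rfl fun y _ => ?_
          have : (x = y.1 ∨ x = π y.1) ↔ par y = ⟨x, hx⟩ := by
            constructor
            · rintro (h | h)
              · exact absurd (h ▸ hx.2.1) y.2.2
              · exact Subtype.ext h.symm
            · intro h
              right
              exact (congrArg Subtype.val h).symm
          simp only [this]
        rw [t1, t2, t3, t4]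
        show _ = ft ⟨x, hx⟩ + ∑ y, if par y = ⟨x, hx⟩ then fb y else 0
        ring
      · -- bush leaf
        have hv : vert p π (Sum.inr (Sum.inr (Sum.inr ⟨x, hx⟩))) = x := rfl
        rw [hv]
        have hno : ∀ y, y ∉ S → x ≠ π y := by
          intro y hy h
          rcases (hπ y hy).2 with h1 | ⟨_, h1⟩
          · exact hx.1 (h ▸ h1)
          · rw [← h] at h1; exact hx.2 h1
        have t1 : (∑ j : Fin p.length, if (x = p.getVert (j : ℕ) ∨
            x = p.getVert ((j : ℕ) + 1)) then pl (j + 1) else 0) = 0 := by
          refine Finset.sum_eq_zero fun j _ => ?_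
          rw [if_neg]
          rintro (h | h)
          · exact hx.1 (h ▸ p.getVert_mem_support _)
          · exact hx.1 (h ▸ p.getVert_mem_support _)
        have t2 : (∑ y : TLf p π, if (x = y.1 ∨ x = π y.1) then fl y else 0) = 0 := by
          refine Finset.sum_eq_zero fun y _ => ?_
          rw [if_neg]
          rintro (h | h)
          · exact hx.2 (h ▸ y.2.2.1)
          · exact hno y.1 y.2.1 h
        have t3 : (∑ y : TB p π, if (x = y.1 ∨ x = π y.1) then ft y else 0) = 0 := by
          refine Finset.sum_eq_zero fun y _ => ?_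
          rw [if_neg]
          rintro (h | h)
          · exact hx.2 (h ▸ y.2.2.1)
          · exact hno y.1 y.2.1 h
        have t4 : (∑ y : TBL p π, if (x = y.1 ∨ x = π y.1) then fb y else 0) = fb ⟨x, hx⟩ := by
          rw [Finset.sum_eq_single ⟨x, hx⟩]
          · rw [if_pos (Or.inl rfl)]
          · intro y _ hy
            rw [if_neg]
            rintro (h | h)
            · exact hy (Subtype.ext h.symm)
            · exact hno y.1 y.2.1 h
          · simp
        rw [t1, t2, t3, t4]
        show _ = fb ⟨x, hx⟩
        ring
    intro v w hvw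
    obtain ⟨q, rfl⟩ := (vert_bij p π hpath).2 v
    obtain ⟨q', rfl⟩ := (vert_bij p π hpath).2 w
    simp only [hsum] at hvw
    rw [hvinj hvw]

theorem reduction [Fintype V] [DecidableEq V] (G : SimpleGraph V) [DecidableRel G.Adj]
    (hL : IsLobster G) (h3 : 3 ≤ Fintype.card V)
    (core : ∀ (k : ℕ) (Lf B BL : Type u) [Fintype Lf] [Fintype B] [Fintype BL] [DecidableEq B]
      (la : Lf → ℕ) (ba : B → ℕ) (par : BL → B), LobData k la ba par → HasLabels k la ba par) :
    IsAntimagic G := by
  classical
  obtain ⟨hT, u₀, v₀, p₀, hp₀⟩ := hL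
  obtain ⟨a, b, p, hp⟩ := exists_maxDom ⟨u₀, v₀, p₀, hp₀⟩
  have he1 : ∀ x, G.Adj x a → x ∈ p.support := fun x hx => hp.mem_of_adj hx
  have he2 : ∀ x, G.Adj x b → x ∈ p.support := by
    intro x hx
    have := hp.reverse.mem_of_adj (x := x) hx
    rwa [Walk.support_reverse, List.mem_reverse] at this
  have hk := two_le_length hT.connected hp.1 he1 he2 h3
  refine reductionP G hT hp.1 hk he1 he2 (fun _ => ?_) (fun _ => ?_) fun Lf B BL => core _ Lf B BL
  · intro x y hx hy hadj1 hadj2
    cases p with
    | nil => simp at hk
    | cons huw q =>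
      have : (Walk.cons huw q).getVert 1 = _ := Walk.getVert_cons_succ q huw (n := 0)
      rw [this, Walk.getVert_zero] at hadj1
      exact hp.snd_free hT hx hy hadj1 hadj2
  · intro x y hx hy hadj1 hadj2
    have hr := hp.reverse
    have hx' : x ∉ p.reverse.support := by
      rw [Walk.support_reverse, List.mem_reverse]; exact hx
    have hy' : y ∉ p.reverse.support := by
      rw [Walk.support_reverse, List.mem_reverse]; exact hy
    have hg : p.reverse.getVert 1 = p.getVert (p.length - 1) := by
      rw [Walk.getVert_reverse]
    rw [← hg] at hadj1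
    have hk' : 2 ≤ p.reverse.length := by simpa using hk
    generalize p.reverse = q at hr hx' hy' hadj1 hk'
    cases q with
    | nil => simp at hk'
    | cons huw q =>
      have : (Walk.cons huw q).getVert 1 = _ := Walk.getVert_cons_succ q huw (n := 0)
      rw [this, Walk.getVert_zero] at hadj1
      exact hr.snd_free hT hx' hy' hadj1 hadj2

end Pool.Agent.Lob89
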