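import Pool.Agent.Lob89.Walk

/-!
The seam: junction at the seam, comparison with other junctions, the tie lemma.
-/

namespace Pool.Agent.Lob89

variable {k h q : ℕ} {ld : ℕ → Prop} {G : ℕ → Bool}

/-- rank of the odd edge at the vertex `i` -/
def oddRank (k q : ℕ) (G : ℕ → Bool) (i : ℕ) : ℕ :=
  if i % 2 = 1 then rank k q G i else rank k q G (i + 1)

/-- junctions at unloaded vertices against the number of bad edges -/
lemma Win.unloaded (hS : Win k h q ld G) {i : ℕ} (h1 : 1 ≤ i) (h2 : i < k) (h3 : ¬ ld i) :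
    (junc k q G i ≤ cnt k q G false 1 k + cnt k q G false 0 k ∧
      oddRank k q G i ≤ cnt k q G false 1 k) ∨
    (cnt k q G false 1 k + cnt k q G false 0 k + 2 ≤ junc k q G i ∧
      cnt k q G false 1 k + 1 ≤ oddRank k q G i) := by
  have hq := hS.q_lt
  have heq := hS.eq_of_not h1 h2 h3
  have hne := hS.ne_q h1 h3
  cases hG : G i
  · left
    have hG' : G (i + 1) = false := by rw [← heq]; exact hG
    have a1 := junc_bad hq h1 h2 hne hG hG'
    have a2 := rank_mem_bad hq h1 h2.le hG
    have a3 := rank_mem_bad hq (by omega) (show i + 1 ≤ k by omega) hG'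
    refine ⟨by omega, ?_⟩
    unfold oddRank
    split_ifs with hp
    · rw [hp] at a2; omega
    · rw [show (i + 1) % 2 = 1 by omega] at a3; omega
  · right
    have hG' : G (i + 1) = true := by rw [← heq]; exact hG
    have a1 := junc_good hq h1 h2 hne hG hG'
    have a2 := rank_mem_good hq h1 h2.le hG
    have a3 := rank_mem_good hq (by omega) (show i + 1 ≤ k by omega) hG'
    refine ⟨by omega, ?_⟩
    unfold oddRank
    split_ifs with hp
    · rw [hp] at a2; omega
    · rw [show (i + 1) % 2 = 1 by omega] at a3; omega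

lemma oddRank_mono_good (hq : q < k) {i j : ℕ} (h1 : 1 ≤ i) (h2 : i < k) (h3 : i ≠ q)
    (h4 : 1 ≤ j) (h5 : j < k) (h6 : j ≠ q) (hi : G i = true) (hi' : G (i + 1) = true)
    (hj : G j = true) (hj' : G (j + 1) = true) (hlt : wtime k q i < wtime k q j) :
    junc k q G i < junc k q G j ∧ oddRank k q G i ≤ oddRank k q G j := by
  have b1 := cnt_lt hq G h1 h2.le hlt
  have b2 := cnt_lt hq G h1 h2.le (show wtime k q i < wtime k q j + 1 by omega)
  rw [hi] at b1 b2
  have b3 : ∀ r, cnt k q G true r (wtime k q i + 1) ≤ cnt k q G true r (wtime k q j) :=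
    fun r => cnt_mono k q G true r hlt
  have b4 : ∀ r, cnt k q G true r (wtime k q i + 1) ≤ cnt k q G true r (wtime k q j + 1) :=
    fun r => cnt_mono k q G true r (by omega)
  have a1 := rank_good (k := k) (q := q) hi
  have a2 := rank_good (k := k) (q := q) hi'
  have a3 := rank_good (k := k) (q := q) hj
  have a4 := rank_good (k := k) (q := q) hj'
  rw [wtime_succ hq h1 h2 h3] at a2
  rw [wtime_succ hq h4 h5 h6] at a4
  have b5 := b3 0
  have b6 := b4 0
  have b7 := b3 1
  have b8 := b4 1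
  unfold junc oddRank
  rcases Nat.mod_two_eq_zero_or_one i with hi' | hi' <;>
    rcases Nat.mod_two_eq_zero_or_one j with hj' | hj' <;>
    simp only [hi', hj', Nat.add_mod i 1 2, Nat.add_mod j 1 2] at a1 a2 a3 a4 b1 b2 ⊢ <;>
    norm_num at a1 a2 a3 a4 b1 b2 ⊢ <;> omega

lemma oddRank_mono_bad (hq : q < k) {i j : ℕ} (h1 : 1 ≤ i) (h2 : i < k) (h3 : i ≠ q)
    (h4 : 1 ≤ j) (h5 : j < k) (h6 : j ≠ q) (hi : G i = false) (hi' : G (i + 1) = false)
    (hj : G j = false) (hj' : G (j + 1) = false) (hlt : wtime k q i < wtime k q j) :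
    junc k q G j < junc k q G i ∧ oddRank k q G j ≤ oddRank k q G i := by
  have b1 := cnt_lt hq G h1 h2.le hlt
  have b2 := cnt_lt hq G h1 h2.le (show wtime k q i < wtime k q j + 1 by omega)
  rw [hi] at b1 b2
  have b3 : ∀ r, cnt k q G false r (wtime k q i + 1) ≤ cnt k q G false r (wtime k q j) :=
    fun r => cnt_mono k q G false r hlt
  have b4 : ∀ r, cnt k q G false r (wtime k q i + 1) ≤ cnt k q G false r (wtime k q j + 1) :=
    fun r => cnt_mono k q G false r (by omega)
  have a1 := (rank_mem_bad hq h1 h2.le hi).2.2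
  have a2 := (rank_mem_bad hq (by omega) (show i + 1 ≤ k by omega) hi').2.2
  have a3 := (rank_mem_bad hq h4 h5.le hj).2.2
  have a4 := (rank_mem_bad hq (by omega) (show j + 1 ≤ k by omega) hj').2.2
  rw [wtime_succ hq h1 h2 h3] at a2
  rw [wtime_succ hq h4 h5 h6] at a4
  have b5 := b3 0
  have b6 := b4 0
  have b7 := b3 1
  have b8 := b4 1
  unfold junc oddRank
  rcases Nat.mod_two_eq_zero_or_one i with hi' | hi' <;>
    rcases Nat.mod_two_eq_zero_or_one j with hj' | hj' <;>
    simp only [hi', hj', Nat.add_mod i 1 2, Nat.add_mod j 1 2] at a1 a2 a3 a4 b1 b2 ⊢ <;>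
    norm_num at a1 a2 a3 a4 b1 b2 ⊢ <;> omega

/-- junctions at two unloaded vertices: the ranks of the odd edges are in the same order -/
lemma Win.comp (hS : Win k h q ld G) {i j : ℕ} (h1 : 1 ≤ i) (h2 : i < k) (h3 : ¬ ld i)
    (h4 : 1 ≤ j) (h5 : j < k) (h6 : ¬ ld j) (hij : i ≠ j) :
    (junc k q G i < junc k q G j ∧ oddRank k q G i ≤ oddRank k q G j) ∨
      (junc k q G j < junc k q G i ∧ oddRank k q G j ≤ oddRank k q G i) := by
  have hq := hS.q_lt
  have hni := hS.ne_q h1 h3
  have hnj := hS.ne_q h4 h6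
  have hei := hS.eq_of_not h1 h2 h3
  have hej := hS.eq_of_not h4 h5 h6
  have hne : wtime k q i ≠ wtime k q j := fun h => hij (wtime_inj hq h1 h2.le h4 h5.le h)
  have hui := hS.unloaded h1 h2 h3
  have huj := hS.unloaded h4 h5 h6
  cases hGi : G i <;> cases hGj : G j
  · have hGi' : G (i + 1) = false := by rw [← hei]; exact hGi
    have hGj' : G (j + 1) = false := by rw [← hej]; exact hGj
    rcases lt_or_gt_of_ne hne with hlt | hlt
    · exact Or.inr (oddRank_mono_bad hq h1 h2 hni h4 h5 hnj hGi hGi' hGj hGj' hlt)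
    · exact Or.inl (oddRank_mono_bad hq h4 h5 hnj h1 h2 hni hGj hGj' hGi hGi' hlt)
  · have hGi' : G (i + 1) = false := by rw [← hei]; exact hGi
    have hGj' : G (j + 1) = true := by rw [← hej]; exact hGj
    have a1 := junc_bad hq h1 h2 hni hGi hGi'
    have a2 := junc_good hq h4 h5 hnj hGj hGj'
    omega
  · have hGi' : G (i + 1) = true := by rw [← hei]; exact hGi
    have hGj' : G (j + 1) = false := by rw [← hej]; exact hGj
    have a1 := junc_good hq h1 h2 hni hGi hGi'
    have a2 := junc_bad hq h4 h5 hnj hGj hGj'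
    omega
  · have hGi' : G (i + 1) = true := by rw [← hei]; exact hGi
    have hGj' : G (j + 1) = true := by rw [← hej]; exact hGj
    rcases lt_or_gt_of_ne hne with hlt | hlt
    · exact Or.inl (oddRank_mono_good hq h1 h2 hni h4 h5 hnj hGi hGi' hGj hGj' hlt)
    · exact Or.inr (oddRank_mono_good hq h4 h5 hnj h1 h2 hni hGj hGj' hGi hGi' hlt)

/-- the junction at the seam -/
lemma Win.junc_q (hS : Win k h q ld G) (hq : ld q) (g1 : G q = false) (g2 : G (q + 1) = true) :
    (q % 2 = 0 ∧ junc k q G q = cnt k q G false 1 k + 2 ∧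
      oddRank k q G q = cnt k q G false 1 k + 1) ∨
    (q % 2 = 1 ∧ junc k q G q = cnt k q G false 0 k + 2 ∧ oddRank k q G q = 1) := by
  have hqk := hS.q_lt
  have hm := hS.ld_mem q hq
  have a1 := rank_mem_bad hqk hm.1 hm.2.le g1
  have a2 := rank_good (k := k) (q := q) g2
  have t1 : wtime k q q = k - 1 := by unfold wtime; rw [if_neg (lt_irrefl _)]; omega
  have t2 : wtime k q (q + 1) = 0 := by unfold wtime; rw [if_pos (by omega)]; omega
  rw [t1] at a1
  rw [t2, cnt_zero] at a2
  have a3 := cnt_self hqk G hm.1 hm.2.le false (q % 2)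
  rw [t1, if_pos ⟨g1, rfl⟩, Nat.sub_add_cancel (by omega)] at a3
  unfold junc oddRank
  rcases Nat.mod_two_eq_zero_or_one q with hp | hp
  · left
    have hp' : (q + 1) % 2 = 1 := by omega
    rw [hp] at a1 a3
    rw [hp'] at a2
    rw [if_neg (by omega)]
    omega
  · right
    have hp' : (q + 1) % 2 = 0 := by omega
    rw [hp] at a1 a3
    rw [hp'] at a2
    rw [if_pos hp]
    omega

/-- (L3) -/
lemma Win.le (hS : Win k h q ld G) (hq : ld q) (g1 : G q = false) (g2 : G (q + 1) = true)
    {a : ℕ} (ha : ld a) (haq : a ≠ q) :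
    junc k q G a ≤ junc k q G q + h + 1 ∧
      (junc k q G a = junc k q G q + h + 1 → G a = false ∧ (a % 2 = q % 2)) := by
  have hm := hS.ld_mem a ha
  have hmq := hS.ld_mem q hq
  have hqk := hS.q_lt
  have hk := hS.k_eq
  have hne := (hS.ld_iff a hm.1 hm.2).1 ha
  have hat := cnt_at (G := G) hqk hm.1 hm.2 haq
  have hJq := hS.junc_q hq g1 g2
  have t1 := tot_odd (G := G) hk hqk
  have t2 := tot_even (G := G) hk hqk
  have m1 := cnt_mono k q G true 1 (wtime_lt hqk hm.1 hm.2.le)
  have m2 := cnt_mono k q G true 0 (wtime_lt hqk hm.1 hm.2.le)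
  have m3 := cnt_mono k q G false 1 (wtime_lt hqk hm.1 hm.2.le)
  have m4 := cnt_mono k q G false 0 (wtime_lt hqk hm.1 hm.2.le)
  rcases Nat.mod_two_eq_zero_or_one a with hp | hp
  · cases hGi : G a <;> cases hGi' : G (a + 1)
    · exact absurd (hGi.trans hGi'.symm) hne
    · have := junc_min_even hqk hm.1 hm.2 haq hGi hGi' hp
      simp only [true_and, Nat.succ_eq_add_one] at m1 m2 m3 m4 ⊢
      omega
    · have := junc_max_even hqk hm.1 hm.2 haq hGi hGi' hp
      simp only [Nat.succ_eq_add_one] at m1 m2 m3 m4 ⊢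
      omega
    · exact absurd (hGi.trans hGi'.symm) hne
  · cases hGi : G a <;> cases hGi' : G (a + 1)
    · exact absurd (hGi.trans hGi'.symm) hne
    · have := junc_min_odd hqk hm.1 hm.2 haq hGi hGi' hp
      simp only [true_and, Nat.succ_eq_add_one] at m1 m2 m3 m4 ⊢
      omega
    · have := junc_max_odd hqk hm.1 hm.2 haq hGi hGi' hp
      simp only [Nat.succ_eq_add_one] at m1 m2 m3 m4 ⊢
      omega
    · exact absurd (hGi.trans hGi'.symm) hne

end Pool.Agent.Lob89
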